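import Pool.Agent.LibYA38.YDef

/-!
Cramer's rule: the kernel of a holomorphic matrix of constant rank on a punctured disc.

PLAN. Let ρ = r - f (the rank of R q for q ≠ 0, rank-nullity). Fix q₁ ≠ 0 in the ball; R q₁ has rank ρ, so there is a nonzero
minor: a : Fin ρ → β, c : Fin ρ → Fin r with det ((R q₁).submatrix a c) ≠ 0 (see LibZE25.Z21 exists_minor, or
Matrix.rank and linearly independent rows/columns: Matrix.exists_submatrix_det_ne_zero if it exists). g q := det ((R q).submatrix a c)
is holomorphic on the ball, not identically zero, so its zeros are isolated: 0 < ‖q‖ < ε' implies g q ≠ 0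
(AnalyticAt.eventually_eq_zero_or_eventually_ne_zero and the identity theorem on the ball). c is injective; let c' : Fin f → Fin r be
injective onto the complement of the range of c. Column j of G q: g q at the index c' j, 0 at the other indices c' j', and
- (adjugate (R_{a,c}) *ᵥ (column c' j of R_{a,·})) i at the index c i. Then the rows a of R q kill G q; for q ≠ 0 the rank of R q is
ρ and the rows a are independent, so they span all rows: R q * G q = 0. G q is injective (its rows c' are g q • 1); its range is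
contained in the kernel and has the same dimension f.
-/

open Matrix Complex Filter Topology
open UpperHalfPlane hiding I

namespace YA38

open SP38 US38 ZW67

private theorem A1_minor_inj {ι κ : Type} [Fintype ι] [Fintype κ] [DecidableEq κ]
    (M : Matrix ι κ ℂ) (h : ∀ v : κ → ℂ, M.mulVec v = 0 → v = 0) :
    ∃ e : κ → ι, (M.submatrix e id).det ≠ 0 := by
  have hinj : Function.Injective M.mulVecLin := by
    rw [← LinearMap.ker_eq_bot, LinearMap.ker_eq_bot']
    intro v hv
    exact h v (by rwa [Matrix.mulVecLin_apply] at hv)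
  have hrank : M.rank = Fintype.card κ := by
    unfold Matrix.rank
    rw [LinearMap.finrank_range_of_inj hinj, Module.finrank_fintype_fun_eq_card]
  rw [Matrix.rank_eq_finrank_span_row] at hrank
  have htop : Submodule.span ℂ (Set.range M.row) = ⊤ := by
    apply Submodule.eq_top_of_finrank_eq
    rw [hrank, Module.finrank_fintype_fun_eq_card]
  obtain ⟨κ', a, -, hspan, hli⟩ := exists_linearIndependent' ℂ M.row
  rw [htop] at hspan
  let b : Module.Basis κ' ℂ (κ → ℂ) := Module.Basis.mk hli hspan.ge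
  let f : κ ≃ κ' := (Pi.basisFun ℂ κ).indexEquiv b
  refine ⟨fun k => a (f k), ?_⟩
  have hli' : LinearIndependent ℂ (fun k => M.row (a (f k))) := hli.comp f f.injective
  have h1 : IsUnit (M.submatrix (fun k => a (f k)) id) := by
    rw [← Matrix.linearIndependent_rows_iff_isUnit]
    exact hli'
  exact ((Matrix.isUnit_iff_isUnit_det _).1 h1).ne_zero

private theorem A1_minor {β : Type} [Fintype β] {r ρ : ℕ} (A : Matrix β (Fin r) ℂ)
    (h : A.rank = ρ) : ∃ (a : Fin ρ → β) (c : Fin ρ → Fin r), (A.submatrix a c).det ≠ 0 := by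
  rw [Matrix.rank_eq_finrank_span_cols] at h
  obtain ⟨κ', c0, -, hspan, hli⟩ := exists_linearIndependent' ℂ A.col
  have hfin : Finite κ' := hli.finite
  have := Fintype.ofFinite κ'
  have hcard : Fintype.card κ' = ρ := by
    rw [← finrank_span_eq_card hli, hspan, h]
  let e : Fin ρ ≃ κ' := (Fintype.equivFinOfCardEq hcard).symm
  have hli' : LinearIndependent ℂ (fun k => A.col (c0 (e k))) := hli.comp e e.injective
  have hinj : ∀ v : Fin ρ → ℂ, (A.submatrix id (fun k => c0 (e k))).mulVec v = 0 → v = 0 := by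
    intro v hv
    have h1 : Function.Injective (A.submatrix id (fun k => c0 (e k))).mulVec := by
      rw [Matrix.mulVec_injective_iff]
      exact hli'
    apply h1
    rw [hv, Matrix.mulVec_zero]
  obtain ⟨a, ha⟩ := A1_minor_inj _ hinj
  exact ⟨a, fun k => c0 (e k), ha⟩

private theorem A1_cinj {ρ r : ℕ} {β : Type} (A : Matrix β (Fin r) ℂ) {a : Fin ρ → β}
    {c : Fin ρ → Fin r} (h : (A.submatrix a c).det ≠ 0) : Function.Injective c := by
  intro i j hij
  by_contra hne
  apply h
  apply Matrix.det_zero_of_column_eq hne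
  intro k
  rw [Matrix.submatrix_apply, Matrix.submatrix_apply, hij]

/-- the columns given by Cramer's rule -/
private noncomputable def A1_G {β : Type} {r f ρ : ℕ} (A : Matrix β (Fin r) ℂ) (a : Fin ρ → β)
    (e : Fin ρ ⊕ Fin f ≃ Fin r) : Matrix (Fin r) (Fin f) ℂ :=
  Matrix.of fun x j => Sum.elim
    (fun i => -((A.submatrix a (fun k => e (.inl k))).adjugate *ᵥ
      fun i' => A (a i') (e (.inr j))) i)
    (fun j' => if j' = j then (A.submatrix a (fun k => e (.inl k))).det else 0) (e.symm x)

private theorem A1_G_mulVec {β : Type} {r f ρ : ℕ} (A : Matrix β (Fin r) ℂ) (a : Fin ρ → β)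
    (e : Fin ρ ⊕ Fin f ≃ Fin r) (y : Fin f → ℂ) (j : Fin f) :
    (A1_G A a e *ᵥ y) (e (.inr j)) = (A.submatrix a (fun k => e (.inl k))).det * y j := by
  simp only [Matrix.mulVec, dotProduct, A1_G, Matrix.of_apply, Equiv.symm_apply_apply,
    Sum.elim_inr, ite_mul, zero_mul, Finset.sum_ite_eq, Finset.mem_univ, if_true]

private theorem A1_row {β : Type} {r f ρ : ℕ} (A : Matrix β (Fin r) ℂ) (a : Fin ρ → β)
    (e : Fin ρ ⊕ Fin f ≃ Fin r) (y : Fin f → ℂ) :
    A.submatrix a id *ᵥ (A1_G A a e *ᵥ y) = 0 := by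
  rw [Matrix.mulVec_mulVec]
  have h0 : A.submatrix a id * A1_G A a e = 0 := by
    ext i j
    rw [Matrix.mul_apply, ← e.sum_comp, Fintype.sum_sum_type]
    simp only [A1_G, Matrix.of_apply, Equiv.symm_apply_apply, Sum.elim_inl, Sum.elim_inr,
      Matrix.submatrix_apply, id_eq, mul_ite, mul_zero, Finset.sum_ite_eq', Finset.mem_univ,
      if_true, Matrix.zero_apply, mul_neg, Finset.sum_neg_distrib]
    have h1 : ∑ x, A (a i) (e (.inl x)) * ((A.submatrix a (fun k => e (.inl k))).adjugate *ᵥ
        fun i' => A (a i') (e (.inr j))) x =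
        ((A.submatrix a (fun k => e (.inl k))) *ᵥ
          ((A.submatrix a (fun k => e (.inl k))).adjugate *ᵥ
            fun i' => A (a i') (e (.inr j)))) i := rfl
    rw [h1, Matrix.mulVec_mulVec, Matrix.mul_adjugate, Matrix.smul_mulVec, Matrix.one_mulVec,
      Pi.smul_apply, smul_eq_mul]
    ring
  rw [h0, Matrix.zero_mulVec]

private theorem A1_point {β : Type} [Fintype β] {r f ρ : ℕ} (A : Matrix β (Fin r) ℂ)
    (a : Fin ρ → β) (e : Fin ρ ⊕ Fin f ≃ Fin r)
    (hd : (A.submatrix a (fun k => e (.inl k))).det ≠ 0)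
    (hf : Module.finrank ℂ (LinearMap.ker A.mulVecLin) = f) :
    (∀ y, A1_G A a e *ᵥ y = 0 → y = 0) ∧
      ∀ x, A *ᵥ x = 0 ↔ ∃ y, x = A1_G A a e *ᵥ y := by
  have hinj : ∀ y, A1_G A a e *ᵥ y = 0 → y = 0 := by
    intro y hy
    funext j
    have h1 := A1_G_mulVec A a e y j
    rw [hy, Pi.zero_apply] at h1
    exact (mul_eq_zero.1 h1.symm).resolve_left hd
  refine ⟨hinj, ?_⟩
  let K1 : Submodule ℂ (Fin r → ℂ) := LinearMap.ker (A.submatrix a id).mulVecLin
  have hK1 : Module.finrank ℂ K1 ≤ f := by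
    let φ : K1 →ₗ[ℂ] (Fin f → ℂ) :=
      (LinearMap.funLeft ℂ ℂ (fun j : Fin f => e (.inr j))).comp K1.subtype
    have hφ : Function.Injective φ := by
      rw [← LinearMap.ker_eq_bot, LinearMap.ker_eq_bot']
      rintro ⟨x, hx⟩ h0
      have hx' : A.submatrix a id *ᵥ x = 0 := hx
      have h2 : ∀ j : Fin f, x (e (.inr j)) = 0 := fun j => congrFun h0 j
      have h3 : (A.submatrix a (fun k => e (.inl k))) *ᵥ (fun k => x (e (.inl k))) = 0 := by
        funext i
        have h4 := congrFun hx' i
        simp only [Matrix.mulVec, dotProduct, Matrix.submatrix_apply, id_eq] at h4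
        rw [← e.sum_comp, Fintype.sum_sum_type] at h4
        simp only [h2, mul_zero, Finset.sum_const_zero, add_zero] at h4
        exact h4
      have h5 := Matrix.eq_zero_of_mulVec_eq_zero hd h3
      ext z
      obtain ⟨s, rfl⟩ := e.surjective z
      cases s with
      | inl k => exact congrFun h5 k
      | inr j => exact h2 j
    have := LinearMap.finrank_le_finrank_of_injective hφ
    rwa [Module.finrank_fin_fun] at this
  have hKer : LinearMap.ker A.mulVecLin = K1 := by
    apply Submodule.eq_of_le_of_finrank_le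
    · intro x hx
      have hx' : A *ᵥ x = 0 := hx
      show A.submatrix a id *ᵥ x = 0
      funext i
      exact congrFun hx' (a i)
    · rw [hf]
      exact hK1
  have hRan : LinearMap.range (A1_G A a e).mulVecLin = K1 := by
    apply Submodule.eq_of_le_of_finrank_le
    · rintro _ ⟨y, rfl⟩
      exact A1_row A a e y
    · rw [LinearMap.finrank_range_of_inj, Module.finrank_fin_fun]
      · exact hK1
      · rw [← LinearMap.ker_eq_bot, LinearMap.ker_eq_bot']
        intro y hy
        exact hinj y hy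
  intro x
  have h1 : A *ᵥ x = 0 ↔ x ∈ LinearMap.ker A.mulVecLin := Iff.rfl
  rw [h1, hKer, ← hRan]
  constructor
  · rintro ⟨y, rfl⟩
    exact ⟨y, rfl⟩
  · rintro ⟨y, rfl⟩
    exact ⟨y, rfl⟩

private theorem A1_det_diff {n : ℕ} {M : ℂ → Matrix (Fin n) (Fin n) ℂ} {s : Set ℂ}
    (h : ∀ i j, DifferentiableOn ℂ (fun q => M q i j) s) :
    DifferentiableOn ℂ (fun q => (M q).det) s := by
  simp only [Matrix.det_apply]
  refine DifferentiableOn.fun_sum fun σ _ => ?_
  refine DifferentiableOn.const_smul ?_ _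
  exact DifferentiableOn.fun_finsetProd fun i _ => h _ _

private theorem A1_adj_diff {n : ℕ} {M : ℂ → Matrix (Fin n) (Fin n) ℂ} {s : Set ℂ}
    (h : ∀ i j, DifferentiableOn ℂ (fun q => M q i j) s) (i j : Fin n) :
    DifferentiableOn ℂ (fun q => (M q).adjugate i j) s := by
  simp only [Matrix.adjugate_apply]
  apply A1_det_diff
  intro k l
  by_cases hk : k = j
  · subst hk
    simp only [Matrix.updateRow_self]
    exact differentiableOn_const _
  · simp only [Matrix.updateRow_ne hk]
    exact h k l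

theorem ker_cramer {β : Type} [Fintype β] {r f : ℕ} {ε : ℝ} (hε : 0 < ε)
    {R : ℂ → Matrix β (Fin r) ℂ}
    (hR : ∀ i j, DifferentiableOn ℂ (fun q => R q i j) (Metric.ball 0 ε))
    (hf : ∀ q ∈ Metric.ball (0 : ℂ) ε, q ≠ 0 →
      Module.finrank ℂ (LinearMap.ker (R q).mulVecLin) = f) :
    ∃ (ε' : ℝ) (G : ℂ → Matrix (Fin r) (Fin f) ℂ), 0 < ε' ∧ ε' ≤ ε ∧
      (∀ i j, DifferentiableOn ℂ (fun q => G q i j) (Metric.ball 0 ε')) ∧
      ∀ q ∈ Metric.ball (0 : ℂ) ε', q ≠ 0 → (∀ y, G q *ᵥ y = 0 → y = 0) ∧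
        ∀ x, R q *ᵥ x = 0 ↔ ∃ y, x = G q *ᵥ y := by
  obtain ⟨q₁, hq₁, hq₁0⟩ : ∃ q₁ ∈ Metric.ball (0 : ℂ) ε, q₁ ≠ 0 := by
    refine ⟨((ε / 2 : ℝ) : ℂ), ?_, ?_⟩
    · rw [mem_ball_zero_iff, Complex.norm_real, Real.norm_eq_abs, abs_of_pos (by positivity)]
      linarith
    · rw [Ne, Complex.ofReal_eq_zero]
      positivity
  obtain ⟨ρ, hρ⟩ : ∃ ρ, (R q₁).rank = ρ := ⟨_, rfl⟩
  obtain ⟨a, c, hac⟩ := A1_minor (R q₁) hρ
  have hc := A1_cinj _ hac
  have hr : ρ + f = r := by
    have h1 := LinearMap.finrank_range_add_finrank_ker (R q₁).mulVecLin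
    rw [hf q₁ hq₁ hq₁0, Module.finrank_fin_fun] at h1
    rw [← hρ]
    exact h1
  have hcard : Fintype.card ((Set.range c)ᶜ : Set (Fin r)) = f := by
    have h2 := Fintype.card_compl_set (Set.range c)
    rw [Set.card_range_of_injective hc, Fintype.card_fin, Fintype.card_fin] at h2
    omega
  let e : Fin ρ ⊕ Fin f ≃ Fin r :=
    (Equiv.sumCongr (Equiv.ofInjective c hc) (Fintype.equivFinOfCardEq hcard).symm).trans
      (Equiv.Set.sumCompl (Set.range c))
  have he : ∀ i, e (.inl i) = c i := fun i => rfl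
  have hsub : ∀ i j, DifferentiableOn ℂ
      (fun q => ((R q).submatrix a (fun k => e (.inl k))) i j) (Metric.ball 0 ε) :=
    fun i j => hR _ _
  have hg := A1_det_diff hsub
  have hg1 : ((R q₁).submatrix a (fun k => e (.inl k))).det ≠ 0 := hac
  have han := hg.analyticOnNhd Metric.isOpen_ball
  have h0 : (0 : ℂ) ∈ Metric.ball (0 : ℂ) ε := Metric.mem_ball_self hε
  have hne : ∀ᶠ q in 𝓝[≠] (0 : ℂ), ((R q).submatrix a (fun k => e (.inl k))).det ≠ 0 := by
    rcases (han 0 h0).eventually_eq_zero_or_eventually_ne_zero with h | h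
    · exfalso
      have h2 := han.eqOn_zero_of_preconnected_of_eventuallyEq_zero
        (convex_ball (0 : ℂ) ε).isPreconnected h0 h
      exact hg1 (h2 hq₁)
    · exact h
  rw [eventually_nhdsWithin_iff, Metric.eventually_nhds_iff_ball] at hne
  obtain ⟨δ, hδ, hne⟩ := hne
  refine ⟨min δ ε, fun q => A1_G (R q) a e, lt_min hδ hε, min_le_right _ _, ?_, ?_⟩
  · intro x j
    refine DifferentiableOn.mono ?_ (Metric.ball_subset_ball (min_le_right δ ε))
    simp only [A1_G, Matrix.of_apply]
    rcases hx : e.symm x with i | j'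
    · simp only [Sum.elim_inl, Matrix.mulVec, dotProduct]
      refine DifferentiableOn.fun_neg ?_
      refine DifferentiableOn.fun_sum fun k _ => ?_
      exact (A1_adj_diff hsub i k).mul (hR _ _)
    · simp only [Sum.elim_inr]
      by_cases hj : j' = j
      · simp only [hj, if_true]
        exact hg
      · simp only [hj, if_false]
        exact differentiableOn_const _
  · intro q hq hq0
    have hqδ := Metric.ball_subset_ball (min_le_left δ ε) hq
    have hqε := Metric.ball_subset_ball (min_le_right δ ε) hq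
    exact A1_point (R q) a e (hne q hqδ hq0) (hf q hqε hq0)

end YA38
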