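import Pool.Agent.LibYA38.YDef
import Pool.Agent.LibMW38.Rig

/-!
The Hodge filtration of the extension.

PLAN. A vector Sum.elim x y is a combination of the columns of fromBlocks G ν 0 1 with coefficients (c, y), x = G *ᵥ c + ∑ y_b ν_b
(c = G⁻¹ (x - ...)); it lies in Fl (pV s p) _ a iff c j = 0 for p j < a and y b = 0 if 0 < a (MW38.mem_Fl_iff or mem_Fl_iff_exists for the
invertible matrix fromBlocks G ν 0 1, inverse fromBlocks G⁻¹ (-G⁻¹ ν) 0 1). vv e x y ζ = G *ᵥ c + ∑ y_b (ν_b + e b ζ). If a ≤ 0 the second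
term is in FS 0 ≤ FS a, so vv ∈ FS a iff G *ᵥ c ∈ FS a = Fl p G a iff c j = 0 for p j < a. If a > 0: y = 0 on both sides. (∀ l < a, LP l (vv) = 0 is
vv ∈ FS K (D ζ) a by definition.)
-/

open Matrix Complex Filter Topology
open UpperHalfPlane hiding I

namespace YA38

open SP38 US38 ZW67

variable {r s : ℕ} {w : ℤ} {K : ℕ} {Q : Matrix (Fin r) (Fin r) ℝ}
  {D : ℂ → Matrix (Fin r) (Fin r) ℂ} {e : Fin s → ℂ → Fin r → ℂ}
  {N : Matrix (Fin r) (Fin r) ℝ} {β : Fin s → Fin r → ℝ}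

theorem A10_vv (ν : Matrix (Fin r) (Fin s) ℂ) (x : Fin r → ℂ) (y : Fin s → ℂ) (ζ : ℂ) :
    vv e x y ζ = (x - ν *ᵥ y) + ∑ b, y b • ((fun i => ν i b) + e b ζ) := by
  funext i
  simp only [vv, Pi.add_apply, Pi.sub_apply, Finset.sum_apply, Pi.smul_apply, smul_eq_mul,
    Matrix.mulVec, dotProduct, mul_add, Finset.sum_add_distrib]
  have h : ∑ b, ν i b * y b = ∑ b, y b * ν i b := Finset.sum_congr rfl fun b _ => mul_comm _ _
  rw [h]
  ring

theorem A10_sum {ν : Matrix (Fin r) (Fin s) ℂ} {ζ : ℂ}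
    (hν : ∀ b, (fun i => ν i b) + e b ζ ∈ FS K (D ζ) 0) {a : ℤ} {y : Fin s → ℂ}
    (hy : 0 < a → y = 0) : ∑ b, y b • ((fun i => ν i b) + e b ζ) ∈ FS K (D ζ) a := by
  refine Submodule.sum_mem _ fun b _ => ?_
  rcases lt_or_ge 0 a with ha | ha
  · rw [hy ha, Pi.zero_apply, zero_smul]
    exact Submodule.zero_mem _
  · refine Submodule.smul_mem _ _ ?_
    intro l hl
    exact hν b l (lt_of_lt_of_le hl ha)

theorem mem_V {p : Fin r → ℤ} {G : Matrix (Fin r) (Fin r) ℂ} {ν : Matrix (Fin r) (Fin s) ℂ}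
    (hG : IsUnit G) {ζ : ℂ} (hF : ∀ l, MW38.Fl p G l = FS K (D ζ) l)
    (hν : ∀ b, (fun i => ν i b) + e b ζ ∈ FS K (D ζ) 0) (a : ℤ) (x : Fin r → ℂ)
    (y : Fin s → ℂ) : Sum.elim x y ∈ MW38.Fl (pV s p) (Matrix.fromBlocks G ν 0 1) a ↔
      FX K D e a x y ζ := by
  rw [MW38.mem_Fl_iff_exists]
  constructor
  · rintro ⟨c', hc, hv⟩
    set c : Fin r → ℂ := fun i => c' (Sum.inl i) with hcdef
    set d : Fin s → ℂ := fun b => c' (Sum.inr b) with hddef
    have hc' : c' = Sum.elim c d := by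
      funext j
      cases j <;> rfl
    rw [hc', Matrix.fromBlocks_mulVec, Sum.elim_comp_inl, Sum.elim_comp_inr, Matrix.zero_mulVec,
      Matrix.one_mulVec, zero_add] at hv
    have hx : x = G *ᵥ c + ν *ᵥ d := by
      funext i
      exact congrFun hv (Sum.inl i)
    have hy : y = d := by
      funext b
      exact congrFun hv (Sum.inr b)
    have hy0 : 0 < a → y = 0 := by
      intro ha
      funext b
      rw [hy]
      exact hc (Sum.inr b) ha
    refine ⟨hy0, ?_⟩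
    have h1 : G *ᵥ c ∈ FS K (D ζ) a := by
      rw [← hF a, MW38.mem_Fl_iff_exists]
      exact ⟨c, fun j hj => hc (Sum.inl j) hj, rfl⟩
    have h2 : vv e x y ζ ∈ FS K (D ζ) a := by
      rw [A10_vv ν]
      refine Submodule.add_mem _ ?_ (A10_sum hν hy0)
      rw [hx, hy, add_sub_cancel_right]
      exact h1
    exact h2
  · rintro ⟨hy0, hvv⟩
    have h2 : vv e x y ζ ∈ FS K (D ζ) a := hvv
    have h3 : x - ν *ᵥ y ∈ MW38.Fl p G a := by
      rw [hF a]
      have h4 := Submodule.sub_mem _ h2 (A10_sum hν hy0)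
      rw [A10_vv ν, add_sub_cancel_right] at h4
      exact h4
    obtain ⟨c, hc, hc2⟩ := (MW38.mem_Fl_iff_exists _).1 h3
    refine ⟨Sum.elim c y, ?_, ?_⟩
    · rintro (j | b) hj
      · exact hc j hj
      · have h5 : 0 < a := hj
        show y b = 0
        rw [hy0 h5]
        rfl
    · rw [Matrix.fromBlocks_mulVec, Sum.elim_comp_inl, Sum.elim_comp_inr, Matrix.zero_mulVec,
        Matrix.one_mulVec, zero_add, ← hc2, sub_add_cancel]

end YA38
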