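import Pool.Agent.LibYA38.YDef

/-!
The extension is a mixed Hodge structure.

PLAN. unit: det (fromBlocks G ν 0 1) = det G (Matrix.det_fromBlocks_zero₂₁). tri: the entries (inr b, inl j) are 0 and wtV (inl j) = w <
0 = wtV (inr b). gr k: the subtype {i // wtV r s w i = k} is equivalent to Fin r for k = w, to Fin s for k = 0, and empty otherwise.
PHS transports along an equivalence of index types: prove a small lemma (PHS.reindex: if f : α ≃ α', p' = p ∘ f.symm, Q' = reindex f f Q, G' =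
reindex f f G; see `VarA.reindex`, `PHS.reindex` or `Fl_reindex` in LibMW38/Gen2 and LibZQ38/BPb); the block (w, w) of QV is Q, of fromBlocks G
ν 0 1 is G; the blocks (0, 0) are 1 and 1 with p = 0: PHS 0 0 1 1: Fl a = ⊤ for a ≤ 0 and ⊥ for a > 0; riem: 0 < a + b, so one of u, v is 0;
pos: v ∈ Fl a, cc v ∈ Fl (-a), v ≠ 0: a = 0, bl 1 v (cc v) = ∑ |v i|² > 0. Empty type: everything is trivial (Subsingleton).
-/

open Matrix Complex Filter Topology
open UpperHalfPlane hiding I

namespace YA38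

open SP38 US38 ZW67

variable {r s : ℕ} {w : ℤ} {K : ℕ} {Q : Matrix (Fin r) (Fin r) ℝ}
  {D : ℂ → Matrix (Fin r) (Fin r) ℂ} {e : Fin s → ℂ → Fin r → ℂ}
  {N : Matrix (Fin r) (Fin r) ℝ} {β : Fin s → Fin r → ℝ}

section a11

variable {α β : Type} [Fintype α] [DecidableEq α] [Fintype β] [DecidableEq β]

theorem a11_mem (e : α ≃ β) {p : α → ℤ} {p' : β → ℤ} {G : Matrix α α ℂ} {G' : Matrix β β ℂ}
    (hp : ∀ i, p' (e i) = p i) (hG : ∀ i j, G' (e i) (e j) = G i j) (a : ℤ) {v : β → ℂ}
    (hv : v ∈ MW38.Fl p' G' a) : (fun i => v (e i)) ∈ MW38.Fl p G a := by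
  unfold MW38.Fl at hv ⊢
  induction hv using Submodule.span_induction with
  | mem x hx =>
    obtain ⟨j, hj, rfl⟩ := hx
    apply Submodule.subset_span
    refine ⟨e.symm j, ?_, ?_⟩
    · rw [← hp, e.apply_symm_apply]; exact hj
    · funext i
      rw [← hG, e.apply_symm_apply]
  | zero => exact Submodule.zero_mem _
  | add x y _ _ hx hy => exact Submodule.add_mem _ hx hy
  | smul c x _ hx => exact Submodule.smul_mem _ c hx

theorem a11_bl (e : α ≃ β) {Q : Matrix α α ℝ} {Q' : Matrix β β ℝ}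
    (hQ : ∀ i j, Q' (e i) (e j) = Q i j) (u v : β → ℂ) :
    MW38.bl Q' u v = MW38.bl Q (fun i => u (e i)) (fun i => v (e i)) := by
  unfold MW38.bl
  rw [← e.sum_comp]
  refine Finset.sum_congr rfl fun i _ => ?_
  rw [← e.sum_comp]
  refine Finset.sum_congr rfl fun j _ => ?_
  rw [hQ]

theorem a11_phs (e : α ≃ β) {w : ℤ} {p : α → ℤ} {p' : β → ℤ} {Q : Matrix α α ℝ}
    {Q' : Matrix β β ℝ} {G : Matrix α α ℂ} {G' : Matrix β β ℂ}
    (hp : ∀ i, p' (e i) = p i) (hQ : ∀ i j, Q' (e i) (e j) = Q i j)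
    (hG : ∀ i j, G' (e i) (e j) = G i j) (h : MW38.PHS w p Q G) : MW38.PHS w p' Q' G' where
  unit := by
    have h1 : G' = Matrix.reindex e e G := by
      ext i j
      rw [Matrix.reindex_apply, Matrix.submatrix_apply, ← hG, e.apply_symm_apply, e.apply_symm_apply]
    rw [h1, Matrix.isUnit_iff_isUnit_det, Matrix.det_reindex_self]
    exact (Matrix.isUnit_iff_isUnit_det _).1 h.unit
  riem a b hab u hu v hv := by
    rw [a11_bl e hQ]
    exact h.riem a b hab _ (a11_mem e hp hG a hu) _ (a11_mem e hp hG b hv)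
  pos a v hv hcv hv0 := by
    rw [a11_bl e hQ]
    have h1 := h.pos a _ (a11_mem e hp hG a hv) (a11_mem e hp hG _ hcv) ?_
    · exact h1
    · intro h2
      apply hv0
      funext i
      have h3 := congrFun h2 (e.symm i)
      simpa using h3

theorem a11_empty [IsEmpty α] (w : ℤ) (p : α → ℤ) (Q : Matrix α α ℝ) (G : Matrix α α ℂ) :
    MW38.PHS w p Q G where
  unit := by
    have : G = 1 := Subsingleton.elim _ _
    rw [this]; exact isUnit_one
  riem a b hab u hu v hv := by simp [MW38.bl]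
  pos a v hv hcv hv0 := absurd (Subsingleton.elim _ _) hv0

theorem a11_Fl_pos {a : ℤ} (ha : 0 < a) {v : α → ℂ}
    (hv : v ∈ MW38.Fl (fun _ : α => (0 : ℤ)) (1 : Matrix α α ℂ) a) : v = 0 := by
  unfold MW38.Fl at hv
  have h1 : {v : α → ℂ | ∃ j, a ≤ (fun _ : α => (0 : ℤ)) j ∧ v = fun i => (1 : Matrix α α ℂ) i j} = ∅ := by
    ext v
    simp only [Set.mem_setOf_eq, Set.mem_empty_iff_false, iff_false]
    rintro ⟨j, hj, -⟩
    have : a ≤ 0 := hj
    omega
  rw [h1, Submodule.span_empty] at hv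
  exact (Submodule.mem_bot ℂ).1 hv

theorem a11_one : MW38.PHS 0 (fun _ : α => (0 : ℤ)) (1 : Matrix α α ℝ) (1 : Matrix α α ℂ) where
  unit := isUnit_one
  riem a b hab u hu v hv := by
    rcases lt_or_ge 0 a with h | h
    · rw [a11_Fl_pos h hu]; simp [MW38.bl]
    · have hb : 0 < b := by omega
      rw [a11_Fl_pos hb hv]; simp [MW38.bl]
  pos a v hv hcv hv0 := by
    have ha : a ≤ 0 := by
      by_contra h
      exact hv0 (a11_Fl_pos (not_le.1 h) hv)
    have ha' : 0 ≤ a := by
      by_contra h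
      have h1 : MW38.cc v = 0 := a11_Fl_pos (a := 0 - a) (by omega) hcv
      apply hv0
      funext i
      have h2 := congrFun h1 i
      unfold MW38.cc at h2
      simpa using h2
    have ha0 : a = 0 := le_antisymm ha ha'
    subst ha0
    have h1 : MW38.bl (1 : Matrix α α ℝ) v (MW38.cc v) = ((∑ i, ‖v i‖ ^ 2 : ℝ) : ℂ) := by
      unfold MW38.bl MW38.cc
      rw [Complex.ofReal_sum]
      refine Finset.sum_congr rfl fun i _ => ?_
      rw [Finset.sum_eq_single i]
      · rw [Matrix.one_apply_eq, Complex.ofReal_one, mul_one, Complex.mul_conj,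
          Complex.normSq_eq_norm_sq]
      · intro j _ hj
        rw [Matrix.one_apply_ne (Ne.symm hj)]
        simp
      · intro h; exact absurd (Finset.mem_univ i) h
    rw [h1]
    have h2 : (2 * (0 : ℤ) - 0) = 0 := by norm_num
    rw [h2, zpow_zero, one_mul]
    refine ⟨?_, Complex.ofReal_im _⟩
    rw [Complex.ofReal_re]
    obtain ⟨i, hi⟩ : ∃ i, v i ≠ 0 := by
      by_contra h
      push Not at h
      exact hv0 (funext h)
    refine Finset.sum_pos' (fun _ _ => by positivity) ⟨i, Finset.mem_univ i, ?_⟩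
    have : 0 < ‖v i‖ := norm_pos_iff.2 hi
    positivity

end a11

/-- the indices of weight `w` -/
def a11_eL (hw : w < 0) : Fin r ≃ {i : Fin r ⊕ Fin s // wtV r s w i = w} where
  toFun i := ⟨Sum.inl i, rfl⟩
  invFun x := match x with
    | ⟨Sum.inl i, _⟩ => i
    | ⟨Sum.inr b, h⟩ => absurd (show (0 : ℤ) = w from h) (by omega)
  left_inv i := rfl
  right_inv x := by
    rcases x with ⟨i | b, h⟩
    · rfl
    · exact absurd (show (0 : ℤ) = w from h) (by omega)

/-- the indices of weight `0` -/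
def a11_eR (hw : w < 0) : Fin s ≃ {i : Fin r ⊕ Fin s // wtV r s w i = 0} where
  toFun b := ⟨Sum.inr b, rfl⟩
  invFun x := match x with
    | ⟨Sum.inl i, h⟩ => absurd (show w = 0 from h) (by omega)
    | ⟨Sum.inr b, _⟩ => b
  left_inv b := rfl
  right_inv x := by
    rcases x with ⟨i | b, h⟩
    · exact absurd (show w = 0 from h) (by omega)
    · rfl

theorem a11_isEmpty {k : ℤ} (h1 : k ≠ w) (h2 : k ≠ 0) :
    IsEmpty {i : Fin r ⊕ Fin s // wtV r s w i = k} := by
  refine ⟨fun x => ?_⟩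
  rcases x with ⟨i | b, h⟩
  · exact h1 (show w = k from h).symm
  · exact h2 (show (0 : ℤ) = k from h).symm

theorem mhs_V {p : Fin r → ℤ} {G : Matrix (Fin r) (Fin r) ℂ} (ν : Matrix (Fin r) (Fin s) ℂ)
    (hw : w < 0) (hG : MW38.PHS w p Q G) :
    MW38.MHS (wtV r s w) (pV s p) (QV s Q) (Matrix.fromBlocks G ν 0 1) where
  unit := by
    rw [Matrix.isUnit_iff_isUnit_det, Matrix.det_fromBlocks_zero₂₁, Matrix.det_one, mul_one]
    exact (Matrix.isUnit_iff_isUnit_det _).1 hG.unit
  tri := by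
    rintro (i | b) (j | c) h
    · exact absurd (show w < w from h) (lt_irrefl _)
    · exact absurd (show (0 : ℤ) < w from h) (by omega)
    · rfl
    · exact absurd (show (0 : ℤ) < 0 from h) (lt_irrefl _)
  gr k := by
    rcases eq_or_ne k w with rfl | hk
    · exact a11_phs (a11_eL hw) (fun i => rfl) (fun i j => rfl) (fun i j => rfl) hG
    · rcases eq_or_ne k 0 with rfl | hk0
      · exact a11_phs (a11_eR hw) (fun i => rfl) (fun i j => rfl) (fun i j => rfl) a11_one
      · haveI := a11_isEmpty (r := r) (s := s) hk hk0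
        exact a11_empty _ _ _ _

end YA38
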