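import Pool.Agent.LibYA38.A8

/-!
The monodromy of the extension.

PLAN. hE : exp (NV N c) = fromBlocks (exp N) B 0 1. Tri: entries (inr, inl) vanish. Isom: IsUnit (det = det (exp N), a unit: exp N is a unit,
or take determinants in hQ... use IsNilpotent.isUnit_exp); Tri; the block (k, k): for k = w it is exp N and the block of QV is Q (hQ), for k =
0 it is 1 and 1, otherwise the index type is empty. (Work entrywise: blk wt k k A i j = A i.1 j.1; for i : {i // wtV i = k} do cases on i.1;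
the sums over the subtype: Fintype.sum_subtype or an Equiv with Fin r.)
-/

open Matrix Complex Filter Topology
open UpperHalfPlane hiding I

namespace YA38

open SP38 US38 ZW67

variable {r s : ℕ} {w : ℤ} {K : ℕ} {Q : Matrix (Fin r) (Fin r) ℝ}
  {D : ℂ → Matrix (Fin r) (Fin r) ℂ} {e : Fin s → ℂ → Fin r → ℂ}
  {N : Matrix (Fin r) (Fin r) ℝ} {β : Fin s → Fin r → ℝ}

theorem a12_conj {α β : Type} [Fintype α] [Fintype β] (e : α ≃ β) {A Q : Matrix α α ℝ}
    {A' Q' : Matrix β β ℝ} (hA : ∀ i j, A' (e i) (e j) = A i j) (hQ : ∀ i j, Q' (e i) (e j) = Q i j)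
    (h : Aᵀ * Q * A = Q) : A'ᵀ * Q' * A' = Q' := by
  have h1 : A' = Matrix.reindex e e A := by
    ext i j
    rw [Matrix.reindex_apply, Matrix.submatrix_apply, ← hA, e.apply_symm_apply, e.apply_symm_apply]
  have h2 : Q' = Matrix.reindex e e Q := by
    ext i j
    rw [Matrix.reindex_apply, Matrix.submatrix_apply, ← hQ, e.apply_symm_apply, e.apply_symm_apply]
  rw [h1, h2]
  simp only [Matrix.reindex_apply, Matrix.transpose_submatrix, Matrix.submatrix_mul_equiv]
  rw [h]

/-- the indices of weight `w` -/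
def a12_eL (hw : w < 0) : Fin r ≃ {i : Fin r ⊕ Fin s // wtV r s w i = w} where
  toFun i := ⟨Sum.inl i, rfl⟩
  invFun x := match x with
    | ⟨Sum.inl i, _⟩ => i
    | ⟨Sum.inr b, h⟩ => absurd (show (0 : ℤ) = w from h) (by omega)
  left_inv i := rfl
  right_inv x := by
    rcases x with ⟨i | b, h⟩
    · rfl
    · exact absurd (show (0 : ℤ) = w from h) (by omega)

/-- the indices of weight `0` -/
def a12_eR (hw : w < 0) : Fin s ≃ {i : Fin r ⊕ Fin s // wtV r s w i = 0} where
  toFun b := ⟨Sum.inr b, rfl⟩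
  invFun x := match x with
    | ⟨Sum.inl i, h⟩ => absurd (show w = 0 from h) (by omega)
    | ⟨Sum.inr b, _⟩ => b
  left_inv b := rfl
  right_inv x := by
    rcases x with ⟨i | b, h⟩
    · exact absurd (show w = 0 from h) (by omega)
    · rfl

theorem a12_isEmpty {k : ℤ} (h1 : k ≠ w) (h2 : k ≠ 0) :
    IsEmpty {i : Fin r ⊕ Fin s // wtV r s w i = k} := by
  refine ⟨fun x => ?_⟩
  rcases x with ⟨i | b, h⟩
  · exact h1 (show w = k from h).symm
  · exact h2 (show (0 : ℤ) = k from h).symm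

theorem a12_tri (A : Matrix (Fin r) (Fin r) ℝ) (B : Matrix (Fin r) (Fin s) ℝ)
    (C : Matrix (Fin s) (Fin s) ℝ) (hw : w < 0) :
    MW38.Tri (wtV r s w) (Matrix.fromBlocks A B 0 C) := by
  rintro (i | b) (j | c) h
  · exact absurd (show w < w from h) (lt_irrefl _)
  · exact absurd (show (0 : ℤ) < w from h) (by omega)
  · rfl
  · exact absurd (show (0 : ℤ) < 0 from h) (lt_irrefl _)

theorem tri_NV (c : Matrix (Fin r) (Fin s) ℝ) (hw : w < 0) :
    MW38.Tri (wtV r s w) (NV N c) := a12_tri N c 0 hw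

theorem isom_V {c : Matrix (Fin r) (Fin s) ℝ} (hw : w < 0)
    {A : Matrix (Fin r) (Fin r) ℝ} {B : Matrix (Fin r) (Fin s) ℝ} (hA : IsUnit A)
    (hE : IsNilpotent.exp (NV N c) = Matrix.fromBlocks A B 0 1) (hQ : Aᵀ * Q * A = Q) :
    MW38.Isom (wtV r s w) (QV s Q) (IsNilpotent.exp (NV N c)) := by
  rw [hE]
  refine ⟨?_, a12_tri A B 1 hw, fun k => ?_⟩
  · rw [Matrix.isUnit_iff_isUnit_det, Matrix.det_fromBlocks_zero₂₁, Matrix.det_one, mul_one]
    exact (Matrix.isUnit_iff_isUnit_det _).1 hA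
  · rcases eq_or_ne k w with rfl | hk
    · exact a12_conj (a12_eL hw) (fun i j => rfl) (fun i j => rfl) hQ
    · rcases eq_or_ne k 0 with rfl | hk0
      · exact a12_conj (a12_eR hw) (A := 1) (Q := 1) (fun i j => rfl) (fun i j => rfl) (by simp)
      · have := a12_isEmpty (r := r) (s := s) hk hk0
        exact Subsingleton.elim _ _

end YA38
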