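import Pool.Agent.LibYA38.YDef
import Pool.Agent.LibZW67.Iso

/-!
Griffiths transversality for sections.

PLAN. Take the frame equations A, M, pq of h.frame (h.frame.mem: z ∈ Hc 0: v ∈ FS l iff (A z *ᵥ v) j = 0 for all pq j < l). v z = x z + ∑ y_b e_b
z. For pq j < a: (A z *ᵥ v z) j = 0 on U (hm). Apply the Wirtinger derivative dz for pq j < a - 1: 0 = ((M A) v) j + (A *ᵥ DV v) j, and
((M A) v) j = ∑_i M j i (A v) i, where M j i = 0 if pq j + 1 < pq i and (A v) i = 0 if pq i ≤ pq j + 1 < a: so (A *ᵥ DV v) j = 0 (see `gg_deriv` in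
LibZW67/Iso). DV v = x' + ∑ y_b DV (e b) (x holomorphic: dz_of_holo). If a ≤ 0 then (A *ᵥ DV (e b)) j = 0 since pq j < a - 1 ≤ -1 (h.d1). If a > 0
then y = 0. So (A *ᵥ x') j = 0 for all pq j < a - 1.
-/

open Matrix Complex Filter Topology
open UpperHalfPlane hiding I

namespace YA38

open SP38 US38 ZW67

variable {r s : ℕ} {w : ℤ} {K : ℕ} {Q : Matrix (Fin r) (Fin r) ℝ}
  {D : ℂ → Matrix (Fin r) (Fin r) ℂ} {e : Fin s → ℂ → Fin r → ℂ}
  {N : Matrix (Fin r) (Fin r) ℝ} {β : Fin s → Fin r → ℝ}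

private theorem A13_vv (x : Fin r → ℂ) (y : Fin s → ℂ) (z : ℂ) (i : Fin r) :
    vv e x y z i = x i + ∑ b, y b * e b z i := by
  simp [vv, Finset.sum_apply]

theorem FX_deriv (h : XD w K Q D e) {a : ℤ} {x : ℂ → Fin r → ℂ} {y : Fin s → ℂ} {U : Set ℂ}
    (hU : IsOpen U) (hU0 : U ⊆ Hc 0) (hx : ∀ i, DifferentiableOn ℂ (fun z => x z i) U)
    (hm : ∀ z ∈ U, FX K D e a (x z) y z) {z : ℂ} (hz : z ∈ U) :
    (fun i => deriv (fun z => x z i) z) ∈ FS K (D z) (a - 1) := by
  obtain ⟨β', hβ, pq, A, M, hF⟩ := h.frame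
  have hΩ := isOpen_Hc 0
  have hzH := hU0 hz
  show ∀ l : ℤ, l < a - 1 → LP K (D z) l *ᵥ (fun i => deriv (fun z => x z i) z) = 0
  rw [hF.mem z hzH (a - 1)]
  intro j hj
  set f : Fin r → ℂ → ℂ := fun i z => x z i + ∑ b, y b * e b z i with hf
  have hxd : ∀ i, DifferentiableAt ℂ (fun z => x z i) z := fun i =>
    (hx i).differentiableAt (hU.mem_nhds hz)
  have hed : ∀ b i, DifferentiableAt ℝ (fun z => e b z i) z := fun b i =>
    (h.sme b i).differentiableAt hΩ hzH
  have hyd : ∀ b i, DifferentiableAt ℝ (fun z => y b * e b z i) z := fun b i =>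
    (differentiableAt_const _).mul (hed b i)
  have hsd : ∀ i, DifferentiableAt ℝ (fun z => ∑ b, y b * e b z i) z := fun i =>
    DifferentiableAt.fun_sum fun b _ => hyd b i
  have hfd : ∀ i, DifferentiableAt ℝ (f i) z := fun i =>
    ((hxd i).restrictScalars ℝ).add (hsd i)
  have hAd : ∀ i, DifferentiableAt ℂ (fun z => A z j i) z := fun i =>
    (hF.hol j i).differentiableAt (hΩ.mem_nhds hzH)
  have hAv : ∀ z' k, (A z' *ᵥ vv e (x z') y z') k = ∑ i, A z' k i * f i z' := by
    intro z' k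
    simp only [Matrix.mulVec, dotProduct, A13_vv, hf]
  have h0 : ∀ z' ∈ U, ∀ k, pq k < a → ∑ i, A z' k i * f i z' = 0 := by
    intro z' hz' k hk
    rw [← hAv]
    exact (hF.mem z' (hU0 hz') a _).1 ((hm z' hz').2) k hk
  have h1 : dz (fun z' => ∑ i, A z' j i * f i z') z = 0 := by
    have hc : (fun z' => ∑ i, A z' j i * f i z') =ᶠ[𝓝 z] fun _ => 0 := by
      filter_upwards [hU.mem_nhds hz] with z' hz'
      exact h0 z' hz' j (by omega)
    rw [dz_congr hc, dz_const]
  have h2 := WirtM_dz_sum (Finset.univ : Finset (Fin r)) (f := fun i z' => A z' j i * f i z')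
    (z := z) fun i _ => ((hAd i).restrictScalars ℝ).mul (hfd i)
  have h3 : ∀ i, dz (fun z' => A z' j i * f i z') z = (M z * A z) j i * f i z +
      A z j i * (deriv (fun z => x z i) z + ∑ b, y b * DV (e b) z i) := by
    intro i
    rw [dz_mul ((hAd i).restrictScalars ℝ) (hfd i), dz_of_holo (hAd i), hF.der z hzH]
    congr 2
    rw [hf]
    rw [dz_add ((hxd i).restrictScalars ℝ) (hsd i), dz_of_holo (hxd i)]
    congr 1
    refine (WirtM_dz_sum (Finset.univ : Finset (Fin s)) (f := fun b z => y b * e b z i)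
      (z := z) fun b _ => hyd b i).trans ?_
    exact Finset.sum_congr rfl fun b _ => WirtM_dz_smul (y b) (hed b i)
  rw [h1] at h2
  simp only [h3] at h2
  rw [Finset.sum_add_distrib] at h2
  have h4 : ∑ i, (M z * A z) j i * f i z = 0 := by
    have h5 : ∑ i, (M z * A z) j i * f i z = ((M z * A z) *ᵥ (fun i => f i z)) j := rfl
    rw [h5, ← Matrix.mulVec_mulVec]
    show ∑ k, M z j k * (A z *ᵥ (fun i => f i z)) k = 0
    refine Finset.sum_eq_zero fun k _ => ?_
    by_cases hk : pq k < a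
    · have h6 : (A z *ᵥ (fun i => f i z)) k = 0 := h0 z hz k hk
      rw [h6, mul_zero]
    · rw [hF.tr z hzH j k (by omega), zero_mul]
  have h7 : ∑ i, A z j i * ∑ b, y b * DV (e b) z i = 0 := by
    by_cases ha : 0 < a
    · have hy : y = 0 := (hm z hz).1 ha
      simp [hy]
    · have h8 : ∀ b, ∑ i, A z j i * DV (e b) z i = 0 := fun b =>
        (hF.mem z hzH (-1) (DV (e b) z)).1 (h.d1 b z hzH) j (by omega)
      simp only [Finset.mul_sum]
      rw [Finset.sum_comm]
      refine Finset.sum_eq_zero fun b _ => ?_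
      have h9 : ∑ i, A z j i * (y b * DV (e b) z i) = y b * ∑ i, A z j i * DV (e b) z i := by
        rw [Finset.mul_sum]
        exact Finset.sum_congr rfl fun i _ => by ring
      rw [h9, h8 b, mul_zero]
  rw [h4, zero_add] at h2
  simp only [mul_add] at h2
  rw [Finset.sum_add_distrib, h7, add_zero] at h2
  exact h2.symm

end YA38
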