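import Pool.Agent.LibYA38.YDef
import Pool.Agent.LibZW67.Iso

/-!
The identity theorem for the condition `(x, y) ∈ F^a`.

PLAN. a ≤ 0. Frame equations A, pq of h.frame: FX a x y z iff (A z *ᵥ vv e x y z) j = 0 for all j with pq j < a. For pq j < 0 the function z ↦ (A z *ᵥ
vv e x y z) j is holomorphic on Hc 0: real differentiable with dzb = 0 since dzb of e_b is in FS 0 (h.d0), see `gg_diff` in LibZW67/Iso. It
vanishes on the nonempty open set U, so on the connected set Hc 0 (AnalyticOnNhd.eqOn_zero_of_preconnected_of_eventuallyEq_zero; Hc 0 is convex).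
-/

open Matrix Complex Filter Topology
open UpperHalfPlane hiding I

namespace YA38

open SP38 US38 ZW67

variable {r s : ℕ} {w : ℤ} {K : ℕ} {Q : Matrix (Fin r) (Fin r) ℝ}
  {D : ℂ → Matrix (Fin r) (Fin r) ℂ} {e : Fin s → ℂ → Fin r → ℂ}
  {N : Matrix (Fin r) (Fin r) ℝ} {β : Fin s → Fin r → ℝ}

private theorem A14_pre : IsPreconnected (Hc 0) :=
  (convex_halfSpace_im_gt 0).isPreconnected

theorem FX_global (h : XD w K Q D e) {a : ℤ} (ha : a ≤ 0) {x : Fin r → ℂ} {y : Fin s → ℂ}
    {U : Set ℂ} (hU : IsOpen U) (hU0 : U ⊆ Hc 0) (hne : U.Nonempty)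
    (hm : ∀ z ∈ U, FX K D e a x y z) : ∀ z ∈ Hc 0, FX K D e a x y z := by
  obtain ⟨β', hβ, pq, A, M, hF⟩ := h.frame
  have hΩ := isOpen_Hc 0
  have hAv : ∀ z k, (A z *ᵥ vv e x y z) k = ∑ i, A z k i * (x i + ∑ b, y b * e b z i) := by
    intro z k
    simp [Matrix.mulVec, dotProduct, vv, Finset.sum_apply]
  have hhol : ∀ j, pq j < 0 → DifferentiableOn ℂ (fun z => (A z *ᵥ vv e x y z) j) (Hc 0) := by
    intro j hj z hz
    apply DifferentiableAt.differentiableWithinAt
    have hAd : ∀ i, DifferentiableAt ℂ (fun z => A z j i) z := fun i =>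
      (hF.hol j i).differentiableAt (hΩ.mem_nhds hz)
    have hed : ∀ b i, DifferentiableAt ℝ (fun z => e b z i) z := fun b i =>
      (h.sme b i).differentiableAt hΩ hz
    have hyd : ∀ b i, DifferentiableAt ℝ (fun z => y b * e b z i) z := fun b i =>
      (differentiableAt_const _).mul (hed b i)
    have hsd : ∀ i, DifferentiableAt ℝ (fun z => ∑ b, y b * e b z i) z := fun i =>
      DifferentiableAt.fun_sum fun b _ => hyd b i
    have hfd : ∀ i, DifferentiableAt ℝ (fun z => x i + ∑ b, y b * e b z i) z := fun i =>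
      (differentiableAt_const _).add (hsd i)
    have hfun : (fun z => (A z *ᵥ vv e x y z) j) =
        fun z => ∑ i, A z j i * (x i + ∑ b, y b * e b z i) := funext fun z => hAv z j
    rw [hfun]
    apply diff_of_dzb
    · exact DifferentiableAt.fun_sum fun i _ => ((hAd i).restrictScalars ℝ).mul (hfd i)
    · have hsum := WirtM_dzb_sum (Finset.univ : Finset (Fin r))
        (f := fun i z => A z j i * (x i + ∑ b, y b * e b z i)) (z := z)
        fun i _ => ((hAd i).restrictScalars ℝ).mul (hfd i)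
      refine hsum.trans ?_
      have h2 : ∀ i, dzb (fun z => A z j i * (x i + ∑ b, y b * e b z i)) z =
          A z j i * ∑ b, y b * DVb (e b) z i := by
        intro i
        rw [dzb_mul ((hAd i).restrictScalars ℝ) (hfd i), dzb_of_holo (hAd i), zero_mul, zero_add]
        congr 1
        rw [dzb_add (differentiableAt_const _) (hsd i), dzb_const, zero_add]
        refine (WirtM_dzb_sum (Finset.univ : Finset (Fin s)) (f := fun b z => y b * e b z i)
          (z := z) fun b _ => hyd b i).trans ?_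
        exact Finset.sum_congr rfl fun b _ => WirtM_dzb_smul (y b) (hed b i)
      simp only [h2]
      have h8 : ∀ b, ∑ i, A z j i * DVb (e b) z i = 0 := fun b =>
        (hF.mem z hz 0 (DVb (e b) z)).1 (h.d0 b z hz) j hj
      simp only [Finset.mul_sum]
      rw [Finset.sum_comm]
      refine Finset.sum_eq_zero fun b _ => ?_
      have h9 : ∑ i, A z j i * (y b * DVb (e b) z i) = y b * ∑ i, A z j i * DVb (e b) z i := by
        rw [Finset.mul_sum]
        exact Finset.sum_congr rfl fun i _ => by ring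
      rw [h9, h8 b, mul_zero]
  obtain ⟨z₀, hz₀⟩ := hne
  intro z hz
  refine ⟨fun h0 => absurd h0 (by omega), ?_⟩
  rw [hF.mem z hz a]
  intro j hj
  have han : AnalyticOnNhd ℂ (fun z => (A z *ᵥ vv e x y z) j) (Hc 0) :=
    (hhol j (by omega)).analyticOnNhd hΩ
  have hev : (fun z => (A z *ᵥ vv e x y z) j) =ᶠ[𝓝 z₀] 0 := by
    filter_upwards [hU.mem_nhds hz₀] with z' hz'
    exact (hF.mem z' (hU0 hz') a _).1 ((hm z' hz').2) j hj
  exact han.eqOn_zero_of_preconnected_of_eventuallyEq_zero A14_pre (hU0 hz₀) hev hz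

end YA38
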