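import Pool.Agent.LibYA38.YDef

/-!
The Hodge numbers.

PLAN. P a z := LP K (D z) a are projectors with sum 1 over Icc (-K) K (LP_mul, LP_sum, LP_zero), Sm on Hc 0 (`Sm.aeval'`), so trace (P a z)
is continuous on the preconnected set Hc 0 and is a natural number (= rank of the projector: LinearMap.IsProj.trace /
Matrix.IsIdempotent trace eq rank), hence a constant k a. Sum of k a = r. So there is p : Fin r → ℤ with card {i | p i = a} = k a (choose an
equivalence Fin r ≃ Σ a : Icc (-K) K, Fin (k a), Fintype.card_sigma). FS K (D z) l is the range of ∑_{a ≥ l} P a z (x ∈ FS iff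
P a x = 0 for a < l iff x = ∑_{a ≥ l} P a x), its dimension is the trace = ∑_{a ≥ l} k a = card {i // l ≤ p i}. P (p i) z ≠ 0 since
k (p i) ≥ 1. Symmetry: gd.conj gives P (w - a) z = conj of P a z (the statement is in `GD.pv`: (h.pv (isOpen_Hc 0)).hd z hz, a structure HD
with a field on conjugates), so k (w - a) = k a and there is a permutation t with p (t j) = w - p j (a bijection between the fibres
{p = a} and {p = w - a}; construct it as in LibSP38/LibZE25 or: Equiv.ofFiberEquiv).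
-/

open Matrix Complex Filter Topology
open UpperHalfPlane hiding I

namespace YA38

open SP38 US38 ZW67

private theorem A5_trace_eq {r : ℕ} {E : Matrix (Fin r) (Fin r) ℂ} (hE : E * E = E) :
    Matrix.trace E = (Module.finrank ℂ (LinearMap.range (Matrix.toLin' E)) : ℂ) := by
  have h1 : IsIdempotentElem (Matrix.toLin' E) := by
    rw [IsIdempotentElem, Module.End.mul_eq_comp, ← Matrix.toLin'_mul, hE]
  have h2 := (LinearMap.IsIdempotentElem.isProj_range _ h1).trace
  rw [Matrix.trace_toLin'_eq] at h2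
  exact h2

private theorem A5_const {f : ℂ → ℂ} {s : Set ℂ} (hs : IsPreconnected s) (hf : ContinuousOn f s)
    (hn : ∀ z ∈ s, ∃ n : ℕ, f z = (n : ℂ)) {z z' : ℂ} (hz : z ∈ s) (hz' : z' ∈ s) :
    f z = f z' := by
  by_contra hne
  have hg : ContinuousOn (fun z => (f z).re) s := Complex.continuous_re.comp_continuousOn hf
  obtain ⟨n, h1⟩ := hn z hz
  obtain ⟨n', h2⟩ := hn z' hz'
  have key : ∀ {y y' : ℂ} {m m' : ℕ}, y ∈ s → y' ∈ s → f y = (m : ℂ) → f y' = (m' : ℂ) → m < m' →
      False := by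
    intro y y' m m' hy hy' h3 h4 hmm
    have h5 := hs.intermediate_value hy hy' hg
    have h6 : ((m : ℝ) + 1 / 2) ∈ Set.Icc ((f y).re) ((f y').re) := by
      rw [h3, h4, Complex.natCast_re, Complex.natCast_re]
      have : ((m : ℝ) + 1) ≤ m' := by exact_mod_cast hmm
      constructor <;> linarith
    obtain ⟨x, hx, h7⟩ := h5 h6
    obtain ⟨q, h8⟩ := hn x hx
    simp only [h8, Complex.natCast_re] at h7
    have h9 : (2 * q : ℝ) = ((2 * m + 1 : ℕ) : ℝ) := by
      push_cast
      linarith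
    have h10 : 2 * q = 2 * m + 1 := by exact_mod_cast h9
    omega
  rcases lt_trichotomy n n' with h | h | h
  · exact key hz hz' h1 h2 h
  · exact hne (by rw [h1, h2, h])
  · exact key hz' hz h2 h1 h

/-- the traces of the projectors are constant -/
private theorem A5_trace_const {r : ℕ} {w : ℤ} {K : ℕ} {Q : Matrix (Fin r) (Fin r) ℝ}
    {D : ℂ → Matrix (Fin r) (Fin r) ℂ} (h : GD w K Q (Hc 0) D) (a : ℤ) {z z' : ℂ}
    (hz : z ∈ Hc 0) (hz' : z' ∈ Hc 0) :
    Matrix.trace (LP K (D z) a) = Matrix.trace (LP K (D z') a) := by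
  have hconv : Convex ℝ (Hc 0) := by
    have h1 := convex_halfSpace_gt (𝕜 := ℝ) (f := Complex.im) Complex.imLm.isLinear 0
    exact h1
  refine A5_const hconv.isPreconnected (f := fun z => Matrix.trace (LP K (D z) a)) ?_ ?_ hz hz'
  · have h1 : SP38.Sm (Hc 0) (fun z => LP K (D z) a) := ZW67.Sm.aeval' h.sm _
    simp only [Matrix.trace, Matrix.diag_apply]
    exact continuousOn_finsetSum _ fun i _ => (h1 i i).continuousOn
  · intro x hx
    have h1 := LP_mul (h.poly x hx) a a
    rw [if_pos rfl] at h1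
    exact ⟨_, A5_trace_eq h1⟩

/-- a function with prescribed fibres -/
private theorem A5_fibres {r K : ℕ} (k : ℤ → ℕ) (hk : ∀ a : ℤ, a ∉ Finset.Icc (-(K : ℤ)) K → k a = 0)
    (hr : ∑ a ∈ Finset.Icc (-(K : ℤ)) K, k a = r) :
    ∃ p : Fin r → ℤ, (∀ i, p i ∈ Finset.Icc (-(K : ℤ)) K) ∧
      ∀ a, Fintype.card {i // p i = a} = k a := by
  classical
  have hcard : Fintype.card (Σ a : Finset.Icc (-(K : ℤ)) K, Fin (k a)) = r := by
    rw [Fintype.card_sigma]
    simp only [Fintype.card_fin]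
    rw [← hr]
    exact Finset.sum_coe_sort (Finset.Icc (-(K : ℤ)) K) k
  let e : Fin r ≃ (Σ a : Finset.Icc (-(K : ℤ)) K, Fin (k a)) :=
    (Fintype.equivFinOfCardEq hcard).symm
  refine ⟨fun i => ((e i).1 : ℤ), fun i => (e i).1.2, fun a => ?_⟩
  by_cases ha : a ∈ Finset.Icc (-(K : ℤ)) K
  · have e1 : {i : Fin r // ((e i).1 : ℤ) = a} ≃
        {x : (Σ a : Finset.Icc (-(K : ℤ)) K, Fin (k a)) // (x.1 : ℤ) = a} :=
      Equiv.subtypeEquiv e fun i => Iff.rfl
    have e2 : {x : (Σ a : Finset.Icc (-(K : ℤ)) K, Fin (k a)) // (x.1 : ℤ) = a} ≃ Fin (k a) :=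
      { toFun := fun x => Fin.cast (congrArg k x.2) x.1.2
        invFun := fun j => ⟨⟨⟨a, ha⟩, j⟩, rfl⟩
        left_inv := by
          rintro ⟨⟨⟨b, hb⟩, j⟩, h⟩
          simp only at h
          subst h
          rfl
        right_inv := fun j => rfl }
    rw [← Fintype.card_fin (k a)]
    exact Fintype.card_congr (e1.trans e2)
  · rw [hk a ha, Fintype.card_eq_zero_iff]
    exact ⟨fun i => ha (i.2 ▸ (e i.1).1.2)⟩

/-- the permutation -/
private theorem A5_perm {r : ℕ} (f g : Fin r → ℤ)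
    (h : ∀ a, Fintype.card {i // f i = a} = Fintype.card {i // g i = a}) :
    ∃ t : Equiv.Perm (Fin r), ∀ j, g (t j) = f j := by
  classical
  refine ⟨Equiv.ofFiberEquiv (f := f) (g := g) fun a => Fintype.equivOfCardEq (h a), fun j => ?_⟩
  exact Equiv.ofFiberEquiv_map _ _

/-- the dimension of the steps -/
private theorem A5_finrank {r : ℕ} {K : ℕ} {A : Matrix (Fin r) (Fin r) ℂ}
    (hA : Polynomial.aeval A (npoly K) = 0) (l : ℤ) :
    (Module.finrank ℂ (FS K A l) : ℂ) =
      ∑ a ∈ (Finset.Icc (-(K : ℤ)) K).filter (fun a => l ≤ a), Matrix.trace (LP K A a) := by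
  set S := (Finset.Icc (-(K : ℤ)) K).filter (fun a => l ≤ a) with hS
  set E : Matrix (Fin r) (Fin r) ℂ := ∑ a ∈ S, LP K A a with hE
  have hPE : ∀ a ∈ S, LP K A a * E = LP K A a := by
    intro a ha
    rw [hE, Finset.mul_sum, Finset.sum_eq_single_of_mem a ha]
    · rw [LP_mul hA, if_pos rfl]
    · intro b _ hb
      rw [LP_mul hA, if_neg (Ne.symm hb)]
  have hPE0 : ∀ a, a < l → LP K A a * E = 0 := by
    intro a ha
    rw [hE, Finset.mul_sum]
    refine Finset.sum_eq_zero fun b hb => ?_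
    rw [LP_mul hA, if_neg]
    have := (Finset.mem_filter.mp hb).2
    omega
  have hEE : E * E = E := by
    conv_lhs => rw [hE, Finset.sum_mul]
    rw [hE]
    exact Finset.sum_congr rfl fun a ha => hPE a ha
  have hrange : FS K A l = LinearMap.range (Matrix.toLin' E) := by
    ext x
    rw [LinearMap.mem_range]
    constructor
    · intro hx
      refine ⟨x, ?_⟩
      rw [Matrix.toLin'_apply]
      have h1 : (∑ a ∈ Finset.Icc (-(K : ℤ)) K, LP K A a) *ᵥ x = x := by
        rw [LP_sum, Matrix.one_mulVec]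
      have h2 : (∑ a ∈ Finset.Icc (-(K : ℤ)) K, LP K A a) *ᵥ x = E *ᵥ x := by
        rw [hE, Matrix.sum_mulVec, Matrix.sum_mulVec, hS, Finset.sum_filter]
        refine Finset.sum_congr rfl fun a _ => ?_
        split_ifs with h3
        · rfl
        · exact hx a (not_le.mp h3)
      rw [← h2, h1]
    · rintro ⟨y, rfl⟩ a ha
      rw [Matrix.toLin'_apply, Matrix.mulVec_mulVec, hPE0 a ha, Matrix.zero_mulVec]
  rw [hrange, ← A5_trace_eq hEE, hE, Matrix.trace_sum]

theorem exists_pw {r : ℕ} {w : ℤ} {K : ℕ} {Q : Matrix (Fin r) (Fin r) ℝ}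
    {D : ℂ → Matrix (Fin r) (Fin r) ℂ} (h : GD w K Q (Hc 0) D) :
    ∃ p : Fin r → ℤ, (∃ t : Equiv.Perm (Fin r), ∀ j, p (t j) = w - p j) ∧
      (∀ z ∈ Hc 0, ∀ l, Module.finrank ℂ (FS K (D z) l) = Fintype.card {i // l ≤ p i}) ∧
      ∀ z ∈ Hc 0, ∀ i, LP K (D z) (p i) ≠ 0 := by
  classical
  have hz0 : (I : ℂ) ∈ Hc 0 := by
    show (0 : ℝ) < Complex.im I
    simp
  -- the Hodge numbers
  have hidem : ∀ z ∈ Hc 0, ∀ a, LP K (D z) a * LP K (D z) a = LP K (D z) a := by
    intro z hz a
    have h1 := LP_mul (h.poly z hz) a a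
    rwa [if_pos rfl] at h1
  set k : ℤ → ℕ := fun a => Module.finrank ℂ (LinearMap.range (Matrix.toLin' (LP K (D I) a))) with hkdef
  have hk : ∀ z ∈ Hc 0, ∀ a, Matrix.trace (LP K (D z) a) = (k a : ℂ) := by
    intro z hz a
    rw [A5_trace_const h a hz hz0, hkdef]
    exact A5_trace_eq (hidem _ hz0 a)
  have hk0 : ∀ a : ℤ, a ∉ Finset.Icc (-(K : ℤ)) K → k a = 0 := by
    intro a ha
    have h1 := hk I hz0 a
    rw [LP_zero ha, Matrix.trace_zero] at h1
    exact_mod_cast h1.symm
  have hsum : ∑ a ∈ Finset.Icc (-(K : ℤ)) K, k a = r := by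
    have h1 : ∑ a ∈ Finset.Icc (-(K : ℤ)) K, (k a : ℂ) = (r : ℂ) := by
      calc ∑ a ∈ Finset.Icc (-(K : ℤ)) K, (k a : ℂ)
          = ∑ a ∈ Finset.Icc (-(K : ℤ)) K, Matrix.trace (LP K (D I) a) :=
            Finset.sum_congr rfl fun a _ => (hk I hz0 a).symm
        _ = Matrix.trace (∑ a ∈ Finset.Icc (-(K : ℤ)) K, LP K (D I) a) := (Matrix.trace_sum _ _).symm
        _ = (r : ℂ) := by rw [LP_sum, Matrix.trace_one, Fintype.card_fin]
    exact_mod_cast h1
  obtain ⟨p, hpI, hp⟩ := A5_fibres k hk0 hsum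
  -- symmetry
  have hsymm : ∀ a, k (w - a) = k a := by
    intro a
    have hd := (h.pv (isOpen_Hc 0)).hd I hz0
    have h1 := hd.conj a
    have h2 : (k (w - a) : ℂ) = (k a : ℂ) := by
      rw [← hk I hz0 (w - a), ← h1]
      have h3 : Matrix.trace ((LP K (D I) a).map (starRingEnd ℂ)) =
          (starRingEnd ℂ) (Matrix.trace (LP K (D I) a)) := by
        simp only [Matrix.trace, Matrix.diag_apply, Matrix.map_apply, map_sum]
      rw [h3, hk I hz0 a]
      simp
    exact_mod_cast h2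
  refine ⟨p, ?_, ?_, ?_⟩
  · refine A5_perm (fun j => w - p j) p fun a => ?_
    rw [hp a, ← hsymm a, ← hp (w - a)]
    refine Fintype.card_congr (Equiv.subtypeEquivRight fun i => ?_)
    constructor <;> intro h1 <;> omega
  · intro z hz l
    have h1 := A5_finrank (h.poly z hz) l
    have h2 : ∑ a ∈ (Finset.Icc (-(K : ℤ)) K).filter (fun a => l ≤ a), Matrix.trace (LP K (D z) a) =
        ((∑ a ∈ (Finset.Icc (-(K : ℤ)) K).filter (fun a => l ≤ a), k a : ℕ) : ℂ) := by
      push_cast
      exact Finset.sum_congr rfl fun a _ => hk z hz a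
    rw [h2] at h1
    have h3 : Module.finrank ℂ (FS K (D z) l) =
        ∑ a ∈ (Finset.Icc (-(K : ℤ)) K).filter (fun a => l ≤ a), k a := by exact_mod_cast h1
    rw [h3, Fintype.card_subtype,
      Finset.card_eq_sum_card_fiberwise (f := p)
        (t := (Finset.Icc (-(K : ℤ)) K).filter (fun a => l ≤ a))]
    · refine Finset.sum_congr rfl fun a ha => ?_
      rw [← hp a, Fintype.card_subtype, Finset.filter_filter]
      congr 1
      ext i
      simp only [Finset.mem_filter, Finset.mem_univ, true_and]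
      have := (Finset.mem_filter.mp ha).2
      constructor
      · intro h4
        exact ⟨by omega, h4⟩
      · exact fun h4 => h4.2
    · intro i hi
      simp only [Finset.coe_filter, Finset.mem_univ, true_and, Set.mem_ofPred_eq] at hi ⊢
      exact ⟨hpI i, hi⟩
  · intro z hz i h0
    have h1 := hk z hz (p i)
    rw [h0, Matrix.trace_zero] at h1
    have h2 : k (p i) = 0 := by exact_mod_cast h1.symm
    have h3 := hp (p i)
    rw [h2, Fintype.card_eq_zero_iff] at h3
    exact h3.false ⟨i, rfl⟩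

end YA38
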