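import Pool.Agent.LibYA38.YDef

/-!
A polarized Hodge structure from its grading operator.

PLAN. h.poly, h.conj, h.skew, h.pos at z; the projectors P a = LP K (D z) a satisfy LP_sum, LP_mul, LP_mulVec_eigen, LP_left. unit: hG.
riem: u ∈ F^a, v ∈ F^b, a + b > w: u = ∑_{i ≥ a} P i u, v = ∑_{j ≥ b} P j v, and Q(P i u, P j v) = 0 unless i + j = w, by
skew: (i + j) Q(x, y) = Q(D x, y) + Q(x, D y) = w Q(x, y) for D x = i x, D y = j y. (MW38.bl and SP38.bil agree by definition.)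
pos: v ∈ F^a and cc v ∈ F^(w-a): P l v = 0 for l < a, and P l (cc v) = 0 for l < w - a, i.e. P (w - l) v = 0 (conj of P l is P (w-l):
field of HD, (h.pv hΩ).hd z hz), so P l' v = 0 for l' > a: v = P a v, D v = a v: h.pos z hz a v.
-/

open Matrix Complex Filter Topology
open UpperHalfPlane hiding I

namespace YA38

open SP38 US38 ZW67

private theorem A6_bl {r : ℕ} (Q : Matrix (Fin r) (Fin r) ℝ) (u v : Fin r → ℂ) :
    MW38.bl Q u v = u ⬝ᵥ (cm Q *ᵥ v) := by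
  unfold MW38.bl
  rw [dotProduct]
  refine Finset.sum_congr rfl fun i _ => ?_
  rw [mulVec, dotProduct, Finset.mul_sum]
  refine Finset.sum_congr rfl fun j _ => ?_
  rw [cm, Matrix.map_apply, mul_assoc]

private theorem A6_sum {r : ℕ} {w : ℤ} {K : ℕ} {Q : Matrix (Fin r) (Fin r) ℝ}
    {P : ℤ → Matrix (Fin r) (Fin r) ℂ} (h : HD w K Q P) (u : Fin r → ℂ) :
    u = ∑ a ∈ Finset.Icc (-(K : ℤ)) K, P a *ᵥ u := by
  rw [← Matrix.sum_mulVec, h.sum, Matrix.one_mulVec]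

private theorem A6_orth {r : ℕ} {w : ℤ} {K : ℕ} {Q : Matrix (Fin r) (Fin r) ℝ}
    {P : ℤ → Matrix (Fin r) (Fin r) ℂ} (h : HD w K Q P) {i j : ℤ} (hij : i + j ≠ w)
    (u v : Fin r → ℂ) : (P i *ᵥ u) ⬝ᵥ (cm Q *ᵥ (P j *ᵥ v)) = 0 := by
  have h1 := h.orth i j hij
  have h2 : (P i *ᵥ u) ⬝ᵥ (cm Q *ᵥ (P j *ᵥ v)) = u ⬝ᵥ (((P i)ᵀ * cm Q * P j) *ᵥ v) := by
    rw [Matrix.mulVec_mulVec, ← Matrix.vecMul_transpose, ← Matrix.dotProduct_mulVec,
      Matrix.mulVec_mulVec, Matrix.mul_assoc]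
  rw [h2, h1, Matrix.zero_mulVec, dotProduct_zero]

private theorem A6_riem {r : ℕ} {w : ℤ} {K : ℕ} {Q : Matrix (Fin r) (Fin r) ℝ}
    {P : ℤ → Matrix (Fin r) (Fin r) ℂ} (h : HD w K Q P) {a b : ℤ} (hab : w < a + b)
    {u v : Fin r → ℂ} (hu : ∀ l, l < a → P l *ᵥ u = 0) (hv : ∀ l, l < b → P l *ᵥ v = 0) :
    MW38.bl Q u v = 0 := by
  rw [A6_bl, A6_sum h u, sum_dotProduct]
  refine Finset.sum_eq_zero fun i _ => ?_
  by_cases hi : i < a
  · rw [hu i hi, zero_dotProduct]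
  · conv_lhs => rw [A6_sum h v]
    rw [Matrix.mulVec_sum, dotProduct_sum]
    refine Finset.sum_eq_zero fun j _ => ?_
    by_cases hj : j < b
    · rw [hv j hj, Matrix.mulVec_zero, dotProduct_zero]
    · exact A6_orth h (by omega) u v

private theorem A6_conj {r : ℕ} {w : ℤ} {K : ℕ} {Q : Matrix (Fin r) (Fin r) ℝ}
    {P : ℤ → Matrix (Fin r) (Fin r) ℂ} (h : HD w K Q P) (l : ℤ) {v : Fin r → ℂ}
    (hv : P l *ᵥ MW38.cc v = 0) : P (w - l) *ᵥ v = 0 := by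
  rw [← h.conj l]
  funext i
  have h1 := congrFun hv i
  have h2 := congrArg (starRingEnd ℂ) h1
  rw [Pi.zero_apply, map_zero, mulVec, dotProduct, map_sum] at h2
  rw [Pi.zero_apply, mulVec, dotProduct, ← h2]
  refine Finset.sum_congr rfl fun j _ => ?_
  rw [Matrix.map_apply, map_mul, MW38.cc, Complex.conj_conj]

private theorem A6_eig {r : ℕ} {w : ℤ} {K : ℕ} {Q : Matrix (Fin r) (Fin r) ℝ}
    {P : ℤ → Matrix (Fin r) (Fin r) ℂ} (h : HD w K Q P) {a : ℤ} {v : Fin r → ℂ}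
    (hv : ∀ l, l < a → P l *ᵥ v = 0) (hc : ∀ l, l < w - a → P l *ᵥ MW38.cc v = 0) :
    P a *ᵥ v = v := by
  have h1 : ∀ l, l ≠ a → P l *ᵥ v = 0 := by
    intro l hl
    rcases lt_or_gt_of_ne hl with h2 | h2
    · exact hv l h2
    · have h3 := A6_conj h (w - l) (hc (w - l) (by omega))
      rwa [sub_sub_cancel] at h3
  have h2 := A6_sum h v
  by_cases ha : a ∈ Finset.Icc (-(K : ℤ)) K
  · rw [Finset.sum_eq_single_of_mem a ha (fun l _ hl => h1 l hl)] at h2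
    exact h2.symm
  · rw [Finset.sum_eq_zero (fun l hl => h1 l (fun e => ha (e ▸ hl)))] at h2
    rw [h2, Matrix.mulVec_zero]

theorem phs_of_gd {r : ℕ} {w : ℤ} {K : ℕ} {Q : Matrix (Fin r) (Fin r) ℝ} {Ω : Set ℂ}
    (hΩ : IsOpen Ω) {D : ℂ → Matrix (Fin r) (Fin r) ℂ} (h : GD w K Q Ω D) {z : ℂ} (hz : z ∈ Ω)
    {p : Fin r → ℤ} {G : Matrix (Fin r) (Fin r) ℂ} (hG : IsUnit G)
    (hF : ∀ l, MW38.Fl p G l = FS K (D z) l) : MW38.PHS w p Q G := by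
  have hd : HD w K Q (LP K (D z)) := (h.pv hΩ).hd z hz
  refine ⟨hG, ?_, ?_⟩
  · intro a b hab u hu v hv
    rw [hF] at hu hv
    exact A6_riem hd hab hu hv
  · intro a v hv hc h0
    rw [hF] at hv hc
    exact hd.pos a v (A6_eig hd hv hc) h0

end YA38
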