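import Pool.Agent.LibYA38.YDef

/-!
Exponentials of block matrices.

PLAN. (1) powers: (fromBlocks A c 0 0)^(k+1) = fromBlocks (A^(k+1)) (A^k * c) 0 0 (induction, Matrix.fromBlocks_multiply); so if A^k = 0
then (fromBlocks A c 0 0)^(k+1) = 0. IsNilpotent.exp = ∑_{i<n} (i!)⁻¹ • M^i for any n with M^n = 0 (IsNilpotent.exp_eq_sum):
exp (fromBlocks A c 0 0) = fromBlocks (exp A) (φ A * c) 0 1, φ A = ∑_{i<n} ((i+1)!)⁻¹ • A^i. (2) φ N = 1 + nilpotent is a unit
(IsNilpotent.isUnit_one_add or add_one), take c = (φ N)⁻¹ * B. (3) exp_blk: apply (1) to t • cm N, t • cm c: t • cm (NV N c) = fromBlocks (t •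
cm N) (t • cm c) 0 0. Compare LibSP38/Cus1 (eV_inl_inl ...) and LibMW38/ExpE.
-/

open Matrix Complex Filter Topology
open UpperHalfPlane hiding I

namespace YA38

open SP38 US38 ZW67

section A8gen

variable {R : Type} [CommRing R] [Algebra ℚ R] {r s : ℕ}

/-- the series of `(exp x - 1) / x`, truncated -/
noncomputable def A8_phi (n : ℕ) (A : Matrix (Fin r) (Fin r) R) : Matrix (Fin r) (Fin r) R :=
  ∑ i ∈ Finset.range n, (((i + 1).factorial : ℚ)⁻¹) • A ^ i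

theorem A8_pow (A : Matrix (Fin r) (Fin r) R) (c : Matrix (Fin r) (Fin s) R) (k : ℕ) :
    (Matrix.fromBlocks A c 0 0 : Matrix (Fin r ⊕ Fin s) (Fin r ⊕ Fin s) R) ^ (k + 1) =
      Matrix.fromBlocks (A ^ (k + 1)) (A ^ k * c) 0 0 := by
  induction k with
  | zero => rw [zero_add, pow_one, pow_one, pow_zero, Matrix.one_mul]
  | succ k ih =>
    rw [pow_succ', ih, Matrix.fromBlocks_multiply]
    rw [← pow_succ' A (k + 1), ← Matrix.mul_assoc, ← pow_succ' A k]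
    simp

theorem A8_sum (n : ℕ) (f : ℕ → Matrix (Fin r) (Fin r) R) (g : ℕ → Matrix (Fin r) (Fin s) R) :
    ∑ i ∈ Finset.range n,
      (Matrix.fromBlocks (f i) (g i) 0 0 : Matrix (Fin r ⊕ Fin s) (Fin r ⊕ Fin s) R) =
      Matrix.fromBlocks (∑ i ∈ Finset.range n, f i) (∑ i ∈ Finset.range n, g i) 0 0 := by
  induction n with
  | zero => simp
  | succ n ih =>
    rw [Finset.sum_range_succ, Finset.sum_range_succ, Finset.sum_range_succ, ih,
      Matrix.fromBlocks_add, add_zero, add_zero]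

theorem A8_exp (n : ℕ) (A : Matrix (Fin r) (Fin r) R) (c : Matrix (Fin r) (Fin s) R)
    (hA : A ^ n = 0) :
    IsNilpotent.exp (Matrix.fromBlocks A c 0 0 : Matrix (Fin r ⊕ Fin s) (Fin r ⊕ Fin s) R) =
      Matrix.fromBlocks (IsNilpotent.exp A) (A8_phi n A * c) 0 1 := by
  have hA1 : A ^ (n + 1) = 0 := by rw [pow_succ, hA, zero_mul]
  have hM : (Matrix.fromBlocks A c 0 0 : Matrix (Fin r ⊕ Fin s) (Fin r ⊕ Fin s) R) ^ (n + 1) = 0 := by
    rw [A8_pow, hA1, hA, Matrix.zero_mul, Matrix.fromBlocks_zero]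
  rw [IsNilpotent.exp_eq_sum hM, IsNilpotent.exp_eq_sum hA1, Finset.sum_range_succ',
    Finset.sum_range_succ']
  have h1 : ∀ i, (((i + 1).factorial : ℚ)⁻¹) •
      (Matrix.fromBlocks A c 0 0 : Matrix (Fin r ⊕ Fin s) (Fin r ⊕ Fin s) R) ^ (i + 1) =
      Matrix.fromBlocks ((((i + 1).factorial : ℚ)⁻¹) • A ^ (i + 1))
        ((((i + 1).factorial : ℚ)⁻¹) • (A ^ i * c)) 0 0 := by
    intro i
    rw [A8_pow, Matrix.fromBlocks_smul, smul_zero, smul_zero]
  simp only [h1]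
  rw [A8_sum]
  have h2 : ((Nat.factorial 0 : ℚ)⁻¹) •
      (Matrix.fromBlocks A c 0 0 : Matrix (Fin r ⊕ Fin s) (Fin r ⊕ Fin s) R) ^ 0 =
      Matrix.fromBlocks (((Nat.factorial 0 : ℚ)⁻¹) • A ^ 0) 0 0 1 := by
    rw [pow_zero, pow_zero, Nat.factorial_zero, Nat.cast_one, inv_one, one_smul, one_smul,
      Matrix.fromBlocks_one]
  rw [h2, Matrix.fromBlocks_add, add_zero, add_zero, zero_add]
  congr 1
  unfold A8_phi
  rw [Matrix.sum_mul]
  refine Finset.sum_congr rfl fun i _ => ?_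
  rw [Matrix.smul_mul]

theorem A8_phi_unit (n : ℕ) (A : Matrix (Fin r) (Fin r) R) (hA : A ^ n = 0) :
    IsUnit (A8_phi (n + 1) A) := by
  have h1 : A8_phi (n + 1) A = 1 + A * ∑ i ∈ Finset.range n,
      (((i + 2).factorial : ℚ)⁻¹) • A ^ i := by
    unfold A8_phi
    rw [Finset.sum_range_succ', add_comm, Finset.mul_sum]
    congr 1
    · simp
    · refine Finset.sum_congr rfl fun i _ => ?_
      rw [mul_smul_comm, ← pow_succ']
  rw [h1]
  apply IsNilpotent.isUnit_one_add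
  have hc : Commute A (∑ i ∈ Finset.range n, (((i + 2).factorial : ℚ)⁻¹) • A ^ i) := by
    refine Commute.sum_right _ _ _ fun i _ => ?_
    exact ((Commute.refl A).pow_right i).smul_right _
  exact ⟨n, by rw [hc.mul_pow, hA, zero_mul]⟩

end A8gen

theorem A8_cm_NV {r s : ℕ} (N : Matrix (Fin r) (Fin r) ℝ) (c : Matrix (Fin r) (Fin s) ℝ)
    (t : ℂ) : t • cm (NV N c) = Matrix.fromBlocks (t • cm N) (t • cm c) 0 0 := by
  have h1 : cm (NV N c) = Matrix.fromBlocks (cm N) (cm c) 0 0 := by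
    unfold cm NV
    rw [Matrix.fromBlocks_map]
    congr 1
  rw [h1, Matrix.fromBlocks_smul, smul_zero, smul_zero]

theorem A8_cm_pow {α : Type*} [Fintype α] [DecidableEq α] (A : Matrix α α ℝ) (k : ℕ) :
    cm (A ^ k) = cm A ^ k := by
  have h := map_pow (Complex.ofRealHom.mapMatrix (m := α)) A k
  exact h

theorem A8_cm_zero {α β : Type*} : cm (0 : Matrix α β ℝ) = 0 := by
  unfold cm
  ext i j
  simp

theorem A8_cm_exp {α : Type*} [Fintype α] [DecidableEq α] {A : Matrix α α ℝ}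
    (h : IsNilpotent A) : cm (IsNilpotent.exp A) = IsNilpotent.exp (cm A) := by
  have h1 := IsNilpotent.map_exp h (Complex.ofRealHom.mapMatrix (m := α))
  exact h1

theorem A8_smul_pow {α : Type*} [Fintype α] [DecidableEq α] {A : Matrix α α ℝ} {n : ℕ}
    (h : A ^ n = 0) (t : ℂ) : (t • cm A) ^ n = 0 := by
  rw [smul_pow, ← A8_cm_pow, h, A8_cm_zero, smul_zero]

theorem A8_exp_add {α : Type*} [Fintype α] [DecidableEq α] {A : Matrix α α ℝ}
    (h : IsNilpotent A) (ζ ξ : ℂ) :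
    IsNilpotent.exp ((ζ + ξ) • cm A) =
      IsNilpotent.exp (ζ • cm A) * IsNilpotent.exp (ξ • cm A) := by
  obtain ⟨n, hn⟩ := h
  rw [add_smul]
  exact IsNilpotent.exp_add_of_commute (((Commute.refl (cm A)).smul_left ζ).smul_right ξ)
    ⟨n, A8_smul_pow hn ζ⟩ ⟨n, A8_smul_pow hn ξ⟩

theorem exists_log {r s : ℕ} {N : Matrix (Fin r) (Fin r) ℝ} (hN : IsNilpotent N)
    (B : Matrix (Fin r) (Fin s) ℝ) : ∃ c : Matrix (Fin r) (Fin s) ℝ, IsNilpotent (NV N c) ∧
      IsNilpotent.exp (NV N c) = Matrix.fromBlocks (IsNilpotent.exp N) B 0 1 := by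
  obtain ⟨n, hn⟩ := hN
  have hn1 : N ^ (n + 1) = 0 := by rw [pow_succ, hn, zero_mul]
  obtain ⟨v, hv⟩ := (A8_phi_unit n N hn).exists_right_inv
  refine ⟨v * B, ⟨n + 1 + 1, ?_⟩, ?_⟩
  · unfold NV
    rw [A8_pow, hn1, Matrix.zero_mul]
    have : N ^ (n + 1 + 1) = 0 := by rw [pow_succ, hn1, zero_mul]
    rw [this, Matrix.fromBlocks_zero]
  · unfold NV
    rw [A8_exp (n + 1) N (v * B) hn1, ← Matrix.mul_assoc, hv, Matrix.one_mul]

theorem nil_NV {r s : ℕ} {N : Matrix (Fin r) (Fin r) ℝ} (hN : IsNilpotent N)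
    (c : Matrix (Fin r) (Fin s) ℝ) : IsNilpotent (NV N c) := by
  obtain ⟨n, hn⟩ := hN
  refine ⟨n + 1, ?_⟩
  unfold NV
  rw [A8_pow, hn, Matrix.zero_mul, pow_succ, hn, zero_mul, Matrix.fromBlocks_zero]

theorem exp_blk {r s : ℕ} {N : Matrix (Fin r) (Fin r) ℝ} (hN : IsNilpotent N)
    (c : Matrix (Fin r) (Fin s) ℝ) (t : ℂ) : ∃ φ : Matrix (Fin r) (Fin s) ℂ,
      IsNilpotent.exp (t • cm (NV N c)) =
        Matrix.fromBlocks (IsNilpotent.exp (t • cm N)) φ 0 1 := by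
  obtain ⟨n, hn⟩ := hN
  refine ⟨A8_phi n (t • cm N) * (t • cm c), ?_⟩
  rw [A8_cm_NV, A8_exp n _ _ (A8_smul_pow hn t)]

/-- the upper right block of the exponential -/
noncomputable def ur {r s : ℕ} (N : Matrix (Fin r) (Fin r) ℝ) (c : Matrix (Fin r) (Fin s) ℝ)
    (t : ℂ) : Matrix (Fin r) (Fin s) ℂ := (IsNilpotent.exp (t • cm (NV N c))).toBlocks₁₂

/-- it is a polynomial in `t` -/
theorem ur_poly {r s : ℕ} {N : Matrix (Fin r) (Fin r) ℝ} (hN : IsNilpotent N)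
    (c : Matrix (Fin r) (Fin s) ℝ) (i : Fin r) (b : Fin s) :
    ∃ f : Polynomial ℂ, ∀ t : ℂ, ur N c t i b = f.eval t := by
  obtain ⟨n, hn⟩ := hN
  refine ⟨∑ k ∈ Finset.range n, Polynomial.C ((((k + 1).factorial : ℂ)⁻¹) *
    ((cm N ^ k) * cm c) i b) * Polynomial.X ^ (k + 1), fun t => ?_⟩
  have h1 : ur N c t = A8_phi n (t • cm N) * (t • cm c) := by
    unfold ur
    rw [A8_cm_NV, A8_exp n _ _ (A8_smul_pow hn t), Matrix.toBlocks_fromBlocks₁₂]
  rw [h1, Polynomial.eval_finsetSum]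
  unfold A8_phi
  rw [Matrix.sum_mul, Matrix.sum_apply]
  refine Finset.sum_congr rfl fun k _ => ?_
  rw [Polynomial.eval_mul, Polynomial.eval_C, Polynomial.eval_pow, Polynomial.eval_X,
    smul_pow, Matrix.smul_mul, Matrix.smul_mul, Matrix.mul_smul, Matrix.smul_apply,
    Matrix.smul_apply, Matrix.smul_apply, Rat.smul_def, smul_eq_mul, smul_eq_mul]
  push_cast
  ring

/-- additivity of the exponential, in blocks -/
theorem ur_add {r s : ℕ} {N : Matrix (Fin r) (Fin r) ℝ} (hN : IsNilpotent N)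
    (c : Matrix (Fin r) (Fin s) ℝ) (t : ℂ) :
    IsNilpotent.exp ((t + 1) • cm N) = IsNilpotent.exp (t • cm N) * cm (IsNilpotent.exp N) ∧
      ur N c (t + 1) = cm (IsNilpotent.exp N) * ur N c t + ur N c 1 := by
  constructor
  · rw [A8_exp_add hN, one_smul, A8_cm_exp hN]
  · obtain ⟨φ, hφ⟩ := exp_blk hN c t
    obtain ⟨ψ, hψ⟩ := exp_blk hN c 1
    have h1 : ur N c t = φ := by
      unfold ur
      rw [hφ, Matrix.toBlocks_fromBlocks₁₂]
    have h2 : ur N c 1 = ψ := by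
      unfold ur
      rw [hψ, Matrix.toBlocks_fromBlocks₁₂]
    have h3 : IsNilpotent.exp ((1 : ℂ) • cm N) = cm (IsNilpotent.exp N) := by
      rw [one_smul, A8_cm_exp hN]
    rw [h1, h2]
    unfold ur
    rw [add_comm t 1, A8_exp_add (nil_NV hN c), hφ, hψ, Matrix.fromBlocks_multiply,
      Matrix.toBlocks_fromBlocks₁₂, Matrix.mul_one, h3]

end YA38
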