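import Pool.Agent.LibYA38.A7
import Pool.Agent.LibYA38.A8
import Pool.Agent.LibZW67.Iso
import Pool.Agent.LibMW38.HomT

/-!
The classes in the coordinate q.

PLAN. W ζ = exp (ζ • cm N) * Ψ (qq ζ) is a unit, its entries and those of W⁻¹ are holomorphic in ζ (exp is a polynomial in ζ). For b : Fin s
put y ζ = (W ζ)⁻¹ *ᵥ (ur N c ζ (·, b) + e b ζ). For i with p i < 0 the function y_i is holomorphic: real differentiable with dzb = 0,
because dzb (e b) ∈ FS 0 = Fl p W 0 (h.xd.d0), whose coordinates of index p i < 0 vanish (MW38.mem_Fl_iff): see `gg_diff` in LibZW67/Iso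
(diff_of_dzb, WirtM_dzb_sum). Periodic: ur (ζ+1) = exp N ur ζ + ur 1 (ur_add), ur 1 (·, b) = - β b by hc (ur N c 1 is the upper right
block of exp (cm (NV N c)) = cm (exp (NV N c))), e b (ζ+1) = exp N e b ζ + β b (h.perE), W (ζ+1) = exp N * W ζ (ur_add, qq (ζ+1) = qq ζ and exp
(ζ N) commutes with exp N). Growth: on |re ζ| ≤ 1 the entries of exp (-ζ cm N) and ur are O((im ζ)^n), Ψ⁻¹ is bounded near q = 0, h.grow.
`per_ext` gives F_{b,i}; μ q (·, b) := - Ψ q *ᵥ (F_{b,i} q if p i < 0, else 0). Then exp(ζN) μ_b + ur_b + e_b = W (y - y_{<0}) ∈ Fl p W 0.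
(‖qq ζ‖ < ε ≤ 1 gives 0 < im ζ, i.e. ζ ∈ Hc 0.)
-/

open Matrix Complex Filter Topology
open UpperHalfPlane hiding I

namespace YA38

open SP38 US38 ZW67

variable {r s : ℕ} {w : ℤ} {K : ℕ} {Q : Matrix (Fin r) (Fin r) ℝ}
  {D : ℂ → Matrix (Fin r) (Fin r) ℂ} {e : Fin s → ℂ → Fin r → ℂ}
  {N : Matrix (Fin r) (Fin r) ℝ} {β : Fin s → Fin r → ℝ}

/-- moderate growth at the puncture -/
def A9_Gr (f : ℂ → ℂ) : Prop := ∃ (C : ℝ) (n : ℕ) (Y : ℝ), 0 ≤ C ∧ 1 ≤ Y ∧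
  ∀ ζ : ℂ, |ζ.re| ≤ 1 → Y ≤ ζ.im → ‖f ζ‖ ≤ C * ζ.im ^ n

theorem A9_Gr_mk {f : ℂ → ℂ} (h : ∃ (C : ℝ) (n : ℕ) (Y : ℝ), ∀ ζ : ℂ, |ζ.re| ≤ 1 → Y ≤ ζ.im →
    ‖f ζ‖ ≤ C * ζ.im ^ n) : A9_Gr f := by
  obtain ⟨C, n, Y, h⟩ := h
  refine ⟨|C|, n, max Y 1, abs_nonneg _, le_max_right _ _, fun ζ h1 h2 => ?_⟩
  have h3 : (1 : ℝ) ≤ ζ.im := le_trans (le_max_right _ _) h2
  refine (h ζ h1 (le_trans (le_max_left _ _) h2)).trans ?_
  exact mul_le_mul_of_nonneg_right (le_abs_self C) (by positivity)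

theorem A9_Gr_add {f g : ℂ → ℂ} (hf : A9_Gr f) (hg : A9_Gr g) : A9_Gr (fun ζ => f ζ + g ζ) := by
  obtain ⟨C, n, Y, hC, hY, hf⟩ := hf
  obtain ⟨C', n', Y', hC', hY', hg⟩ := hg
  refine ⟨C + C', n + n', max Y Y', by positivity, le_trans hY (le_max_left _ _),
    fun ζ h1 h2 => ?_⟩
  have h3 : Y ≤ ζ.im := le_trans (le_max_left _ _) h2
  have h4 : Y' ≤ ζ.im := le_trans (le_max_right _ _) h2
  have h5 : (1 : ℝ) ≤ ζ.im := le_trans hY h3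
  have h6 : ζ.im ^ n ≤ ζ.im ^ (n + n') := pow_le_pow_right₀ h5 (Nat.le_add_right _ _)
  have h7 : ζ.im ^ n' ≤ ζ.im ^ (n + n') := pow_le_pow_right₀ h5 (Nat.le_add_left _ _)
  calc ‖f ζ + g ζ‖ ≤ ‖f ζ‖ + ‖g ζ‖ := norm_add_le _ _
    _ ≤ C * ζ.im ^ n + C' * ζ.im ^ n' := add_le_add (hf ζ h1 h3) (hg ζ h1 h4)
    _ ≤ C * ζ.im ^ (n + n') + C' * ζ.im ^ (n + n') := by gcongr
    _ = (C + C') * ζ.im ^ (n + n') := by ring

theorem A9_Gr_mul {f g : ℂ → ℂ} (hf : A9_Gr f) (hg : A9_Gr g) : A9_Gr (fun ζ => f ζ * g ζ) := by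
  obtain ⟨C, n, Y, hC, hY, hf⟩ := hf
  obtain ⟨C', n', Y', hC', hY', hg⟩ := hg
  refine ⟨C * C', n + n', max Y Y', by positivity, le_trans hY (le_max_left _ _),
    fun ζ h1 h2 => ?_⟩
  have h3 : Y ≤ ζ.im := le_trans (le_max_left _ _) h2
  have h4 : Y' ≤ ζ.im := le_trans (le_max_right _ _) h2
  have h5 : (1 : ℝ) ≤ ζ.im := le_trans hY h3
  calc ‖f ζ * g ζ‖ = ‖f ζ‖ * ‖g ζ‖ := norm_mul _ _
    _ ≤ (C * ζ.im ^ n) * (C' * ζ.im ^ n') :=
      mul_le_mul (hf ζ h1 h3) (hg ζ h1 h4) (norm_nonneg _) (by positivity)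
    _ = (C * C') * ζ.im ^ (n + n') := by rw [pow_add]; ring

theorem A9_Gr_const (a : ℂ) : A9_Gr (fun _ => a) :=
  ⟨‖a‖, 0, 1, norm_nonneg _, le_rfl, fun ζ _ _ => by rw [pow_zero, mul_one]⟩

theorem A9_Gr_id : A9_Gr (fun ζ => ζ) := by
  refine ⟨2, 1, 1, by norm_num, le_rfl, fun ζ h1 h2 => ?_⟩
  have h3 := Complex.norm_le_abs_re_add_abs_im ζ
  rw [abs_of_nonneg (le_trans zero_le_one h2)] at h3
  rw [pow_one]
  linarith

theorem A9_Gr_sum {ι : Type} (S : Finset ι) {f : ι → ℂ → ℂ} (h : ∀ i ∈ S, A9_Gr (f i)) :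
    A9_Gr (fun ζ => ∑ i ∈ S, f i ζ) := by
  classical
  induction S using Finset.induction_on with
  | empty => simpa using A9_Gr_const 0
  | insert a S ha ih =>
    simp only [Finset.sum_insert ha]
    exact A9_Gr_add (h a (Finset.mem_insert_self a S))
      (ih fun i hi => h i (Finset.mem_insert_of_mem hi))

theorem A9_Gr_pow (n : ℕ) : A9_Gr (fun ζ => ζ ^ n) := by
  induction n with
  | zero => simpa using A9_Gr_const 1
  | succ n ih =>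
    simp only [pow_succ]
    exact A9_Gr_mul ih A9_Gr_id

theorem A9_Gr_poly (P : Polynomial ℂ) : A9_Gr (fun ζ => P.eval ζ) := by
  simp only [Polynomial.eval_eq_sum_range]
  exact A9_Gr_sum _ fun i _ => A9_Gr_mul (A9_Gr_const _) (A9_Gr_pow i)

/-- functions continuous in `q` at `0` are of moderate growth -/
theorem A9_Gr_qq {ε : ℝ} (hε : 0 < ε) {F : ℂ → ℂ} (hF : ContinuousOn F (Metric.ball 0 ε)) :
    A9_Gr (fun ζ => F (qq ζ)) := by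
  have hcpt : IsCompact (Metric.closedBall (0 : ℂ) (ε / 2)) := isCompact_closedBall _ _
  obtain ⟨C, hC⟩ := hcpt.exists_bound_of_continuousOn
    (hF.mono (Metric.closedBall_subset_ball (by linarith)))
  apply A9_Gr_mk
  refine ⟨C, 0, max 1 (-Real.log (ε / 2)), fun ζ _ h2 => ?_⟩
  rw [pow_zero, mul_one]
  apply hC
  rw [mem_closedBall_zero_iff, norm_qq]
  have h3 : (1 : ℝ) ≤ ζ.im := le_trans (le_max_left _ _) h2
  have h4 : -Real.log (ε / 2) ≤ ζ.im := le_trans (le_max_right _ _) h2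
  have h5 : Real.exp (-(2 * Real.pi * ζ.im)) ≤ Real.exp (Real.log (ε / 2)) := by
    apply Real.exp_le_exp.2
    have h6 : ζ.im ≤ 2 * Real.pi * ζ.im := by
      have := Real.pi_gt_three
      nlinarith
    linarith
  rwa [Real.exp_log (by positivity)] at h5

/-- the entries of the exponential are polynomials -/
theorem A9_exp_poly {N : Matrix (Fin r) (Fin r) ℝ} (hN : IsNilpotent N) (i j : Fin r) :
    ∃ P : Polynomial ℂ, ∀ ζ : ℂ, IsNilpotent.exp (ζ • cm N) i j = P.eval ζ := by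
  obtain ⟨k, hk⟩ := cus1_cm_nil hN
  refine ⟨∑ n ∈ Finset.range k, Polynomial.monomial n (((cm N) ^ n) i j / (n.factorial : ℂ)),
    fun ζ => ?_⟩
  rw [cus1_exp_eq (cm N) hk ζ, Matrix.sum_apply, Polynomial.eval_finset_sum]
  refine Finset.sum_congr rfl fun n _ => ?_
  rw [Polynomial.eval_monomial, Matrix.smul_apply, smul_eq_mul]
  ring

theorem A9_ur_one {c : Matrix (Fin r) (Fin s) ℝ} (hN : IsNilpotent N)
    (hc : IsNilpotent.exp (NV N c) =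
      Matrix.fromBlocks (IsNilpotent.exp N) (Matrix.of fun i b => -β b i) 0 1) (i : Fin r)
    (b : Fin s) : ur N c 1 i b = -((β b i : ℝ) : ℂ) := by
  have h1 : IsNilpotent.exp (cm (NV N c)) = cm (IsNilpotent.exp (NV N c)) := by
    have h2 := IsNilpotent.map_exp (nil_NV hN c)
      (Complex.ofRealHom.mapMatrix (m := Fin r ⊕ Fin s))
    exact h2.symm
  rw [ur, one_smul, h1, hc]
  show ((-β b i : ℝ) : ℂ) = _
  rw [Complex.ofReal_neg]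

/-- the inverse of the period matrix -/
noncomputable def A9_V (N : Matrix (Fin r) (Fin r) ℝ) (Ψ : ℂ → Matrix (Fin r) (Fin r) ℂ) (ζ : ℂ) :
    Matrix (Fin r) (Fin r) ℂ := (Ψ (qq ζ))⁻¹ * IsNilpotent.exp ((-ζ) • cm N)

theorem A9_exp_neg (hN : IsNilpotent N) (ζ : ℂ) :
    IsNilpotent.exp ((-ζ) • cm N) * IsNilpotent.exp (ζ • cm N) = 1 ∧
      IsNilpotent.exp (ζ • cm N) * IsNilpotent.exp ((-ζ) • cm N) = 1 := by
  have h := cus1_smul_nil (cus1_cm_nil hN) ζ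
  have h1 : (-ζ) • cm N = -(ζ • cm N) := by
    ext i j
    simp
  rw [h1]
  exact ⟨IsNilpotent.exp_neg_mul_exp_self h, IsNilpotent.exp_mul_exp_neg_self h⟩

theorem A9_VW (hN : IsNilpotent N) {Ψ : ℂ → Matrix (Fin r) (Fin r) ℂ} {ζ : ℂ}
    (hu : IsUnit (Ψ (qq ζ))) :
    A9_V N Ψ ζ * (IsNilpotent.exp (ζ • cm N) * Ψ (qq ζ)) = 1 ∧
      (IsNilpotent.exp (ζ • cm N) * Ψ (qq ζ)) * A9_V N Ψ ζ = 1 := by
  have hdet := (Matrix.isUnit_iff_isUnit_det _).mp hu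
  obtain ⟨h1, h2⟩ := A9_exp_neg hN ζ
  constructor
  · rw [A9_V, Matrix.mul_assoc, ← Matrix.mul_assoc (IsNilpotent.exp ((-ζ) • cm N)), h1,
      Matrix.one_mul, Matrix.nonsing_inv_mul _ hdet]
  · rw [A9_V, Matrix.mul_assoc, ← Matrix.mul_assoc (Ψ (qq ζ)), Matrix.mul_nonsing_inv _ hdet,
      Matrix.one_mul, h2]

theorem A9_V_per (hN : IsNilpotent N) (c : Matrix (Fin r) (Fin s) ℝ)
    (Ψ : ℂ → Matrix (Fin r) (Fin r) ℂ) (ζ : ℂ) :
    A9_V N Ψ (ζ + 1) * cm (IsNilpotent.exp N) = A9_V N Ψ ζ := by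
  have h1 : qq (ζ + 1) = qq ζ := by
    have := qq_add_nat ζ 1
    rwa [Nat.cast_one] at this
  have h2 := (ur_add hN c (-(ζ + 1))).1
  rw [show -(ζ + 1) + 1 = -ζ by ring] at h2
  rw [A9_V, A9_V, h1, h2, Matrix.mul_assoc]

theorem A9_V_diff {Ψ : ℂ → Matrix (Fin r) (Fin r) ℂ} {ε : ℝ} (hN : IsNilpotent N)
    (hΨ : ∀ i j, DifferentiableOn ℂ (fun q => Ψ q i j) (Metric.ball 0 ε))
    (hu : ∀ q ∈ Metric.ball (0 : ℂ) ε, IsUnit (Ψ q)) (i j : Fin r) :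
    DifferentiableOn ℂ (fun ζ => A9_V N Ψ ζ i j) {ζ : ℂ | ‖qq ζ‖ < ε} := by
  have h1 : (fun ζ => A9_V N Ψ ζ i j) = fun ζ =>
      ∑ k, (Ψ (qq ζ))⁻¹ i k * IsNilpotent.exp ((-ζ) • cm N) k j := by
    funext ζ
    rw [A9_V, Matrix.mul_apply]
  rw [h1]
  refine DifferentiableOn.fun_sum fun k _ => ?_
  refine DifferentiableOn.mul ?_ ?_
  · have h2 := MW38.homT_inv hΨ hu i k
    refine h2.comp tra2_differentiable_qq.differentiableOn ?_
    intro ζ hζ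
    rw [mem_ball_zero_iff]
    exact hζ
  · obtain ⟨P, hP⟩ := A9_exp_poly hN k j
    simp only [hP]
    exact (P.differentiable.comp differentiable_neg).differentiableOn

theorem A9_V_gr {Ψ : ℂ → Matrix (Fin r) (Fin r) ℂ} {ε : ℝ} (hε : 0 < ε) (hN : IsNilpotent N)
    (hΨ : ∀ i j, DifferentiableOn ℂ (fun q => Ψ q i j) (Metric.ball 0 ε))
    (hu : ∀ q ∈ Metric.ball (0 : ℂ) ε, IsUnit (Ψ q)) (i j : Fin r) :
    A9_Gr (fun ζ => A9_V N Ψ ζ i j) := by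
  have h1 : (fun ζ => A9_V N Ψ ζ i j) = fun ζ =>
      ∑ k, (Ψ (qq ζ))⁻¹ i k * IsNilpotent.exp ((-ζ) • cm N) k j := by
    funext ζ
    rw [A9_V, Matrix.mul_apply]
  rw [h1]
  refine A9_Gr_sum _ fun k _ => A9_Gr_mul ?_ ?_
  · exact A9_Gr_qq hε (F := fun q => (Ψ q)⁻¹ i k) (MW38.homT_inv hΨ hu i k).continuousOn
  · obtain ⟨P, hP⟩ := A9_exp_poly hN k j
    have h2 := A9_Gr_poly (P.comp (-Polynomial.X))
    simp only [Polynomial.eval_comp, Polynomial.eval_neg, Polynomial.eval_X] at h2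
    simp only [hP]
    exact h2

/-- the vector whose class is computed -/
noncomputable def A9_u (N : Matrix (Fin r) (Fin r) ℝ) (c : Matrix (Fin r) (Fin s) ℝ)
    (e : Fin s → ℂ → Fin r → ℂ) (b : Fin s) (ζ : ℂ) : Fin r → ℂ :=
  (fun i => ur N c ζ i b) + e b ζ

theorem A9_u_per (h : Pun w K Q D e N β) {c : Matrix (Fin r) (Fin s) ℝ}
    (hc : IsNilpotent.exp (NV N c) =
      Matrix.fromBlocks (IsNilpotent.exp N) (Matrix.of fun i b => -β b i) 0 1)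
    {ζ : ℂ} (hζ : ζ ∈ Hc 0) (b : Fin s) :
    A9_u N c e b (ζ + 1) = cm (IsNilpotent.exp N) *ᵥ A9_u N c e b ζ := by
  funext i
  rw [A9_u, A9_u, Pi.add_apply, h.perE b ζ hζ, (ur_add h.nil c ζ).2, Matrix.mulVec_add,
    Pi.add_apply, Pi.add_apply, Matrix.add_apply, A9_ur_one h.nil hc]
  have h1 : (cm (IsNilpotent.exp N) * ur N c ζ) i b =
      (cm (IsNilpotent.exp N) *ᵥ fun i => ur N c ζ i b) i := rfl
  rw [h1]
  have h2 : ofR (β b) i = ((β b i : ℝ) : ℂ) := rfl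
  rw [h2]
  ring

theorem A9_y_per (h : Pun w K Q D e N β) {c : Matrix (Fin r) (Fin s) ℝ}
    (hc : IsNilpotent.exp (NV N c) =
      Matrix.fromBlocks (IsNilpotent.exp N) (Matrix.of fun i b => -β b i) 0 1)
    (Ψ : ℂ → Matrix (Fin r) (Fin r) ℂ) {ζ : ℂ} (hζ : ζ ∈ Hc 0) (b : Fin s) :
    A9_V N Ψ (ζ + 1) *ᵥ A9_u N c e b (ζ + 1) = A9_V N Ψ ζ *ᵥ A9_u N c e b ζ := by
  rw [A9_u_per h hc hζ b, Matrix.mulVec_mulVec, A9_V_per h.nil c Ψ ζ]

theorem A9_y_gr (h : Pun w K Q D e N β) (c : Matrix (Fin r) (Fin s) ℝ)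
    {Ψ : ℂ → Matrix (Fin r) (Fin r) ℂ} {ε : ℝ} (hε : 0 < ε)
    (hΨ : ∀ i j, DifferentiableOn ℂ (fun q => Ψ q i j) (Metric.ball 0 ε))
    (hu : ∀ q ∈ Metric.ball (0 : ℂ) ε, IsUnit (Ψ q)) (b : Fin s) (i : Fin r) :
    A9_Gr (fun ζ => (A9_V N Ψ ζ *ᵥ A9_u N c e b ζ) i) := by
  have h1 : (fun ζ => (A9_V N Ψ ζ *ᵥ A9_u N c e b ζ) i) = fun ζ =>
      ∑ j, A9_V N Ψ ζ i j * (ur N c ζ j b + e b ζ j) := rfl
  rw [h1]
  refine A9_Gr_sum _ fun j _ => A9_Gr_mul (A9_V_gr hε h.nil hΨ hu i j) (A9_Gr_add ?_ ?_)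
  · obtain ⟨P, hP⟩ := ur_poly h.nil c j b
    simp only [hP]
    exact A9_Gr_poly P
  · obtain ⟨C, n, Y, hg⟩ := h.grow b
    exact A9_Gr_mk ⟨C, n, Y, fun ζ h1 h2 => hg ζ h1 h2 j⟩

theorem A9_y_diff (h : Pun w K Q D e N β) (c : Matrix (Fin r) (Fin s) ℝ) {p : Fin r → ℤ}
    {Ψ : ℂ → Matrix (Fin r) (Fin r) ℂ} {ε : ℝ} (hε1 : ε ≤ 1)
    (hΨ : ∀ i j, DifferentiableOn ℂ (fun q => Ψ q i j) (Metric.ball 0 ε))
    (hu : ∀ q ∈ Metric.ball (0 : ℂ) ε, IsUnit (Ψ q))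
    (hF : ∀ ζ, ‖qq ζ‖ < ε → ∀ l,
      MW38.Fl p (IsNilpotent.exp (ζ • cm N) * Ψ (qq ζ)) l = FS K (D ζ) l) (b : Fin s) {i : Fin r}
    (hi : p i < 0) :
    DifferentiableOn ℂ (fun ζ => (A9_V N Ψ ζ *ᵥ A9_u N c e b ζ) i) {ζ : ℂ | ‖qq ζ‖ < ε} := by
  have h1 : (fun ζ => (A9_V N Ψ ζ *ᵥ A9_u N c e b ζ) i) = fun ζ =>
      ∑ j, A9_V N Ψ ζ i j * (ur N c ζ j b + e b ζ j) := rfl
  rw [h1]
  intro ζ hζ
  have hζ0 : ζ ∈ Hc 0 := tra2_im_pos hε1 hζ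
  have hUo := tra2_isOpen_qq ε
  apply DifferentiableAt.differentiableWithinAt
  have hVd : ∀ j, DifferentiableAt ℂ (fun ζ => A9_V N Ψ ζ i j) ζ := fun j =>
    (A9_V_diff h.nil hΨ hu i j).differentiableAt (hUo.mem_nhds hζ)
  have hurd : ∀ j, DifferentiableAt ℂ (fun ζ => ur N c ζ j b) ζ := by
    intro j
    obtain ⟨P, hP⟩ := ur_poly h.nil c j b
    simp only [hP]
    exact P.differentiable.differentiableAt
  have hed : ∀ j, DifferentiableAt ℝ (fun ζ => e b ζ j) ζ := fun j =>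
    (h.xd.sme b j).differentiableAt (isOpen_Hc 0) hζ0
  have hsd : ∀ j, DifferentiableAt ℝ (fun ζ => ur N c ζ j b + e b ζ j) ζ := fun j =>
    ((hurd j).restrictScalars ℝ).add (hed j)
  apply diff_of_dzb
  · exact DifferentiableAt.fun_sum fun j _ => ((hVd j).restrictScalars ℝ).mul (hsd j)
  · have hsum := WirtM_dzb_sum (Finset.univ : Finset (Fin r))
      (f := fun j ζ => A9_V N Ψ ζ i j * (ur N c ζ j b + e b ζ j)) (z := ζ)
      fun j _ => ((hVd j).restrictScalars ℝ).mul (hsd j)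
    refine hsum.trans ?_
    have h2 : ∀ j, dzb (fun ζ => A9_V N Ψ ζ i j * (ur N c ζ j b + e b ζ j)) ζ =
        A9_V N Ψ ζ i j * DVb (e b) ζ j := by
      intro j
      rw [dzb_mul ((hVd j).restrictScalars ℝ) (hsd j), dzb_of_holo (hVd j), zero_mul, zero_add,
        dzb_add ((hurd j).restrictScalars ℝ) (hed j), dzb_of_holo (hurd j), zero_add]
      rfl
    simp only [h2]
    have huq : IsUnit (Ψ (qq ζ)) := hu _ (by rw [mem_ball_zero_iff]; exact hζ)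
    obtain ⟨hVW, hWV⟩ := A9_VW h.nil huq
    have hW : IsUnit (IsNilpotent.exp (ζ • cm N) * Ψ (qq ζ)) :=
      isUnit_iff_exists.2 ⟨_, hWV, hVW⟩
    have hinv : (IsNilpotent.exp (ζ • cm N) * Ψ (qq ζ))⁻¹ = A9_V N Ψ ζ :=
      Matrix.inv_eq_left_inv hVW
    have h3 : DVb (e b) ζ ∈ MW38.Fl p (IsNilpotent.exp (ζ • cm N) * Ψ (qq ζ)) 0 := by
      rw [hF ζ hζ 0]
      exact h.xd.d0 b ζ hζ0
    have h4 := (MW38.mem_Fl_iff hW _).1 h3 i hi
    rw [hinv] at h4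
    exact h4

theorem exists_mu (h : Pun w K Q D e N β) {p : Fin r → ℤ} {Ψ : ℂ → Matrix (Fin r) (Fin r) ℂ}
    {ε : ℝ} (hε : 0 < ε) (hε1 : ε ≤ 1)
    (hΨ : ∀ i j, DifferentiableOn ℂ (fun q => Ψ q i j) (Metric.ball 0 ε))
    (hu : ∀ q ∈ Metric.ball (0 : ℂ) ε, IsUnit (Ψ q))
    (hF : ∀ ζ, ‖qq ζ‖ < ε → ∀ l,
      MW38.Fl p (IsNilpotent.exp (ζ • cm N) * Ψ (qq ζ)) l = FS K (D ζ) l)
    {c : Matrix (Fin r) (Fin s) ℝ} (hc : IsNilpotent.exp (NV N c) =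
      Matrix.fromBlocks (IsNilpotent.exp N) (Matrix.of fun i b => -β b i) 0 1) :
    ∃ μ : ℂ → Matrix (Fin r) (Fin s) ℂ,
      (∀ i b, DifferentiableOn ℂ (fun q => μ q i b) (Metric.ball 0 ε)) ∧
      ∀ ζ, ‖qq ζ‖ < ε → ∀ b, (fun i => (IsNilpotent.exp (ζ • cm N) * μ (qq ζ) + ur N c ζ) i b) +
        e b ζ ∈ FS K (D ζ) 0 := by
  classical
  have hex : ∀ (b : Fin s) (i : Fin r), ∃ F : ℂ → ℂ, DifferentiableOn ℂ F (Metric.ball 0 ε) ∧
      (p i < 0 → ∀ ζ, ‖qq ζ‖ < ε → F (qq ζ) = (A9_V N Ψ ζ *ᵥ A9_u N c e b ζ) i) := by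
    intro b i
    by_cases hi : p i < 0
    · have hgr := A9_y_gr h c hε hΨ hu b i
      obtain ⟨C, n, Y, -, -, hgr⟩ := hgr
      obtain ⟨F, hF1, hF2⟩ := per_ext hε hε1 (A9_y_diff h c hε1 hΨ hu hF b hi)
        (fun ζ hζ => congrFun (A9_y_per h hc Ψ (tra2_im_pos hε1 hζ) b) i) ⟨C, n, Y, hgr⟩
      exact ⟨F, hF1, fun _ => hF2⟩
    · exact ⟨0, differentiableOn_const _, fun h => absurd h hi⟩
  choose F hF1 hF2 using hex
  refine ⟨fun q => Matrix.of fun i' b => -∑ i, Ψ q i' i * (if p i < 0 then F b i q else 0), ?_, ?_⟩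
  · intro i' b
    refine DifferentiableOn.neg (DifferentiableOn.fun_sum fun i _ => (hΨ i' i).mul ?_)
    by_cases hi : p i < 0
    · simp only [hi, if_true]
      exact hF1 b i
    · simp only [hi, if_false]
      exact differentiableOn_const _
  · intro ζ hζ b
    have huq : IsUnit (Ψ (qq ζ)) := hu _ (by rw [mem_ball_zero_iff]; exact hζ)
    obtain ⟨hVW, hWV⟩ := A9_VW h.nil huq
    rw [← hF ζ hζ 0, MW38.mem_Fl_iff_exists]
    refine ⟨fun i => if p i < 0 then 0 else (A9_V N Ψ ζ *ᵥ A9_u N c e b ζ) i, ?_, ?_⟩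
    · intro j hj
      simp only [hj, if_true]
    · have h1 : (fun i => if p i < 0 then 0 else (A9_V N Ψ ζ *ᵥ A9_u N c e b ζ) i) =
          A9_V N Ψ ζ *ᵥ A9_u N c e b ζ - fun i => if p i < 0 then F b i (qq ζ) else 0 := by
        funext i
        rw [Pi.sub_apply]
        by_cases hi : p i < 0
        · simp only [hi, if_true]
          rw [hF2 b i hi ζ hζ, sub_self]
        · simp only [hi, if_false, sub_zero]
      rw [h1, Matrix.mulVec_sub, Matrix.mulVec_mulVec, hWV, Matrix.one_mulVec,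
        ← Matrix.mulVec_mulVec]
      have h2 : (fun i => (IsNilpotent.exp (ζ • cm N) * (Matrix.of fun i' b => -∑ i,
          Ψ (qq ζ) i' i * (if p i < 0 then F b i (qq ζ) else 0)) + ur N c ζ) i b) =
          -(IsNilpotent.exp (ζ • cm N) *ᵥ (Ψ (qq ζ) *ᵥ
            fun i => if p i < 0 then F b i (qq ζ) else 0)) + fun i => ur N c ζ i b := by
        funext i
        rw [Matrix.add_apply, Pi.add_apply, Pi.neg_apply, Matrix.mul_apply]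
        simp only [Matrix.mulVec, dotProduct, Matrix.of_apply, mul_neg, Finset.sum_neg_distrib]
      rw [h2, A9_u]
      abel

end YA38
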