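import Pool.Agent.LibYA38.A4
import Pool.Agent.LibYA38.A5
import Pool.Agent.LibYA38.A6
import Pool.Agent.LibYA38.A9
import Pool.Agent.LibYA38.A10
import Pool.Agent.LibYA38.A11
import Pool.Agent.LibYA38.A12
import Pool.Agent.LibYA38.A13

/-!
The extension near a puncture is a local variation of mixed Hodge structure.

PLAN (assembly). exists_pw (A5) gives p, t. h.ext gives R, pq, ε₀. For q ≠ 0 in the ball take ζ with qq ζ = q: KS pq (R q) l is the image of FS K (D ζ) l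
under the invertible matrix exp (-ζ N): same dimension card {l ≤ p i}. `frames` (A4): Ψ, ε with Fl p (Ψ q) l = KS pq (R q) l; so Fl p (exp (ζ N) * Ψ
(qq ζ)) l = FS K (D ζ) l (Fl p (E * G) l is the image of Fl p G l under E; exp(ζN) exp(-ζN) = 1). exists_log (A8) with B i b = - β b i; exists_mu
(A9): μ. GZ (NV N c) (PsV Ψ μ) ζ = fromBlocks (exp (ζ N)) (ur N c ζ) 0 1 * fromBlocks (Ψ) (μ) 0 1 = fromBlocks (exp (ζN) Ψ) (exp(ζN) μ + ur) 0 1 (exp_blk): with
G = exp (ζN) Ψ, ν = exp(ζN) μ + ur the hypotheses of mem_V (A10), mhs_V (A11, A6) hold. tr: column inl j of GZ is Sum.elim (column j of G) 0 ∈ F^(p j), column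
inr b is Sum.elim (ν_b) (Pi.single b 1) ∈ F^0 (mem_V, columns are in Fl); A13 on the open set {‖qq ζ‖ < ε} and mem_V again (the derivative of the second
component is 0; FX (a-1) (x', 0): vv = x').
-/

open Matrix Complex Filter Topology
open UpperHalfPlane hiding I

namespace YA38

open SP38 US38 ZW67

variable {r s : ℕ} {w : ℤ} {K : ℕ} {Q : Matrix (Fin r) (Fin r) ℝ}
  {D : ℂ → Matrix (Fin r) (Fin r) ℂ} {e : Fin s → ℂ → Fin r → ℂ}
  {N : Matrix (Fin r) (Fin r) ℝ} {β : Fin s → Fin r → ℝ}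

theorem loc_V (h : Pun w K Q D e N β) : ∃ (p : Fin r → ℤ) (c : Matrix (Fin r) (Fin s) ℝ)
    (Ψ : ℂ → Matrix (Fin r) (Fin r) ℂ) (μ : ℂ → Matrix (Fin r) (Fin s) ℂ) (ε : ℝ), ε ≤ 1 ∧
      (∃ t : Equiv.Perm (Fin r), ∀ j, p (t j) = w - p j) ∧
      (∀ i, p i < -(s : ℤ) ∨ w - p i < -(s : ℤ)) ∧
      Pool.Agent.LibZE25.Loc (wtV r s w) (pV s p) (QV s Q) (NV N c) (PsV Ψ μ) ε ∧
      ∀ ζ, ‖qq ζ‖ < ε → ∀ a x y, Sum.elim x y ∈ MW38.Fl (pV s p)
        (Pool.Agent.LibZE25.GZ (NV N c) (PsV Ψ μ) ζ) a ↔ FX K D e a x y ζ := by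
  classical
  obtain ⟨p, ht, hdim, hP⟩ := exists_pw h.xd.gd
  obtain ⟨β', hβ', pq, R, ε₀, hε₀, hε₀1, hR, hRF⟩ := h.ext
  have hnil : IsNilpotent (cm N) := cus1_cm_nil h.nil
  have hE0 : ∀ ζ : ℂ, IsNilpotent.exp (ζ • cm N) * IsNilpotent.exp (-ζ • cm N) = 1 := fun ζ => by
    rw [← cus1_exp_add hnil, add_neg_cancel, zero_smul, IsNilpotent.exp_zero]
  have hE0' : ∀ ζ : ℂ, IsNilpotent.exp (-ζ • cm N) * IsNilpotent.exp (ζ • cm N) = 1 :=
    fun ζ => by
      rw [← cus1_exp_add hnil, neg_add_cancel, zero_smul, IsNilpotent.exp_zero]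
  have hFS : ∀ ζ, ‖qq ζ‖ < ε₀ → ∀ l, FS K (D ζ) l =
      (KS pq (R (qq ζ)) l).map (Matrix.mulVecLin (IsNilpotent.exp (ζ • cm N))) := by
    intro ζ hζ l
    ext x
    rw [hRF ζ hζ l x, Submodule.mem_map]
    constructor
    · intro hx
      exact ⟨_, hx, by
        rw [Matrix.mulVecLin_apply, Matrix.mulVec_mulVec, hE0, Matrix.one_mulVec]⟩
    · rintro ⟨y, hy, rfl⟩
      rw [Matrix.mulVecLin_apply, Matrix.mulVec_mulVec, hE0', Matrix.one_mulVec]
      exact hy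
  have hdim' : ∀ q ∈ Metric.ball (0 : ℂ) ε₀, q ≠ 0 → ∀ l,
      Module.finrank ℂ (KS pq (R q) l) = Fintype.card {i // l ≤ p i} := by
    intro q hq hq0 l
    obtain ⟨ζ, rfl⟩ := lim1_surj hq0
    rw [mem_ball_zero_iff] at hq
    rw [← hdim ζ (tra2_im_pos hε₀1 hq) l, hFS ζ hq l]
    have hinj : Function.Injective (Matrix.mulVecLin (IsNilpotent.exp (ζ • cm N))) := by
      intro x y hxy
      rw [Matrix.mulVecLin_apply, Matrix.mulVecLin_apply] at hxy
      have h2 := congrArg (fun v => IsNilpotent.exp (-ζ • cm N) *ᵥ v) hxy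
      simp only [Matrix.mulVec_mulVec, hE0', Matrix.one_mulVec] at h2
      exact h2
    exact (Submodule.equivMapOfInjective _ hinj _).finrank_eq
  obtain ⟨ε, Ψ, hε, hεle, hΨ, hu, hK⟩ := frames hε₀ hR hdim'
  have hε1 : ε ≤ 1 := hεle.trans hε₀1
  have hqne : ∀ ζ, qq ζ ≠ 0 := fun ζ => Complex.exp_ne_zero _
  have hF : ∀ ζ, ‖qq ζ‖ < ε → ∀ l,
      MW38.Fl p (IsNilpotent.exp (ζ • cm N) * Ψ (qq ζ)) l = FS K (D ζ) l := by
    intro ζ hζ l
    rw [MW38.Fl_mul, hK (qq ζ) (by rw [mem_ball_zero_iff]; exact hζ) (hqne ζ) l,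
      hFS ζ (lt_of_lt_of_le hζ hεle) l]
  obtain ⟨c, hcn, hc⟩ := exists_log h.nil (Matrix.of fun i b => -β b i)
  obtain ⟨μ, hμ, hμF⟩ := exists_mu h hε hε1 hΨ hu hF hc
  -- the frame in the coordinate ζ
  have hGZ : ∀ ζ, Pool.Agent.LibZE25.GZ (NV N c) (PsV Ψ μ) ζ = Matrix.fromBlocks
      (IsNilpotent.exp (ζ • cm N) * Ψ (qq ζ))
      (IsNilpotent.exp (ζ • cm N) * μ (qq ζ) + ur N c ζ) 0 1 := by
    intro ζ
    obtain ⟨φ, hφ⟩ := exp_blk h.nil c ζ
    have hur : ur N c ζ = φ := by rw [ur, hφ, Matrix.toBlocks_fromBlocks₁₂]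
    rw [Pool.Agent.LibZE25.GZ, PsV, hφ, Matrix.fromBlocks_multiply, hur]
    simp
  have hGu : ∀ ζ, ‖qq ζ‖ < ε → IsUnit (IsNilpotent.exp (ζ • cm N) * Ψ (qq ζ)) := fun ζ hζ =>
    (IsNilpotent.isUnit_exp (cus1_smul_nil hnil ζ)).mul
      (hu _ (by rw [mem_ball_zero_iff]; exact hζ))
  have hmem : ∀ ζ, ‖qq ζ‖ < ε → ∀ a x y, Sum.elim x y ∈ MW38.Fl (pV s p)
      (Pool.Agent.LibZE25.GZ (NV N c) (PsV Ψ μ) ζ) a ↔ FX K D e a x y ζ := by
    intro ζ hζ a x y
    rw [hGZ]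
    exact mem_V (hGu ζ hζ) (hF ζ hζ) (hμF ζ hζ) a x y
  -- differentiability
  have hexpd : ∀ (i l : Fin r), Differentiable ℂ (fun z : ℂ => IsNilpotent.exp (z • cm N) i l) :=
    fun i l z => (cus3_hasDerivAt_exp hnil z i l).differentiableAt
  have hball : ∀ ζ ∈ {ζ : ℂ | ‖qq ζ‖ < ε}, qq ζ ∈ Metric.ball (0 : ℂ) ε := fun ζ hζ => by
    rw [mem_ball_zero_iff]
    exact hζ
  have hcomp : ∀ f : ℂ → ℂ, DifferentiableOn ℂ f (Metric.ball 0 ε) →
      DifferentiableOn ℂ (fun ζ => f (qq ζ)) {ζ : ℂ | ‖qq ζ‖ < ε} := fun f hf =>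
    hf.comp tra2_differentiable_qq.differentiableOn hball
  have hGd : ∀ i j, DifferentiableOn ℂ
      (fun ζ => (IsNilpotent.exp (ζ • cm N) * Ψ (qq ζ)) i j) {ζ : ℂ | ‖qq ζ‖ < ε} := by
    intro i j
    simp only [Matrix.mul_apply]
    refine DifferentiableOn.fun_sum fun l _ => ?_
    exact (hexpd i l).differentiableOn.mul (hcomp _ (hΨ l j))
  have hνd : ∀ i b, DifferentiableOn ℂ
      (fun ζ => (IsNilpotent.exp (ζ • cm N) * μ (qq ζ) + ur N c ζ) i b)
      {ζ : ℂ | ‖qq ζ‖ < ε} := by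
    intro i b
    obtain ⟨f, hf⟩ := ur_poly h.nil c i b
    simp only [Matrix.add_apply, Matrix.mul_apply, hf]
    refine DifferentiableOn.add (DifferentiableOn.fun_sum fun l _ => ?_)
      f.differentiable.differentiableOn
    exact (hexpd i l).differentiableOn.mul (hcomp _ (hμ l b))
  have hcolL : ∀ ζ (j : Fin r), (fun i => Pool.Agent.LibZE25.GZ (NV N c) (PsV Ψ μ) ζ i
      (Sum.inl j)) = Sum.elim (fun i => (IsNilpotent.exp (ζ • cm N) * Ψ (qq ζ)) i j) 0 := by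
    intro ζ j
    rw [hGZ]
    ext i
    rcases i with i | i <;> rfl
  have hcolR : ∀ ζ (b : Fin s), (fun i => Pool.Agent.LibZE25.GZ (NV N c) (PsV Ψ μ) ζ i
      (Sum.inr b)) = Sum.elim (fun i => (IsNilpotent.exp (ζ • cm N) * μ (qq ζ) + ur N c ζ) i b)
        (Pi.single b 1) := by
    intro ζ b
    rw [hGZ]
    ext i
    rcases i with i | i
    · rfl
    · simp [Matrix.one_apply, Pi.single_apply]
  have hopen : IsOpen {ζ : ℂ | ‖qq ζ‖ < ε} := tra2_isOpen_qq ε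
  have hsub : {ζ : ℂ | ‖qq ζ‖ < ε} ⊆ Hc 0 := fun ζ hζ => tra2_im_pos hε1 hζ
  have hvv : ∀ (x : Fin r → ℂ) (z : ℂ), vv e x 0 z = x := by
    intro x z
    simp [vv]
  have hcolmem : ∀ ζ (j : Fin r ⊕ Fin s),
      (fun i => Pool.Agent.LibZE25.GZ (NV N c) (PsV Ψ μ) ζ i j) ∈ MW38.Fl (pV s p)
        (Pool.Agent.LibZE25.GZ (NV N c) (PsV Ψ μ) ζ) (pV s p j) := fun ζ j =>
    Submodule.subset_span ⟨j, le_rfl, rfl⟩
  refine ⟨p, c, Ψ, μ, ε, hε1, ht, ?_, ?_, hmem⟩
  · intro i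
    have hI : (I : ℂ) ∈ Hc 0 := by
      simp [Hc]
    exact h.xd.types I hI (p i) (hP I hI i)
  · refine ⟨hε, hcn, tri_NV c h.xd.neg, isom_V h.xd.neg (IsNilpotent.isUnit_exp h.nil) hc h.iso,
      ?_, ?_, ?_, ?_⟩
    · rintro (i | i) (j | j)
      · exact hΨ i j
      · exact hμ i j
      · exact differentiableOn_const _
      · exact differentiableOn_const _
    · intro q hq
      constructor
      · rw [Matrix.isUnit_iff_isUnit_det, PsV, Matrix.det_fromBlocks_zero₂₁, Matrix.det_one, mul_one]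
        exact (Matrix.isUnit_iff_isUnit_det _).1 (hu q hq)
      · rintro (i | i) (j | j) hij
        · exact absurd hij (lt_irrefl _)
        · exact absurd (lt_trans hij h.xd.neg) (lt_irrefl _)
        · rfl
        · exact absurd hij (lt_irrefl _)
    · intro ζ hζ
      rw [hGZ]
      exact mhs_V _ h.xd.neg (phs_of_gd (isOpen_Hc 0) h.xd.gd (hsub hζ) (hGu ζ hζ) (hF ζ hζ))
    · intro ζ hζ j
      rcases j with j | b
      · have e1 : (fun i => deriv (fun ζ => Pool.Agent.LibZE25.GZ (NV N c) (PsV Ψ μ) ζ i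
            (Sum.inl j)) ζ) = Sum.elim (fun i => deriv
              (fun ζ => (IsNilpotent.exp (ζ • cm N) * Ψ (qq ζ)) i j) ζ) 0 := by
          ext i
          have e2 : (fun ζ => Pool.Agent.LibZE25.GZ (NV N c) (PsV Ψ μ) ζ i (Sum.inl j)) =
              fun ζ => (Sum.elim (fun i => (IsNilpotent.exp (ζ • cm N) * Ψ (qq ζ)) i j) 0 :
                Fin r ⊕ Fin s → ℂ) i := by
            funext z
            exact congrFun (hcolL z j) i
          rw [e2]
          rcases i with i | i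
          · rfl
          · simp
        rw [e1, hmem ζ hζ]
        refine ⟨fun _ => rfl, fun l hl => ?_⟩
        rw [hvv]
        have h3 := FX_deriv h.xd (a := p j)
          (x := fun z i => (IsNilpotent.exp (z • cm N) * Ψ (qq z)) i j) (y := 0) hopen hsub
          (fun i => hGd i j) (fun z hz => by
            rw [← hmem z hz, ← hcolL]
            exact hcolmem z (Sum.inl j)) hζ
        exact h3 l hl
      · have e1 : (fun i => deriv (fun ζ => Pool.Agent.LibZE25.GZ (NV N c) (PsV Ψ μ) ζ i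
            (Sum.inr b)) ζ) = Sum.elim (fun i => deriv
              (fun ζ => (IsNilpotent.exp (ζ • cm N) * μ (qq ζ) + ur N c ζ) i b) ζ) 0 := by
          ext i
          have e2 : (fun ζ => Pool.Agent.LibZE25.GZ (NV N c) (PsV Ψ μ) ζ i (Sum.inr b)) =
              fun ζ => (Sum.elim (fun i => (IsNilpotent.exp (ζ • cm N) * μ (qq ζ) +
                ur N c ζ) i b) (Pi.single b 1) : Fin r ⊕ Fin s → ℂ) i := by
            funext z
            exact congrFun (hcolR z b) i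
          rw [e2]
          rcases i with i | i
          · rfl
          · simp
        rw [e1, hmem ζ hζ]
        refine ⟨fun _ => rfl, fun l hl => ?_⟩
        rw [hvv]
        have h3 := FX_deriv h.xd (a := 0)
          (x := fun z i => (IsNilpotent.exp (z • cm N) * μ (qq z) + ur N c z) i b)
          (y := Pi.single b 1) hopen hsub
          (fun i => hνd i b) (fun z hz => by
            rw [← hmem z hz, ← hcolR]
            exact hcolmem z (Sum.inr b)) hζ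
        exact h3 l hl

end YA38
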