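import Pool.Agent.LibYA38.A14
import Pool.Agent.LibYA38.A15
import Pool.Agent.LibZE25.LocMain2
import Pool.Agent.LibZE25.LocMain2

/-!
New Hodge classes do not accumulate at a puncture.

PLAN (assembly with LibZE25 Loc.main2). loc_V gives Loc. Let E be the real subspace of the u : Fin r ⊕ Fin s → ℝ with HX K D e u z for all z ∈ Hc 0
(the condition is ℝ-linear in u). Suppose the conclusion fails: then ∃ᶠ ζ in strip, ∃ u ∉ E, tC u ∈ Fl (pV s p) (GZ ζ) 0 (strip is the filter im → ∞, 0 ≤ re ≤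
1, see LibZE25 GloI `hfr'`). Apply Loc.main2 with m = s, c₀ = 0 (or large enough that ‖qq ζ‖ < ε): hwt: w < 0 and 0; hs: from t (Equiv.sumCongr t 1); hm:
the indices of weight 0 are the inr b, card = s; hty: the inl i; hE: if tC u ∈ F^0 for im ζ > c then HX u on an open set, so everywhere (A14 FX_global), u ∈ E;
hE': by the translation; hFP: e = Sum.elim x y in F^(1-s) near the puncture, so everywhere (A14, 1 - s ≤ 0), the same for the conjugate vector;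
FPX gives F^0 everywhere.
-/

open Matrix Complex Filter Topology
open UpperHalfPlane hiding I

namespace YA38

open SP38 US38 ZW67

variable {r s : ℕ} {w : ℤ} {K : ℕ} {Q : Matrix (Fin r) (Fin r) ℝ}
  {D : ℂ → Matrix (Fin r) (Fin r) ℂ} {e : Fin s → ℂ → Fin r → ℂ}
  {N : Matrix (Fin r) (Fin r) ℝ} {β : Fin s → Fin r → ℝ}

theorem A16_vv_add (e : Fin s → ℂ → Fin r → ℂ) (u v : Fin r ⊕ Fin s → ℝ) (z : ℂ) :
    vv e (rv (u + v)).1 (rv (u + v)).2 z =
      vv e (rv u).1 (rv u).2 z + vv e (rv v).1 (rv v).2 z := by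
  funext i
  simp only [vv, rv, Pi.add_apply, Finset.sum_apply, Pi.smul_apply, smul_eq_mul]
  push_cast
  simp only [add_mul, Finset.sum_add_distrib]
  ring

theorem A16_vv_smul (e : Fin s → ℂ → Fin r → ℂ) (c : ℝ) (u : Fin r ⊕ Fin s → ℝ) (z : ℂ) :
    vv e (rv (c • u)).1 (rv (c • u)).2 z = (c : ℂ) • vv e (rv u).1 (rv u).2 z := by
  funext i
  simp only [vv, rv, Pi.add_apply, Finset.sum_apply, Pi.smul_apply, smul_eq_mul]
  push_cast
  rw [mul_add, Finset.mul_sum]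
  simp only [mul_assoc]

theorem A16_vv_zero (e : Fin s → ℂ → Fin r → ℂ) (z : ℂ) :
    vv e (rv (0 : Fin r ⊕ Fin s → ℝ)).1 (rv (0 : Fin r ⊕ Fin s → ℝ)).2 z = 0 := by
  funext i
  simp [vv, rv]

/-- the real classes which are Hodge classes everywhere -/
noncomputable def A16_E (K : ℕ) (D : ℂ → Matrix (Fin r) (Fin r) ℂ) (e : Fin s → ℂ → Fin r → ℂ) :
    Submodule ℝ (Fin r ⊕ Fin s → ℝ) where
  carrier := {u | ∀ z ∈ Hc 0, HX K D e u z}
  add_mem' := by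
    intro u v hu hv z hz
    refine ⟨fun h => absurd h (lt_irrefl _), fun l hl => ?_⟩
    rw [A16_vv_add, Matrix.mulVec_add, (hu z hz).2 l hl, (hv z hz).2 l hl, add_zero]
  zero_mem' := by
    intro z _
    refine ⟨fun h => absurd h (lt_irrefl _), fun l _ => ?_⟩
    rw [A16_vv_zero, Matrix.mulVec_zero]
  smul_mem' := by
    intro c u hu z hz
    refine ⟨fun h => absurd h (lt_irrefl _), fun l hl => ?_⟩
    rw [A16_vv_smul, Matrix.mulVec_smul, (hu z hz).2 l hl, smul_zero]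

theorem local_main (hs1 : 1 ≤ s) (h : Pun w K Q D e N β) (hFP : FPX K D e) : ∃ Y : ℝ, ∀ ζ : ℂ, 0 ≤ ζ.re →
    ζ.re ≤ 1 → Y < ζ.im → ∀ u : Fin r ⊕ Fin s → ℝ, HX K D e u ζ → ∀ z ∈ Hc 0, HX K D e u z := by
  obtain ⟨p, c, Ψ, μ, ε, hε1, ⟨t, ht⟩, hty0, hloc, hmem⟩ := loc_V h
  have hpi := Real.pi_pos
  -- the half plane
  obtain ⟨y0, hy0⟩ : ∃ y : ℝ, ∀ ζ : ℂ, y < ζ.im → ‖qq ζ‖ < ε := by
    refine ⟨-Real.log ε / (2 * Real.pi), fun ζ hζ => ?_⟩
    rw [norm_qq, ← Real.lt_log_iff_exp_lt hloc.eps]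
    rw [div_lt_iff₀ (by positivity)] at hζ
    nlinarith
  set Z : ℝ := max y0 0 with hZ
  have hZq : ∀ ζ : ℂ, Z < ζ.im → ‖qq ζ‖ < ε := fun ζ hζ =>
    hy0 ζ (lt_of_le_of_lt (le_max_left _ _) hζ)
  have hZH : ∀ ζ : ℂ, Z < ζ.im → ζ ∈ Hc 0 := fun ζ hζ =>
    lt_of_le_of_lt (le_max_right _ _) hζ
  -- the dictionary
  have hel : ∀ v : Fin r ⊕ Fin s → ℂ, v = Sum.elim (fun i => v (Sum.inl i))
      (fun b => v (Sum.inr b)) := by
    intro v
    funext i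
    rcases i with i | i <;> rfl
  have hdic : ∀ (v : Fin r ⊕ Fin s → ℂ) (ζ : ℂ) (a : ℤ), Z < ζ.im →
      (v ∈ MW38.Fl (pV s p) (Pool.Agent.LibZE25.GZ (NV N c) (PsV Ψ μ) ζ) a ↔
        FX K D e a (fun i => v (Sum.inl i)) (fun b => v (Sum.inr b)) ζ) := by
    intro v ζ a hζ
    rw [← hmem ζ (hZq ζ hζ) a, ← hel v]
  have hglob : ∀ (v : Fin r ⊕ Fin s → ℂ) (a : ℤ), a ≤ 0 →
      (∃ c' : ℝ, ∀ ζ : ℂ, c' < ζ.im →
        v ∈ MW38.Fl (pV s p) (Pool.Agent.LibZE25.GZ (NV N c) (PsV Ψ μ) ζ) a) →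
      ∀ z ∈ Hc 0, FX K D e a (fun i => v (Sum.inl i)) (fun b => v (Sum.inr b)) z := by
    rintro v a ha ⟨c', hc'⟩
    refine FX_global h.xd ha (U := Hc (max c' Z)) ?_ ?_ ?_ ?_
    · exact isOpen_Hc _
    · intro z hz
      exact hZH z (lt_of_le_of_lt (le_max_right _ _) hz)
    · refine ⟨((max c' Z + 1 : ℝ) : ℂ) * I, ?_⟩
      show max c' Z < _
      simp
    · intro z hz
      exact (hdic v z a (lt_of_le_of_lt (le_max_right _ _) hz)).1
        (hc' z (lt_of_le_of_lt (le_max_left _ _) hz))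
  by_contra hcon
  push Not at hcon
  have hwt : ∀ i, wtV r s w i ≤ 0 := by
    intro i
    rcases i with i | i
    · exact h.xd.neg.le
    · exact le_rfl
  have hs : ∃ σ : Equiv.Perm (Fin r ⊕ Fin s), ∀ j, wtV r s w (σ j) = wtV r s w j ∧
      pV s p (σ j) = wtV r s w j - pV s p j := by
    refine ⟨Equiv.sumCongr t (Equiv.refl _), fun j => ?_⟩
    rcases j with j | j
    · exact ⟨rfl, ht j⟩
    · exact ⟨rfl, by simp [pV, wtV]⟩
  have hm : Fintype.card {i // wtV r s w i = 0} ≤ s := by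
    have h1 := Fintype.card_le_of_surjective
      (fun b : Fin s => (⟨Sum.inr b, rfl⟩ : {i // wtV r s w i = 0})) (by
        rintro ⟨i | i, hi⟩
        · have h2 : w = 0 := hi
          exact absurd h2 h.xd.neg.ne
        · exact ⟨i, rfl⟩)
    rwa [Fintype.card_fin] at h1
  have hty : ∀ i, wtV r s w i < 0 → pV s p i < -(s : ℤ) ∨ wtV r s w i - pV s p i < -(s : ℤ) := by
    intro i hi
    rcases i with i | i
    · exact hty0 i
    · exact absurd hi (lt_irrefl _)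
  refine hloc.main2 hwt hs hm hty (c₀ := Z) ?_ (A16_E K D e) ?_ ?_ ?_
  · intro v h1 h2 ζ hζ h3
    have hs0 : (1 - (s : ℤ)) ≤ 0 := by
      have : (1 : ℤ) ≤ s := by exact_mod_cast hs1
      linarith
    have g1 := hglob v (1 - s) hs0 h1
    have g2 := hglob (fun b => (starRingEnd ℂ) (v b)) (1 - s) hs0 h2
    have g3 := hFP (fun i => v (Sum.inl i)) (fun b => v (Sum.inr b)) g1 g2
      ⟨ζ, hZH ζ hζ, (hdic v ζ 0 hζ).1 h3⟩
    exact ⟨Z, fun ζ' hζ' => (hdic v ζ' 0 hζ').2 (g3 ζ' (hZH ζ' hζ'))⟩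
  · intro u hu z hz
    exact hglob (MW38.tC u) 0 le_rfl hu z hz
  · refine ⟨Z, fun u hu ζ hζ => ?_⟩
    exact (hdic (MW38.tC u) ζ 0 hζ).2 (hu ζ (hZH ζ hζ))
  · intro hev
    unfold strip at hev
    rw [Filter.eventually_inf_principal, Filter.eventually_comap] at hev
    obtain ⟨y', hy'⟩ := Filter.eventually_atTop.1 hev
    obtain ⟨ζ, h1, h2, h3, u, h4, z, h5, h6⟩ := hcon (max y' Z)
    refine hy' ζ.im ((le_max_left _ _).trans h3.le) ζ rfl ⟨h1, h2⟩ ⟨u, fun hu => h6 (hu z h5), ?_⟩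
    exact (hdic (MW38.tC u) ζ 0 (lt_of_le_of_lt (le_max_right _ _) h3)).2 h4

end YA38
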