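import Pool.Agent.LibYA38.YDef

/-!
A holomorphic family of subspaces on a punctured disc extends to the disc.

PLAN. For I : Fin f → Fin r let m_I q = det ((G q).submatrix I id), holomorphic on the ball. Some m_I is not identically zero near 0
(pick q₁ ≠ 0: G q₁ is injective, so some f × f minor is nonzero; use finitely many I and isolated zeros: there is ε₁ such that for
every I either m_I = 0 on the ball ε₁ or m_I has no zeros in the punctured ball ε₁, and some I is of the second kind). Among the I of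
the second kind choose one with minimal order of vanishing at 0 (analyticOrderAt (m_I) 0, a natural number). For q ≠ 0 small put
B q = G q * (G_I q)⁻¹ = (m_I q)⁻¹ • (G q * adjugate (G_I q)). The entry (k, j) of G q * adjugate (G_I q) is the minor m_J q where J = I
with the value at j replaced by k (Cramer: Matrix.cramer / updateRow: det of the updated matrix is linear in the row), so it is 0
identically or its order is ≥ the order of m_I: the quotient extends holomorphically to 0 (AnalyticAt: m_J = q^n g, m_I = q^m h,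
h 0 ≠ 0, n ≥ m; or: it is bounded near 0, removable singularity). B q rows I = 1 for q ≠ 0, also at 0 by continuity.
-/

open Matrix Complex Filter Topology
open UpperHalfPlane hiding I

namespace YA38

open SP38 US38 ZW67

private theorem A2_minor {r f : ℕ} (M : Matrix (Fin r) (Fin f) ℂ)
    (h : ∀ v : Fin f → ℂ, M *ᵥ v = 0 → v = 0) :
    ∃ e : Fin f → Fin r, (M.submatrix e id).det ≠ 0 := by
  have hinj : Function.Injective M.mulVecLin := by
    rw [← LinearMap.ker_eq_bot, LinearMap.ker_eq_bot']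
    intro v hv
    exact h v (by rwa [Matrix.mulVecLin_apply] at hv)
  have hrank : M.rank = Fintype.card (Fin f) := by
    unfold Matrix.rank
    rw [LinearMap.finrank_range_of_inj hinj, Module.finrank_fintype_fun_eq_card]
  rw [Matrix.rank_eq_finrank_span_row] at hrank
  have htop : Submodule.span ℂ (Set.range M.row) = ⊤ := by
    apply Submodule.eq_top_of_finrank_eq
    rw [hrank, Module.finrank_fintype_fun_eq_card]
  obtain ⟨κ', a, -, hspan, hli⟩ := exists_linearIndependent' ℂ M.row
  rw [htop] at hspan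
  let b : Module.Basis κ' ℂ (Fin f → ℂ) := Module.Basis.mk hli hspan.ge
  let g : Fin f ≃ κ' := (Pi.basisFun ℂ (Fin f)).indexEquiv b
  refine ⟨fun k => a (g k), ?_⟩
  have hli' : LinearIndependent ℂ (fun k => M.row (a (g k))) := hli.comp g g.injective
  have h1 : IsUnit (M.submatrix (fun k => a (g k)) id) := by
    rw [← Matrix.linearIndependent_rows_iff_isUnit]
    exact hli'
  exact ((Matrix.isUnit_iff_isUnit_det _).1 h1).ne_zero

private theorem A2_diff_det {f : ℕ} {S : Set ℂ} {A : ℂ → Matrix (Fin f) (Fin f) ℂ}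
    (hA : ∀ i j, DifferentiableOn ℂ (fun q => A q i j) S) :
    DifferentiableOn ℂ (fun q => (A q).det) S := by
  simp only [Matrix.det_apply']
  refine DifferentiableOn.fun_sum fun σ _ => ?_
  refine DifferentiableOn.const_mul ?_ _
  exact DifferentiableOn.fun_finsetProd fun i _ => hA _ _

private theorem A2_cramer {r f : ℕ} (M : Matrix (Fin r) (Fin f) ℂ) (I : Fin f → Fin r)
    (k : Fin r) (j : Fin f) : (M * (M.submatrix I id).adjugate) k j =
      (M.submatrix (Function.update I j k) id).det := by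
  have h1 := Matrix.cramer_transpose_apply (M.submatrix I id) (M k) j
  rw [Matrix.cramer_eq_adjugate_mulVec, ← Matrix.adjugate_transpose] at h1
  have h2 : (M.submatrix I id).updateRow j (M k) = M.submatrix (Function.update I j k) id := by
    ext a b
    by_cases ha : a = j
    · subst ha
      rw [Matrix.updateRow_self, Matrix.submatrix_apply, Function.update_self]
      rfl
    · rw [Matrix.updateRow_ne ha, Matrix.submatrix_apply, Matrix.submatrix_apply,
        Function.update_of_ne ha]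
  rw [h2] at h1
  rw [← h1, Matrix.mul_apply, Matrix.mulVec, dotProduct]
  refine Finset.sum_congr rfl fun l _ => ?_
  rw [Matrix.transpose_apply, mul_comm]

theorem norm_frame {r f : ℕ} {ε : ℝ} (hε : 0 < ε) {G : ℂ → Matrix (Fin r) (Fin f) ℂ}
    (hG : ∀ i j, DifferentiableOn ℂ (fun q => G q i j) (Metric.ball 0 ε))
    (hi : ∀ q ∈ Metric.ball (0 : ℂ) ε, q ≠ 0 → ∀ y, G q *ᵥ y = 0 → y = 0) :
    ∃ (ε' : ℝ) (I : Fin f → Fin r) (B : ℂ → Matrix (Fin r) (Fin f) ℂ), 0 < ε' ∧ ε' ≤ ε ∧
      (∀ i j, DifferentiableOn ℂ (fun q => B q i j) (Metric.ball 0 ε')) ∧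
      (∀ q ∈ Metric.ball (0 : ℂ) ε', (B q).submatrix I id = 1) ∧
      ∀ q ∈ Metric.ball (0 : ℂ) ε', q ≠ 0 →
        ∀ x, (∃ y, x = G q *ᵥ y) ↔ ∃ y, x = B q *ᵥ y := by
  classical
  let m : (Fin f → Fin r) → ℂ → ℂ := fun J q => ((G q).submatrix J id).det
  have hman : ∀ J, AnalyticAt ℂ (m J) 0 := by
    intro J
    have h1 : DifferentiableOn ℂ (m J) (Metric.ball 0 ε) := A2_diff_det fun i j => hG (J i) j
    exact h1.analyticAt (Metric.isOpen_ball.mem_nhds (Metric.mem_ball_self hε))
  have hdata : ∀ J, ∃ (n : ℕ) (g : ℂ → ℂ), AnalyticAt ℂ g 0 ∧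
      ((g 0 ≠ 0 ∧ ∀ᶠ z in 𝓝 (0 : ℂ), m J z = z ^ n * g z) ∨
        (g 0 = 0 ∧ ∀ᶠ z in 𝓝 (0 : ℂ), m J z = 0)) := by
    intro J
    by_cases h : ∀ᶠ z in 𝓝 (0 : ℂ), m J z = 0
    · exact ⟨0, fun _ => 0, analyticAt_const, Or.inr ⟨rfl, h⟩⟩
    · obtain ⟨n, g, hg, hg0, hgz⟩ := (hman J).exists_eventuallyEq_pow_smul_nonzero_iff.2 h
      refine ⟨n, g, hg, Or.inl ⟨hg0, ?_⟩⟩
      filter_upwards [hgz] with z hz
      rw [hz, sub_zero, smul_eq_mul]
  choose n g hga hgd using hdata
  have hP : ∀ J, g J 0 ≠ 0 → ∀ᶠ z in 𝓝 (0 : ℂ), m J z = z ^ n J * g J z := by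
    intro J hJ
    rcases hgd J with h | h
    · exact h.2
    · exact absurd h.1 hJ
  have hQ : ∀ J, ¬ g J 0 ≠ 0 → ∀ᶠ z in 𝓝 (0 : ℂ), m J z = 0 := by
    intro J hJ
    rcases hgd J with h | h
    · exact absurd h.1 hJ
    · exact h.2
  -- a common neighbourhood
  have hev : ∀ᶠ z in 𝓝 (0 : ℂ), ∀ J, AnalyticAt ℂ (g J) z ∧
      (g J 0 ≠ 0 → m J z = z ^ n J * g J z ∧ g J z ≠ 0) ∧ (¬ g J 0 ≠ 0 → m J z = 0) := by
    rw [Filter.eventually_all]
    intro J
    by_cases hJ : g J 0 ≠ 0
    · filter_upwards [(hga J).eventually_analyticAt, hP J hJ,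
        (hga J).continuousAt.eventually_ne hJ] with z h1 h2 h3
      exact ⟨h1, fun _ => ⟨h2, h3⟩, fun h => absurd hJ h⟩
    · filter_upwards [(hga J).eventually_analyticAt, hQ J hJ] with z h1 h2
      exact ⟨h1, fun h => absurd h hJ, fun _ => h2⟩
  obtain ⟨ε₁, hε₁, hball⟩ := Metric.eventually_nhds_iff_ball.1 hev
  set ε' := min ε ε₁ with hε'
  have hε'0 : 0 < ε' := lt_min hε hε₁
  have hsub : ∀ q ∈ Metric.ball (0 : ℂ) ε', q ∈ Metric.ball (0 : ℂ) ε ∧
      q ∈ Metric.ball (0 : ℂ) ε₁ := fun q hq =>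
    ⟨Metric.ball_subset_ball (min_le_left _ _) hq, Metric.ball_subset_ball (min_le_right _ _) hq⟩
  -- a minor which does not vanish
  have hex : ∃ J, g J 0 ≠ 0 := by
    have hq1 : ((ε' / 2 : ℝ) : ℂ) ∈ Metric.ball (0 : ℂ) ε' := by
      rw [mem_ball_zero_iff, Complex.norm_real, Real.norm_eq_abs, abs_of_pos (by linarith)]
      linarith
    have hq0 : ((ε' / 2 : ℝ) : ℂ) ≠ 0 := by
      have : (ε' / 2 : ℝ) ≠ 0 := by positivity
      exact_mod_cast this
    obtain ⟨J, hJ⟩ := A2_minor (G ((ε' / 2 : ℝ) : ℂ)) (hi _ (hsub _ hq1).1 hq0)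
    refine ⟨J, ?_⟩
    intro h
    exact hJ ((hball _ (hsub _ hq1).2 J).2.2 fun h' => h' h)
  obtain ⟨I, hI, hmin⟩ : ∃ I, g I 0 ≠ 0 ∧ ∀ J, g J 0 ≠ 0 → n I ≤ n J := by
    obtain ⟨J₀, hJ₀⟩ := hex
    obtain ⟨I, hI, hmin⟩ := Finset.exists_min_image (Finset.univ.filter fun J => g J 0 ≠ 0) n
      ⟨J₀, Finset.mem_filter.2 ⟨Finset.mem_univ _, hJ₀⟩⟩
    exact ⟨I, (Finset.mem_filter.1 hI).2, fun J hJ =>
      hmin J (Finset.mem_filter.2 ⟨Finset.mem_univ _, hJ⟩)⟩
  let c : (Fin f → Fin r) → ℂ → ℂ := fun J q =>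
    if g J 0 ≠ 0 then q ^ (n J - n I) * g J q / g I q else 0
  have hc : ∀ J, ∀ q ∈ Metric.ball (0 : ℂ) ε', q ≠ 0 → c J q = m J q / m I q := by
    intro J q hq hq0
    have hIq := (hball q (hsub q hq).2 I).2.1 hI
    by_cases hJ : g J 0 ≠ 0
    · have hJq := (hball q (hsub q hq).2 J).2.1 hJ
      have h1 : c J q = q ^ (n J - n I) * g J q / g I q := if_pos hJ
      have h2 : q ^ n J = q ^ (n J - n I) * q ^ n I := by
        rw [← pow_add, Nat.sub_add_cancel (hmin J hJ)]
      have h3 : q ^ n I ≠ 0 := pow_ne_zero _ hq0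
      have h4 := hIq.2
      rw [h1, hJq.1, hIq.1, h2]
      field_simp
    · have h1 : c J q = 0 := if_neg hJ
      rw [h1, (hball q (hsub q hq).2 J).2.2 hJ, zero_div]
  refine ⟨ε', I, fun q => Matrix.of fun k j => c (Function.update I j k) q, hε'0,
    min_le_left _ _, ?_, ?_, ?_⟩
  · intro k j
    simp only [Matrix.of_apply]
    set J := Function.update I j k with hJdef
    by_cases hJ : g J 0 ≠ 0
    · have h1 : c J = fun q => q ^ (n J - n I) * g J q / g I q := by
        funext q
        exact if_pos hJ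
      rw [h1]
      intro q hq
      have h2 := (hball q (hsub q hq).2 J).1.differentiableAt
      have h3 := (hball q (hsub q hq).2 I).1.differentiableAt
      have h4 := ((hball q (hsub q hq).2 I).2.1 hI).2
      exact (((differentiableAt_id.pow _).mul h2).div h3 h4).differentiableWithinAt
    · have h1 : c J = fun _ => 0 := by
        funext q
        exact if_neg hJ
      rw [h1]
      exact differentiableOn_const 0
  · intro q hq
    ext i j
    show c (Function.update I j (I i)) q = (1 : Matrix (Fin f) (Fin f) ℂ) i j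
    by_cases hij : i = j
    · subst hij
      rw [Function.update_eq_self, Matrix.one_apply_eq]
      have h1 : c I q = q ^ (n I - n I) * g I q / g I q := if_pos hI
      rw [h1, Nat.sub_self, pow_zero, one_mul]
      exact div_self ((hball q (hsub q hq).2 I).2.1 hI).2
    · rw [Matrix.one_apply_ne hij]
      have h0 : ∀ z, m (Function.update I j (I i)) z = 0 := by
        intro z
        refine Matrix.det_zero_of_row_eq hij ?_
        funext b
        rw [Matrix.submatrix_apply, Matrix.submatrix_apply, Function.update_self,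
          Function.update_of_ne hij]
      refine if_neg ?_
      intro hJ
      have hq1 : ((ε' / 2 : ℝ) : ℂ) ∈ Metric.ball (0 : ℂ) ε' := by
        rw [mem_ball_zero_iff, Complex.norm_real, Real.norm_eq_abs, abs_of_pos (by linarith)]
        linarith
      have hq0 : ((ε' / 2 : ℝ) : ℂ) ≠ 0 := by
        have : (ε' / 2 : ℝ) ≠ 0 := by positivity
        exact_mod_cast this
      have h2 := (hball _ (hsub _ hq1).2 (Function.update I j (I i))).2.1 hJ
      rw [h0] at h2
      exact mul_ne_zero (pow_ne_zero _ hq0) h2.2 h2.1.symm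
  · intro q hq hq0
    set A := (G q).submatrix I id with hA
    have hmI : m I q ≠ 0 := by
      have h1 := (hball q (hsub q hq).2 I).2.1 hI
      rw [h1.1]
      exact mul_ne_zero (pow_ne_zero _ hq0) h1.2
    have hdet : A.det = m I q := rfl
    have hB : (Matrix.of fun k j => c (Function.update I j k) q) =
        G q * ((m I q)⁻¹ • A.adjugate) := by
      ext k j
      rw [Matrix.of_apply, hc _ q hq hq0, Matrix.mul_smul, Matrix.smul_apply, A2_cramer,
        smul_eq_mul, div_eq_inv_mul]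
    have hGB : G q = (Matrix.of fun k j => c (Function.update I j k) q) * A := by
      rw [hB, Matrix.mul_assoc, Matrix.smul_mul, Matrix.adjugate_mul, hdet, smul_smul,
        inv_mul_cancel₀ hmI, one_smul, Matrix.mul_one]
    intro x
    constructor
    · rintro ⟨y, rfl⟩
      refine ⟨A *ᵥ y, ?_⟩
      rw [Matrix.mulVec_mulVec, ← hGB]
    · rintro ⟨y, rfl⟩
      refine ⟨((m I q)⁻¹ • A.adjugate) *ᵥ y, ?_⟩
      rw [Matrix.mulVec_mulVec, ← hB]

end YA38
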