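import Pool.Agent.LibYA38.YDef

/-!
A basis adapted to a flag.

PLAN. Induction on the flag: for l large (l > all p i) F l = 0, for l small F l = ⊤. Suppose for l + 1 we have a family
v : {i // l + 1 ≤ p i} → (Fin r → ℂ) which is linearly independent with span {v_i | l' ≤ p i} = F l' for all l' ≥ l + 1; extend it to a
basis of F l (the number of new vectors is card {i // l ≤ p i} - card {i // l + 1 ≤ p i} = card {i // p i = l}): LinearIndependent.extend
inside F l, or choose a complement of F (l+1) in F l and a basis of it indexed by {i // p i = l} (Module.finBasis, equivalence of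
finite types of the same cardinality). At the end v is a basis of Fin r → ℂ, the columns of Ψ; Fl p Ψ l = span {column j | l ≤ p j}.
(Induction downwards: state it as ∀ n : ℕ for l = L - n, L = 1 + max p.)
-/

open Matrix Complex Filter Topology
open UpperHalfPlane hiding I

namespace YA38

open SP38 US38 ZW67

private theorem A3_card {r : ℕ} (p : Fin r → ℤ) (l : ℤ) :
    Fintype.card {i // l ≤ p i} = Fintype.card {i // l + 1 ≤ p i} + Fintype.card {i // p i = l} := by
  classical
  rw [Fintype.card_subtype, Fintype.card_subtype, Fintype.card_subtype,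
    ← Finset.card_union_of_disjoint]
  · congr 1
    ext i
    simp only [Finset.mem_filter, Finset.mem_univ, true_and, Finset.mem_union]
    omega
  · rw [Finset.disjoint_left]
    intro i hi hi'
    simp only [Finset.mem_filter, Finset.mem_univ, true_and] at hi hi'
    omega

private theorem A3_step {r : ℕ} {p : Fin r → ℤ} (F : ℤ → Submodule ℂ (Fin r → ℂ))
    (hanti : ∀ l, F (l + 1) ≤ F l)
    (hdim : ∀ l, Module.finrank ℂ (F l) = Fintype.card {i // l ≤ p i}) (l : ℤ) :
    ∃ v : {i // p i = l} → (Fin r → ℂ), F l = F (l + 1) ⊔ Submodule.span ℂ (Set.range v) := by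
  obtain ⟨C, hC⟩ := Submodule.exists_isCompl (F (l + 1))
  set D := C ⊓ F l with hD
  have h1 : F (l + 1) ⊔ D = F l := by
    have h2 := sup_inf_assoc_of_le (x := F (l + 1)) C (hanti l)
    rw [hC.sup_eq_top, top_inf_eq] at h2
    exact h2.symm
  have h3 : F (l + 1) ⊓ D = ⊥ := by
    rw [hD, ← inf_assoc, hC.inf_eq_bot, bot_inf_eq]
  have h4 := Submodule.finrank_sup_add_finrank_inf_eq (F (l + 1)) D
  rw [h1, h3, finrank_bot, hdim, hdim, A3_card p l] at h4
  have h5 : Module.finrank ℂ D = Fintype.card {i // p i = l} := by omega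
  let b := (Module.finBasis ℂ D).reindex
    ((finCongr h5).trans (Fintype.equivFin {i // p i = l}).symm)
  refine ⟨fun i => (b i : Fin r → ℂ), ?_⟩
  have h6 : Submodule.span ℂ (Set.range fun i => (b i : Fin r → ℂ)) = D := by
    have h7 := b.span_eq
    have h8 : (Set.range fun i => (b i : Fin r → ℂ)) = D.subtype '' Set.range b := by
      rw [← Set.range_comp]
      rfl
    rw [h8, Submodule.span_image, h7, Submodule.map_top, Submodule.range_subtype]
  rw [h6, h1]

theorem exists_adapted {r : ℕ} {p : Fin r → ℤ} (F : ℤ → Submodule ℂ (Fin r → ℂ))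
    (hanti : ∀ l, F (l + 1) ≤ F l)
    (hdim : ∀ l, Module.finrank ℂ (F l) = Fintype.card {i // l ≤ p i}) :
    ∃ Ψ : Matrix (Fin r) (Fin r) ℂ, IsUnit Ψ ∧ ∀ l, MW38.Fl p Ψ l = F l := by
  classical
  choose v hv using A3_step F hanti hdim
  let w : Fin r → (Fin r → ℂ) := fun i => v (p i) ⟨i, rfl⟩
  obtain ⟨L, hL⟩ : ∃ L : ℕ, ∀ i, |p i| < L := by
    refine ⟨∑ i, (p i).natAbs + 1, fun i => ?_⟩
    have h := Finset.single_le_sum (f := fun i => (p i).natAbs) (fun _ _ => Nat.zero_le _)
      (Finset.mem_univ i)

    rw [Int.abs_eq_natAbs]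
    push_cast
    have h' : ((p i).natAbs : ℤ) ≤ ((∑ i, (p i).natAbs : ℕ) : ℤ) := by exact_mod_cast h
    push_cast at h'
    omega
  have hzero : ∀ l : ℤ, (L : ℤ) ≤ l → F l = ⊥ := by
    intro l hl
    rw [← Submodule.finrank_eq_zero (R := ℂ), hdim, Fintype.card_eq_zero_iff]
    refine ⟨fun i => ?_⟩
    have h1 := hL i.1
    have h2 := i.2
    have h3 := le_abs_self (p i.1)
    omega
  have key : ∀ n : ℕ, ∀ l : ℤ, (L : ℤ) - n ≤ l →
      F l = Submodule.span ℂ {x | ∃ j, l ≤ p j ∧ x = w j} := by
    intro n
    induction n with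
    | zero =>
      intro l hl
      rw [hzero l (by simpa using hl)]
      symm
      rw [Submodule.span_eq_bot]
      rintro x ⟨j, hj, -⟩
      exfalso
      have h1 := hL j
      have h3 := le_abs_self (p j)
      push_cast at hl
      omega
    | succ n ih =>
      intro l hl
      rw [hv l, ih (l + 1) (by push_cast at hl; omega), ← Submodule.span_union]
      congr 1
      ext x
      simp only [Set.mem_union, Set.mem_ofPred_eq, Set.mem_range]
      constructor
      · rintro (⟨j, hj, rfl⟩ | ⟨⟨j, hj⟩, rfl⟩)
        · exact ⟨j, by omega, rfl⟩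
        · refine ⟨j, by omega, ?_⟩
          subst hj
          rfl
      · rintro ⟨j, hj, rfl⟩
        by_cases h : l + 1 ≤ p j
        · exact Or.inl ⟨j, h, rfl⟩
        · have h2 : p j = l := by omega
          refine Or.inr ⟨⟨j, h2⟩, ?_⟩
          subst h2
          rfl
  have key' : ∀ l : ℤ, F l = Submodule.span ℂ {x | ∃ j, l ≤ p j ∧ x = w j} := by
    intro l
    refine key ((L : ℤ) - l).toNat l ?_
    have := Int.self_le_toNat ((L : ℤ) - l)
    omega
  refine ⟨Matrix.of fun i j => w j i, ?_, ?_⟩
  · rw [← Matrix.linearIndependent_cols_iff_isUnit]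
    have hcol : (Matrix.of fun i j => w j i).col = w := rfl
    rw [hcol]
    apply linearIndependent_of_top_le_span_of_card_eq_finrank
    · have h1 : F (-(L : ℤ)) = ⊤ := by
        apply Submodule.eq_top_of_finrank_eq
        rw [hdim, Module.finrank_fintype_fun_eq_card]
        apply Fintype.card_congr
        refine Equiv.subtypeUnivEquiv fun i => ?_
        have h2 := hL i
        have h3 := neg_abs_le (p i)
        omega
      rw [← h1, key']
      apply Submodule.span_mono
      rintro x ⟨j, -, rfl⟩
      exact ⟨j, rfl⟩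
    · rw [Module.finrank_fintype_fun_eq_card]
  · intro l
    rw [key' l]
    rfl

end YA38
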