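import Pool.Agent.LibYA38.A1
import Pool.Agent.LibYA38.A2
import Pool.Agent.LibYA38.A3

/-!
Adapted holomorphic frames on a disc.

PLAN. For each l apply A1 `ker_cramer` to the matrix R_l q with rows R q j for pq j < l and 0 for the other rows (its kernel is KS pq
(R q) l) and A2 `norm_frame`: ε_l, I_l, B_l (with f_l = card {i // l ≤ p i} columns). Only finitely many l matter: for l ≤ min p,
f_l = r; for l > max p, f_l = 0; take l in the finite range L₀ ≤ l ≤ L₁ (L₀ = min p - 1.., L₁ = max p + 1) and ε' the minimum of the ε_l.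
KS pq (R q) l = range of B_l q for q ≠ 0 in the ball. Let F₀ l = range of B_l 0 (dimension f_l since the rows I_l are 1). Claim
F₀ (l+1) ≤ F₀ l: x = B_{l+1} 0 *ᵥ y; for q ≠ 0 B_{l+1} q *ᵥ y ∈ KS (l+1) ≤ KS l, so it equals B_l q *ᵥ ((B_{l+1} q *ᵥ y) ∘ I_l) (a vector
x of the range of B_l q is B_l q *ᵥ (x ∘ I_l)); let q → 0. A3 gives Ψ₀ with columns v_j. Put column j of Ψ q := B_{p j} q *ᵥ (v_j ∘
I_{p j}); it is holomorphic, Ψ 0 = Ψ₀ is a unit, so Ψ q is a unit for small q; the columns j with l ≤ p j lie in KS (p j) ≤ KS l, are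
independent and their number is f_l = dim KS l: so Fl p (Ψ q) l = KS pq (R q) l.
-/

open Matrix Complex Filter Topology
open UpperHalfPlane hiding I

namespace YA38

open SP38 US38 ZW67

theorem A4_ks_anti {β : Type} {r : ℕ} (pq : β → ℤ) (R : Matrix β (Fin r) ℂ) {a b : ℤ}
    (hab : a ≤ b) : KS pq R b ≤ KS pq R a := by
  intro x hx j hj
  exact hx j (lt_of_lt_of_le hj hab)

/-- one step -/
theorem A4_step {β : Type} [Fintype β] {r : ℕ} {ε : ℝ} (hε : 0 < ε)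
    {R : ℂ → Matrix β (Fin r) ℂ} {pq : β → ℤ} {p : Fin r → ℤ}
    (hR : ∀ i j, DifferentiableOn ℂ (fun q => R q i j) (Metric.ball 0 ε))
    (hf : ∀ q ∈ Metric.ball (0 : ℂ) ε, q ≠ 0 → ∀ l,
      Module.finrank ℂ (KS pq (R q) l) = Fintype.card {i // l ≤ p i}) (l : ℤ) :
    ∃ (ε' : ℝ) (I : Fin (Fintype.card {i // l ≤ p i}) → Fin r)
      (B : ℂ → Matrix (Fin r) (Fin (Fintype.card {i // l ≤ p i})) ℂ), 0 < ε' ∧ ε' ≤ ε ∧
      (∀ i j, DifferentiableOn ℂ (fun q => B q i j) (Metric.ball 0 ε')) ∧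
      (∀ q ∈ Metric.ball (0 : ℂ) ε', (B q).submatrix I id = 1) ∧
      ∀ q ∈ Metric.ball (0 : ℂ) ε', q ≠ 0 →
        ∀ x, x ∈ KS pq (R q) l ↔ ∃ y, x = B q *ᵥ y := by
  classical
  set Rl : ℂ → Matrix β (Fin r) ℂ := fun q => Matrix.of fun j i => if pq j < l then R q j i else 0
    with hRl
  have hker : ∀ q x, Rl q *ᵥ x = 0 ↔ x ∈ KS pq (R q) l := by
    intro q x
    constructor
    · intro h j hj
      have h1 := congrFun h j
      simp only [hRl, Matrix.mulVec, dotProduct, Matrix.of_apply, if_pos hj, Pi.zero_apply] at h1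
      simpa only [Matrix.mulVec, dotProduct] using h1
    · intro h
      funext j
      by_cases hj : pq j < l
      · have h1 := h j hj
        simp only [Matrix.mulVec, dotProduct] at h1
        simp only [hRl, Matrix.mulVec, dotProduct, Matrix.of_apply, if_pos hj, Pi.zero_apply]
        exact h1
      · simp only [hRl, Matrix.mulVec, dotProduct, Matrix.of_apply, if_neg hj, Pi.zero_apply,
          zero_mul, Finset.sum_const_zero]
  have hkerS : ∀ q, LinearMap.ker (Rl q).mulVecLin = KS pq (R q) l := by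
    intro q
    ext x
    rw [LinearMap.mem_ker, Matrix.mulVecLin_apply]
    exact hker q x
  have hRl' : ∀ i j, DifferentiableOn ℂ (fun q => Rl q i j) (Metric.ball 0 ε) := by
    intro i j
    by_cases hj : pq i < l
    · have : (fun q => Rl q i j) = fun q => R q i j := by
        funext q
        simp only [hRl, Matrix.of_apply, if_pos hj]
      rw [this]
      exact hR i j
    · have : (fun q => Rl q i j) = fun _ => 0 := by
        funext q
        simp only [hRl, Matrix.of_apply, if_neg hj]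
      rw [this]
      exact differentiableOn_const 0
  have hfl : ∀ q ∈ Metric.ball (0 : ℂ) ε, q ≠ 0 →
      Module.finrank ℂ (LinearMap.ker (Rl q).mulVecLin) = Fintype.card {i // l ≤ p i} := by
    intro q hq hq0
    rw [hkerS q]
    exact hf q hq hq0 l
  obtain ⟨ε₁, G, hε₁, hle₁, hG, hG2⟩ := ker_cramer hε hRl' hfl
  obtain ⟨ε₂, I, B, hε₂, hle₂, hB, hI, hB2⟩ :=
    norm_frame hε₁ hG (fun q hq hq0 => (hG2 q hq hq0).1)
  refine ⟨ε₂, I, B, hε₂, hle₂.trans hle₁, hB, hI, ?_⟩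
  intro q hq hq0 x
  rw [← hker q x, (hG2 q (Metric.ball_subset_ball hle₂ hq) hq0).2 x, hB2 q hq hq0 x]

/-- a vector of the range of `B` is determined by its entries of index `I` -/
theorem A4_norm {r f : ℕ} {I : Fin f → Fin r} {B : Matrix (Fin r) (Fin f) ℂ}
    (hB : B.submatrix I id = 1) (y : Fin f → ℂ) : (fun k => (B *ᵥ y) (I k)) = y := by
  funext k
  have h1 : (B *ᵥ y) (I k) = ((B.submatrix I id) *ᵥ y) k := by
    simp only [Matrix.mulVec, dotProduct, Matrix.submatrix_apply, id]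
  rw [h1, hB, Matrix.one_mulVec]

theorem A4_eq_of_mem {r f : ℕ} {I : Fin f → Fin r} {B : Matrix (Fin r) (Fin f) ℂ}
    (hB : B.submatrix I id = 1) {x : Fin r → ℂ} (hx : ∃ y, x = B *ᵥ y) :
    x = B *ᵥ (fun k => x (I k)) := by
  obtain ⟨y, rfl⟩ := hx
  rw [A4_norm hB y]

theorem A4_cont {r f : ℕ} {ε : ℝ} {B : ℂ → Matrix (Fin r) (Fin f) ℂ}
    (hB : ∀ i j, DifferentiableOn ℂ (fun q => B q i j) (Metric.ball 0 ε)) :
    ContinuousOn B (Metric.ball 0 ε) := by
  refine continuousOn_pi.2 fun i => continuousOn_pi.2 fun j => ?_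
  exact (hB i j).continuousOn

theorem A4_mulVec {r f : ℕ} {B : ℂ → Matrix (Fin r) (Fin f) ℂ} {y : ℂ → Fin f → ℂ} {q : ℂ}
    (hB : ContinuousAt B q) (hy : ContinuousAt y q) : ContinuousAt (fun q => B q *ᵥ y q) q := by
  have h1 : Continuous (fun u : Matrix (Fin r) (Fin f) ℂ × (Fin f → ℂ) => u.1 *ᵥ u.2) :=
    Continuous.matrix_mulVec continuous_fst continuous_snd
  exact (h1.continuousAt (x := (B q, y q))).comp (f := fun q => (B q, y q)) (hB.prodMk hy)

theorem A4_limit {r f f' : ℕ} {ε : ℝ} (hε : 0 < ε) {B : ℂ → Matrix (Fin r) (Fin f) ℂ}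
    {B' : ℂ → Matrix (Fin r) (Fin f') ℂ} {I' : Fin f' → Fin r}
    (hB : ∀ i j, DifferentiableOn ℂ (fun q => B q i j) (Metric.ball 0 ε))
    (hB' : ∀ i j, DifferentiableOn ℂ (fun q => B' q i j) (Metric.ball 0 ε))
    (hI' : ∀ q ∈ Metric.ball (0 : ℂ) ε, (B' q).submatrix I' id = 1)
    (h : ∀ q ∈ Metric.ball (0 : ℂ) ε, q ≠ 0 → ∀ y, ∃ y', B q *ᵥ y = B' q *ᵥ y') :
    LinearMap.range (B 0).mulVecLin ≤ LinearMap.range (B' 0).mulVecLin := by
  rintro x ⟨y, rfl⟩
  rw [Matrix.mulVecLin_apply]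
  have h0 : (0 : ℂ) ∈ Metric.ball (0 : ℂ) ε := Metric.mem_ball_self hε
  have hnh : Metric.ball (0 : ℂ) ε ∈ 𝓝 (0 : ℂ) := Metric.ball_mem_nhds 0 hε
  have hc1 : ContinuousAt (fun q => B q *ᵥ y) 0 := by
    have : ContinuousAt B 0 := (A4_cont hB).continuousAt hnh
    exact A4_mulVec this continuousAt_const
  have hc2 : ContinuousAt (fun q => B' q *ᵥ (fun k => (B q *ᵥ y) (I' k))) 0 := by
    have h1 : ContinuousAt B' 0 := (A4_cont hB').continuousAt hnh
    have h2 : ContinuousAt (fun q => (fun k => (B q *ᵥ y) (I' k))) 0 := by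
      refine continuousAt_pi.2 fun k => ?_
      exact (continuousAt_pi.1 hc1) (I' k)
    exact A4_mulVec h1 h2
  have heq : (fun q => B q *ᵥ y) =ᶠ[𝓝[≠] (0 : ℂ)]
      fun q => B' q *ᵥ (fun k => (B q *ᵥ y) (I' k)) := by
    have h1 : ∀ᶠ q in 𝓝[≠] (0 : ℂ), q ∈ Metric.ball (0 : ℂ) ε :=
      mem_nhdsWithin_of_mem_nhds hnh
    have h2 : ∀ᶠ q in 𝓝[≠] (0 : ℂ), q ≠ 0 := eventually_mem_nhdsWithin
    filter_upwards [h1, h2] with q hq hq0
    exact A4_eq_of_mem (hI' q hq) (h q hq hq0 y)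
  have hlim1 : Tendsto (fun q => B q *ᵥ y) (𝓝[≠] (0 : ℂ)) (𝓝 (B 0 *ᵥ y)) :=
    hc1.tendsto.mono_left nhdsWithin_le_nhds
  have hlim2 : Tendsto (fun q => B q *ᵥ y) (𝓝[≠] (0 : ℂ))
      (𝓝 (B' 0 *ᵥ (fun k => (B 0 *ᵥ y) (I' k)))) :=
    (hc2.tendsto.mono_left nhdsWithin_le_nhds).congr' heq.symm
  have := tendsto_nhds_unique hlim1 hlim2
  exact ⟨_, this.symm⟩

theorem A4_finrank {r f : ℕ} {I : Fin f → Fin r} {B : Matrix (Fin r) (Fin f) ℂ}
    (hB : B.submatrix I id = 1) : Module.finrank ℂ (LinearMap.range B.mulVecLin) = f := by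
  have hinj : Function.Injective B.mulVecLin := by
    intro x y hxy
    rw [Matrix.mulVecLin_apply, Matrix.mulVecLin_apply] at hxy
    rw [← A4_norm hB x, ← A4_norm hB y, hxy]
  rw [LinearMap.finrank_range_of_inj hinj, Module.finrank_fintype_fun_eq_card, Fintype.card_fin]

theorem A4_fl_finrank {r : ℕ} {p : Fin r → ℤ} {Ψ : Matrix (Fin r) (Fin r) ℂ} (hΨ : IsUnit Ψ)
    (l : ℤ) : Module.finrank ℂ (MW38.Fl p Ψ l) = Fintype.card {i // l ≤ p i} := by
  have hli : LinearIndependent ℂ (fun j => fun i => Ψ i j) :=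
    Matrix.linearIndependent_cols_iff_isUnit.2 hΨ
  have hli2 : LinearIndependent ℂ (fun j : {j // l ≤ p j} => fun i => Ψ i j.1) :=
    hli.comp (fun j : {j // l ≤ p j} => j.1) Subtype.val_injective
  have hset : {v : Fin r → ℂ | ∃ j, l ≤ p j ∧ v = fun i => Ψ i j} =
      Set.range (fun j : {j // l ≤ p j} => fun i => Ψ i j.1) := by
    ext v
    constructor
    · rintro ⟨j, hj, rfl⟩
      exact ⟨⟨j, hj⟩, rfl⟩
    · rintro ⟨j, rfl⟩
      exact ⟨j.1, j.2, rfl⟩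
  unfold MW38.Fl
  rw [hset, finrank_span_eq_card hli2]

theorem frames {β : Type} [Fintype β] {r : ℕ} {ε : ℝ} (hε : 0 < ε)
    {R : ℂ → Matrix β (Fin r) ℂ} {pq : β → ℤ} {p : Fin r → ℤ}
    (hR : ∀ i j, DifferentiableOn ℂ (fun q => R q i j) (Metric.ball 0 ε))
    (hf : ∀ q ∈ Metric.ball (0 : ℂ) ε, q ≠ 0 → ∀ l,
      Module.finrank ℂ (KS pq (R q) l) = Fintype.card {i // l ≤ p i}) :
    ∃ (ε' : ℝ) (Ψ : ℂ → Matrix (Fin r) (Fin r) ℂ), 0 < ε' ∧ ε' ≤ ε ∧
      (∀ i j, DifferentiableOn ℂ (fun q => Ψ q i j) (Metric.ball 0 ε')) ∧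
      (∀ q ∈ Metric.ball (0 : ℂ) ε', IsUnit (Ψ q)) ∧
      ∀ q ∈ Metric.ball (0 : ℂ) ε', q ≠ 0 → ∀ l, MW38.Fl p (Ψ q) l = KS pq (R q) l := by
  classical
  choose el I B hel hele hB hI hB2 using fun l => A4_step hε hR hf l
  -- the range of the degrees
  obtain ⟨L₀, L₁, hL, hp⟩ : ∃ L₀ L₁ : ℤ, L₀ ≤ L₁ ∧ ∀ i, L₀ ≤ p i ∧ p i < L₁ := by
    obtain ⟨a, ha⟩ := (Set.finite_range p).bddBelow
    obtain ⟨b, hb⟩ := (Set.finite_range p).bddAbove
    refine ⟨min a b, max a b + 1, ?_, ?_⟩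
    · have := min_le_max (a := a) (b := b)
      omega
    · intro i
      have h1 : a ≤ p i := ha ⟨i, rfl⟩
      have h2 : p i ≤ b := hb ⟨i, rfl⟩
      have h3 := min_le_left a b
      have h4 := le_max_right a b
      constructor <;> omega
  obtain ⟨δ, hδ, hδε, hδl⟩ : ∃ δ : ℝ, 0 < δ ∧ δ ≤ ε ∧ ∀ l ∈ Finset.Icc L₀ L₁, δ ≤ el l := by
    have hne : (Finset.Icc L₀ L₁).Nonempty := Finset.nonempty_Icc.2 hL
    refine ⟨(Finset.Icc L₀ L₁).inf' hne el, ?_, ?_, ?_⟩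
    · rw [Finset.lt_inf'_iff]
      intro l _
      exact hel l
    · obtain ⟨l, hl⟩ := hne
      exact (Finset.inf'_le el hl).trans (hele l)
    · intro l hl
      exact Finset.inf'_le el hl
  set c : ℤ → ℤ := fun l => max L₀ (min l L₁) with hc
  have hcmem : ∀ l, c l ∈ Finset.Icc L₀ L₁ := by
    intro l
    rw [Finset.mem_Icc]
    simp only [hc]
    omega
  have hcle : ∀ l, c l ≤ c (l + 1) := by
    intro l
    simp only [hc]
    omega
  have hcp : ∀ j, c (p j) = p j := by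
    intro j
    have := hp j
    simp only [hc]
    omega
  have hcard : ∀ l, Fintype.card {i // c l ≤ p i} = Fintype.card {i // l ≤ p i} := by
    intro l
    refine Fintype.card_congr (Equiv.subtypeEquivRight fun i => ?_)
    have := hp i
    simp only [hc]
    omega
  have hBδ : ∀ l ∈ Finset.Icc L₀ L₁, ∀ i j,
      DifferentiableOn ℂ (fun q => B l q i j) (Metric.ball 0 δ) := fun l hl i j =>
    (hB l i j).mono (Metric.ball_subset_ball (hδl l hl))
  have hIδ : ∀ l ∈ Finset.Icc L₀ L₁, ∀ q ∈ Metric.ball (0 : ℂ) δ,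
      (B l q).submatrix (I l) id = 1 := fun l hl q hq =>
    hI l q (Metric.ball_subset_ball (hδl l hl) hq)
  have hB2δ : ∀ l ∈ Finset.Icc L₀ L₁, ∀ q ∈ Metric.ball (0 : ℂ) δ, q ≠ 0 →
      ∀ x, x ∈ KS pq (R q) l ↔ ∃ y, x = B l q *ᵥ y := fun l hl q hq hq0 =>
    hB2 l q (Metric.ball_subset_ball (hδl l hl) hq) hq0
  have h0δ : (0 : ℂ) ∈ Metric.ball (0 : ℂ) δ := Metric.mem_ball_self hδ
  -- the limit flag
  obtain ⟨Ψ₀, hΨ₀, hFl⟩ := exists_adapted (p := p)
    (fun l => LinearMap.range (B (c l) 0).mulVecLin)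
    (fun l => A4_limit hδ (hBδ _ (hcmem (l + 1))) (hBδ _ (hcmem l)) (hIδ _ (hcmem l))
      (fun q hq hq0 y => (hB2δ _ (hcmem l) q hq hq0 _).1
        (A4_ks_anti pq (R q) (hcle l) ((hB2δ _ (hcmem (l + 1)) q hq hq0 _).2 ⟨y, rfl⟩))))
    (fun l => (A4_finrank (hIδ _ (hcmem l) 0 h0δ)).trans (hcard l))
  have hpmem : ∀ j, p j ∈ Finset.Icc L₀ L₁ := fun j => by
    have := hp j
    rw [Finset.mem_Icc]
    omega
  set Ψ : ℂ → Matrix (Fin r) (Fin r) ℂ := fun q => Matrix.of fun i j =>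
    (B (p j) q *ᵥ (fun k => Ψ₀ (I (p j) k) j)) i with hΨdef
  have hΨ0 : Ψ 0 = Ψ₀ := by
    ext i j
    have h1 : (fun i => Ψ₀ i j) ∈ MW38.Fl p Ψ₀ (p j) :=
      Submodule.subset_span ⟨j, le_rfl, rfl⟩
    have h1' : (fun i => Ψ₀ i j) ∈ LinearMap.range (B (c (p j)) 0).mulVecLin :=
      (hFl (p j)) ▸ h1
    rw [hcp j] at h1'
    obtain ⟨y, hy⟩ := h1'
    rw [Matrix.mulVecLin_apply] at hy
    have h2 := A4_eq_of_mem (hIδ _ (hpmem j) 0 h0δ) ⟨y, hy.symm⟩
    exact (congrFun h2 i).symm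
  have hΨhol : ∀ i j, DifferentiableOn ℂ (fun q => Ψ q i j) (Metric.ball 0 δ) := by
    intro i j
    have : (fun q => Ψ q i j) = fun q => ∑ k, B (p j) q i k * Ψ₀ (I (p j) k) j := by
      funext q
      simp only [hΨdef, Matrix.of_apply, Matrix.mulVec, dotProduct]
    rw [this]
    refine DifferentiableOn.fun_sum fun k _ => ?_
    exact (hBδ _ (hpmem j) i k).mul_const _
  have hdetc : ContinuousAt (fun q => (Ψ q).det) 0 := by
    have h1 : ContinuousAt Ψ 0 :=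
      (A4_cont hΨhol).continuousAt (Metric.ball_mem_nhds 0 hδ)
    have h2 : Continuous (fun A : Matrix (Fin r) (Fin r) ℂ => A.det) :=
      Continuous.matrix_det continuous_id
    exact h2.continuousAt.comp h1
  have hdet0 : (Ψ 0).det ≠ 0 := by
    rw [hΨ0]
    exact ((Matrix.isUnit_iff_isUnit_det _).1 hΨ₀).ne_zero
  obtain ⟨δ', hδ', hdet⟩ := Metric.eventually_nhds_iff_ball.1 (hdetc.eventually_ne hdet0)
  refine ⟨min δ δ', Ψ, lt_min hδ hδ', (min_le_left _ _).trans hδε, ?_, ?_, ?_⟩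
  · intro i j
    exact (hΨhol i j).mono (Metric.ball_subset_ball (min_le_left _ _))
  · intro q hq
    rw [Matrix.isUnit_iff_isUnit_det]
    exact IsUnit.mk0 _ (hdet q (Metric.ball_subset_ball (min_le_right _ _) hq))
  · intro q hq hq0 l
    have hqδ := Metric.ball_subset_ball (min_le_left δ δ') hq
    have hunit : IsUnit (Ψ q) := by
      rw [Matrix.isUnit_iff_isUnit_det]
      exact IsUnit.mk0 _ (hdet q (Metric.ball_subset_ball (min_le_right _ _) hq))
    refine Submodule.eq_of_le_of_finrank_eq ?_ ?_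
    · refine Submodule.span_le.2 ?_
      rintro v ⟨j, hj, rfl⟩
      refine A4_ks_anti pq (R q) hj ?_
      exact (hB2δ _ (hpmem j) q hqδ hq0 _).2 ⟨_, rfl⟩
    · rw [A4_fl_finrank hunit l, hf q (Metric.ball_subset_ball hδε hqδ) hq0 l]

end YA38
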