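import Pool.Agent.LibYA38.YDef

/-!
A periodic function of moderate growth is holomorphic in q.

PLAN. ‖qq ζ‖ = exp (-2 π im ζ) (norm_qq in LibSP38), every q ≠ 0 with ‖q‖ < ε is qq ζ with 0 ≤ re ζ ≤ 1 (glo1_qq_surj), and f(ζ) depends
only on q (periodicity: f (ζ + n) = f ζ for n : ℤ; qq ζ = qq ζ' iff ζ' = ζ + n). Define F₀ q = f ζ for q ≠ 0. F₀ is holomorphic
on the punctured ball (locally ζ = log q / 2 π i is a holomorphic function of q, or: Function.Periodic.cuspFunction /
Function.Periodic.qParam in Mathlib: Mathlib.Analysis.Complex.Periodic, with period 1: qParam 1 ζ = exp (2 π i ζ / 1)). Growth: ‖f ζ‖ ≤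
C (im ζ)^n = C (-log ‖q‖ / 2π)^n for small q, so q F₀ q → 0 as q → 0 (isLittleO): removable singularity
(Complex.differentiableOn_update_limUnder_of_isLittleO). Compare `LibUS38`/`LibSP38` files which use qq, or LibMW38.
-/

open Matrix Complex Filter Topology
open UpperHalfPlane hiding I

namespace YA38

open SP38 US38 ZW67

theorem A7_q (ζ : ℂ) : Function.Periodic.qParam 1 ζ = qq ζ := by
  unfold Function.Periodic.qParam qq
  norm_num

theorem A7_re (q : ℂ) : (Function.Periodic.invQParam 1 q).re = q.arg / (2 * Real.pi) := by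
  have h1 : Function.Periodic.invQParam 1 q = ((1 / (2 * Real.pi) : ℝ) : ℂ) * (-I * log q) := by
    unfold Function.Periodic.invQParam
    have h2 : (2 * (Real.pi : ℂ) * I) ≠ 0 := Complex.two_pi_I_ne_zero
    have h3 : (Real.pi : ℂ) ≠ 0 := by
      intro h
      rw [h] at h2
      simp at h2
    push_cast
    field_simp
    rw [Complex.I_sq]
    ring
  rw [h1, Complex.re_ofReal_mul, neg_mul, Complex.neg_re, Complex.mul_re, Complex.I_re,
    Complex.I_im, Complex.log_im]
  ring

theorem A7_lim (n : ℕ) (C : ℝ) :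
    Tendsto (fun q : ℂ => C * (-Real.log ‖q‖) ^ n * ‖q‖) (𝓝[≠] 0) (𝓝 0) := by
  have h1 : Tendsto (fun q : ℂ => -Real.log ‖q‖) (𝓝[≠] 0) atTop :=
    tendsto_neg_atBot_atTop.comp (Real.tendsto_log_nhdsGT_zero.comp tendsto_norm_nhdsNE_zero)
  have h2 := (Real.tendsto_pow_mul_exp_neg_atTop_nhds_zero n).comp h1
  have h3 := h2.const_mul C
  rw [mul_zero] at h3
  refine h3.congr' ?_
  filter_upwards [self_mem_nhdsWithin] with q hq
  have hq0 : 0 < ‖q‖ := norm_pos_iff.2 hq
  simp only [Function.comp_apply, neg_neg, Real.exp_log hq0]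
  ring

theorem per_ext {ε : ℝ} (hε : 0 < ε) (hε1 : ε ≤ 1) {f : ℂ → ℂ}
    (hf : DifferentiableOn ℂ f {ζ | ‖qq ζ‖ < ε})
    (hper : ∀ ζ, ‖qq ζ‖ < ε → f (ζ + 1) = f ζ)
    (hgr : ∃ (C : ℝ) (n : ℕ) (Y : ℝ), ∀ ζ : ℂ, |ζ.re| ≤ 1 → Y ≤ ζ.im → ‖f ζ‖ ≤ C * ζ.im ^ n) :
    ∃ F : ℂ → ℂ, DifferentiableOn ℂ F (Metric.ball 0 ε) ∧ ∀ ζ, ‖qq ζ‖ < ε → F (qq ζ) = f ζ := by
  classical
  obtain ⟨C, n, Y, hC⟩ := hgr
  set g : ℂ → ℂ := fun ζ => if ‖qq ζ‖ < ε then f ζ else 0 with hg
  have hqc : Continuous qq := by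
    unfold qq
    fun_prop
  have hqq1 : ∀ ζ : ℂ, qq (ζ + 1) = qq ζ := by
    intro ζ
    have := qq_add_nat ζ 1
    rwa [Nat.cast_one] at this
  have hgp : Function.Periodic g ((1 : ℝ) : ℂ) := by
    intro ζ
    rw [Complex.ofReal_one, hg]
    simp only [hqq1]
    split_ifs with h
    · exact hper ζ h
    · rfl
  have hopen : IsOpen {ζ : ℂ | ‖qq ζ‖ < ε} := isOpen_lt hqc.norm continuous_const
  have hgd : ∀ ζ : ℂ, ‖qq ζ‖ < ε → DifferentiableAt ℂ g ζ := by
    intro ζ hζ
    have h1 : DifferentiableAt ℂ f ζ := hf.differentiableAt (hopen.mem_nhds hζ)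
    refine h1.congr_of_eventuallyEq ?_
    filter_upwards [hopen.mem_nhds hζ] with z hz
    rw [hg]
    simp only
    rw [if_pos hz]
  set F : ℂ → ℂ := Function.Periodic.cuspFunction 1 g with hF
  have hFq : ∀ ζ : ℂ, F (qq ζ) = g ζ := by
    intro ζ
    rw [← A7_q]
    exact Function.Periodic.eq_cuspFunction one_ne_zero hgp ζ
  have hinv : ∀ q : ℂ, q ≠ 0 → qq (Function.Periodic.invQParam 1 q) = q := by
    intro q hq
    rw [← A7_q]
    exact Function.Periodic.qParam_right_inv one_ne_zero hq
  have hFd : ∀ q : ℂ, q ≠ 0 → ‖q‖ < ε → DifferentiableAt ℂ F q := by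
    intro q hq hqe
    have h1 := hgd (Function.Periodic.invQParam 1 q) (by rwa [hinv q hq])
    have h2 := Function.Periodic.differentiableAt_cuspFunction one_ne_zero hgp h1
    rw [A7_q, hinv q hq] at h2
    exact h2
  refine ⟨F, ?_, fun ζ hζ => ?_⟩
  · have hup : Function.update F 0 (limUnder (𝓝[≠] 0) F) = F := by
      rw [hF, ← Function.Periodic.cuspFunction_zero_eq_limUnder_nhds_ne]
      exact Function.update_eq_self _ _
    rw [← hup]
    refine Complex.differentiableOn_update_limUnder_of_isLittleO (Metric.ball_mem_nhds 0 hε) ?_ ?_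
    · intro q hq
      refine (hFd q hq.2 ?_).differentiableWithinAt
      have := hq.1
      rwa [Metric.mem_ball, dist_zero_right] at this
    · rw [Asymptotics.isLittleO_iff_tendsto']
      · have h1 : Tendsto (fun q : ℂ => F q * q) (𝓝[≠] 0) (𝓝 0) := by
          refine squeeze_zero_norm' ?_ (A7_lim n (C / (2 * Real.pi) ^ n))
          have h2 : ∀ᶠ q : ℂ in 𝓝[≠] 0, Y ≤ (Function.Periodic.invQParam 1 q).im := by
            have h3 := Function.Periodic.invQParam_tendsto (h := 1) one_pos
            rw [tendsto_comap_iff] at h3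
            exact h3.eventually (eventually_ge_atTop Y)
          have h4 : ∀ᶠ q : ℂ in 𝓝[≠] 0, ‖q‖ < ε := by
            have h5 : ∀ᶠ q : ℂ in 𝓝 0, ‖q‖ < ε := by
              filter_upwards [Metric.ball_mem_nhds (0 : ℂ) hε] with q hq
              rwa [Metric.mem_ball, dist_zero_right] at hq
            exact h5.filter_mono nhdsWithin_le_nhds
          filter_upwards [h2, h4, self_mem_nhdsWithin] with q hq1 hq2 hq3
          have hq3' : q ≠ 0 := hq3
          have h6 : F q = f (Function.Periodic.invQParam 1 q) := by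
            rw [← hinv q hq3', hFq, hinv q hq3', hg]
            simp only
            rw [if_pos]
            rwa [hinv q hq3']
          have h7 : |(Function.Periodic.invQParam 1 q).re| ≤ 1 := by
            rw [A7_re, abs_div, abs_of_pos Real.two_pi_pos, div_le_one Real.two_pi_pos]
            have := Complex.abs_arg_le_pi q
            have := Real.pi_pos
            linarith
          have h8 := hC _ h7 hq1
          have h9 : (Function.Periodic.invQParam 1 q).im = -Real.log ‖q‖ / (2 * Real.pi) := by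
            rw [Function.Periodic.im_invQParam]
            ring
          rw [norm_mul, h6]
          refine (mul_le_mul_of_nonneg_right h8 (norm_nonneg q)).trans (le_of_eq ?_)
          rw [h9, div_pow]
          ring
        have h2 : Tendsto (fun q : ℂ => F 0 * q) (𝓝[≠] 0) (𝓝 0) := by
          have h3 : Tendsto (fun q : ℂ => F 0 * q) (𝓝 0) (𝓝 (F 0 * 0)) :=
            tendsto_id.const_mul _
          rw [mul_zero] at h3
          exact h3.mono_left nhdsWithin_le_nhds
        have h3 := h1.sub h2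
        rw [sub_zero] at h3
        refine h3.congr fun q => ?_
        rw [sub_zero, div_inv_eq_mul, sub_mul]
      · filter_upwards [self_mem_nhdsWithin] with q hq h
        exfalso
        rw [sub_zero, inv_eq_zero] at h
        exact hq h
  · rw [hFq, hg]
    simp only
    rw [if_pos hζ]

end YA38
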