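import Pool.Agent.LibYA38.YDef
import Pool.Agent.LibZW67.Comp

/-!
Pulling back by a holomorphic map.

PLAN. φ is holomorphic on Hc 0 with values in Hc 0. gd: sm: composition of a smooth map with φ (ContDiffOn.comp; see PV_comp in LibZW67/Comp for the
pattern); poly, conj, skew, pos: pointwise; deg: DZ (D ∘ φ) z = deriv φ z • DZ D (φ z) (chain rule: dz_comp for holomorphic φ, LibSP38/WirtS or Comp). sme:
same. d0: DVb (e b ∘ φ) z = conj (deriv φ z) • DVb (e b) (φ z); d1 similarly with deriv φ z. types: pointwise. frame: A ∘ φ, M' z = deriv φ z • M (φ z): hol: composition;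
mem: pointwise; cont: continuity of deriv φ (holomorphic: DifferentiableOn.deriv) and composition; der: chain rule; tr: zero stays zero.
-/

open Matrix Complex Filter Topology
open UpperHalfPlane hiding I

namespace YA38

open SP38 US38 ZW67

variable {r s : ℕ} {w : ℤ} {K : ℕ} {Q : Matrix (Fin r) (Fin r) ℝ}
  {D : ℂ → Matrix (Fin r) (Fin r) ℂ} {e : Fin s → ℂ → Fin r → ℂ}

theorem XD.comp (h : XD w K Q D e) {φ : ℂ → ℂ} (hφ : DifferentiableOn ℂ φ (Hc 0))
    (hm : ∀ z ∈ Hc 0, φ z ∈ Hc 0) : XD w K Q (fun z => D (φ z)) (fun b z => e b (φ z)) := by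
  have hO := isOpen_Hc 0
  have hd : ∀ z ∈ Hc 0, DifferentiableAt ℂ φ z := fun z hz => hφ.differentiableAt (hO.mem_nhds hz)
  refine ⟨⟨?_, ?_, ?_, ?_, ?_, ?_⟩, ?_, ?_, ?_, ?_, h.neg, ?_⟩
  · exact fun i j => SmS.compS hO (h.gd.sm i j) hφ hm
  · exact fun z hz => h.gd.poly _ (hm z hz)
  · exact fun z hz => h.gd.conj _ (hm z hz)
  · exact fun z hz => h.gd.skew _ (hm z hz)
  · intro z hz
    rw [Inv2_DZ_comp (F := D) hO h.gd.sm (hm z hz) (hd z hz), smul_mul_assoc, mul_smul_comm,
      ← smul_sub, h.gd.deg _ (hm z hz)]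
  · exact fun z hz => h.gd.pos _ (hm z hz)
  · exact fun b i => SmS.compS hO (h.sme b i) hφ hm
  · intro b z hz a ha
    have h1 : DVb (fun z => e b (φ z)) z = (starRingEnd ℂ) (deriv φ z) • DVb (e b) (φ z) := by
      funext i
      show dzb (fun z => e b (φ z) i) z = (starRingEnd ℂ) (deriv φ z) * dzb (fun z => e b z i) (φ z)
      rw [dzb_comp (f := fun z => e b z i) (SmS.differentiableAt hO (h.sme b i) (hm z hz))
        (hd z hz), mul_comm]
    show LP K (D (φ z)) a *ᵥ DVb (fun z => e b (φ z)) z = 0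
    rw [h1, Matrix.mulVec_smul, h.d0 b _ (hm z hz) a ha, smul_zero]
  · intro b z hz a ha
    have h1 : DV (fun z => e b (φ z)) z = (deriv φ z) • DV (e b) (φ z) := by
      funext i
      show dz (fun z => e b (φ z) i) z = (deriv φ z) * dz (fun z => e b z i) (φ z)
      rw [dz_comp (f := fun z => e b z i) (SmS.differentiableAt hO (h.sme b i) (hm z hz))
        (hd z hz), mul_comm]
    show LP K (D (φ z)) a *ᵥ DV (fun z => e b (φ z)) z = 0
    rw [h1, Matrix.mulVec_smul, h.d1 b _ (hm z hz) a ha, smul_zero]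
  · exact fun z hz => h.types _ (hm z hz)
  · obtain ⟨β, hβ, pq, A, M, hF⟩ := h.frame
    refine ⟨β, hβ, pq, fun z => A (φ z), fun z => deriv φ z • M (φ z), ?_⟩
    refine ⟨?_, ?_, ?_, ?_, ?_⟩
    · intro i j
      exact (hF.hol i j).comp hφ hm
    · intro z hz
      exact hF.mem _ (hm z hz)
    · intro i j
      exact ContinuousOn.mul (wirtC2_deriv hO hφ).continuousOn
        ((hF.cont i j).comp hφ.continuousOn hm)
    · intro z hz i j
      have h2 : DifferentiableAt ℂ (fun z => A z i j) (φ z) :=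
        (hF.hol i j).differentiableAt (hO.mem_nhds (hm z hz))
      have h3 : HasDerivAt (fun z => A (φ z) i j)
          (deriv (fun z => A z i j) (φ z) * deriv φ z) z :=
        h2.hasDerivAt.comp z (hd z hz).hasDerivAt
      rw [h3.deriv, hF.der _ (hm z hz), Matrix.smul_mul, Matrix.smul_apply, smul_eq_mul, mul_comm]
    · intro z hz i j hij
      rw [Matrix.smul_apply, hF.tr _ (hm z hz) i j hij, smul_zero]

end YA38
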