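import Pool.Agent.LibYA38.G1
import Pool.Agent.LibYA38.A14
import Pool.Agent.LibYA38.A16

/-!
New Hodge classes do not accumulate at an interior point.

PLAN. φ ζ = z₀ + z₀.im * qq ζ maps Hc 0 to Hc 0 (‖qq ζ‖ < 1, so im φ ζ = z₀.im (1 + im qq ζ) > 0). XD.comp gives XD for D ∘ φ, e ∘ φ. Pun with N = 0, β = 0: exp 0 =
1, qq (ζ+1) = qq ζ; ext: from h.frame (A, pq): R q = A (z₀ + z₀.im q), ε = 1, mem; grow: e b ∘ φ is bounded for im ζ ≥ Y large (e b is continuous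
at z₀). FPX for D ∘ φ, e ∘ φ follows from FPX for D, e and A14: FX (1-s) on φ (Hc 0) (which contains a nonempty open set: the punctured ball, image of Hc 0, see
glo1_qq_surj) gives FX (1-s) everywhere, etc. local_main: Y; every z ≠ z₀ with ‖z - z₀‖ small is φ ζ with 0 ≤ re ζ ≤ 1, Y < im ζ
(see `hpt` in LibZE25/GloI). HX u for all φ ζ gives HX u everywhere (A14).
-/

open Matrix Complex Filter Topology
open UpperHalfPlane hiding I

namespace YA38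

open SP38 US38 ZW67

variable {r s : ℕ} {w : ℤ} {K : ℕ} {Q : Matrix (Fin r) (Fin r) ℝ}
  {D : ℂ → Matrix (Fin r) (Fin r) ℂ} {e : Fin s → ℂ → Fin r → ℂ}

theorem g2_mem {z₀ : ℂ} (hz₀ : z₀ ∈ Hc 0) {q : ℂ} (hq : ‖q‖ < 1) :
    z₀ + (z₀.im : ℂ) * q ∈ Hc 0 := by
  have h1 : 0 < z₀.im := hz₀
  have h2 : |q.im| < 1 := lt_of_le_of_lt (Complex.abs_im_le_norm q) hq
  have h3 := (abs_lt.1 h2).1
  show 0 < (z₀ + (z₀.im : ℂ) * q).im
  rw [Complex.add_im, Complex.im_ofReal_mul]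
  nlinarith

theorem g2_qq_lt {ζ : ℂ} (h : ζ ∈ Hc 0) : ‖qq ζ‖ < 1 := by
  have h1 : 0 < ζ.im := h
  rw [norm_qq, Real.exp_lt_one_iff]
  have := Real.pi_pos
  have : 0 < 2 * Real.pi * ζ.im := by positivity
  linarith

theorem g2_pt {z₀ : ℂ} (hz₀ : z₀ ∈ Hc 0) (c : ℝ) (z : ℂ) (hz : z ≠ z₀)
    (hzc : ‖z - z₀‖ < z₀.im * Real.exp (-(2 * Real.pi * c))) :
    ∃ ζ : ℂ, z = z₀ + (z₀.im : ℂ) * qq ζ ∧ 0 ≤ ζ.re ∧ ζ.re ≤ 1 ∧ c < ζ.im := by
  have h0 : 0 < z₀.im := hz₀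
  have hpi := Real.pi_pos
  have hrC : (z₀.im : ℂ) ≠ 0 := by exact_mod_cast h0.ne'
  have hq : (z - z₀) / (z₀.im : ℂ) ≠ 0 := div_ne_zero (sub_ne_zero.2 hz) hrC
  obtain ⟨ζ, h1, h2, h3⟩ := glo1_qq_surj hq
  refine ⟨ζ, ?_, h2, h3, ?_⟩
  · rw [h1]
    field_simp
    ring
  · have h4 : ‖qq ζ‖ < Real.exp (-(2 * Real.pi * c)) := by
      rw [h1, norm_div, Complex.norm_real, Real.norm_eq_abs, abs_of_pos h0, div_lt_iff₀ h0]
      linarith
    rw [norm_qq, Real.exp_lt_exp] at h4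
    have h5 : 2 * Real.pi * c < 2 * Real.pi * ζ.im := by linarith
    exact lt_of_mul_lt_mul_left h5 (by positivity)

/-- the punctured ball used in the interior case -/
theorem g2_open {z₀ : ℂ} (hz₀ : z₀ ∈ Hc 0) :
    IsOpen (Metric.ball z₀ z₀.im ∩ {z₀}ᶜ) ∧ (Metric.ball z₀ z₀.im ∩ {z₀}ᶜ) ⊆ Hc 0 ∧
      (Metric.ball z₀ z₀.im ∩ {z₀}ᶜ).Nonempty ∧
      ∀ z ∈ Metric.ball z₀ z₀.im ∩ {z₀}ᶜ, ∃ ζ ∈ Hc 0, z = z₀ + (z₀.im : ℂ) * qq ζ := by
  have h0 : 0 < z₀.im := hz₀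
  have hpt : ∀ z ∈ Metric.ball z₀ z₀.im ∩ {z₀}ᶜ, ∃ ζ ∈ Hc 0, z = z₀ + (z₀.im : ℂ) * qq ζ := by
    rintro z ⟨h1, h2⟩
    rw [Metric.mem_ball, dist_eq_norm] at h1
    obtain ⟨ζ, h3, -, -, h4⟩ := g2_pt hz₀ 0 z h2 (by
      rw [mul_zero, neg_zero, Real.exp_zero, mul_one]
      exact h1)
    exact ⟨ζ, h4, h3⟩
  refine ⟨Metric.isOpen_ball.inter isOpen_compl_singleton, ?_, ?_, hpt⟩
  · intro z hz
    obtain ⟨ζ, h1, rfl⟩ := hpt z hz
    exact g2_mem hz₀ (g2_qq_lt h1)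
  · refine ⟨z₀ + ((z₀.im / 2 : ℝ) : ℂ), ?_, ?_⟩
    · rw [Metric.mem_ball, dist_eq_norm, add_sub_cancel_left, Complex.norm_real,
        Real.norm_eq_abs, abs_of_pos (by positivity)]
      linarith
    · simp only [Set.mem_compl_iff, Set.mem_singleton_iff, add_eq_left]
      exact_mod_cast (by positivity : (z₀.im / 2 : ℝ) ≠ 0)

theorem interior_main (hs1 : 1 ≤ s) (h : XD w K Q D e) (hFP : FPX K D e) {z₀ : ℂ}
    (hz₀ : z₀ ∈ Hc 0) :
    ∃ ρ : ℝ, 0 < ρ ∧ ∀ z : ℂ, z ≠ z₀ → ‖z - z₀‖ < ρ → z ∈ Hc 0 ∧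
      ∀ u : Fin r ⊕ Fin s → ℝ, HX K D e u z → ∀ z' ∈ Hc 0, HX K D e u z' := by
  have h0 : 0 < z₀.im := hz₀
  have hpi := Real.pi_pos
  have hO := isOpen_Hc 0
  obtain ⟨φ, hφ⟩ : ∃ φ : ℂ → ℂ, φ = fun ζ => z₀ + (z₀.im : ℂ) * qq ζ := ⟨_, rfl⟩
  have hφa : ∀ ζ, φ ζ = z₀ + (z₀.im : ℂ) * qq ζ := fun ζ => by rw [hφ]
  have hqd : Differentiable ℂ qq := by
    intro ζ
    unfold qq
    fun_prop
  have hφd : Differentiable ℂ φ := by
    rw [hφ]
    exact (hqd.const_mul _).const_add _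
  have hφm : ∀ ζ ∈ Hc 0, φ ζ ∈ Hc 0 := fun ζ hζ => by
    rw [hφa]
    exact g2_mem hz₀ (g2_qq_lt hζ)
  have hφ1 : ∀ ζ, φ (ζ + 1) = φ ζ := by
    intro ζ
    have := qq_add_nat ζ 1
    rw [hφa, hφa, ← this, Nat.cast_one]
  obtain ⟨hUo, hUs, hUn, hUp⟩ := g2_open hz₀
  have hX := h.comp hφd.differentiableOn hφm
  have e1 : IsNilpotent.exp (0 : Matrix (Fin r) (Fin r) ℝ) = 1 := IsNilpotent.exp_zero
  have ecm : cm (1 : Matrix (Fin r) (Fin r) ℝ) = 1 := by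
    unfold cm
    exact Matrix.map_one _ Complex.ofReal_zero Complex.ofReal_one
  have ecm0 : cm (0 : Matrix (Fin r) (Fin r) ℝ) = 0 := by
    unfold cm
    exact Matrix.map_zero _ Complex.ofReal_zero
  have hP : Pun w K Q (fun z => D (φ z)) (fun b z => e b (φ z)) 0 0 := by
    refine ⟨hX, IsNilpotent.zero, ?_, ?_, ?_, ?_, ?_⟩
    · rw [e1, Matrix.transpose_one, Matrix.one_mul, Matrix.mul_one]
    · intro ζ _
      show D (φ (ζ + 1)) * _ = _ * D (φ ζ)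
      rw [e1, ecm, hφ1, Matrix.mul_one, Matrix.one_mul]
    · intro b ζ _
      show e b (φ (ζ + 1)) = _ *ᵥ e b (φ ζ) + _
      rw [e1, ecm, hφ1, Matrix.one_mulVec]
      funext i
      simp [ofR]
    · obtain ⟨β', hβ', pq, A, M, hF⟩ := h.frame
      refine ⟨β', hβ', pq, fun q => A (z₀ + (z₀.im : ℂ) * q), 1, one_pos, le_rfl, ?_, ?_⟩
      · intro i j
        have h2 : Set.MapsTo (fun q : ℂ => z₀ + (z₀.im : ℂ) * q) (Metric.ball 0 1) (Hc 0) := by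
          intro q hq
          rw [mem_ball_zero_iff] at hq
          exact g2_mem hz₀ hq
        have h3 : DifferentiableOn ℂ (fun q : ℂ => z₀ + (z₀.im : ℂ) * q) (Metric.ball 0 1) := by
          fun_prop
        exact (hF.hol i j).comp h3 h2
      · intro ζ hζ l x
        have h4 : φ ζ ∈ Hc 0 := by
          rw [hφa]
          exact g2_mem hz₀ hζ
        have h5 := hF.mem _ h4 l x
        have h6 : IsNilpotent.exp (-ζ • cm (0 : Matrix (Fin r) (Fin r) ℝ)) = 1 := by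
          rw [ecm0, smul_zero, IsNilpotent.exp_zero]
        rw [h6, Matrix.one_mulVec]
        rw [hφa] at h5
        show (∀ a : ℤ, a < l → LP K (D (φ ζ)) a *ᵥ x = 0) ↔
          ∀ j, pq j < l → (A (z₀ + (z₀.im : ℂ) * qq ζ) *ᵥ x) j = 0
        rw [hφa]
        exact h5
    · intro b
      have h7 : ∀ j, ContinuousAt (fun z => e b z j) z₀ := fun j =>
        (SmS.differentiableAt hO (h.sme b j) hz₀).continuousAt
      have h8 : ContinuousAt (fun z => e b z) z₀ := continuousAt_pi.2 h7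
      have h9 : ∀ᶠ z in 𝓝 z₀, ‖e b z‖ < ‖e b z₀‖ + 1 :=
        h8.norm.eventually_lt_const (by linarith)
      obtain ⟨δ, hδ, h10⟩ := Metric.eventually_nhds_iff.1 h9
      refine ⟨‖e b z₀‖ + 1, 0, max 1 (-Real.log (δ / z₀.im) / (2 * Real.pi) + 1),
        fun ζ _ hζ j => ?_⟩
      have h11 : ‖qq ζ‖ < δ / z₀.im := by
        rw [norm_qq, ← Real.lt_log_iff_exp_lt (by positivity)]
        have h12 : -Real.log (δ / z₀.im) / (2 * Real.pi) < ζ.im := by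
          have := (le_max_right _ _).trans hζ
          linarith
        rw [div_lt_iff₀ (by positivity)] at h12
        linarith
      have h13 : dist (φ ζ) z₀ < δ := by
        rw [hφa, dist_eq_norm, add_sub_cancel_left, norm_mul, Complex.norm_real,
          Real.norm_eq_abs, abs_of_pos h0]
        rw [lt_div_iff₀ h0] at h11
        linarith
      have h14 := h10 h13
      have h15 := norm_le_pi_norm (e b (φ ζ)) j
      rw [pow_zero, mul_one]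
      linarith
  have hFP' : FPX K (fun z => D (φ z)) (fun b z => e b (φ z)) := by
    intro x y h1 h2 h3
    have hs0 : (1 : ℤ) - s ≤ 0 := by
      have : (1 : ℤ) ≤ s := by exact_mod_cast hs1
      linarith
    have k1 : ∀ z ∈ Hc 0, FX K D e (1 - s) x y z := by
      refine FX_global h hs0 hUo hUs hUn fun z hz => ?_
      obtain ⟨ζ, hζ, rfl⟩ := hUp z hz
      have := h1 ζ hζ
      rw [hφ] at this
      exact this
    have k2 : ∀ z ∈ Hc 0, FX K D e (1 - s) (cj x) (cj y) z := by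
      refine FX_global h hs0 hUo hUs hUn fun z hz => ?_
      obtain ⟨ζ, hζ, rfl⟩ := hUp z hz
      have := h2 ζ hζ
      rw [hφ] at this
      exact this
    obtain ⟨ζ, hζ, h4⟩ := h3
    have k3 := hFP x y k1 k2 ⟨φ ζ, hφm ζ hζ, h4⟩
    intro z hz
    exact k3 (φ z) (hφm z hz)
  obtain ⟨Y, hY⟩ := local_main hs1 hP hFP'
  have hρ : 0 < z₀.im * Real.exp (-(2 * Real.pi * max Y 0)) := by positivity
  refine ⟨z₀.im * Real.exp (-(2 * Real.pi * max Y 0)), hρ, fun z hz hzρ => ?_⟩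
  obtain ⟨ζ, h1, h2, h3, h4⟩ := g2_pt hz₀ _ z hz hzρ
  have hζ : ζ ∈ Hc 0 := lt_of_le_of_lt (le_max_right _ _) h4
  have hzH : z ∈ Hc 0 := by
    rw [h1]
    exact g2_mem hz₀ (g2_qq_lt hζ)
  refine ⟨hzH, fun u hu => ?_⟩
  have hu' : HX K (fun z => D (φ z)) (fun b z => e b (φ z)) u ζ := by
    have : HX K D e u (φ ζ) := by
      rw [hφa, ← h1]
      exact hu
    exact this
  have h5 := hY ζ h2 h3 (lt_of_le_of_lt (le_max_left _ _) h4) u hu'
  refine FX_global h le_rfl hUo hUs hUn fun z hz => ?_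
  obtain ⟨ζ', hζ', rfl⟩ := hUp z hz
  have := h5 ζ' hζ'
  rw [hφ] at this
  exact this

end YA38
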