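import Pool.Agent.LibYA38.YDef

/-!
From local to global.

PLAN. Suppose no finite S works. hc.cpt: a compact K ⊂ ℍ such that every τ is Δ-equivalent to a point of K or to a point τ₁ with 1 < im (σ i⁻¹ τ₁). (1) The points of Sp in a
compact set are finite in number: hint (accumulation points: a compact set is covered by finitely many balls, each contains at most finitely many points of Sp:
at most its centre). (2) In the cusp i: let τ ∈ Sp, τ = σ i • τ₁ with 1 < im τ₁. By hcusp im τ₁ ≤ Y i. By hc.width σ i trans(h i) σ i⁻¹ or its negative is in Δ (acts in the same way on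
ℍ), so modulo Δ we may assume 0 ≤ re τ₁ ≤ h i: τ₁ in a compact set, its image under σ i is compact. So all of Sp is Δ-equivalent to Sp ∩ (finite union of
compact sets), finite by (1). (Use hinv: Δ-translates stay in Sp.) Compare `finite_points` in LibZE25/Fin.lean, or LibUS38.
-/

open Matrix Complex Filter Topology
open UpperHalfPlane hiding I

namespace YA38

open SP38 US38 ZW67

private theorem G3_finite {Sp : Set ℍ}
    (hint : ∀ τ₀ : ℍ, ∃ ρ : ℝ, 0 < ρ ∧ ∀ τ ∈ Sp, τ ≠ τ₀ → ρ ≤ ‖(τ : ℂ) - τ₀‖)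
    {K : Set ℍ} (hK : IsCompact K) : {τ : ℍ | τ ∈ K ∧ τ ∈ Sp}.Finite := by
  by_contra hinf
  obtain ⟨x, _, hx⟩ := Set.Infinite.exists_accPt_of_subset_isCompact hinf hK (fun τ hτ => hτ.1)
  rw [accPt_iff_frequently_nhdsNE] at hx
  obtain ⟨ρ, hρ, h1⟩ := hint x
  have h2 : ∀ᶠ τ : ℍ in 𝓝[≠] x, ‖(τ : ℂ) - x‖ < ρ := by
    have h3 : ContinuousAt (fun τ : ℍ => ‖(τ : ℂ) - x‖) x := by
      have : Continuous fun τ : ℍ => ‖(τ : ℂ) - x‖ :=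
        (UpperHalfPlane.continuous_coe.sub continuous_const).norm
      exact this.continuousAt
    have h4 : ‖(x : ℂ) - x‖ < ρ := by simpa using hρ
    exact (h3.eventually (gt_mem_nhds h4)).filter_mono nhdsWithin_le_nhds
  have h5 : ∀ᶠ τ : ℍ in 𝓝[≠] x, ¬ (τ ∈ {τ : ℍ | τ ∈ K ∧ τ ∈ Sp}) := by
    filter_upwards [h2, self_mem_nhdsWithin] with τ h6 h7 h8
    exact absurd (h1 τ h8.2 h7) (not_le.2 h6)
  exact hx h5

theorem glob {κι : Type} [Fintype κι] {Δ : Subgroup (Matrix.SpecialLinearGroup (Fin 2) ℝ)}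
    {σ : κι → Matrix.SpecialLinearGroup (Fin 2) ℝ} {h : κι → ℝ} {X : Set ℍ}
    (hc : IsCurve Δ σ h X) (Sp : Set ℍ) (hinv : ∀ τ ∈ Sp, ∀ δ ∈ Δ, δ • τ ∈ Sp)
    (hint : ∀ τ₀ : ℍ, ∃ ρ : ℝ, 0 < ρ ∧ ∀ τ ∈ Sp, τ ≠ τ₀ → ρ ≤ ‖(τ : ℂ) - τ₀‖)
    (hcusp : ∀ i, ∃ Y : ℝ, ∀ τ : ℍ, Y < τ.im → σ i • τ ∉ Sp) :
    ∃ S : Set ℍ, S.Finite ∧ ∀ τ ∈ Sp, ∃ δ ∈ Δ, δ • τ ∈ S := by
  classical
  obtain ⟨K, hK, hcov⟩ := hc.cpt
  choose Y hY using hcusp
  set K' : Set ℍ := K ∪ ⋃ i, (fun τ : ℍ => σ i • τ) ''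
    {τ : ℍ | (0 ≤ ((τ : ℂ)).re ∧ ((τ : ℂ)).re ≤ h i) ∧ 1 ≤ τ.im ∧ τ.im ≤ Y i} with hK'
  have hK'c : IsCompact K' := by
    apply hK.union
    apply isCompact_iUnion
    intro i
    exact (glo3_box_compact (h i) 1 (Y i) one_pos).image (continuous_const_smul (σ i))
  refine ⟨{τ : ℍ | τ ∈ K' ∧ τ ∈ Sp}, G3_finite hint hK'c, ?_⟩
  intro τ hτ
  obtain ⟨δ, hδ, h1⟩ := hcov τ
  rcases h1 with h1 | ⟨i, h1⟩
  · exact ⟨δ, hδ, Or.inl h1, hinv τ hτ δ hδ⟩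
  · set τ1 : ℍ := (σ i)⁻¹ • (δ • τ) with hτ1
    obtain ⟨π, hπ, _, hπ2⟩ := hc.gen i
    have hh : 0 < h i := (hc.width i).1
    obtain ⟨δ', τ', hδ', h3, h4, h5, h6⟩ := gen_move hh hπ hπ2 τ1
    have h7 : σ i • τ1 = δ • τ := by rw [hτ1, smul_inv_smul]
    have h8 : σ i • τ' ∈ Sp := by
      rw [← h3, h7]
      exact hinv _ (hinv τ hτ δ hδ) δ' hδ'
    refine ⟨δ' * δ, Δ.mul_mem hδ' hδ, ?_⟩
    rw [mul_smul, ← h7, h3]
    refine ⟨Or.inr ?_, h8⟩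
    rw [Set.mem_iUnion]
    refine ⟨i, τ', ⟨⟨?_, ?_⟩, ?_, ?_⟩, rfl⟩
    · rw [Complex.div_ofReal_re] at h5
      have := mul_nonneg h5 hh.le
      rwa [div_mul_cancel₀ _ hh.ne'] at this
    · rw [Complex.div_ofReal_re, div_le_one hh] at h6
      exact h6
    · rw [h4]
      exact h1.le
    · by_contra h9
      exact hY i τ' (not_le.1 h9) h8

end YA38
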