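import Pool.Agent.LibYA38.P4
import Pool.Agent.LibYA38.A14
import Pool.Agent.LibZE25.Y13

/-!
The theorem of the fixed part.

PLAN. (1) One step: a ≤ -1, 1 - s ≤ a, FX a everywhere, FX (a+1) at z₀ ∈ Hc 0, then FX (a+1) everywhere. Copy the proof of `fp_fin` in LibZE25/Y13: Pot Δ 0 (NX ..) (fun _ => 0)
from NX_props (P2) and NX_mob (P3); growth P4 NX_growth; isolated zeros (hiso): if FX (a+1) fails somewhere then, with the frame equations A, pq of h.frame, some (A z *ᵥ vv z) j, pq j < a + 1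
≤ 0, is a holomorphic function on Hc 0 (see A14 / gg_diff in LibZW67/Iso) which is not identically zero: its zeros are isolated, and NX z = 0 implies FX (a+1) at z implies it
vanishes. `zeros_le` (LibUS38, used in Y13) with the single zero z₀ gives 1 * π ≤ 0, contradiction. (2) FPX: induction on a from 1 - s up to 0: FX a everywhere; FX 0 at z₀ gives FX (a+1) at z₀ as a + 1 ≤ 0.
-/

open Matrix Complex Filter Topology
open UpperHalfPlane hiding I

namespace YA38

open SP38 US38 ZW67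

variable {r s : ℕ} {w : ℤ} {K : ℕ} {Q : Matrix (Fin r) (Fin r) ℝ}
  {D : ℂ → Matrix (Fin r) (Fin r) ℂ} {e : Fin s → ℂ → Fin r → ℂ}
  {x : Fin r → ℂ} {y : Fin s → ℂ} {a : ℤ}

theorem P5_vvi (z : ℂ) (i : Fin r) : vv e x y z i = x i + ∑ b, y b * e b z i := by
  simp [vv, Finset.sum_apply]

theorem P5_dif (h : XD w K Q D e) {z : ℂ} (hz : z ∈ Hc 0) (i : Fin r) :
    DifferentiableAt ℝ (fun z => vv e x y z i) z := by
  simp only [P5_vvi]
  exact (differentiableAt_const _).add (DifferentiableAt.fun_sum fun b _ =>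
    ((h.sme b i).differentiableAt (isOpen_Hc 0) hz).const_mul _)

theorem P5_dzb (h : XD w K Q D e) {z : ℂ} (hz : z ∈ Hc 0) (i : Fin r) :
    dzb (fun z => vv e x y z i) z = ∑ b, y b * DVb (e b) z i := by
  simp only [P5_vvi]
  have hd : ∀ b ∈ (Finset.univ : Finset (Fin s)), DifferentiableAt ℝ (fun z => y b * e b z i) z :=
    fun b _ => ((h.sme b i).differentiableAt (isOpen_Hc 0) hz).const_mul _
  rw [dzb_add (differentiableAt_const _) (DifferentiableAt.fun_sum hd), dzb_const, zero_add,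
    WirtM_dzb_sum _ hd]
  refine Finset.sum_congr rfl fun b _ => ?_
  rw [WirtM_dzb_smul _ ((h.sme b i).differentiableAt (isOpen_Hc 0) hz)]
  rfl

theorem P5_hol (h : XD w K Q D e) {β : Type} [Fintype β] {pq : β → ℤ}
    {A : ℂ → Matrix β (Fin r) ℂ} {M : ℂ → Matrix β β ℂ} (hF : Frame K D pq A M) {j : β}
    (hj : pq j < 0) : DifferentiableOn ℂ (fun z => (A z *ᵥ vv e x y z) j) (Hc 0) := by
  have h1 : (fun z => (A z *ᵥ vv e x y z) j) = fun z => ∑ i, A z j i * vv e x y z i := by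
    funext z
    simp [Matrix.mulVec, dotProduct]
  rw [h1]
  intro z hz
  apply DifferentiableAt.differentiableWithinAt
  have hAd : ∀ i, DifferentiableAt ℂ (fun z => A z j i) z := fun i =>
    (hF.hol j i).differentiableAt ((isOpen_Hc 0).mem_nhds hz)
  have hed := P5_dif (x := x) (y := y) h hz
  apply diff_of_dzb
  · exact DifferentiableAt.fun_sum fun i _ => ((hAd i).restrictScalars ℝ).mul (hed i)
  · have hsum := WirtM_dzb_sum (Finset.univ : Finset (Fin r))
      (f := fun i z => A z j i * vv e x y z i) (z := z)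
      fun i _ => ((hAd i).restrictScalars ℝ).mul (hed i)
    refine hsum.trans ?_
    have h2 : ∀ i, dzb (fun z => A z j i * vv e x y z i) z =
        A z j i * (∑ b, y b • DVb (e b) z) i := by
      intro i
      rw [dzb_mul ((hAd i).restrictScalars ℝ) (hed i), dzb_of_holo (hAd i), zero_mul, zero_add,
        P5_dzb h hz]
      simp [Finset.sum_apply]
    simp only [h2]
    have h3 : ∀ l : ℤ, l < 0 → LP K (D z) l *ᵥ (∑ b, y b • DVb (e b) z) = 0 := by
      intro l hl
      rw [Matrix.mulVec_sum]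
      refine Finset.sum_eq_zero fun b _ => ?_
      rw [Matrix.mulVec_smul, h.d0 b z hz l hl, smul_zero]
    exact (hF.mem z hz 0 (∑ b, y b • DVb (e b) z)).1 h3 j hj

/-- one step -/
theorem P5_step {κι : Type} [Fintype κι] {Δ : Subgroup (Matrix.SpecialLinearGroup (Fin 2) ℝ)}
    {σ : κι → Matrix.SpecialLinearGroup (Fin 2) ℝ} {h' : κι → ℝ} {X : Set ℍ}
    (hc : IsCurve Δ σ h' X) (h : XD w K Q D e) (hinv : InvX Δ Q D e)
    (hgr : GrX σ e) (h1 : ∀ z ∈ Hc 0, FX K D e (1 - s) x y z)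
    (h2 : ∀ z ∈ Hc 0, FX K D e (1 - s) (cj x) (cj y) z) (ha : a ≤ -1)
    (hm : ∀ z ∈ Hc 0, FX K D e a x y z) {z₀ : ℂ} (hz₀ : z₀ ∈ Hc 0)
    (h0 : FX K D e (a + 1) x y z₀) : ∀ z ∈ Hc 0, FX K D e (a + 1) x y z := by
  obtain ⟨hsm, hreal, hzero, hineq⟩ := NX_props h ha hm
  obtain ⟨β, hβ, pq, A, M, hF⟩ := h.frame
  have hiff : ∀ z ∈ Hc 0, (FX K D e (a + 1) x y z ↔
      ∀ j, pq j < a + 1 → (A z *ᵥ vv e x y z) j = 0) := by
    intro z hz
    rw [← hF.mem z hz (a + 1) (vv e x y z)]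
    exact ⟨fun hx => hx.2, fun hx => ⟨fun h3 => by omega, hx⟩⟩
  by_contra hcon
  push Not at hcon
  obtain ⟨z₁, hz₁, hn₁⟩ := hcon
  have hex : ∃ j, pq j < a + 1 ∧ (A z₁ *ᵥ vv e x y z₁) j ≠ 0 := by
    by_contra hh
    push Not at hh
    exact hn₁ ((hiff z₁ hz₁).2 hh)
  obtain ⟨j, hj, hne⟩ := hex
  have hf : DifferentiableOn ℂ (fun z => (A z *ᵥ vv e x y z) j) (Hc 0) :=
    P5_hol h hF (by omega)
  have han := hf.analyticOnNhd (isOpen_Hc 0)
  have hpre : IsPreconnected (Hc 0) := glo1_preconnected_uhp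
  have hiso : ∀ z₂ : ℂ, 0 < z₂.im → ∀ᶠ z in 𝓝[≠] z₂, NX w K Q D e a x y z ≠ 0 := by
    intro z₂ hz₂
    have h3 : ∀ᶠ z in 𝓝[≠] z₂, (A z *ᵥ vv e x y z) j ≠ 0 := by
      by_contra hh
      rw [Filter.not_eventually] at hh
      simp only [not_not] at hh
      exact hne (han.eqOn_zero_of_preconnected_of_frequently_eq_zero hpre hz₂ hh hz₁)
    have h4 : ∀ᶠ z in 𝓝[≠] z₂, z ∈ Hc 0 :=
      eventually_nhdsWithin_of_eventually_nhds ((isOpen_Hc 0).mem_nhds hz₂)
    filter_upwards [h3, h4] with z hz hz' h5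
    exact hz ((hiff z hz').1 ((hzero z hz').1 h5) j hj)
  have hP : Pot Δ 0 (NX w K Q D e a x y) (fun _ => 0) := by
    refine ⟨le_rfl, hsm, SmS_const 0, fun z hz => (hreal z hz).1, fun z hz => (hreal z hz).2,
      ?_, ?_, fun δ hδ z hz => NX_mob h hinv h1 h2 hδ hz, ?_⟩
    · intro z hz
      rw [Real.sqrt_zero, zero_div, zero_mul, norm_zero]
    · intro ε hε z hz
      rw [zero_div, neg_zero]
      exact hineq ε hε z hz
    · intro δ hδ z hz
      unfold pb
      rw [zero_mul]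
  have hle := zeros_le hc hP (fun i => NX_growth hc h hinv hgr h1 h2 i) hiso {(⟨z₀, hz₀⟩ : ℍ)}
    (fun z hz => by
      rw [Finset.mem_singleton] at hz
      subst hz
      exact (hzero z₀ hz₀).2 h0)
    (fun z hz z' hz' δ _ _ => by
      rw [Finset.mem_singleton] at hz hz'
      rw [hz, hz'])
  rw [Finset.card_singleton, Nat.cast_one, one_mul, zero_mul] at hle
  exact absurd hle (not_le.2 Real.pi_pos)

theorem fpx {κι : Type} [Fintype κι] {Δ : Subgroup (Matrix.SpecialLinearGroup (Fin 2) ℝ)}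
    {σ : κι → Matrix.SpecialLinearGroup (Fin 2) ℝ} {h' : κι → ℝ} {X : Set ℍ}
    (hc : IsCurve Δ σ h' X) (hs1 : 1 ≤ s) (h : XD w K Q D e) (hinv : InvX Δ Q D e)
    (hgr : GrX σ e) : FPX K D e := by
  intro x y h1 h2 h3
  obtain ⟨z₀, hz₀, h0⟩ := h3
  have key : ∀ n : ℕ, n + 1 ≤ s → ∀ z ∈ Hc 0, FX K D e (1 - s + n) x y z := by
    intro n
    induction n with
    | zero =>
      intro _ z hz
      have := h1 z hz
      simpa using this
    | succ n ih =>
      intro hn
      have hm := ih (by omega)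
      have h4 : FX K D e ((1 - (s : ℤ) + n) + 1) x y z₀ :=
        ⟨fun h5 => by omega, fun l hl => h0.2 l (by omega)⟩
      have h5 := P5_step hc h hinv hgr h1 h2 (a := 1 - (s : ℤ) + n) (by omega) hm hz₀ h4
      intro z hz
      have h6 := h5 z hz
      have e1 : (1 - (s : ℤ) + n) + 1 = 1 - (s : ℤ) + ((n + 1 : ℕ) : ℤ) := by
        push_cast
        ring
      rw [e1] at h6
      exact h6
  have h7 := key (s - 1) (by omega)
  have e2 : (1 - (s : ℤ) + ((s - 1 : ℕ) : ℤ)) = 0 := by omega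
  rw [e2] at h7
  exact h7

end YA38
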