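import Pool.Agent.LibYA38.G2
import Pool.Agent.LibYA38.G3
import Pool.Agent.LibYA38.P5

/-!
The main theorem on several extension classes.

PLAN (assembly). Sp = {τ : ℍ | ∃ u, HX K D e u τ ∧ ¬ ∀ z ∈ Hc 0, HX K D e u z}. `glob` (G3) for Sp. hinv: δ ∈ Δ with g, β: u' = (g x - ∑ y_b β_b, y): vv u' (mob δ z) = cm g *ᵥ vv u z for
all z, and LP K (D (mob δ z)) l * cm g = cm g * LP K (D z) l (LP_tr), HX u' (mob δ z) if HX u z; for
the converse use δ⁻¹ ∈ Δ with its g', β' and rigidity... simpler: if gᵀ Q g = Q and Q nondegenerate (h.gd.pos) then g is a unit): so HX u' (mob δ z) ↔ HX u z, and if u' is global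
then so is u (every z is mob δ (mob δ⁻¹ ...)). hint: interior_main (G2) with FPX from P5. hcusp: hcusp i gives h', N, β, Pun; FPX for the pulled back data (as in G2: A14), local_main (A16)
gives Y; for τ with im τ > h' Y: translate by a multiple of h' (σ trans(h') σ⁻¹ ∈ Δ, Sp is Δ-stable) so that ζ = τ/h' has 0 ≤ re ζ ≤ 1; mob_coe.
-/

open Matrix Complex Filter Topology
open UpperHalfPlane hiding I

namespace YA38

open SP38 US38 ZW67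

variable {r s : ℕ} {w : ℤ} {K : ℕ} {Q : Matrix (Fin r) (Fin r) ℝ}
  {D : ℂ → Matrix (Fin r) (Fin r) ℂ} {e : Fin s → ℂ → Fin r → ℂ}
  {x : Fin r → ℂ} {y : Fin s → ℂ} {a : ℤ}

open scoped ComplexOrder in
private theorem G4_inj {g : Matrix (Fin r) (Fin r) ℝ} (hg : gᵀ * Q * g = Q) (h : XD w K Q D e)
    {z z' : ℂ} (hz : z ∈ Hc 0) (hD : D z' * cm g = cm g * D z) {v : Fin r → ℂ}
    (hv : cm g *ᵥ v = 0) : v = 0 := by
  by_contra hne
  have hd := (h.gd.pv (isOpen_Hc 0)).hd z hz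
  have h1 := hm_tr (w := w) (K := K) (P := fun a => LP K (D z) a) (P' := fun a => LP K (D z') a)
    hg (fun a => LP_tr hD a) v v
  rw [hv] at h1
  have h2 := hd.posDef.dotProduct_mulVec_pos hne
  have h3 : hm (metr w K Q fun a => LP K (D z) a) v v = 0 := by
    rw [← h1, hm, Matrix.mulVec_zero, dotProduct_zero]
  rw [hm] at h3
  rw [h3] at h2
  exact lt_irrefl _ h2

/-- the translate of a real vector -/
private noncomputable def G4_tr (g : Matrix (Fin r) (Fin r) ℝ) (β : Fin s → Fin r → ℝ)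
    (u : Fin r ⊕ Fin s → ℝ) : Fin r ⊕ Fin s → ℝ :=
  Sum.elim (g *ᵥ (fun i => u (Sum.inl i)) - ∑ b, u (Sum.inr b) • β b) fun b => u (Sum.inr b)

private theorem G4_vv {g : Matrix (Fin r) (Fin r) ℝ} {β : Fin s → Fin r → ℝ}
    {z z' : ℂ} (he : ∀ b, e b z' = cm g *ᵥ e b z + ofR (β b)) (u : Fin r ⊕ Fin s → ℝ) :
    vv e (rv (G4_tr g β u)).1 (rv (G4_tr g β u)).2 z' = cm g *ᵥ vv e (rv u).1 (rv u).2 z := by
  have h1 : (rv (G4_tr g β u)).1 = cm g *ᵥ (rv u).1 -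
      ∑ b, (u (Sum.inr b) : ℂ) • ofR (β b) := by
    funext i
    simp only [rv, G4_tr, Sum.elim_inl, Pi.sub_apply, Finset.sum_apply, Pi.smul_apply,
      smul_eq_mul, Matrix.mulVec, dotProduct, cm, Matrix.map_apply, ofR]
    push_cast
    rfl
  have h2 : (rv (G4_tr g β u)).2 = (rv u).2 := rfl
  unfold vv
  rw [h1, h2, Matrix.mulVec_add, Matrix.mulVec_sum]
  have h3 : ∑ b, (rv u).2 b • e b z' = ∑ b, cm g *ᵥ ((rv u).2 b • e b z) +
      ∑ b, (u (Sum.inr b) : ℂ) • ofR (β b) := by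
    rw [← Finset.sum_add_distrib]
    refine Finset.sum_congr rfl fun b _ => ?_
    rw [he b, smul_add, Matrix.mulVec_smul]
    rfl
  rw [h3]
  abel

private theorem G4_HX (h : XD w K Q D e) {g : Matrix (Fin r) (Fin r) ℝ} (hg : gᵀ * Q * g = Q)
    {β : Fin s → Fin r → ℝ} {z z' : ℂ} (hz : z ∈ Hc 0) (hD : D z' * cm g = cm g * D z)
    (he : ∀ b, e b z' = cm g *ᵥ e b z + ofR (β b)) (u : Fin r ⊕ Fin s → ℝ) :
    HX K D e (G4_tr g β u) z' ↔ HX K D e u z := by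
  have key : ∀ l : ℤ, LP K (D z') l *ᵥ vv e (rv (G4_tr g β u)).1 (rv (G4_tr g β u)).2 z' =
      cm g *ᵥ (LP K (D z) l *ᵥ vv e (rv u).1 (rv u).2 z) := by
    intro l
    rw [G4_vv he, Matrix.mulVec_mulVec, Matrix.mulVec_mulVec, LP_tr hD l]
  constructor
  · rintro ⟨-, h2⟩
    refine ⟨fun h0 => absurd h0 (lt_irrefl _), fun l hl => ?_⟩
    have h3 := h2 l hl
    rw [key l] at h3
    exact G4_inj hg h hz hD h3
  · rintro ⟨-, h2⟩
    refine ⟨fun h0 => absurd h0 (lt_irrefl _), fun l hl => ?_⟩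
    rw [key l, h2 l hl, Matrix.mulVec_zero]

private theorem G4_mob_inv (g : Matrix.SpecialLinearGroup (Fin 2) ℝ) {z : ℂ} (hz : z ∈ Hc 0) :
    mob g (mob g⁻¹ z) = z := by
  rw [← mob_mul g g⁻¹ hz, mul_inv_cancel, mob_one]

theorem xa_main {κι : Type} [Fintype κι] {Δ : Subgroup (Matrix.SpecialLinearGroup (Fin 2) ℝ)}
    {σ : κι → Matrix.SpecialLinearGroup (Fin 2) ℝ} {h' : κι → ℝ} {X : Set ℍ}
    (hc : IsCurve Δ σ h' X) (hs1 : 1 ≤ s) (h : XD w K Q D e) (hinv : InvX Δ Q D e)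
    (hgr : GrX σ e) (hcusp : ∀ i, CuspX Δ (σ i) w K Q D e) :
    ∃ S : Set ℍ, S.Finite ∧ ∀ (τ : ℍ) (u : Fin r ⊕ Fin s → ℝ), HX K D e u τ →
      (∀ z ∈ Hc 0, HX K D e u z) ∨ ∃ δ ∈ Δ, δ • τ ∈ S := by
  have hFP := fpx hc hs1 h hinv hgr
  let Sp : Set ℍ := {τ | ∃ u : Fin r ⊕ Fin s → ℝ, HX K D e u τ ∧ ¬ ∀ z ∈ Hc 0, HX K D e u z}
  have hstab : ∀ τ ∈ Sp, ∀ δ ∈ Δ, δ • τ ∈ Sp := by
    rintro τ ⟨u, hu, hnu⟩ δ hδ
    obtain ⟨g, β, hg, hgz⟩ := hinv δ hδ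
    have hiff : ∀ z ∈ Hc 0, (HX K D e (G4_tr g β u) (mob δ z) ↔ HX K D e u z) :=
      fun z hz => G4_HX h hg hz (hgz z hz).1 (hgz z hz).2 u
    refine ⟨G4_tr g β u, ?_, ?_⟩
    · rw [← mob_coe]
      exact (hiff τ τ.im_pos).2 hu
    · intro hall
      apply hnu
      intro z hz
      exact (hiff z hz).1 (hall _ (mob_mem δ hz))
  have hint : ∀ τ₀ : ℍ, ∃ ρ : ℝ, 0 < ρ ∧ ∀ τ ∈ Sp, τ ≠ τ₀ → ρ ≤ ‖(τ : ℂ) - τ₀‖ := by
    intro τ₀
    obtain ⟨ρ, hρ, h1⟩ := interior_main hs1 h hFP (z₀ := (τ₀ : ℂ)) τ₀.im_pos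
    refine ⟨ρ, hρ, ?_⟩
    rintro τ ⟨u, hu, hnu⟩ hne
    by_contra hlt
    push Not at hlt
    apply hnu
    exact (h1 τ (fun h2 => hne (UpperHalfPlane.ext h2)) hlt).2 u hu
  have hcusp' : ∀ i, ∃ Y : ℝ, ∀ τ : ℍ, Y < τ.im → σ i • τ ∉ Sp := by
    intro i
    obtain ⟨h2, N, β, hh, hΔ, hpun⟩ := hcusp i
    have hhc : (h2 : ℂ) ≠ 0 := by exact_mod_cast hh.ne'
    have hscale : ∀ z ∈ Hc 0, (h2 : ℂ) * z ∈ Hc 0 := by
      intro z hz
      have hz' : 0 < z.im := hz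
      show 0 < ((h2 : ℂ) * z).im
      rw [Complex.im_ofReal_mul]
      positivity
    have hsurj : ∀ z' ∈ Hc 0, ∃ z ∈ Hc 0, mob (σ i) (h2 * z) = z' := by
      intro z' hz'
      have h3 : mob (σ i)⁻¹ z' ∈ Hc 0 := mob_mem _ hz'
      refine ⟨mob (σ i)⁻¹ z' / h2, ?_, ?_⟩
      · show 0 < (mob (σ i)⁻¹ z' / h2).im
        rw [Complex.div_ofReal_im]
        exact div_pos h3 hh
      · rw [mul_div_cancel₀ _ hhc]
        exact G4_mob_inv _ hz'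
    have hFP' : FPX K (fun ζ => D (mob (σ i) (h2 * ζ)))
        (fun b ζ => e b (mob (σ i) (h2 * ζ))) := by
      intro x y h3 h4 h5 z hz
      obtain ⟨z₁, hz₁, h6⟩ := h5
      have h7 := hFP x y (fun z' hz' => by
        obtain ⟨z, hz, rfl⟩ := hsurj z' hz'
        exact h3 z hz) (fun z' hz' => by
        obtain ⟨z, hz, rfl⟩ := hsurj z' hz'
        exact h4 z hz) ⟨mob (σ i) (h2 * z₁), mob_mem _ (hscale _ hz₁), h6⟩
      exact h7 _ (mob_mem _ (hscale z hz))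
    obtain ⟨Y, hY⟩ := local_main hs1 hpun hFP'
    refine ⟨h2 * Y, fun τ hτ hSp => ?_⟩
    obtain ⟨δ, τ', hδ, e1, e2, e3, e4⟩ := gen_move hh hΔ (fun τ => rfl) τ
    have hSp' := hstab _ hSp δ hδ
    rw [e1] at hSp'
    obtain ⟨u, hu, hnu⟩ := hSp'
    have h8 : Y < ((τ' : ℂ) / h2).im := by
      rw [Complex.div_ofReal_im, lt_div_iff₀ hh, mul_comm]
      have : (τ' : ℂ).im = τ'.im := rfl
      rw [this, e2]
      exact hτ
    have h9 : mob (σ i) (h2 * ((τ' : ℂ) / h2)) = ((σ i • τ' : ℍ) : ℂ) := by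
      rw [mul_div_cancel₀ _ hhc, mob_coe]
    have h10 : HX K (fun ζ => D (mob (σ i) (h2 * ζ)))
        (fun b ζ => e b (mob (σ i) (h2 * ζ))) u ((τ' : ℂ) / h2) := by
      have h11 : HX K D e u (mob (σ i) (h2 * ((τ' : ℂ) / h2))) := by
        rw [h9]
        exact hu
      exact h11
    have h12 := hY _ e3 e4 h8 u h10
    apply hnu
    intro z' hz'
    obtain ⟨z, hz, rfl⟩ := hsurj z' hz'
    exact h12 z hz
  obtain ⟨S, hS, hS2⟩ := glob hc Sp hstab hint hcusp'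
  refine ⟨S, hS, fun τ u hu => ?_⟩
  by_cases hall : ∀ z ∈ Hc 0, HX K D e u z
  · exact Or.inl hall
  · exact Or.inr (hS2 τ ⟨u, hu, hall⟩)

end YA38
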