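import Pool.Agent.LibYA38.LDef

/-!
A basis of the equivariant maps.

PLAN. S : Submodule ℚ (u →ₗ[ℚ] (Fin r → ℚ)) with carrier {f | ∀ A ∈ m, ∀ x x' : u, (x' : Matrix ι ι ℚ) = A * x - x * A → f x' = rho A *ᵥ f x}. Basis B :=
Module.finBasis ℚ S, s := finrank. lb b := an extension of (B b : u →ₗ _) to all matrices (`LinearMap.exists_extend`, choose). it: for x ∈ u, A x - x A ∈ u by hst. ind: the sum is 0 on
u, so ∑ c b • B b = 0 in S, c = 0 by linear independence. span: f.domRestrict u (f ∘ₗ u.subtype) is in S, take its coordinates. one: lam restricted to u is in S (hW.act) and is not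
zero: n ≠ u gives x ∈ u, x ∉ n, lam x ≠ 0 (hW.ker), so S ≠ ⊥ and finrank S ≠ 0.
-/

open Matrix Complex
open UpperHalfPlane hiding I
open MW38 (Fl Tri blk dg)
open SP38 (Hc)

namespace YA38

open ZQ38

variable {ι : Type} [Fintype ι] [DecidableEq ι] {wt p : ι → ℤ} {K : ℕ} {w : ℤ} {r s : ℕ}
  {m u n n₁ : Submodule ℚ (Matrix ι ι ℚ)} {lam : Matrix ι ι ℚ →ₗ[ℚ] (Fin r → ℚ)}
  {rho : Matrix ι ι ℚ →ₗ[ℚ] Matrix (Fin r) (Fin r) ℚ}
  {lb : Fin s → (Matrix ι ι ℚ →ₗ[ℚ] (Fin r → ℚ))}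

/-- the equivariant maps -/
private def L1_S (m u : Submodule ℚ (Matrix ι ι ℚ))
    (rho : Matrix ι ι ℚ →ₗ[ℚ] Matrix (Fin r) (Fin r) ℚ) :
    Submodule ℚ (u →ₗ[ℚ] (Fin r → ℚ)) where
  carrier := {f | ∀ A ∈ m, ∀ x x' : u, (x' : Matrix ι ι ℚ) = A * x - x * A →
    f x' = rho A *ᵥ f x}
  add_mem' := by
    intro f g hf hg A hA x x' hx
    rw [LinearMap.add_apply, hf A hA x x' hx, hg A hA x x' hx, LinearMap.add_apply,
      Matrix.mulVec_add]
  zero_mem' := by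
    intro A _ x x' _
    rw [LinearMap.zero_apply, LinearMap.zero_apply, Matrix.mulVec_zero]
  smul_mem' := by
    intro c f hf A hA x x' hx
    rw [LinearMap.smul_apply, hf A hA x x' hx, LinearMap.smul_apply, Matrix.mulVec_smul]

private theorem L1_basis {V : Type} [AddCommGroup V] [Module ℚ V] [Module.Finite ℚ V]
    (S : Submodule ℚ V) (x : V) (hx : x ∈ S) (hx0 : x ≠ 0) :
    ∃ (s : ℕ) (B : Fin s → V), 1 ≤ s ∧ (∀ b, B b ∈ S) ∧
      (∀ c : Fin s → ℚ, ∑ b, c b • B b = 0 → c = 0) ∧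
      ∀ y ∈ S, ∃ c : Fin s → ℚ, y = ∑ b, c b • B b := by
  set B := Module.finBasis ℚ S with hB
  refine ⟨_, fun b => (B b : V), ?_, fun b => (B b).2, ?_, ?_⟩
  · have : Nontrivial S := ⟨⟨⟨x, hx⟩, 0, fun h => hx0 (congrArg Subtype.val h)⟩⟩
    exact Nat.succ_le_iff.2 Module.finrank_pos
  · intro c hc
    have h1 : ∑ b, c b • B b = 0 := by
      apply Subtype.ext
      rw [Submodule.coe_sum]
      exact hc
    funext b
    exact Fintype.linearIndependent_iff.1 B.linearIndependent c h1 b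
  · intro y hy
    refine ⟨fun b => B.repr ⟨y, hy⟩ b, ?_⟩
    have h3 := congrArg Subtype.val (B.sum_repr ⟨y, hy⟩)
    rw [Submodule.coe_sum] at h3
    exact h3.symm

omit [DecidableEq ι] in
private theorem L1_mem {f : u →ₗ[ℚ] (Fin r → ℚ)} : f ∈ L1_S m u rho ↔
    ∀ A ∈ m, ∀ x x' : u, (x' : Matrix ι ι ℚ) = A * x - x * A → f x' = rho A *ᵥ f x := Iff.rfl

omit [DecidableEq ι] in
private theorem L1_restrict (hst : ∀ A ∈ m, ∀ x ∈ u, A * x - x * A ∈ u)
    {f : Matrix ι ι ℚ →ₗ[ℚ] (Fin r → ℚ)} (hf : IT m u rho f) :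
    f ∘ₗ u.subtype ∈ L1_S m u rho := by
  have _ := hst
  rw [L1_mem]
  intro A hA x x' hx
  rw [LinearMap.comp_apply, LinearMap.comp_apply, Submodule.subtype_apply,
    Submodule.subtype_apply, hx]
  exact hf A hA x x.2

theorem exists_ITB (hst : ∀ A ∈ m, ∀ x ∈ u, A * x - x * A ∈ u) (hW : WD wt m u n w r lam rho)
    (hn : n ≤ u) (hne : n ≠ u) :
    ∃ (s : ℕ) (lb : Fin s → (Matrix ι ι ℚ →ₗ[ℚ] (Fin r → ℚ))), ITB m u rho lb := by
  classical
  have hlam : lam ∘ₗ u.subtype ∈ L1_S m u rho := L1_restrict hst hW.act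
  have hne0 : lam ∘ₗ u.subtype ≠ 0 := by
    intro h1
    apply hne
    refine le_antisymm hn fun x hx => ?_
    rw [← hW.ker x hx]
    exact LinearMap.congr_fun h1 (⟨x, hx⟩ : u)
  obtain ⟨s, B, hs1, hBS, hind, hspan⟩ := L1_basis (L1_S m u rho) _ hlam hne0
  have hext : ∀ b, ∃ g : Matrix ι ι ℚ →ₗ[ℚ] (Fin r → ℚ), g ∘ₗ u.subtype = B b :=
    fun b => LinearMap.exists_extend _
  choose lb hlb using hext
  have hv : ∀ b, ∀ x (hx : x ∈ u), lb b x = B b ⟨x, hx⟩ := by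
    intro b x hx
    rw [← hlb b]
    rfl
  refine ⟨s, lb, hs1, ?_, ?_, ?_⟩
  · intro b A hA x hx
    rw [hv b x hx, hv b _ (hst A hA x hx)]
    exact L1_mem.1 (hBS b) A hA ⟨x, hx⟩ ⟨_, hst A hA x hx⟩ rfl
  · intro c hc
    apply hind
    apply LinearMap.ext
    intro x
    rw [LinearMap.sum_apply, LinearMap.zero_apply, ← hc x x.2]
    refine Finset.sum_congr rfl fun b _ => ?_
    rw [LinearMap.smul_apply, hv b x x.2]
  · intro f hf
    obtain ⟨c, hc⟩ := hspan _ (L1_restrict hst hf)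
    refine ⟨c, fun x hx => ?_⟩
    have h4 := LinearMap.congr_fun hc (⟨x, hx⟩ : u)
    rw [LinearMap.sum_apply] at h4
    refine Eq.trans (show f x = _ from h4) ?_
    refine Finset.sum_congr rfl fun b _ => ?_
    rw [LinearMap.smul_apply, hv b x hx]

end YA38
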