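import Pool.Agent.LibYA38.LDef

/-!
The associative algebra generated by the commutators.

PLAN. exists_G: `Algebra.adjoin_induction` for T. mem: T = adE A: G = rho A (IT, hst; adE A x = A * x - x * A: LinearMap.sub_apply, mulLeft_apply, mulRight_apply). algebraMap c: G = c •
1 (T x = c • x: Module.algebraMap_end_apply). add: G + G'. mul: (T T') x = T (T' x): G * G'. stable: same induction. map_cjg: T from InG; T maps n to n (adjoin_stable), so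
n.map (cjg γ γ⁻¹) ≤ n; cjg γ γ⁻¹ is injective (γ unit: C8b_inv in LibZQ38/C8b, or map_map_cjg in LibZL19/Mono), so finranks agree
(LinearMap.finrank... `Submodule.finrank_map_eq` / `LinearEquiv.finrank_map_eq`), equality. G_rho: for v = f x, x ∈ u (hs): G *ᵥ rho A *ᵥ f x = G *ᵥ f (A x - x A) = f (γ (A x
- x A) γ⁻¹) = f (A' x' - x' A') with A' = γ A γ⁻¹ ∈ m (hm), x' = γ x γ⁻¹ ∈ u (γ⁻¹ γ = 1) = rho A' *ᵥ f x' = rho A' *ᵥ G *ᵥ f x; matrices equal if they agree on all vectors.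
-/

open Matrix Complex
open UpperHalfPlane hiding I
open MW38 (Fl Tri blk dg)
open SP38 (Hc)

namespace YA38

open ZQ38

variable {ι : Type} [Fintype ι] [DecidableEq ι] {wt p : ι → ℤ} {K : ℕ} {w : ℤ} {r s : ℕ}
  {m u n n₁ : Submodule ℚ (Matrix ι ι ℚ)} {lam : Matrix ι ι ℚ →ₗ[ℚ] (Fin r → ℚ)}
  {rho : Matrix ι ι ℚ →ₗ[ℚ] Matrix (Fin r) (Fin r) ℚ}
  {lb : Fin s → (Matrix ι ι ℚ →ₗ[ℚ] (Fin r → ℚ))}

private theorem L5_ade (A x : Matrix ι ι ℚ) : adE A x = A * x - x * A := by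
  unfold adE
  rw [LinearMap.sub_apply, LinearMap.mulLeft_apply, LinearMap.mulRight_apply]

theorem exists_G (hst : ∀ A ∈ m, ∀ x ∈ u, A * x - x * A ∈ u) {T : Module.End ℚ (Matrix ι ι ℚ)}
    (hT : T ∈ Algebra.adjoin ℚ (adE '' (m : Set (Matrix ι ι ℚ)))) :
    ∃ G : Matrix (Fin r) (Fin r) ℚ, ∀ f, IT m u rho f → ∀ x ∈ u, T x ∈ u ∧ f (T x) = G *ᵥ f x := by
  induction hT using Algebra.adjoin_induction with
  | mem T hT =>
    obtain ⟨A, hA, rfl⟩ := hT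
    refine ⟨rho A, fun f hf x hx => ?_⟩
    rw [L5_ade]
    exact ⟨hst A hA x hx, hf A hA x hx⟩
  | algebraMap c =>
    refine ⟨c • 1, fun f _ x hx => ?_⟩
    rw [Module.algebraMap_end_apply]
    refine ⟨u.smul_mem c hx, ?_⟩
    rw [map_smul, smul_mulVec, one_mulVec]
  | add T T' _ _ h h' =>
    obtain ⟨G, hG⟩ := h
    obtain ⟨G', hG'⟩ := h'
    refine ⟨G + G', fun f hf x hx => ?_⟩
    rw [LinearMap.add_apply, map_add, (hG f hf x hx).2, (hG' f hf x hx).2, add_mulVec]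
    exact ⟨u.add_mem (hG f hf x hx).1 (hG' f hf x hx).1, rfl⟩
  | mul T T' _ _ h h' =>
    obtain ⟨G, hG⟩ := h
    obtain ⟨G', hG'⟩ := h'
    refine ⟨G * G', fun f hf x hx => ?_⟩
    have h1 := hG' f hf x hx
    have h2 := hG f hf (T' x) h1.1
    rw [Module.End.mul_apply, h2.2, h1.2, mulVec_mulVec]
    exact ⟨h2.1, rfl⟩

theorem adjoin_stable {T : Module.End ℚ (Matrix ι ι ℚ)}
    (hT : T ∈ Algebra.adjoin ℚ (adE '' (m : Set (Matrix ι ι ℚ))))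
    (hn : ∀ A ∈ m, ∀ x ∈ n, A * x - x * A ∈ n) : ∀ x ∈ n, T x ∈ n := by
  induction hT using Algebra.adjoin_induction with
  | mem T hT =>
    obtain ⟨A, hA, rfl⟩ := hT
    intro x hx
    rw [L5_ade]
    exact hn A hA x hx
  | algebraMap c =>
    intro x hx
    rw [Module.algebraMap_end_apply]
    exact n.smul_mem c hx
  | add T T' _ _ h h' =>
    intro x hx
    rw [LinearMap.add_apply]
    exact n.add_mem (h x hx) (h' x hx)
  | mul T T' _ _ h h' =>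
    intro x hx
    rw [Module.End.mul_apply]
    exact h _ (h' x hx)

private theorem L5_inv {γ : Matrix ι ι ℚ} (hγ : IsUnit γ) : γ * γ⁻¹ = 1 ∧ γ⁻¹ * γ = 1 := by
  have h : IsUnit γ.det := (Matrix.isUnit_iff_isUnit_det γ).1 hγ
  exact ⟨Matrix.mul_nonsing_inv γ h, Matrix.nonsing_inv_mul γ h⟩

theorem map_cjg_of_InG {γ : Matrix ι ι ℚ} (hγ : IsUnit γ) (hG : InG m γ)
    (hn : ∀ A ∈ m, ∀ x ∈ n, A * x - x * A ∈ n) : n.map (ZL19.cjg γ γ⁻¹) = n := by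
  obtain ⟨T, hT, hTx⟩ := hG
  have hle : n.map (ZL19.cjg γ γ⁻¹) ≤ n := by
    rintro _ ⟨x, hx, rfl⟩
    rw [ZL19.cjg_apply, ← hTx x]
    exact adjoin_stable hT hn x hx
  have hinj : Function.Injective (ZL19.cjg γ γ⁻¹) := by
    intro x y hxy
    have h1 : ZL19.cjg γ⁻¹ γ (ZL19.cjg γ γ⁻¹ x) = ZL19.cjg γ⁻¹ γ (ZL19.cjg γ γ⁻¹ y) := by rw [hxy]
    rwa [ZL19.cjg_cjg (L5_inv hγ).2, ZL19.cjg_cjg (L5_inv hγ).2] at h1
  refine Submodule.eq_of_le_of_finrank_le hle ?_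
  exact (LinearEquiv.finrank_eq (Submodule.equivMapOfInjective _ hinj n)).le

theorem G_rho {f : Matrix ι ι ℚ →ₗ[ℚ] (Fin r → ℚ)} (hf : IT m u rho f)
    (hst : ∀ A ∈ m, ∀ x ∈ u, A * x - x * A ∈ u) (hs : ∀ v, ∃ x ∈ u, f x = v)
    {γ : Matrix ι ι ℚ} (hγ : IsUnit γ) (hm : m.map (ZL19.cjg γ γ⁻¹) = m)
    {G : Matrix (Fin r) (Fin r) ℚ}
    (hG : ∀ x ∈ u, γ * x * γ⁻¹ ∈ u ∧ f (γ * x * γ⁻¹) = G *ᵥ f x) :
    ∀ A ∈ m, rho (γ * A * γ⁻¹) * G = G * rho A := by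
  intro A hA
  have hA' : γ * A * γ⁻¹ ∈ m := by
    rw [← hm]
    exact ⟨A, hA, rfl⟩
  apply Matrix.mulVec_injective
  funext v
  obtain ⟨x, hx, rfl⟩ := hs v
  rw [← mulVec_mulVec, ← mulVec_mulVec, ← (hG x hx).2, ← hf A hA x hx,
    ← (hG _ (hst A hA x hx)).2, ← hf _ hA' _ (hG x hx).1]
  congr 1
  have := ZL19.cjg_br (L5_inv hγ).2 A x
  simp only [ZL19.cjg_apply] at this
  rw [this]

end YA38
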