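import Pool.Agent.LibZW67.Main
import Pool.Agent.LibZE25.ALoc

/-!
Several extension classes with values in one polarized variation: definitions.
-/

open Matrix Complex
open UpperHalfPlane hiding I

namespace YA38

open SP38 US38 ZW67

variable {r s : ℕ}

/-- `s` extension classes with values in a polarized variation given by its grading operator -/
structure XD (w : ℤ) (K : ℕ) (Q : Matrix (Fin r) (Fin r) ℝ)
    (D : ℂ → Matrix (Fin r) (Fin r) ℂ) (e : Fin s → ℂ → Fin r → ℂ) : Prop where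
  gd : GD w K Q (Hc 0) D
  sme : ∀ b, SmV (Hc 0) (e b)
  d0 : ∀ b, ∀ z ∈ Hc 0, ∀ a : ℤ, a < 0 → LP K (D z) a *ᵥ DVb (e b) z = 0
  d1 : ∀ b, ∀ z ∈ Hc 0, ∀ a : ℤ, a < -1 → LP K (D z) a *ᵥ DV (e b) z = 0
  types : ∀ z ∈ Hc 0, ∀ a : ℤ, LP K (D z) a ≠ 0 → a < -(s : ℤ) ∨ w - a < -(s : ℤ)
  neg : w < 0
  frame : ∃ (β : Type) (_ : Fintype β) (pq : β → ℤ) (A : ℂ → Matrix β (Fin r) ℂ)
    (M : ℂ → Matrix β β ℂ), Frame K D pq A M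

/-- the vector `x + ∑ y_b e_b(z)` -/
noncomputable def vv (e : Fin s → ℂ → Fin r → ℂ) (x : Fin r → ℂ) (y : Fin s → ℂ) (z : ℂ) :
    Fin r → ℂ := x + ∑ b, y b • e b z

/-- `(x, y)` lies in the step `F^a` of the extension at `z` -/
def FX (K : ℕ) (D : ℂ → Matrix (Fin r) (Fin r) ℂ) (e : Fin s → ℂ → Fin r → ℂ) (a : ℤ)
    (x : Fin r → ℂ) (y : Fin s → ℂ) (z : ℂ) : Prop :=
  (0 < a → y = 0) ∧ ∀ l : ℤ, l < a → LP K (D z) l *ᵥ vv e x y z = 0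

/-- the step `F^l` of the filtration of a grading operator -/
def FS (K : ℕ) (D : Matrix (Fin r) (Fin r) ℂ) (l : ℤ) : Submodule ℂ (Fin r → ℂ) where
  carrier := {x | ∀ a : ℤ, a < l → LP K D a *ᵥ x = 0}
  add_mem' := by
    intro x y hx hy a ha
    rw [Matrix.mulVec_add, hx a ha, hy a ha, add_zero]
  zero_mem' := by
    intro a _
    rw [Matrix.mulVec_zero]
  smul_mem' := by
    intro c x hx a ha
    rw [Matrix.mulVec_smul, hx a ha, smul_zero]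

/-- the vectors killed by the rows of index less than `l` -/
def KS {β : Type} (pq : β → ℤ) (R : Matrix β (Fin r) ℂ) (l : ℤ) :
    Submodule ℂ (Fin r → ℂ) where
  carrier := {x | ∀ j, pq j < l → (R *ᵥ x) j = 0}
  add_mem' := by
    intro x y hx hy j hj
    rw [Matrix.mulVec_add, Pi.add_apply, hx j hj, hy j hj, add_zero]
  zero_mem' := by
    intro j _
    rw [Matrix.mulVec_zero, Pi.zero_apply]
  smul_mem' := by
    intro c x hx j hj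
    rw [Matrix.mulVec_smul, Pi.smul_apply, hx j hj, smul_zero]

/-- the situation at a puncture in the coordinate `ζ`, `q = exp (2 π i ζ)` -/
structure Pun (w : ℤ) (K : ℕ) (Q : Matrix (Fin r) (Fin r) ℝ)
    (D : ℂ → Matrix (Fin r) (Fin r) ℂ) (e : Fin s → ℂ → Fin r → ℂ)
    (N : Matrix (Fin r) (Fin r) ℝ) (β : Fin s → Fin r → ℝ) : Prop where
  xd : XD w K Q D e
  nil : IsNilpotent N
  iso : (IsNilpotent.exp N)ᵀ * Q * IsNilpotent.exp N = Q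
  perD : ∀ ζ ∈ Hc 0, D (ζ + 1) * cm (IsNilpotent.exp N) = cm (IsNilpotent.exp N) * D ζ
  perE : ∀ b, ∀ ζ ∈ Hc 0, e b (ζ + 1) = cm (IsNilpotent.exp N) *ᵥ e b ζ + ofR (β b)
  ext : ∃ (β' : Type) (_ : Fintype β') (pq : β' → ℤ) (R : ℂ → Matrix β' (Fin r) ℂ) (ε : ℝ),
    0 < ε ∧ ε ≤ 1 ∧ (∀ i j, DifferentiableOn ℂ (fun q => R q i j) (Metric.ball 0 ε)) ∧
    ∀ ζ : ℂ, ‖qq ζ‖ < ε → ∀ (l : ℤ) (x : Fin r → ℂ), x ∈ FS K (D ζ) l ↔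
      IsNilpotent.exp (-ζ • cm N) *ᵥ x ∈ KS pq (R (qq ζ)) l
  grow : ∀ b, ∃ (C : ℝ) (n : ℕ) (Y : ℝ), ∀ ζ : ℂ, |ζ.re| ≤ 1 → Y ≤ ζ.im → ∀ j,
    ‖e b ζ j‖ ≤ C * ζ.im ^ n

/-- weights, Hodge numbers, polarization of the extension -/
def wtV (r s : ℕ) (w : ℤ) : Fin r ⊕ Fin s → ℤ := Sum.elim (fun _ => w) (fun _ => 0)

def pV {r : ℕ} (s : ℕ) (p : Fin r → ℤ) : Fin r ⊕ Fin s → ℤ := Sum.elim p (fun _ => 0)

def QV (s : ℕ) (Q : Matrix (Fin r) (Fin r) ℝ) : Matrix (Fin r ⊕ Fin s) (Fin r ⊕ Fin s) ℝ :=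
  Matrix.fromBlocks Q 0 0 1

/-- the logarithm of the monodromy of the extension -/
def NV (N : Matrix (Fin r) (Fin r) ℝ) (c : Matrix (Fin r) (Fin s) ℝ) :
    Matrix (Fin r ⊕ Fin s) (Fin r ⊕ Fin s) ℝ := Matrix.fromBlocks N c 0 0

/-- the frame of the extension -/
def PsV (Ψ : ℂ → Matrix (Fin r) (Fin r) ℂ) (μ : ℂ → Matrix (Fin r) (Fin s) ℂ) (q : ℂ) :
    Matrix (Fin r ⊕ Fin s) (Fin r ⊕ Fin s) ℂ := Matrix.fromBlocks (Ψ q) (μ q) 0 1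

/-- a cusp: the transformation `ζ ↦ σ (h' ζ)` gives a puncture -/
def CuspX (Δ : Subgroup (Matrix.SpecialLinearGroup (Fin 2) ℝ))
    (σ : Matrix.SpecialLinearGroup (Fin 2) ℝ) (w : ℤ) (K : ℕ) (Q : Matrix (Fin r) (Fin r) ℝ)
    (D : ℂ → Matrix (Fin r) (Fin r) ℂ) (e : Fin s → ℂ → Fin r → ℂ) : Prop :=
  ∃ (h' : ℝ) (N : Matrix (Fin r) (Fin r) ℝ) (β : Fin s → Fin r → ℝ), 0 < h' ∧
    σ * SP38.trans h' * σ⁻¹ ∈ Δ ∧
    Pun w K Q (fun ζ => D (mob σ (h' * ζ))) (fun b ζ => e b (mob σ (h' * ζ))) N β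

/-- invariance under `Δ` -/
def InvX (Δ : Subgroup (Matrix.SpecialLinearGroup (Fin 2) ℝ)) (Q : Matrix (Fin r) (Fin r) ℝ)
    (D : ℂ → Matrix (Fin r) (Fin r) ℂ) (e : Fin s → ℂ → Fin r → ℂ) : Prop :=
  ∀ δ ∈ Δ, ∃ (g : Matrix (Fin r) (Fin r) ℝ) (β : Fin s → Fin r → ℝ), gᵀ * Q * g = Q ∧
    ∀ z ∈ Hc 0, D (mob δ z) * cm g = cm g * D z ∧
      ∀ b, e b (mob δ z) = cm g *ᵥ e b z + ofR (β b)

/-- growth at the cusps -/
def GrX {κι : Type} (σ : κι → Matrix.SpecialLinearGroup (Fin 2) ℝ)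
    (e : Fin s → ℂ → Fin r → ℂ) : Prop :=
  ∀ b i, ∀ M : ℝ, ∃ (C : ℝ) (n : ℕ) (Y : ℝ), ∀ ζ : ℂ, |ζ.re| ≤ M → Y ≤ ζ.im →
    ∀ j, ‖e b (mob (σ i) ζ) j‖ ≤ C * ζ.im ^ n

/-- a real vector -/
def rv (u : Fin r ⊕ Fin s → ℝ) : (Fin r → ℂ) × (Fin s → ℂ) :=
  (fun i => (u (Sum.inl i) : ℂ), fun b => (u (Sum.inr b) : ℂ))

/-- the real vector `u` is a Hodge class of the extension at `z` -/
def HX (K : ℕ) (D : ℂ → Matrix (Fin r) (Fin r) ℂ) (e : Fin s → ℂ → Fin r → ℂ)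
    (u : Fin r ⊕ Fin s → ℝ) (z : ℂ) : Prop := FX K D e 0 (rv u).1 (rv u).2 z

/-- the theorem of the fixed part, as used in the local argument -/
def FPX (K : ℕ) (D : ℂ → Matrix (Fin r) (Fin r) ℂ) (e : Fin s → ℂ → Fin r → ℂ) : Prop :=
  ∀ (x : Fin r → ℂ) (y : Fin s → ℂ), (∀ z ∈ Hc 0, FX K D e (1 - s) x y z) →
    (∀ z ∈ Hc 0, FX K D e (1 - s) (cj x) (cj y) z) → (∃ z ∈ Hc 0, FX K D e 0 x y z) →
    ∀ z ∈ Hc 0, FX K D e 0 x y z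

end YA38
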