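import Pool.Agent.LibYA38.L3
import Pool.Agent.LibYA38.L5
import Pool.Agent.LibYA38.YDef

/-!
Monodromy: equivariance of the extension classes.

-/

open Matrix Complex
open UpperHalfPlane hiding I
open MW38 (Fl Tri blk dg)
open SP38 (Hc)

namespace YA38

open ZQ38

variable {ι : Type} [Fintype ι] [DecidableEq ι] {wt p : ι → ℤ} {K : ℕ} {s' : ℕ}
  {Q : Matrix ι ι ℚ} {Φ : ℂ → Matrix ι ι ℂ} {h : ℂ → Matrix ι ι ℂ} {s : Equiv.Perm ι}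

theorem stab_u (hv : MW38.VMHS wt p (Q.map (algebraMap ℚ ℝ)) Φ)
    (hs : ∀ j, wt (s j) = wt j ∧ p (s j) = wt j - p j) (hK : ∀ j, |p j| ≤ K)
    (hh : ∀ z ∈ Hc 0, DelH wt p (Φ z) (PPg wt p s (Φ z)) (h z)) (hha : An (Hc 0) h) :
    ∀ A ∈ genLie wt p Φ, ∀ x ∈ genLie wt p Φ ⊓ Low ℚ wt,
      A * x - x * A ∈ genLie wt p Φ ⊓ Low ℚ wt := by
  have hO := asm_OpD hv hs hK hh hha
  obtain ⟨hlie, htri, -⟩ := C8_lie hO.gr hO.del hO.anP hO.anh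
  intro A hA x hx
  refine ⟨hlie A hA x hx.1, Submodule.sub_mem _ ?_ ?_⟩
  · have := C11a_low (htri A hA) hx.2 MW38.Tri.one
    rwa [mul_one] at this
  · have := C11a_low MW38.Tri.one hx.2 (htri A hA)
    rwa [one_mul] at this

theorem qud_b (hv : MW38.VMHS wt p (Q.map (algebraMap ℚ ℝ)) Φ)
    (hs : ∀ j, wt (s j) = wt j ∧ p (s j) = wt j - p j) (hK : ∀ j, |p j| ≤ K)
    (hh : ∀ z ∈ Hc 0, DelH wt p (Φ z) (PPg wt p s (Φ z)) (h z)) (hha : An (Hc 0) h)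
    {n : Submodule ℚ (Matrix ι ι ℚ)}
    (hn : ZL19.MaxI (genLie wt p Φ) (genLie wt p Φ ⊓ Low ℚ wt) n)
    {t₀ : Matrix ι ι ℚ} (ht₀ : t₀ ∈ genLie wt p Φ)
    (ht₀' : dgR wt t₀ = Matrix.diagonal (fun i => (wt i : ℚ)))
    (d : Dat wt Q (genLie wt p Φ) n) {f : Matrix ι ι ℚ →ₗ[ℚ] (Fin d.r → ℚ)}
    (hf : IT (genLie wt p Φ) (genLie wt p Φ ⊓ Low ℚ wt) d.rho f)
    (hf0 : ∃ x ∈ genLie wt p Φ ⊓ Low ℚ wt, f x ≠ 0) :
    QuD wt K (fun z => PPg wt p s (Φ z)) h (genLie wt p Φ)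
        (genLie wt p Φ ⊓ Low ℚ wt ⊓ LinearMap.ker f) t₀ d.w d.r f d.rho ∧
      ZL19.MaxI (genLie wt p Φ) (genLie wt p Φ ⊓ Low ℚ wt)
        (genLie wt p Φ ⊓ Low ℚ wt ⊓ LinearMap.ker f) := by
  have hO := asm_OpD hv hs hK hh hha
  obtain ⟨hlie, htri, hop⟩ := C8_lie hO.gr hO.del hO.anP hO.anh
  obtain ⟨h1, h2⟩ := IT.wd inf_le_left (stab_u hv hs hK hh hha) d.wd hn hf hf0
  exact ⟨⟨hlie, htri, ht₀, ht₀', fun z hz => (hop z hz).1, fun z hz => (hop z hz).2, h1⟩, h2⟩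

theorem L7_ne {m u : Submodule ℚ (Matrix ι ι ℚ)} {r : ℕ}
    {rho : Matrix ι ι ℚ →ₗ[ℚ] Matrix (Fin r) (Fin r) ℚ}
    {lb : Fin s' → (Matrix ι ι ℚ →ₗ[ℚ] (Fin r → ℚ))} (hB : ITB m u rho lb) (b : Fin s') :
    ∃ x ∈ u, lb b x ≠ 0 := by
  by_contra hcon
  push Not at hcon
  have h1 := hB.ind (Pi.single b 1) (fun x hx => by
    rw [Finset.sum_eq_single b]
    · rw [hcon x hx, smul_zero]
    · intro b' _ hb'
      rw [Pi.single_eq_of_ne hb', zero_smul]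
    · intro hb
      exact absurd (Finset.mem_univ b) hb)
  have h2 := congrFun h1 b
  rw [Pi.single_eq_same] at h2
  exact one_ne_zero h2

theorem inv_b (hv : MW38.VMHS wt p (Q.map (algebraMap ℚ ℝ)) Φ)
    (hs : ∀ j, wt (s j) = wt j ∧ p (s j) = wt j - p j) (hK : ∀ j, |p j| ≤ K)
    (hh : ∀ z ∈ Hc 0, DelH wt p (Φ z) (PPg wt p s (Φ z)) (h z)) (hha : An (Hc 0) h)
    {n : Submodule ℚ (Matrix ι ι ℚ)}
    (hn : ZL19.MaxI (genLie wt p Φ) (genLie wt p Φ ⊓ Low ℚ wt) n)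
    {t₀ : Matrix ι ι ℚ} (ht₀ : t₀ ∈ genLie wt p Φ)
    (ht₀' : dgR wt t₀ = Matrix.diagonal (fun i => (wt i : ℚ)))
    (d : Dat wt Q (genLie wt p Φ) n) {lb : Fin s' → (Matrix ι ι ℚ →ₗ[ℚ] (Fin d.r → ℚ))}
    (hB : ITB (genLie wt p Φ) (genLie wt p Φ ⊓ Low ℚ wt) d.rho lb)
    {δ : Matrix.SpecialLinearGroup (Fin 2) ℝ} {γ : Matrix ι ι ℚ} (hM : MonQ wt p Q Φ δ γ)
    (hγn : n.map (ZL19.cjg γ γ⁻¹) = n) {G : Matrix (Fin d.r) (Fin d.r) ℚ}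
    (hG : ∀ f, IT (genLie wt p Φ) (genLie wt p Φ ⊓ Low ℚ wt) d.rho f →
      ∀ x ∈ genLie wt p Φ ⊓ Low ℚ wt, γ * x * γ⁻¹ ∈ genLie wt p Φ ⊓ Low ℚ wt ∧
        f (γ * x * γ⁻¹) = G *ᵥ f x) :
    (G.map (algebraMap ℚ ℝ))ᵀ * (QWf wt Q d.j).map (algebraMap ℚ ℝ) * G.map (algebraMap ℚ ℝ) =
      (QWf wt Q d.j).map (algebraMap ℚ ℝ) ∧
    ∀ z ∈ Hc 0, DD K (fun z => PPg wt p s (Φ z)) h d.rho (US38.mob δ z) *
          SP38.cm (G.map (algebraMap ℚ ℝ)) =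
        SP38.cm (G.map (algebraMap ℚ ℝ)) * DD K (fun z => PPg wt p s (Φ z)) h d.rho z ∧
      ∀ b, ee wt h t₀ (lb b) (US38.mob δ z) =
        SP38.cm (G.map (algebraMap ℚ ℝ)) *ᵥ ee wt h t₀ (lb b) z +
          SP38.ofR fun i => ((lb b (γ * t₀ * γ⁻¹ - t₀) i : ℚ) : ℝ) := by
  have hO := asm_OpD hv hs hK hh hha
  obtain ⟨hlie, htri, hop⟩ := C8_lie hO.gr hO.del hO.anP hO.anh
  obtain ⟨hγ, hγt, hγQ, hF⟩ := hM
  have hQ : QuD wt K (fun z => PPg wt p s (Φ z)) h (genLie wt p Φ) n t₀ d.w d.r d.lam d.rho :=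
    ⟨hlie, htri, ht₀, ht₀', fun z hz => (hop z hz).1, fun z hz => (hop z hz).2, d.wd⟩
  obtain ⟨hm, -⟩ := C8_mono hO.gr hO.del hO.anP hO.anh hγ hγt hF
  have hQu : IsUnit (dgR wt Q) := Q_unit (hv.mhs I (by simp)) hs
  have hst := stab_u hv hs hK hh hha
  have hlamIT : IT (genLie wt p Φ) (genLie wt p Φ ⊓ Low ℚ wt) d.rho d.lam := d.wd.act
  have hG1 : ∀ x ∈ genLie wt p Φ ⊓ Low ℚ wt, d.lam (γ * x * γ⁻¹) = G *ᵥ d.lam x :=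
    fun x hx => (hG d.lam hlamIT x hx).2
  have hGr := G_rho hlamIT hst d.wd.surj hγ hm (hG d.lam hlamIT)
  have hQQ := C11_Q hQu d.wd d.wd d.jd d.jd hγ hγt hγQ hm hγn.symm hn.le hG1
  have hcm : SP38.cm (G.map (algebraMap ℚ ℝ)) = G.map (algebraMap ℚ ℂ) := by
    ext i j
    simp [SP38.cm]
  refine ⟨?_, ?_⟩
  · conv_rhs => rw [← hQQ, Matrix.map_mul, Matrix.map_mul]
    rfl
  · intro z hz
    obtain ⟨h1, -⟩ := C11_eqv hO hQ hγ hγt hF hG1 hGr hz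
    rw [hcm]
    refine ⟨h1, fun b => ?_⟩
    have hQb := (qud_b hv hs hK hh hha hn ht₀ ht₀' d (hB.it b) (L7_ne hB b)).1
    obtain ⟨-, h2⟩ := C11_eqv hO hQb hγ hγt hF (lam' := lb b) (rho' := d.rho)
      (fun x hx => (hG (lb b) (hB.it b) x hx).2) hGr hz
    rw [h2]
    congr 1

end YA38
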