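import Pool.Agent.LibYA38.L2
import Pool.Agent.LibYA38.L7

/-!
The extension classes form an `XD`.

-/

open Matrix Complex
open UpperHalfPlane hiding I
open MW38 (Fl Tri blk dg)
open SP38 (Hc)

namespace YA38

open ZQ38

variable {ι : Type} [Fintype ι] [DecidableEq ι] {wt p : ι → ℤ} {K : ℕ} {s' : ℕ}
  {Q : Matrix ι ι ℚ} {Φ : ℂ → Matrix ι ι ℂ} {h : ℂ → Matrix ι ι ℂ} {s : Equiv.Perm ι}

theorem types_lev {Φ : Matrix ι ι ℂ} {P : ℤ → Matrix ι ι ℂ} {h : Matrix ι ι ℂ}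
    {r : ℕ} {m n : Submodule ℚ (Matrix ι ι ℚ)} {w : ℤ}
    {lam : Matrix ι ι ℚ →ₗ[ℚ] (Fin r → ℚ)} {rho : Matrix ι ι ℚ →ₗ[ℚ] Matrix (Fin r) (Fin r) ℚ}
    (hW : WD wt m (m ⊓ Low ℚ wt) n w r lam rho) (hn : n ≤ m ⊓ Low ℚ wt) (hm : IsLie m)
    (ht : ∀ A ∈ m, Tri wt A) {t₀ : Matrix ι ι ℚ} (ht₀ : t₀ ∈ m)
    (ht₀' : dgR wt t₀ = Matrix.diagonal (fun i => (wt i : ℚ)))
    (hP : GrP wt p K Φ P) (hh : DelH wt p Φ P h)
    (h1 : oP K P h ∈ cx m) (h2 : oQ wt K P h ∈ cx m) {L : ℕ}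
    (h3 : ∀ t : ℤ × ℤ, -(L : ℤ) ≤ t.1 → -(L : ℤ) ≤ t.2 →
      hab wt p Φ (m ⊓ Low ℚ wt) t = hab wt p Φ n t) {a : ℤ}
    (ha : ZW67.LP (2 * K) (rhoC rho (oP K P h)) a ≠ 0) : a < -(L : ℤ) ∨ w - a < -(L : ℤ) := by
  by_contra hcon
  push Not at hcon
  obtain ⟨ha1, ha2⟩ := hcon
  have hD : Polynomial.aeval (rhoC rho (oP K P h)) (ZW67.npoly (2 * K)) = 0 := by
    rw [npoly_eq]
    exact_mod_cast W_all hW hm ht hP hh.un h1
  obtain ⟨u, hu⟩ : ∃ u, ZW67.LP (2 * K) (rhoC rho (oP K P h)) a *ᵥ u ≠ 0 := by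
    by_contra hall
    push Not at hall
    apply ha
    ext i j
    have h4 := congrFun (hall (Pi.single j 1)) i
    rw [Matrix.mulVec_single_one] at h4
    exact h4
  have hv : rhoC rho (oP K P h) *ᵥ (ZW67.LP (2 * K) (rhoC rho (oP K P h)) a *ᵥ u) =
      (a : ℂ) • (ZW67.LP (2 * K) (rhoC rho (oP K P h)) a *ᵥ u) := by
    rw [Matrix.mulVec_mulVec, ZW67.LP_left hD, Matrix.smul_mulVec]
  obtain ⟨x, hx, hxt, hxv⟩ := lift_typ hW hm ht ht₀ ht₀' hP hh h1 h2 hv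
  have h5 := h3 (a, w - a) ha1 ha2
  have h6 : (cx n ⊓ typ wt p Φ a (w - a) : Submodule ℂ (Matrix ι ι ℂ)) =
      cx (m ⊓ Low ℚ wt) ⊓ typ wt p Φ a (w - a) :=
    Submodule.eq_of_le_of_finrank_eq (inf_le_inf_right _ (cx_mono hn)) h5.symm
  have h7 : x ∈ cx n ⊓ typ wt p Φ a (w - a) := by
    rw [h6]
    exact ⟨hx, hxt⟩
  exact hu (hxv.symm.trans ((hW.kerC hx).2 h7.1))

theorem xd_main (hv : MW38.VMHS wt p (Q.map (algebraMap ℚ ℝ)) Φ)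
    (hs : ∀ j, wt (s j) = wt j ∧ p (s j) = wt j - p j) (hK : ∀ j, |p j| ≤ K)
    (hh : ∀ z ∈ Hc 0, DelH wt p (Φ z) (PPg wt p s (Φ z)) (h z)) (hha : An (Hc 0) h)
    {n : Submodule ℚ (Matrix ι ι ℚ)}
    (hn : ZL19.MaxI (genLie wt p Φ) (genLie wt p Φ ⊓ Low ℚ wt) n)
    {t₀ : Matrix ι ι ℚ} (ht₀ : t₀ ∈ genLie wt p Φ)
    (ht₀' : dgR wt t₀ = Matrix.diagonal (fun i => (wt i : ℚ)))
    (d : Dat wt Q (genLie wt p Φ) n) {lb : Fin s' → (Matrix ι ι ℚ →ₗ[ℚ] (Fin d.r → ℚ))}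
    (hB : ITB (genLie wt p Φ) (genLie wt p Φ ⊓ Low ℚ wt) d.rho lb) {L : ℕ} (hL : s' ≤ L)
    (h3 : ∀ t : ℤ × ℤ, -(L : ℤ) ≤ t.1 → -(L : ℤ) ≤ t.2 → ∀ τ : ℍ,
      hab wt p (Φ τ) (genLie wt p Φ ⊓ Low ℚ wt) t = hab wt p (Φ τ) n t) :
    XD d.w (2 * K) ((QWf wt Q d.j).map (algebraMap ℚ ℝ))
      (DD K (fun z => PPg wt p s (Φ z)) h d.rho) (fun b => ee wt h t₀ (lb b)) := by
  have hO := asm_OpD hv hs hK hh hha
  obtain ⟨hlie, htri, hop⟩ := C8_lie hO.gr hO.del hO.anP hO.anh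
  have hQ : QuD wt K (fun z => PPg wt p s (Φ z)) h (genLie wt p Φ) n t₀ d.w d.r d.lam d.rho :=
    ⟨hlie, htri, ht₀, ht₀', fun z hz => (hop z hz).1, fun z hz => (hop z hz).2, d.wd⟩
  have hQb := fun b => (qud_b hv hs hK hh hha hn ht₀ ht₀' d (hB.it b) (L7_ne hB b)).1
  have hL' : (s' : ℤ) ≤ L := by exact_mod_cast hL
  exact
    { gd :=
        { sm := DD_sm hO
          poly := fun z hz => DD_poly hO hQ hz
          conj := fun z hz => DD_conj hO hQ hz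
          skew := fun z hz => dat_skew hv hs hK hh hha d hz
          deg := fun z hz => deg_DD hO hQ hz
          pos := fun z hz a v hv1 hv0 => dat_pos hv hs hK hh hha d hz a v hv1 hv0 }
      sme := fun b => ee_sm hO
      d0 := fun b z hz a ha => ee_d0 hO (hQb b) hz ha
      d1 := fun b z hz a ha => ee_d1 hO (hQb b) hz ha
      types := fun z hz a ha => by
        have h4 := types_lev d.wd hn.le hlie htri ht₀ ht₀' (hO.gr z hz) (hO.del z hz)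
          (hop z hz).1 (hop z hz).2 (L := L) (fun t h1 h2 => h3 t h1 h2 ⟨z, hz⟩) ha
        rcases h4 with h4 | h4
        · left
          linarith
        · right
          linarith
      neg := d.jd.neg
      frame := dat_frame hv hs hK hh hha d }

theorem adm_of_G {m : Submodule ℚ (Matrix ι ι ℚ)} (htri : ∀ A ∈ m, Tri wt A)
    {Δ : Subgroup (Matrix.SpecialLinearGroup (Fin 2) ℝ)}
    {σ : Matrix.SpecialLinearGroup (Fin 2) ℝ} (ha : AdmG wt p Q Φ m Δ σ) :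
    MW38.Adm wt p (Q.map (algebraMap ℚ ℝ)) Φ Δ σ := by
  obtain ⟨l, N, Ψ, ε, hl, hδ, hε, hN, hNm, ⟨hu, htr, hgr, -⟩, hΨ, hΨu, hF⟩ := ha
  have hNr : IsNilpotent (N.map (algebraMap ℚ ℝ)) :=
    hN.map (algebraMap ℚ ℝ).mapMatrix
  have hexp : IsNilpotent.exp (N.map (algebraMap ℚ ℝ)) =
      (IsNilpotent.exp N).map (algebraMap ℚ ℝ) :=
    (IsNilpotent.map_exp hN (algebraMap ℚ ℝ).mapMatrix).symm
  refine ⟨l, N.map (algebraMap ℚ ℝ), Ψ, ε, hl, hδ, hε, hNr, ?_, ?_, hΨ, hΨu, ?_⟩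
  · intro i j hij
    rw [Matrix.map_apply, htri N hNm i j hij, map_zero]
  · rw [hexp]
    refine ⟨?_, ?_, fun k => ?_⟩
    · exact hu.map (algebraMap ℚ ℝ).mapMatrix
    · intro i j hij
      rw [Matrix.map_apply, htr i j hij, map_zero]
    · have h1 := congrArg (fun A => A.map (algebraMap ℚ ℝ)) (hgr k)
      simp only [Matrix.map_mul] at h1
      exact h1
  · intro τ hτ a
    rw [hF τ hτ a, ZW67.cm_map]

end YA38
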