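import Pool.Agent.LibYA38.LDef
import Pool.Agent.LibYA38.YDef
import Pool.Agent.LibZW67.QE4

/-!
The Hodge filtration of `u / n` near a cusp, in the coordinate `q`.

PLAN. β' = ι × ι, pq x = p x.1 - p x.2, R q x l = ((dg wt (Ψ q))⁻¹ * ZW67.jC j (Pi.single l 1) * dg wt (Ψ q)) x.1 x.2, ε' = min ε 1. R is holomorphic on the ball: dg Ψ holomorphic with
unit values (MW38.dg_isUnit), inverse: MW38.homT_inv (see frame_of_JE in LibZW67/QE4: same computation for z). For ‖qq ζ‖ < ε' ≤ 1: ζ.im > 0, so τ := l ζ ∈ ℍ, τ / l = ζ, z := mob σ (l ζ) =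
(σ • τ : ℍ) (US38.mob_coe), z ∈ Hc 0. x ∈ FS (2K) (DD z) k ↔ jC j x ∈ Fend p (dg wt (Φ z)) k: hj.mem_iff (LibZW67/QE3; poly: DD_poly hO hQ). hF at τ: Fl p (Φ z) a = Fl p (E Ψ(qq ζ)) a for all a, E =
exp (ζ • N_ℂ), triangular; so Fl p (dg wt (Φ z)) a = Fl p (dg wt (E Ψ)) a (a lemma on the graded pieces of equal filtrations of triangular frames: both sides are determined by Fl a ⊓ W_k;
e.g. (Φ z)⁻¹ E Ψ =: B is triangular for wt and satisfies B i k = 0 for p i < p k, and so does dg B, and dg (E Ψ) = dg Φ * dg B; use MW38.mem_Fl_iff, dgR_mul, MW38.Col_dg_inv).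
So the condition is: M := (dg Ψ)⁻¹ (dg E)⁻¹ (jC x) (dg E) (dg Ψ) has M a b = 0 for p a < p b + k (mem_Fend_iff in QE4 or LibZQ38), dg (E Ψ) = dg E dg Ψ (dgR_mul). (dg E)⁻¹ (jC x) (dg E) =
jC (exp (-ζ • (rho N)_ℂ) *ᵥ x): hj.jC_act: jC (rhoC rho N_ℂ *ᵥ x) = dg N_ℂ * jC x - jC x * dg N_ℂ, rhoC_rat; dg E = exp (ζ • dg N_ℂ) (dgR of powers: dgR_mul), and exp (-A) X exp (A) = exp
(-(ad A)) X (same computation as in L6, `IsNilpotent.exp_add_of_commute` for mulLeft (-A) and mulRight A); both are finite sums; jC linear, so jC (exp(-ζ R) x) = ∑ ... . Finally (R (qq ζ) *ᵥ x') (a,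
b) = ((dg Ψ)⁻¹ jC x' (dg Ψ)) a b by jC_decomp.
-/

open Matrix Complex
open UpperHalfPlane hiding I
open MW38 (Fl Tri blk dg)
open SP38 (Hc)

namespace YA38

open ZQ38

variable {ι : Type} [Fintype ι] [DecidableEq ι] {wt p : ι → ℤ} {K : ℕ} {w : ℤ} {r : ℕ}
  {m n : Submodule ℚ (Matrix ι ι ℚ)} {t₀ : Matrix ι ι ℚ}
  {lam : Matrix ι ι ℚ →ₗ[ℚ] (Fin r → ℚ)}
  {rho : Matrix ι ι ℚ →ₗ[ℚ] Matrix (Fin r) (Fin r) ℚ}
  {j : (Fin r → ℚ) →ₗ[ℚ] Matrix ι ι ℚ}
  {Φ : ℂ → Matrix ι ι ℂ} {P : ℂ → ℤ → Matrix ι ι ℂ} {h : ℂ → Matrix ι ι ℂ}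

theorem L9_Fl_le {A B : Matrix ι ι ℂ} (hA : IsUnit A) (hAt : Tri wt A)
    (hBt : Tri wt B) (hAB : ∀ a, Fl p A a = Fl p B a) (a : ℤ) :
    Fl p (dg wt B) a ≤ Fl p (dg wt A) a := by
  unfold MW38.Fl
  refine Submodule.span_le.2 ?_
  rintro v ⟨k, hk, rfl⟩
  show (fun i => dg wt B i k) ∈ Fl p (dg wt A) a
  rw [MW38.mem_Fl_iff (MW38.dg_isUnit hA hAt)]
  intro i hi
  have h1 : ((dg wt A)⁻¹ *ᵥ fun i => dg wt B i k) i = ((dg wt A)⁻¹ * dg wt B) i k := rfl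
  have h2 : (dg wt A)⁻¹ * dg wt B = dgR wt (A⁻¹ * B) := by
    rw [MW38.Col_dg_inv hA hAt, dgR_mul (MW38.Tri.inv hAt hA) hBt]
    rfl
  have h3 : (A⁻¹ * B) i k = 0 := by
    have h4 : (fun i => B i k) ∈ Fl p A (p k) := by
      rw [hAB]
      exact MW38.col_mem_Fl le_rfl
    exact (MW38.mem_Fl_iff hA _).1 h4 i (by omega)
  rw [h1, h2, dgR]
  split_ifs
  · exact h3
  · rfl

theorem L9_pow {M : Matrix ι ι ℂ} (hM : Tri wt M) (k : ℕ) :
    Tri wt (M ^ k) ∧ dgR wt (M ^ k) = dgR wt M ^ k := by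
  induction k with
  | zero =>
    refine ⟨?_, ?_⟩
    · intro i j hij
      rw [pow_zero, Matrix.one_apply_ne]
      rintro rfl
      exact lt_irrefl _ hij
    · rw [pow_zero, pow_zero, B13_dgR_one]
  | succ k ih =>
    refine ⟨?_, ?_⟩
    · rw [pow_succ]
      exact MW38.Tri.mul ih.1 hM
    · rw [pow_succ, pow_succ, dgR_mul ih.1 hM, ih.2]

theorem L9_nil {M : Matrix ι ι ℂ} (hn : IsNilpotent M) (hM : Tri wt M) :
    IsNilpotent (dgR wt M) := by
  obtain ⟨k, hk⟩ := hn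
  refine ⟨k, ?_⟩
  rw [← (L9_pow hM k).2, hk]
  ext i j
  simp [dgR]

theorem L9_tri_exp {M : Matrix ι ι ℂ} (hn : IsNilpotent M) (hM : Tri wt M) :
    Tri wt (IsNilpotent.exp M) := by
  obtain ⟨k, hk⟩ := hn
  rw [IsNilpotent.exp_eq_sum hk]
  intro i j hij
  rw [Matrix.sum_apply]
  refine Finset.sum_eq_zero fun l _ => ?_
  rw [Matrix.smul_apply, (L9_pow hM l).1 i j hij, smul_zero]

theorem L9_dg_exp {M : Matrix ι ι ℂ} (hn : IsNilpotent M) (hM : Tri wt M) :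
    dg wt (IsNilpotent.exp M) = IsNilpotent.exp (dgR wt M) := by
  obtain ⟨k, hk⟩ := hn
  have hk' : dgR wt M ^ k = 0 := by
    rw [← (L9_pow hM k).2, hk]
    ext i j
    simp [dgR]
  rw [IsNilpotent.exp_eq_sum hk, IsNilpotent.exp_eq_sum hk']
  ext i j
  rw [Matrix.sum_apply]
  have h1 : ∀ l, (dgR wt M ^ l) i j = if wt i = wt j then (M ^ l) i j else 0 := fun l =>
    (congrFun (congrFun (L9_pow hM l).2 i) j).symm
  simp only [Matrix.smul_apply, h1]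
  by_cases h : wt i = wt j
  · simp only [dg, if_pos h, Matrix.sum_apply, Matrix.smul_apply]
  · simp only [dg, if_neg h, smul_zero, Finset.sum_const_zero]

noncomputable def L9_jL (j : (Fin r → ℚ) →ₗ[ℚ] Matrix ι ι ℚ) :
    (Fin r → ℂ) →ₗ[ℂ] Matrix ι ι ℂ where
  toFun := ZW67.jC j
  map_add' u v := ZW67.jC_add u v
  map_smul' c v := ZW67.jC_smul c v

/-- the exponential of the adjoint action -/
theorem L9_conj {G : Matrix ι ι ℂ} (hG : IsNilpotent G) {R : Matrix (Fin r) (Fin r) ℂ}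
    (hR : IsNilpotent R) (hact : ∀ v, ZW67.jC j (R *ᵥ v) = G * ZW67.jC j v - ZW67.jC j v * G)
    (x : Fin r → ℂ) :
    ZW67.jC j (IsNilpotent.exp R *ᵥ x) =
      IsNilpotent.exp G * ZW67.jC j x * IsNilpotent.exp (-G) := by
  have hl : IsNilpotent (LinearMap.mulLeft ℂ G) := by
    rwa [LinearMap.isNilpotent_mulLeft_iff]
  have hr : IsNilpotent (LinearMap.mulRight ℂ (-G)) := by
    rw [LinearMap.isNilpotent_mulRight_iff]
    exact hG.neg
  have hc : Commute (LinearMap.mulLeft ℂ G) (LinearMap.mulRight ℂ (-G)) :=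
    LinearMap.commute_mulLeft_right G (-G)
  have hR' : IsNilpotent (Matrix.toLinAlgEquiv' R) := hR.map Matrix.toLinAlgEquiv'
  have h := Module.End.commute_exp_left_of_commute (R := ℂ) (fM := Matrix.toLinAlgEquiv' R)
    (fN := LinearMap.mulLeft ℂ G + LinearMap.mulRight ℂ (-G)) (g := L9_jL j) hR'
    (hc.isNilpotent_add hl hr) (by
      refine LinearMap.ext fun v => ?_
      show G * ZW67.jC j v + ZW67.jC j v * (-G) = ZW67.jC j (Matrix.toLinAlgEquiv' R v)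
      rw [Matrix.toLinAlgEquiv'_apply, hact, mul_neg, sub_eq_add_neg])
  have h2 := LinearMap.congr_fun h x
  rw [LinearMap.comp_apply, LinearMap.comp_apply,
    IsNilpotent.exp_add_of_commute hc hl hr] at h2
  have e1 : IsNilpotent.exp (LinearMap.mulLeft ℂ G) =
      LinearMap.mulLeft ℂ (IsNilpotent.exp G) := by
    obtain ⟨k, hk⟩ := hG
    have hk' : LinearMap.mulLeft ℂ G ^ k = 0 := by
      rw [LinearMap.pow_mulLeft, hk, LinearMap.mulLeft_zero_eq_zero]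
    rw [IsNilpotent.exp_eq_sum hk, IsNilpotent.exp_eq_sum hk']
    refine LinearMap.ext fun Y => ?_
    rw [LinearMap.sum_apply, LinearMap.mulLeft_apply, Finset.sum_mul]
    refine Finset.sum_congr rfl fun l _ => ?_
    rw [LinearMap.smul_apply, LinearMap.pow_mulLeft, LinearMap.mulLeft_apply, smul_mul_assoc]
  have e2 : IsNilpotent.exp (LinearMap.mulRight ℂ (-G)) =
      LinearMap.mulRight ℂ (IsNilpotent.exp (-G)) := by
    obtain ⟨k, hk⟩ := hG.neg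
    have hk' : LinearMap.mulRight ℂ (-G) ^ k = 0 := by
      rw [LinearMap.pow_mulRight, hk, LinearMap.mulRight_zero_eq_zero]
    rw [IsNilpotent.exp_eq_sum hk, IsNilpotent.exp_eq_sum hk']
    refine LinearMap.ext fun Y => ?_
    rw [LinearMap.sum_apply, LinearMap.mulRight_apply, Finset.mul_sum]
    refine Finset.sum_congr rfl fun l _ => ?_
    rw [LinearMap.smul_apply, LinearMap.pow_mulRight, LinearMap.mulRight_apply, mul_smul_comm]
  have e3 : IsNilpotent.exp (Matrix.toLinAlgEquiv' R) =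
      Matrix.toLinAlgEquiv' (IsNilpotent.exp R) :=
    (IsNilpotent.map_exp hR Matrix.toLinAlgEquiv').symm
  rw [e1, e2, e3, Matrix.toLinAlgEquiv'_apply] at h2
  have h3 : IsNilpotent.exp G * (ZW67.jC j x * IsNilpotent.exp (-G)) =
      ZW67.jC j (IsNilpotent.exp R *ᵥ x) := h2
  rw [← h3, Matrix.mul_assoc]

/-- equal filtrations of triangular frames have equal graded filtrations -/
theorem Fl_dg_congr {A B : Matrix ι ι ℂ} (hA : IsUnit A) (hB : IsUnit B) (hAt : Tri wt A)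
    (hBt : Tri wt B) (hAB : ∀ a, Fl p A a = Fl p B a) (a : ℤ) :
    Fl p (dg wt A) a = Fl p (dg wt B) a := by
  exact le_antisymm (L9_Fl_le hB hBt hAt (fun a => (hAB a).symm) a) (L9_Fl_le hA hAt hBt hAB a)

/-- conjugation by the exponential of the graded part -/
theorem jC_exp (hj : ZW67.JE wt m w r rho j) {N : Matrix ι ι ℚ} (hN : IsNilpotent N)
    (hNt : Tri wt N) (hNm : N ∈ m) (hrN : IsNilpotent (rho N)) (ζ : ℂ) (x : Fin r → ℂ) :
    (dg wt (IsNilpotent.exp (ζ • N.map (algebraMap ℚ ℂ))))⁻¹ * ZW67.jC j x *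
        dg wt (IsNilpotent.exp (ζ • N.map (algebraMap ℚ ℂ))) =
      ZW67.jC j (IsNilpotent.exp (-ζ • (rho N).map (algebraMap ℚ ℂ)) *ᵥ x) := by
  set M := N.map (algebraMap ℚ ℂ) with hM
  set R := (rho N).map (algebraMap ℚ ℂ) with hR
  have hMn : IsNilpotent M := hN.map ((algebraMap ℚ ℂ).mapMatrix (m := ι))
  have hRn : IsNilpotent R := hrN.map ((algebraMap ℚ ℂ).mapMatrix (m := Fin r))
  have hMt : Tri wt M := fun i k hik => by
    show (algebraMap ℚ ℂ) (N i k) = 0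
    rw [hNt i k hik, map_zero]
  have hζM : IsNilpotent (ζ • M) := hMn.smul ζ
  have hζt : Tri wt (ζ • M) := fun i k hik => by
    rw [Matrix.smul_apply, hMt i k hik, smul_zero]
  have hG : dgR wt (ζ • M) = ζ • dgR wt M := ZW67.dgR_smulC ζ M
  have hζG : IsNilpotent (ζ • dgR wt M) := by
    rw [← hG]
    exact L9_nil hζM hζt
  have hact : ∀ v, ZW67.jC j (R *ᵥ v) =
      dgR wt M * ZW67.jC j v - ZW67.jC j v * dgR wt M := by
    intro v
    have h1 := hj.jC_act (A := M) (Submodule.subset_span ⟨N, hNm, rfl⟩) v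
    rwa [hM, rhoC_rat] at h1
  rw [L9_dg_exp hζM hζt, hG]
  have h2 := L9_conj (j := j) hζG.neg (hRn.smul (-ζ)) (fun v => by
    rw [Matrix.smul_mulVec, ZW67.jC_smul, hact, smul_sub, neg_mul, mul_neg, smul_mul_assoc,
      mul_smul_comm]
    module) x
  rw [neg_neg] at h2
  rw [h2, Matrix.inv_eq_right_inv (IsNilpotent.exp_mul_exp_neg_self hζG)]

theorem ext_cusp (hO : OpD wt p K Φ P h) (hQ : QuD wt K P h m n t₀ w r lam rho)
    (hj : ZW67.JE wt m w r rho j) {N : Matrix ι ι ℚ} (hN : IsNilpotent N) (hNm : N ∈ m)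
    (hrN : IsNilpotent (rho N)) {Ψ : ℂ → Matrix ι ι ℂ} {ε l : ℝ} (hl : 0 < l) (hε : 0 < ε)
    (hΨ : ∀ i j, DifferentiableOn ℂ (fun q => Ψ q i j) (Metric.ball 0 ε))
    (hΨu : ∀ q ∈ Metric.ball (0 : ℂ) ε, IsUnit (Ψ q) ∧ Tri wt (Ψ q))
    {σ : Matrix.SpecialLinearGroup (Fin 2) ℝ}
    (hF : ∀ τ : ℍ, ‖Complex.exp (2 * Real.pi * I * ((τ : ℂ) / l))‖ < ε → ∀ a,
      Fl p (Φ ((σ • τ : ℍ) : ℂ)) a = Fl p (IsNilpotent.exp (((τ : ℂ) / l) •
        N.map (algebraMap ℚ ℂ)) * Ψ (Complex.exp (2 * Real.pi * I * ((τ : ℂ) / l)))) a) :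
    ∃ (β' : Type) (_ : Fintype β') (pq : β' → ℤ) (R : ℂ → Matrix β' (Fin r) ℂ) (ε' : ℝ),
      0 < ε' ∧ ε' ≤ 1 ∧ (∀ i j, DifferentiableOn ℂ (fun q => R q i j) (Metric.ball 0 ε')) ∧
      ∀ ζ : ℂ, ‖SP38.qq ζ‖ < ε' → ∀ (k : ℤ) (x : Fin r → ℂ),
        x ∈ FS (2 * K) (DD K P h rho (US38.mob σ (l * ζ))) k ↔
          IsNilpotent.exp (-ζ • (rho N).map (algebraMap ℚ ℂ)) *ᵥ x ∈ KS pq (R (SP38.qq ζ)) k := by
  have hε' : 0 < min ε 1 := lt_min hε one_pos
  have hsub : Metric.ball (0 : ℂ) (min ε 1) ⊆ Metric.ball 0 ε :=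
    Metric.ball_subset_ball (min_le_left _ _)
  have hdu : ∀ q ∈ Metric.ball (0 : ℂ) (min ε 1), IsUnit (dg wt (Ψ q)) := fun q hq =>
    MW38.dg_isUnit (hΨu q (hsub hq)).1 (hΨu q (hsub hq)).2
  have hdh : ∀ a b, DifferentiableOn ℂ (fun q => dg wt (Ψ q) a b)
      (Metric.ball (0 : ℂ) (min ε 1)) := by
    intro a b
    by_cases hab : wt a = wt b
    · have e : (fun q => dg wt (Ψ q) a b) = fun q => Ψ q a b := by
        funext q
        rw [dg, if_pos hab]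
      rw [e]
      exact (hΨ a b).mono hsub
    · have e : (fun q => dg wt (Ψ q) a b) = fun _ => (0 : ℂ) := by
        funext q
        rw [dg, if_neg hab]
      rw [e]
      exact differentiableOn_const 0
  have hdi : ∀ a b, DifferentiableOn ℂ (fun q => (dg wt (Ψ q))⁻¹ a b)
      (Metric.ball (0 : ℂ) (min ε 1)) := MW38.homT_inv hdh hdu
  refine ⟨ι × ι, inferInstance, fun x => p x.1 - p x.2,
    fun q x l => ((dg wt (Ψ q))⁻¹ * ZW67.jC j (Pi.single l 1) * dg wt (Ψ q)) x.1 x.2, min ε 1,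
    hε', min_le_right _ _, ?_, ?_⟩
  · intro x l
    have e : (fun q => ((dg wt (Ψ q))⁻¹ * ZW67.jC j (Pi.single l 1) * dg wt (Ψ q)) x.1 x.2) =
        fun q => ∑ d, (∑ c, (dg wt (Ψ q))⁻¹ x.1 c * ZW67.jC j (Pi.single l 1) c d) *
          dg wt (Ψ q) d x.2 := by
      funext q
      simp only [Matrix.mul_apply]
    show DifferentiableOn ℂ (fun q =>
      ((dg wt (Ψ q))⁻¹ * ZW67.jC j (Pi.single l 1) * dg wt (Ψ q)) x.1 x.2) _
    rw [e]
    exact DifferentiableOn.fun_sum fun d _ => (DifferentiableOn.fun_sum fun c _ =>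
      (hdi x.1 c).mul_const _).mul (hdh d x.2)
  · intro ζ hζ k x
    have hζ1 : ‖SP38.qq ζ‖ < 1 := lt_of_lt_of_le hζ (min_le_right _ _)
    have hζε : ‖SP38.qq ζ‖ < ε := lt_of_lt_of_le hζ (min_le_left _ _)
    have him : 0 < ζ.im := by
      rw [SP38.norm_qq, Real.exp_lt_one_iff] at hζ1
      have h1 : 0 < 2 * Real.pi * ζ.im := by linarith
      have h2 : 0 < 2 * Real.pi := by positivity
      exact (pos_iff_pos_of_mul_pos h1).1 h2
    have hlim : 0 < ((l : ℂ) * ζ).im := by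
      rw [Complex.im_ofReal_mul]
      positivity
    obtain ⟨τ, hτ⟩ : ∃ τ : ℍ, (τ : ℂ) = l * ζ := ⟨⟨l * ζ, hlim⟩, rfl⟩
    have hl0 : (l : ℂ) ≠ 0 := by exact_mod_cast hl.ne'
    have hτl : (τ : ℂ) / l = ζ := by
      rw [hτ]
      field_simp
    have hz : US38.mob σ (l * ζ) = ((σ • τ : ℍ) : ℂ) := by
      rw [← hτ, US38.mob_coe]
    have hzc : US38.mob σ (l * ζ) ∈ Hc 0 := by
      rw [hz]
      exact (σ • τ : ℍ).im_pos
    have hqζ : SP38.qq ζ ∈ Metric.ball (0 : ℂ) (min ε 1) := by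
      rw [mem_ball_zero_iff]
      exact hζ
    have hqe : Complex.exp (2 * Real.pi * I * ((τ : ℂ) / l)) = SP38.qq ζ := by
      rw [hτl]
      rfl
    have hF' := hF τ (by rw [hqe]; exact hζε)
    rw [hqe, hτl, ← hz] at hF'
    set z := US38.mob σ (l * ζ) with hzdef
    set q := SP38.qq ζ with hq
    set M := N.map (algebraMap ℚ ℂ) with hM
    have hMn : IsNilpotent M := hN.map ((algebraMap ℚ ℂ).mapMatrix (m := ι))
    have hMt : Tri wt M := fun i k hik => by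
      show (algebraMap ℚ ℂ) (N i k) = 0
      rw [hQ.tri N hNm i k hik, map_zero]
    have hζM : IsNilpotent (ζ • M) := hMn.smul ζ
    have hζt : Tri wt (ζ • M) := fun i k hik => by
      rw [Matrix.smul_apply, hMt i k hik, smul_zero]
    have hEu : IsUnit (IsNilpotent.exp (ζ • M)) := IsNilpotent.isUnit_exp hζM
    have hEt : Tri wt (IsNilpotent.exp (ζ • M)) := L9_tri_exp hζM hζt
    have hΨq := hΨu q (hsub hqζ)
    have hGr := hO.gr z hzc
    have h1 := hj.mem_iff hGr (hO.del z hzc).un (hQ.opP z hzc) (DD_poly hO hQ hzc) k x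
    have h2 : x ∈ FS (2 * K) (DD K P h rho z) k ↔
        ∀ a : ℤ, a < k → ZW67.LP (2 * K) (rhoC rho (oP K (P z) (h z))) a *ᵥ x = 0 := Iff.rfl
    rw [h2, h1]
    have h3 : ∀ a, Fl p (dg wt (Φ z)) a = Fl p (dg wt (IsNilpotent.exp (ζ • M) * Ψ q)) a :=
      Fl_dg_congr hGr.unit (hEu.mul hΨq.1) hGr.tri (MW38.Tri.mul hEt hΨq.2) hF'
    have h4 : ZW67.jC j x ∈ Fend p (dg wt (Φ z)) k ↔
        ZW67.jC j x ∈ Fend p (dg wt (IsNilpotent.exp (ζ • M) * Ψ q)) k := by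
      constructor
      · intro h5 a v hv
        rw [← h3] at hv ⊢
        exact h5 a v hv
      · intro h5 a v hv
        rw [h3] at hv ⊢
        exact h5 a v hv
    have h5 : dg wt (IsNilpotent.exp (ζ • M) * Ψ q) =
        dg wt (IsNilpotent.exp (ζ • M)) * dg wt (Ψ q) := dgR_mul hEt hΨq.2
    rw [h4, mem_Fend_iff (MW38.dg_isUnit (hEu.mul hΨq.1) (MW38.Tri.mul hEt hΨq.2)), h5,
      Matrix.mul_inv_rev]
    have h6 : (dg wt (Ψ q))⁻¹ * (dg wt (IsNilpotent.exp (ζ • M)))⁻¹ * ZW67.jC j x *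
        (dg wt (IsNilpotent.exp (ζ • M)) * dg wt (Ψ q)) =
        (dg wt (Ψ q))⁻¹ * ZW67.jC j (IsNilpotent.exp (-ζ • (rho N).map (algebraMap ℚ ℂ)) *ᵥ x) *
          dg wt (Ψ q) := by
      rw [← jC_exp hj hN (hQ.tri N hNm) hNm hrN ζ x, ← hM]
      simp only [Matrix.mul_assoc]
    rw [h6]
    have h7 : ∀ (v : Fin r → ℂ) (x : ι × ι), ((fun x l => ((dg wt (Ψ q))⁻¹ *
        ZW67.jC j (Pi.single l 1) * dg wt (Ψ q)) x.1 x.2 :
        Matrix (ι × ι) (Fin r) ℂ) *ᵥ v) x =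
          ((dg wt (Ψ q))⁻¹ * ZW67.jC j v * dg wt (Ψ q)) x.1 x.2 := by
      intro v x
      rw [ZW67.jC_decomp v, Finset.mul_sum, Finset.sum_mul, Matrix.sum_apply]
      simp only [Matrix.mulVec, dotProduct]
      refine Finset.sum_congr rfl fun a _ => ?_
      rw [mul_smul_comm, smul_mul_assoc, Matrix.smul_apply, smul_eq_mul, mul_comm]
    constructor
    · intro h8 y hy
      have hy' : p y.1 - p y.2 < k := hy
      exact (h7 _ y).trans (h8 y.1 y.2 (by omega))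
    · intro h8 a b hab
      exact (h7 _ (a, b)).symm.trans (h8 (a, b) (by
        show p a - p b < k
        omega))

end YA38
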