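import Pool.Agent.LibYA38.L6
import Pool.Agent.LibYA38.L8
import Pool.Agent.LibYA38.L9
import Pool.Agent.LibYA38.G1

/-!
The punctures.

PLAN (assembly). Unpack AdmG: l (called h there), N, Ψ, ε, hl, hδ, hε, hN, hNm, hM : MonQ .. (exp N), hΨ, hΨu, hF. m := genLie wt p Φ; htri, hlie from C8_lie. hrN := rho_nil (L6) for f = d.lam. Give h' =
l, N_W := (d.rho N).map (algebraMap ℚ ℝ), β b i := ((lb b (γ t₀ γ⁻¹ - t₀) i : ℚ) : ℝ), γ = exp N. inv_b (L7) with hM, hγn := map_cjg_of_InG (L5) (InG_exp, L6), G := exp (d.rho N), hG := exp_conj (L6)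
gives the invariance for δ = σ trans l σ⁻¹. xd: (xd_main ...).comp (G1) with φ ζ = mob σ (l ζ) (holomorphic: US38.mob_holo composed with multiplication; maps Hc 0 to itself:
US38.mob_mem). nil: IsNilpotent.map. iso: (exp (rho N)).map = exp ((rho N).map) (IsNilpotent.map_exp, or see L8), first part of inv_b. perD: mob σ (l (ζ + 1)) = mob (σ trans l σ⁻¹) (mob σ (l ζ)):
mob_mul, mob_trans, mob_inv_mob. perE: same. ext: ext_cusp (L9) with hj := X67_je d, QuD for d.lam as in asm_mem0, cm (N_W) = (rho N).map ℂ. grow b: ee_growth hv hs hK (adm_of_G htri ha) hh (lb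
b) t₀ l gives C, n, Y for ζ' = l ζ: |re| ≤ l, im = l ζ.im; take C l^n, n, Y / l (maximum with 0 if needed).
-/

open Matrix Complex
open UpperHalfPlane hiding I
open MW38 (Fl Tri blk dg)
open SP38 (Hc)

namespace YA38

open ZQ38

variable {ι : Type} [Fintype ι] [DecidableEq ι] {wt p : ι → ℤ} {K : ℕ} {s' : ℕ}
  {Q : Matrix ι ι ℚ} {Φ : ℂ → Matrix ι ι ℂ} {h : ℂ → Matrix ι ι ℂ} {s : Equiv.Perm ι}

theorem cusp_X (hv : MW38.VMHS wt p (Q.map (algebraMap ℚ ℝ)) Φ)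
    (hs : ∀ j, wt (s j) = wt j ∧ p (s j) = wt j - p j) (hK : ∀ j, |p j| ≤ K)
    (hh : ∀ z ∈ Hc 0, DelH wt p (Φ z) (PPg wt p s (Φ z)) (h z)) (hha : An (Hc 0) h)
    {n : Submodule ℚ (Matrix ι ι ℚ)}
    (hn : ZL19.MaxI (genLie wt p Φ) (genLie wt p Φ ⊓ Low ℚ wt) n)
    {t₀ : Matrix ι ι ℚ} (ht₀ : t₀ ∈ genLie wt p Φ)
    (ht₀' : dgR wt t₀ = Matrix.diagonal (fun i => (wt i : ℚ)))
    (d : Dat wt Q (genLie wt p Φ) n) {lb : Fin s' → (Matrix ι ι ℚ →ₗ[ℚ] (Fin d.r → ℚ))}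
    (hB : ITB (genLie wt p Φ) (genLie wt p Φ ⊓ Low ℚ wt) d.rho lb)
    (hX : XD d.w (2 * K) ((QWf wt Q d.j).map (algebraMap ℚ ℝ))
      (DD K (fun z => PPg wt p s (Φ z)) h d.rho) (fun b => ee wt h t₀ (lb b)))
    {Δ : Subgroup (Matrix.SpecialLinearGroup (Fin 2) ℝ)}
    {σ : Matrix.SpecialLinearGroup (Fin 2) ℝ} (ha : AdmG wt p Q Φ (genLie wt p Φ) Δ σ) :
    CuspX Δ σ d.w (2 * K) ((QWf wt Q d.j).map (algebraMap ℚ ℝ))
      (DD K (fun z => PPg wt p s (Φ z)) h d.rho) (fun b => ee wt h t₀ (lb b)) := by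
  have hO := asm_OpD hv hs hK hh hha
  obtain ⟨hlie, htri, hop⟩ := C8_lie hO.gr hO.del hO.anP hO.anh
  have hgrow : ∀ b (M : ℝ), ∃ (C : ℝ) (n : ℕ) (Y : ℝ), ∀ ζ : ℂ, |ζ.re| ≤ M → Y ≤ ζ.im → ∀ j,
      ‖ee wt h t₀ (lb b) (US38.mob σ ζ) j‖ ≤ C * ζ.im ^ n := fun b M =>
    ee_growth hv hs hK (adm_of_G htri ha) hh (lb b) t₀ M
  obtain ⟨l, N, Ψ, ε, hl, hδ, hε, hN, hNm, hM, hΨ, hΨu, hF⟩ := ha
  have hst := stab_u hv hs hK hh hha
  have hQ : QuD wt K (fun z => PPg wt p s (Φ z)) h (genLie wt p Φ) n t₀ d.w d.r d.lam d.rho :=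
    ⟨hlie, htri, ht₀, ht₀', fun z hz => (hop z hz).1, fun z hz => (hop z hz).2, d.wd⟩
  have hrN : IsNilpotent (d.rho N) := rho_nil d.wd.act hst d.wd.surj hN hNm
  have hγn : n.map (ZL19.cjg (IsNilpotent.exp N) (IsNilpotent.exp N)⁻¹) = n :=
    map_cjg_of_InG hM.1 (InG_exp hN hNm) hn.stb
  obtain ⟨hiso, hinv⟩ := inv_b hv hs hK hh hha hn ht₀ ht₀' d hB hM hγn
    (G := IsNilpotent.exp (d.rho N)) (fun f hf => exp_conj hf hst hN hNm hrN)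
  have hexp : IsNilpotent.exp ((d.rho N).map (algebraMap ℚ ℝ)) =
      (IsNilpotent.exp (d.rho N)).map (algebraMap ℚ ℝ) :=
    (IsNilpotent.map_exp hrN (algebraMap ℚ ℝ).mapMatrix).symm
  have hlim : ∀ z : ℂ, ((l : ℂ) * z).im = l * z.im := fun z => by simp
  have hlre : ∀ z : ℂ, ((l : ℂ) * z).re = l * z.re := fun z => by simp
  have hφm : ∀ z ∈ Hc 0, ((l : ℂ) * z) ∈ Hc 0 := by
    intro z hz
    have h1 : 0 < z.im := hz
    show 0 < ((l : ℂ) * z).im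
    rw [hlim]
    positivity
  have hφd : DifferentiableOn ℂ (fun z => US38.mob σ (l * z)) (Hc 0) :=
    (US38.mob_holo σ).comp ((differentiable_id.const_mul (l : ℂ)).differentiableOn) hφm
  have hφ1 : ∀ ζ ∈ Hc 0, US38.mob σ (l * (ζ + 1)) =
      US38.mob (σ * SP38.trans l * σ⁻¹) (US38.mob σ (l * ζ)) := by
    intro ζ hζ
    rw [← US38.mob_mul _ _ (hφm ζ hζ), inv_mul_cancel_right, US38.mob_mul _ _ (hφm ζ hζ),
      US38.mob_trans]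
    congr 1
    ring
  refine ⟨l, (d.rho N).map (algebraMap ℚ ℝ),
    fun b i => ((lb b (IsNilpotent.exp N * t₀ * (IsNilpotent.exp N)⁻¹ - t₀) i : ℚ) : ℝ),
    hl, hδ, ?_⟩
  refine ⟨hX.comp hφd (fun z hz => US38.mob_mem σ (hφm z hz)), ?_, ?_, ?_, ?_, ?_, ?_⟩
  · exact hrN.map (algebraMap ℚ ℝ).mapMatrix
  · rw [hexp]
    exact hiso
  · intro ζ hζ
    rw [hexp, hφ1 ζ hζ]
    exact (hinv _ (US38.mob_mem σ (hφm ζ hζ))).1
  · intro b ζ hζ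
    show ee wt h t₀ (lb b) (US38.mob σ (l * (ζ + 1))) = _
    rw [hexp, hφ1 ζ hζ]
    exact (hinv _ (US38.mob_mem σ (hφm ζ hζ))).2 b
  · have h1 := ext_cusp hO hQ (X67_je d) hN hNm hrN hl hε hΨ hΨu hF
    rw [ZW67.cm_map]
    exact h1
  · intro b
    obtain ⟨C, k, Y, hY⟩ := hgrow b l
    refine ⟨C * l ^ k, k, Y / l, fun ζ hζ hζ' j => ?_⟩
    have h1 := hY (l * ζ) (by
      rw [hlre, abs_mul, abs_of_pos hl]
      nlinarith) (by
      rw [hlim]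
      rw [div_le_iff₀ hl] at hζ'
      linarith) j
    rw [hlim, mul_pow, ← mul_assoc] at h1
    exact h1

end YA38
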