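import Pool.Agent.LibYA38.LDef

/-!
Comparison with `EqHom`.

PLAN. θ : (Fin r → ℚ) →ₗ[ℚ] (Matrix ι ι ℚ ⧸ n) with θ (lam x) = n.mkQ x for x ∈ u: choose for each v some x_v ∈ u with lam x_v = v (hW.surj); if lam x = lam x', x, x' ∈ u, then x
- x' ∈ n (hW.ker); so v ↦ mkQ x_v is linear; θ is injective: θ v = 0 gives x_v ∈ n, so v = lam x_v = 0 (hW.ker, x_v ∈ u). For each b: F b := θ ∘ₗ lb b ∘ₗ u.subtype ∈ EqHom m u n: for
A ∈ m, x, x' ∈ u with x' = A x - x A take y ∈ u with lam y = lb b x; F b x = θ (lam y) = mkQ y; F b x' = θ (rho A *ᵥ lam y) (hB.it) = θ (lam (A y - y A)) (hW.act) = mkQ (A y - y A),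
since A y - y A ∈ u (hst). The F b are linearly independent: ∑ c b • F b = 0 gives θ (∑ c b • lb b x) = 0 for x ∈ u, so hB.ind. So s ≤ finrank
(`LinearIndependent.fintype_card_le_finrank`).
-/

open Matrix Complex
open UpperHalfPlane hiding I
open MW38 (Fl Tri blk dg)
open SP38 (Hc)

namespace YA38

open ZQ38

variable {ι : Type} [Fintype ι] [DecidableEq ι] {wt p : ι → ℤ} {K : ℕ} {w : ℤ} {r s : ℕ}
  {m u n n₁ : Submodule ℚ (Matrix ι ι ℚ)} {lam : Matrix ι ι ℚ →ₗ[ℚ] (Fin r → ℚ)}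
  {rho : Matrix ι ι ℚ →ₗ[ℚ] Matrix (Fin r) (Fin r) ℚ}
  {lb : Fin s → (Matrix ι ι ℚ →ₗ[ℚ] (Fin r → ℚ))}

private theorem L2_card {V : Type} [AddCommGroup V] [Module ℚ V] [Module.Finite ℚ V]
    (S : Submodule ℚ V) (F : Fin s → V) (hF : ∀ b, F b ∈ S)
    (h : ∀ c : Fin s → ℚ, ∑ b, c b • F b = 0 → c = 0) : s ≤ Module.finrank ℚ S := by
  have hli : LinearIndependent ℚ (fun b => (⟨F b, hF b⟩ : S)) := by
    rw [Fintype.linearIndependent_iff]
    intro c hc b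
    have h1 : ∑ b, c b • F b = 0 := by
      have h2 := congrArg Subtype.val hc
      rw [Submodule.coe_sum] at h2
      exact h2
    rw [h c h1]
    rfl
  have h1 := hli.fintype_card_le_finrank
  rwa [Fintype.card_fin] at h1

theorem ITB.le_homN (hst : ∀ A ∈ m, ∀ x ∈ u, A * x - x * A ∈ u)
    (hW : WD wt m u n w r lam rho) (hB : ITB m u rho lb) :
    s ≤ Module.finrank ℚ (EqHom m u n) := by
  classical
  obtain ⟨g, hg⟩ := (lam ∘ₗ u.subtype).exists_rightInverse_of_surjective (by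
    rw [LinearMap.range_eq_top]
    intro v
    obtain ⟨x, hx, hv⟩ := hW.surj v
    exact ⟨⟨x, hx⟩, hv⟩)
  have hg' : ∀ v, lam (g v : Matrix ι ι ℚ) = v := fun v => LinearMap.congr_fun hg v
  set θ : (Fin r → ℚ) →ₗ[ℚ] (Matrix ι ι ℚ ⧸ n) := n.mkQ ∘ₗ u.subtype ∘ₗ g with hθ
  have hθv : ∀ v, θ v = n.mkQ (g v : Matrix ι ι ℚ) := fun _ => rfl
  have hθl : ∀ x ∈ u, θ (lam x) = n.mkQ x := by
    intro x hx
    rw [hθv, Submodule.mkQ_apply, Submodule.mkQ_apply, Submodule.Quotient.eq]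
    rw [← hW.ker _ (u.sub_mem (g (lam x)).2 hx), map_sub, hg', sub_self]
  have hθ0 : ∀ v, θ v = 0 → v = 0 := by
    intro v hv
    rw [hθv, Submodule.mkQ_apply, Submodule.Quotient.mk_eq_zero, ← hW.ker _ (g v).2, hg'] at hv
    exact hv
  have hF : ∀ b, θ ∘ₗ lb b ∘ₗ u.subtype ∈ EqHom m u n := by
    intro b A hA x x' hx
    obtain ⟨y, hy, hyl⟩ := hW.surj (lb b x)
    refine ⟨y, hy, ?_, ?_⟩
    · rw [← hθl y hy, hyl]
      rfl
    · rw [← hθl _ (hst A hA y hy), hW.act A hA y hy, hyl, ← hB.it b A hA x x.2, ← hx]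
      rfl
  refine L2_card (EqHom m u n) _ hF fun c hc => ?_
  apply hB.ind
  intro x hx
  apply hθ0
  have h2 := LinearMap.congr_fun hc (⟨x, hx⟩ : u)
  rw [LinearMap.sum_apply] at h2
  rw [map_sum]
  refine Eq.trans ?_ h2
  refine Finset.sum_congr rfl fun b _ => ?_
  rw [map_smul, LinearMap.smul_apply]
  rfl

end YA38
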