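import Pool.Agent.LibYA38.LDef

/-!
An equivariant map gives the data of another maximal ideal.
-/

open Matrix Complex
open UpperHalfPlane hiding I
open MW38 (Fl Tri blk dg)
open SP38 (Hc)

namespace YA38

open ZQ38

variable {ι : Type} [Fintype ι] [DecidableEq ι] {wt p : ι → ℤ} {K : ℕ} {w : ℤ} {r s : ℕ}
  {m u n n₁ : Submodule ℚ (Matrix ι ι ℚ)} {lam : Matrix ι ι ℚ →ₗ[ℚ] (Fin r → ℚ)}
  {rho : Matrix ι ι ℚ →ₗ[ℚ] Matrix (Fin r) (Fin r) ℚ}
  {lb : Fin s → (Matrix ι ι ℚ →ₗ[ℚ] (Fin r → ℚ))}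

theorem IT.irr (hst : ∀ A ∈ m, ∀ x ∈ u, A * x - x * A ∈ u) (hW : WD wt m u n w r lam rho)
    (hM : ZL19.MaxI m u n) {V' : Submodule ℚ (Fin r → ℚ)}
    (hV : ∀ A ∈ m, ∀ v ∈ V', rho A *ᵥ v ∈ V') : V' = ⊥ ∨ V' = ⊤ := by
  have hmem : ∀ x, x ∈ u ⊓ V'.comap lam ↔ x ∈ u ∧ lam x ∈ V' := by
    intro x
    rw [Submodule.mem_inf, Submodule.mem_comap]
  have h1 : n ≤ u ⊓ V'.comap lam := by
    intro x hx
    rw [hmem]
    refine ⟨hM.le hx, ?_⟩
    rw [(hW.ker x (hM.le hx)).2 hx]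
    exact V'.zero_mem
  have h2 : ZL19.Stb m (u ⊓ V'.comap lam) := by
    intro A hA a ha
    rw [hmem] at ha ⊢
    refine ⟨hst A hA a ha.1, ?_⟩
    rw [hW.act A hA a ha.1]
    exact hV A hA _ ha.2
  rcases hM.max _ h1 inf_le_left h2 with h3 | h3
  · left
    rw [eq_bot_iff]
    intro v hv
    obtain ⟨x, hx, rfl⟩ := hW.surj v
    have h4 : x ∈ u ⊓ V'.comap lam := (hmem x).2 ⟨hx, hv⟩
    rw [h3] at h4
    rw [Submodule.mem_bot]
    exact (hW.ker x hx).2 h4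
  · right
    rw [eq_top_iff]
    intro v _
    obtain ⟨x, hx, rfl⟩ := hW.surj v
    have h4 : x ∈ u ⊓ V'.comap lam := by
      rw [h3]
      exact hx
    exact ((hmem x).1 h4).2

theorem IT.wd (hum : u ≤ m) (hst : ∀ A ∈ m, ∀ x ∈ u, A * x - x * A ∈ u)
    (hW : WD wt m u n w r lam rho) (hM : ZL19.MaxI m u n) {f : Matrix ι ι ℚ →ₗ[ℚ] (Fin r → ℚ)}
    (hf : IT m u rho f) (hf0 : ∃ x ∈ u, f x ≠ 0) :
    WD wt m u (u ⊓ LinearMap.ker f) w r f rho ∧ ZL19.MaxI m u (u ⊓ LinearMap.ker f) := by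
  have hmem : ∀ x, x ∈ u ⊓ LinearMap.ker f ↔ x ∈ u ∧ f x = 0 := by
    intro x
    rw [Submodule.mem_inf, LinearMap.mem_ker]
  have hirr : ∀ N' : Submodule ℚ (Matrix ι ι ℚ), N' ≤ u → ZL19.Stb m N' →
      N'.map f = ⊥ ∨ N'.map f = ⊤ := by
    intro N' hN' hs
    refine IT.irr hst hW hM ?_
    rintro A hA _ ⟨x, hx, rfl⟩
    rw [← hf A hA x (hN' hx)]
    exact ⟨_, hs A hA x hx, rfl⟩
  have htop : u.map f = ⊤ := by
    rcases hirr u le_rfl hst with h | h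
    · exfalso
      obtain ⟨x, hx, hx0⟩ := hf0
      apply hx0
      have h1 : f x ∈ u.map f := ⟨x, hx, rfl⟩
      rw [h, Submodule.mem_bot] at h1
      exact h1
    · exact h
  refine ⟨⟨?_, ?_, hf, hW.uz, hW.wtp⟩, ⟨?_, inf_le_left, ?_, ?_, ?_⟩⟩
  · intro v
    have h1 : v ∈ u.map f := by
      rw [htop]
      exact Submodule.mem_top
    obtain ⟨x, hx, hxv⟩ := h1
    exact ⟨x, hx, hxv⟩
  · intro x hx
    rw [hmem]
    exact ⟨fun h => ⟨hx, h⟩, fun h => h.2⟩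
  · intro a ha b hb
    rw [hmem]
    refine ⟨hst a (hum ha) b hb, ?_⟩
    rw [hf a (hum ha) b hb, hW.uz a ha, Matrix.zero_mulVec]
  · intro h
    obtain ⟨x, hx, hx0⟩ := hf0
    rw [← h, hmem] at hx
    exact hx0 hx.2
  · intro A hA a ha
    rw [hmem] at ha ⊢
    refine ⟨hst A hA a ha.1, ?_⟩
    rw [hf A hA a ha.1, ha.2, Matrix.mulVec_zero]
  · intro N' h1 h2 h3
    rcases hirr N' h2 h3 with h4 | h4
    · left
      refine le_antisymm ?_ h1
      intro x hx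
      rw [hmem]
      refine ⟨h2 hx, ?_⟩
      have h5 : f x ∈ N'.map f := ⟨x, hx, rfl⟩
      rw [h4, Submodule.mem_bot] at h5
      exact h5
    · right
      refine le_antisymm h2 ?_
      intro x hx
      have h5 : f x ∈ N'.map f := by
        rw [h4]
        exact Submodule.mem_top
      obtain ⟨y, hy, hyx⟩ := h5
      have h6 : x - y ∈ N' := by
        apply h1
        rw [hmem]
        refine ⟨u.sub_mem hx (h2 hy), ?_⟩
        rw [map_sub, hyx, sub_self]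
      have h7 := N'.add_mem h6 hy
      rwa [sub_add_cancel] at h7

end YA38
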