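import Pool.Agent.LibYA38.LDef

/-!
An intersection of maximal ideals contained in another one.

PLAN. Induction on the cardinality of T (pattern: `inf_not_le` in LibZL19/CR). T = ∅: u ≤ n contradicts hn.ne, hn.le. T = insert n₁ T', R := u ⊓ T'.inf id (stable). If R ≤ n: induction.
Otherwise R ⊔ n = u (hn.max: R ⊔ n is stable, ≤ u, ≠ n). Also R is not ≤ n₁ (else R = R ⊓ n₁ = u ⊓ T.inf id ≤ n), so R ⊔ n₁ = u by (hT n₁).max. We show IsoQ m u n₁ n. First define the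
linear map F on u with values in Matrix ⧸ n₁... in which direction? IsoQ wants f : u → u / n₁ with kernel n. Let π₁ : R → u / n₁, π : R → u / n the restrictions, both surjective,
kernels R ⊓ n₁ ≤ R ⊓ n (h). The subspace n₁ ⊔ (R ⊓ n) is stable, contains n₁; by (hT n₁).max it is n₁ or u. If it were u: R ≤ n₁ ⊔ (R ⊓ n), so each x ∈ R is x = y + z, z ∈ R ⊓ n, y ∈ n₁,
y = x - z ∈ R ⊓ n₁ ≤ n, so x ∈ n: R ≤ n, contradiction. So R ⊓ n ≤ n₁: R ⊓ n = R ⊓ n₁. Define f on u: for x ∈ u = R ⊔ n write x = a + b with a ∈ R, b ∈ n; f x := n₁.mkQ a; well defined: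
a + b = a' + b' gives a - a' ∈ R ⊓ n ≤ n₁. Linear. f x = 0 ↔ a ∈ n₁ ↔ a ∈ R ⊓ n₁ = R ⊓ n ↔ a ∈ n ↔ x ∈ n. Equivariance: y := a ∈ u; A x - x A = (A a - a A) + (A b - b A), first in R, second
in n. Extend f from u to all matrices with `LinearMap.exists_extend` (applied to u →ₗ Matrix ⧸ n₁). Construction of f: e.g. the linear map R ⧸ ... or choose
for x ∈ u the pair (a, b) and prove linearity by well-definedness.
-/

open Matrix Complex
open UpperHalfPlane hiding I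
open MW38 (Fl Tri blk dg)
open SP38 (Hc)

namespace YA38

open ZQ38

variable {ι : Type} [Fintype ι] [DecidableEq ι] {wt p : ι → ℤ} {K : ℕ} {w : ℤ} {r s : ℕ}
  {m u n n₁ : Submodule ℚ (Matrix ι ι ℚ)} {lam : Matrix ι ι ℚ →ₗ[ℚ] (Fin r → ℚ)}
  {rho : Matrix ι ι ℚ →ₗ[ℚ] Matrix (Fin r) (Fin r) ℚ}
  {lb : Fin s → (Matrix ι ι ℚ →ₗ[ℚ] (Fin r → ℚ))}

private theorem L4a_stb (hst : ∀ A ∈ m, ∀ x ∈ u, A * x - x * A ∈ u)
    (T : Finset (Submodule ℚ (Matrix ι ι ℚ))) (hT : ∀ n₁ ∈ T, ZL19.MaxI m u n₁) :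
    ZL19.Stb m (u ⊓ T.inf id) := by
  intro A hA a ha
  refine ⟨hst A hA a ha.1, ?_⟩
  have h3 : Submodule.span ℚ {A * a - a * A} ≤ T.inf id := by
    refine Finset.le_inf fun N' hN' => ?_
    rw [Submodule.span_singleton_le_iff_mem]
    exact (hT N' hN').stb A hA a ((Finset.inf_le (f := id) hN' : T.inf id ≤ N') ha.2)
  exact h3 (Submodule.mem_span_singleton_self _)

/-- two maximal ideals cut out by the same part of a stable complement have isomorphic quotients -/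
private theorem L4a_iso {R : Submodule ℚ (Matrix ι ι ℚ)} (hR : ZL19.Stb m R) (hRu : R ≤ u)
    (hn : ZL19.MaxI m u n) (hn₁ : ZL19.MaxI m u n₁) (h1 : n ⊔ R = u)
    (h2 : ∀ x ∈ R, x ∈ n ↔ x ∈ n₁) : IsoQ m u n₁ n := by
  set s : (R × n) →ₗ[ℚ] u := LinearMap.coprod (Submodule.inclusion hRu)
    (Submodule.inclusion hn.le) with hs
  have hsv : ∀ (a : R) (b : n), ((s (a, b) : u) : Matrix ι ι ℚ) = a + b := by
    intro a b
    simp [hs, LinearMap.coprod_apply]
  have hsurj : Function.Surjective s := by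
    intro x
    have hx : (x : Matrix ι ι ℚ) ∈ n ⊔ R := by rw [h1]; exact x.2
    obtain ⟨b, hb, a, ha, hab⟩ := Submodule.mem_sup.1 hx
    refine ⟨(⟨a, ha⟩, ⟨b, hb⟩), Subtype.ext ?_⟩
    rw [hsv]
    rw [← hab, add_comm]
  obtain ⟨t, ht⟩ := s.exists_rightInverse_of_surjective (LinearMap.range_eq_top.2 hsurj)
  set g : (R × n) →ₗ[ℚ] (Matrix ι ι ℚ ⧸ n₁) := (n₁.mkQ.comp R.subtype).comp
    (LinearMap.fst ℚ R n) with hg
  obtain ⟨f, hf⟩ := LinearMap.exists_extend (g.comp t)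
  have hfx : ∀ a ∈ R, ∀ b ∈ n, f (a + b) = n₁.mkQ a := by
    intro a ha b hb
    have hab : a + b ∈ u := u.add_mem (hRu ha) (hn.le hb)
    have e1 : f (a + b) = (g.comp t) ⟨a + b, hab⟩ := by
      rw [← hf]
      rfl
    obtain ⟨c, hc⟩ : ∃ c, c = t ⟨a + b, hab⟩ := ⟨_, rfl⟩
    have e2 : (c.1 : Matrix ι ι ℚ) + c.2 = a + b := by
      have e3 : s c = ⟨a + b, hab⟩ := by
        rw [hc]
        have := LinearMap.congr_fun ht ⟨a + b, hab⟩
        simpa using this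
      have e4 := hsv c.1 c.2
      rw [show (c.1, c.2) = c from rfl, e3] at e4
      exact e4.symm
    rw [e1, LinearMap.comp_apply, ← hc]
    show n₁.mkQ (c.1 : Matrix ι ι ℚ) = n₁.mkQ a
    rw [Submodule.mkQ_apply, Submodule.mkQ_apply, Submodule.Quotient.eq]
    have e5 : (c.1 : Matrix ι ι ℚ) - a ∈ R := R.sub_mem c.1.2 ha
    refine (h2 _ e5).1 ?_
    have e6 : (c.1 : Matrix ι ι ℚ) - a = b - c.2 := by
      rw [sub_eq_sub_iff_add_eq_add, e2, add_comm]
    rw [e6]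
    exact n.sub_mem hb c.2.2
  refine ⟨f, ?_, ?_⟩
  · intro A hA x hx
    rw [← h1] at hx
    obtain ⟨b, hb, a, ha, rfl⟩ := Submodule.mem_sup.1 hx
    refine ⟨a, hRu ha, ?_, ?_⟩
    · rw [add_comm, hfx a ha b hb]
    · rw [add_comm b a, ZL19.br_add]
      exact hfx _ (hR A hA a ha) _ (hn.stb A hA b hb)
  · intro x hx
    rw [← h1] at hx
    obtain ⟨b, hb, a, ha, rfl⟩ := Submodule.mem_sup.1 hx
    rw [add_comm b a, hfx a ha b hb, Submodule.mkQ_apply, Submodule.Quotient.mk_eq_zero,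
      ← h2 a ha]
    constructor
    · intro h
      exact n.add_mem h hb
    · intro h
      have := n.sub_mem h hb
      rwa [add_sub_cancel_right] at this

theorem iso_of_inf_le (hst : ∀ A ∈ m, ∀ x ∈ u, A * x - x * A ∈ u)
    (T : Finset (Submodule ℚ (Matrix ι ι ℚ))) (hT : ∀ n₁ ∈ T, ZL19.MaxI m u n₁)
    (hn : ZL19.MaxI m u n) (h : u ⊓ T.inf id ≤ n) : ∃ n₁ ∈ T, IsoQ m u n₁ n := by
  classical
  induction T using Finset.induction_on with
  | empty =>
    exfalso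
    rw [Finset.inf_empty, inf_top_eq] at h
    exact hn.ne (le_antisymm hn.le h)
  | insert n₂ T' hnT ih =>
    have hT' : ∀ n₁ ∈ T', ZL19.MaxI m u n₁ := fun n₁ h₁ => hT n₁ (Finset.mem_insert_of_mem h₁)
    have hn₂ : ZL19.MaxI m u n₂ := hT n₂ (Finset.mem_insert_self _ _)
    by_cases hR : u ⊓ T'.inf id ≤ n
    · obtain ⟨n₁, h₁, h₂⟩ := ih hT' hR
      exact ⟨n₁, Finset.mem_insert_of_mem h₁, h₂⟩
    · refine ⟨n₂, Finset.mem_insert_self _ _, ?_⟩
      obtain ⟨R, hRd⟩ : ∃ R, R = u ⊓ T'.inf id := ⟨_, rfl⟩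
      rw [← hRd] at hR
      have hRst : ZL19.Stb m R := by
        rw [hRd]
        exact L4a_stb hst T' hT'
      have hRu : R ≤ u := by
        rw [hRd]
        exact inf_le_left
      have hle : ∀ x ∈ R, x ∈ n₂ → x ∈ n := by
        intro x hx hx2
        refine h ⟨hRu hx, ?_⟩
        rw [Finset.inf_insert]
        rw [hRd] at hx
        exact ⟨hx2, hx.2⟩
      have hRn₂ : ¬ R ≤ n₂ := fun hc => hR fun x hx => hle x hx (hc hx)
      have h1 := hn.sup_eq hRst hRu hR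
      have hst2 : ZL19.Stb m (n₂ ⊔ (R ⊓ n)) := hn₂.stb.sup (hRst.inf hn.stb)
      refine L4a_iso hRst hRu hn hn₂ h1 fun x hx => ⟨fun hxn => ?_, fun hx2 => hle x hx hx2⟩
      rcases hn₂.max (n₂ ⊔ (R ⊓ n)) le_sup_left
        (sup_le hn₂.le (inf_le_left.trans hRu)) hst2 with h3 | h3
      · rw [← h3]
        exact Submodule.mem_sup_right ⟨hx, hxn⟩
      · exfalso
        apply hR
        intro z hz
        have hz' : z ∈ n₂ ⊔ (R ⊓ n) := by
          rw [h3]
          exact hRu hz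
        obtain ⟨y, hy, w', hw', hyw⟩ := Submodule.mem_sup.1 hz'
        have hyR : y ∈ R := by
          have : y = z - w' := by rw [← hyw, add_sub_cancel_right]
          rw [this]
          exact R.sub_mem hz hw'.1
        rw [← hyw]
        exact n.add_mem (hle y hyR hy) hw'.2

end YA38
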