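import Pool.Agent.LibYA38.L4a

/-!
Finitely many isomorphism classes of maximal ideals.

PLAN. exists_reps: among all finite sets T of submodules with ∀ n ∈ T, MaxI m u n ∧ Pn n choose one with minimal finrank of u ⊓ T.inf id (Nat.find or `WellFounded.has_min` on the set of values). For n with
MaxI and Pn: T' := insert n T: u ⊓ T'.inf id ≤ u ⊓ T.inf id with equality of finrank by minimality, so they are equal (Submodule.eq_of_le_of_finrank_le) and u ⊓ T.inf id ≤ n;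
iso_of_inf_le (L4a). it_of_iso: with f : Matrix →ₗ Matrix ⧸ n₁ from IsoQ: lam kills n₁ (hn₁, hW.ker), g := (n₁.liftQ lam _) ∘ₗ f. IT: for A ∈ m, x ∈ u: y ∈ u with f x = mkQ y, f (A x
- x A) = mkQ (A y - y A): g x = lam y, g (A x - x A) = lam (A y - y A) = rho A *ᵥ lam y (hW.act). n = u ⊓ ker g: for x ∈ u: y ∈ u (take A = 0 ∈ m), g x = lam y = 0 ↔ y ∈ n₁ (hW.ker) ↔ f
x = 0 ↔ x ∈ n. eq_of_mult_one: the restriction of f to u is in EqHom m u n₁, so f x = 0 for x ∈ n₁ (hn₁.le), so n₁ ≤ n; hn₁.max n: n = n₁ or n = u (excluded by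
hn.ne; uses hn.le, hn.stb).
-/

open Matrix Complex
open UpperHalfPlane hiding I
open MW38 (Fl Tri blk dg)
open SP38 (Hc)

namespace YA38

open ZQ38

variable {ι : Type} [Fintype ι] [DecidableEq ι] {wt p : ι → ℤ} {K : ℕ} {w : ℤ} {r s : ℕ}
  {m u n n₁ : Submodule ℚ (Matrix ι ι ℚ)} {lam : Matrix ι ι ℚ →ₗ[ℚ] (Fin r → ℚ)}
  {rho : Matrix ι ι ℚ →ₗ[ℚ] Matrix (Fin r) (Fin r) ℚ}
  {lb : Fin s → (Matrix ι ι ℚ →ₗ[ℚ] (Fin r → ℚ))}

theorem exists_reps (hst : ∀ A ∈ m, ∀ x ∈ u, A * x - x * A ∈ u)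
    (Pn : Submodule ℚ (Matrix ι ι ℚ) → Prop) :
    ∃ T : Finset (Submodule ℚ (Matrix ι ι ℚ)), (∀ n ∈ T, ZL19.MaxI m u n ∧ Pn n) ∧
      ∀ n, ZL19.MaxI m u n → Pn n → ∃ n₁ ∈ T, IsoQ m u n₁ n := by
  classical
  have hex : ∃ k : ℕ, ∃ T : Finset (Submodule ℚ (Matrix ι ι ℚ)),
      (∀ n ∈ T, ZL19.MaxI m u n ∧ Pn n) ∧
        Module.finrank ℚ (u ⊓ T.inf id : Submodule ℚ (Matrix ι ι ℚ)) = k :=
    ⟨_, ∅, fun n hn => absurd hn (Finset.notMem_empty n), rfl⟩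
  obtain ⟨T, hT, hk⟩ := Nat.find_spec hex
  refine ⟨T, hT, fun n hn hP => ?_⟩
  have hT' : ∀ n' ∈ insert n T, ZL19.MaxI m u n' ∧ Pn n' := by
    intro n' hn'
    rcases Finset.mem_insert.1 hn' with h | h
    · rw [h]
      exact ⟨hn, hP⟩
    · exact hT n' h
  have h1 : Nat.find hex ≤
      Module.finrank ℚ (u ⊓ (insert n T).inf id : Submodule ℚ (Matrix ι ι ℚ)) :=
    Nat.find_min' hex ⟨insert n T, hT', rfl⟩
  have h2 : u ⊓ (insert n T).inf id ≤ u ⊓ T.inf id :=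
    inf_le_inf_left u (Finset.inf_mono (Finset.subset_insert n T))
  have h3 : u ⊓ (insert n T).inf id = u ⊓ T.inf id :=
    Submodule.eq_of_le_of_finrank_le h2 (by rw [hk]; exact h1)
  have h4 : u ⊓ T.inf id ≤ n := by
    rw [← h3]
    exact inf_le_right.trans (Finset.inf_le (f := id) (Finset.mem_insert_self n T))
  exact iso_of_inf_le hst T (fun n₁ h => (hT n₁ h).1) hn h4

theorem it_of_iso (hW : WD wt m u n₁ w r lam rho) (hn₁ : n₁ ≤ u) (hn : n ≤ u)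
    (h : IsoQ m u n₁ n) : ∃ g : Matrix ι ι ℚ →ₗ[ℚ] (Fin r → ℚ), IT m u rho g ∧
      n = u ⊓ LinearMap.ker g := by
  obtain ⟨f, hf, hfn⟩ := h
  have hker : n₁ ≤ LinearMap.ker lam := fun x hx =>
    LinearMap.mem_ker.2 ((hW.ker x (hn₁ hx)).2 hx)
  have hg : ∀ x y, f x = n₁.mkQ y → ((n₁.liftQ lam hker) ∘ₗ f) x = lam y := by
    intro x y hxy
    rw [LinearMap.comp_apply, hxy, Submodule.mkQ_apply, Submodule.liftQ_apply]
  refine ⟨(n₁.liftQ lam hker) ∘ₗ f, ?_, ?_⟩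
  · intro A hA x hx
    obtain ⟨y, hy, h1, h2⟩ := hf A hA x hx
    rw [hg _ _ h1, hg _ _ h2]
    exact hW.act A hA y hy
  · ext x
    rw [Submodule.mem_inf, LinearMap.mem_ker]
    constructor
    · intro hx
      refine ⟨hn hx, ?_⟩
      rw [LinearMap.comp_apply, (hfn x (hn hx)).2 hx, map_zero]
    · rintro ⟨hx, hgx⟩
      obtain ⟨y, hy, h1, -⟩ := hf 0 m.zero_mem x hx
      rw [hg _ _ h1] at hgx
      have h2 : y ∈ n₁ := (hW.ker y hy).1 hgx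
      refine (hfn x hx).1 ?_
      rw [h1, Submodule.mkQ_apply]
      exact (Submodule.Quotient.mk_eq_zero n₁).2 h2

theorem eq_of_mult_one (hn₁ : ZL19.MaxI m u n₁) (hn : ZL19.MaxI m u n) (h : IsoQ m u n₁ n)
    (h1 : ∀ f ∈ EqHom m u n₁, ∀ x : u, (x : Matrix ι ι ℚ) ∈ n₁ → f x = 0) : n = n₁ := by
  obtain ⟨f, hf, hfn⟩ := h
  have hmem : f.domRestrict u ∈ EqHom m u n₁ := by
    intro A hA x x' hx'
    obtain ⟨y, hy, h2, h3⟩ := hf A hA x x.2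
    refine ⟨y, hy, h2, ?_⟩
    rw [LinearMap.domRestrict_apply, hx']
    exact h3
  have hle : n₁ ≤ n := by
    intro x hx
    have hxu : x ∈ u := hn₁.le hx
    have h2 : f.domRestrict u ⟨x, hxu⟩ = 0 := h1 _ hmem ⟨x, hxu⟩ hx
    exact (hfn x hxu).1 h2
  rcases hn₁.max n hle hn.le hn.stb with h2 | h2
  · exact h2
  · exact absurd h2 hn.ne

end YA38
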