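import Pool.Agent.LibYA38.L5
import Mathlib

/-!
The unipotent monodromy at a cusp.

PLAN. (1) mulLeft N and mulRight N are nilpotent (LinearMap.mulLeft is an algebra hom: (mulLeft N)^k = mulLeft (N^k); for mulRight use `LinearMap.pow_mulRight`) and commute (`LinearMap.commute_mulLeft_right`),
so adE N = mulLeft N - mulRight N is nilpotent (`Commute.isNilpotent_sub`) and IsNilpotent.exp (adE N) = exp (mulLeft N) * exp (- mulRight N)
(`IsNilpotent.exp_add_of_commute`) = mulLeft (exp N) * mulRight (exp (-N)); `IsNilpotent.exp` is a finite sum: IsNilpotent.exp_eq_sum (see how it is used in LibZE25 or LibMW38, e.g.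
grep exp_eq_sum). (exp N)⁻¹ = exp (-N) (IsNilpotent.exp_mul_exp_neg_self, Matrix.inv_eq_right_inv). So exp N * x * (exp N)⁻¹ = exp (adE N) x. (2) exp (adE N) is a
polynomial in adE N, so in the adjoined algebra (exp_eq_sum, Subalgebra.sum_mem, pow_mem): InG. (3) nil: f (adE N)^k x = (rho N)^k *ᵥ f x for x ∈ u (induction, hf, hst); f surjective (hs), so
(rho N)^k = 0 when (adE N)^k = 0. (4) f (exp (adE N) x) = ∑ (1/k!) (rho N)^k f x = exp (rho N) *ᵥ f x: take the same large bound k0 in both exp_eq_sum.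
-/

open Matrix Complex
open UpperHalfPlane hiding I
open MW38 (Fl Tri blk dg)
open SP38 (Hc)

namespace YA38

open ZQ38

variable {ι : Type} [Fintype ι] [DecidableEq ι] {wt p : ι → ℤ} {K : ℕ} {w : ℤ} {r s : ℕ}
  {m u n n₁ : Submodule ℚ (Matrix ι ι ℚ)} {lam : Matrix ι ι ℚ →ₗ[ℚ] (Fin r → ℚ)}
  {rho : Matrix ι ι ℚ →ₗ[ℚ] Matrix (Fin r) (Fin r) ℚ}
  {lb : Fin s → (Matrix ι ι ℚ →ₗ[ℚ] (Fin r → ℚ))}

theorem L6_adE_apply (N x : Matrix ι ι ℚ) : adE N x = N * x - x * N := by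
  simp [adE, LinearMap.sub_apply, LinearMap.mulLeft_apply, LinearMap.mulRight_apply]

theorem L6_expL {N : Matrix ι ι ℚ} (hN : IsNilpotent N) :
    IsNilpotent (LinearMap.mulLeft ℚ N) ∧
      ∀ x, IsNilpotent.exp (LinearMap.mulLeft ℚ N) x = IsNilpotent.exp N * x := by
  obtain ⟨k, hk⟩ := hN
  have h1 : (LinearMap.mulLeft ℚ N) ^ k = 0 := by
    rw [LinearMap.pow_mulLeft, hk, LinearMap.mulLeft_zero_eq_zero]
  refine ⟨⟨k, h1⟩, fun x => ?_⟩
  rw [IsNilpotent.exp_eq_sum h1, IsNilpotent.exp_eq_sum hk, Finset.sum_mul, LinearMap.sum_apply]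
  refine Finset.sum_congr rfl fun i _ => ?_
  rw [LinearMap.pow_mulLeft, LinearMap.smul_apply, LinearMap.mulLeft_apply, smul_mul_assoc]

theorem L6_expR {N : Matrix ι ι ℚ} (hN : IsNilpotent N) :
    IsNilpotent (LinearMap.mulRight ℚ N) ∧
      ∀ x, IsNilpotent.exp (LinearMap.mulRight ℚ N) x = x * IsNilpotent.exp N := by
  obtain ⟨k, hk⟩ := hN
  have h1 : (LinearMap.mulRight ℚ N) ^ k = 0 := by
    rw [LinearMap.pow_mulRight, hk, LinearMap.mulRight_zero_eq_zero]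
  refine ⟨⟨k, h1⟩, fun x => ?_⟩
  rw [IsNilpotent.exp_eq_sum h1, IsNilpotent.exp_eq_sum hk, Finset.mul_sum, LinearMap.sum_apply]
  refine Finset.sum_congr rfl fun i _ => ?_
  rw [LinearMap.pow_mulRight, LinearMap.smul_apply, LinearMap.mulRight_apply, mul_smul_comm]

theorem L6_adE_eq (N : Matrix ι ι ℚ) :
    adE N = LinearMap.mulLeft ℚ N + LinearMap.mulRight ℚ (-N) := by
  ext1 x
  rw [L6_adE_apply, LinearMap.add_apply, LinearMap.mulLeft_apply, LinearMap.mulRight_apply,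
    mul_neg, sub_eq_add_neg]

theorem L6_comm (N : Matrix ι ι ℚ) :
    Commute (LinearMap.mulLeft ℚ N) (LinearMap.mulRight ℚ (-N)) :=
  LinearMap.commute_mulLeft_right N (-N)

theorem L6_nil {N : Matrix ι ι ℚ} (hN : IsNilpotent N) : IsNilpotent (adE N) := by
  rw [L6_adE_eq]
  exact (L6_comm N).isNilpotent_add (L6_expL hN).1 (L6_expR hN.neg).1

theorem L6_exp {N : Matrix ι ι ℚ} (hN : IsNilpotent N) (x : Matrix ι ι ℚ) :
    IsNilpotent.exp (adE N) x = IsNilpotent.exp N * x * (IsNilpotent.exp N)⁻¹ := by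
  have h1 : (IsNilpotent.exp N)⁻¹ = IsNilpotent.exp (-N) :=
    Matrix.inv_eq_right_inv (IsNilpotent.exp_mul_exp_neg_self hN)
  rw [L6_adE_eq, IsNilpotent.exp_add_of_commute (L6_comm N) (L6_expL hN).1 (L6_expR hN.neg).1,
    Module.End.mul_apply, (L6_expL hN).2, (L6_expR hN.neg).2, h1, mul_assoc]

theorem InG_exp {N : Matrix ι ι ℚ} (hN : IsNilpotent N) (hNm : N ∈ m) :
    InG m (IsNilpotent.exp N) := by
  refine ⟨IsNilpotent.exp (adE N), ?_, L6_exp hN⟩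
  obtain ⟨k, hk⟩ := L6_nil hN
  rw [IsNilpotent.exp_eq_sum hk]
  refine Subalgebra.sum_mem _ fun i _ => Subalgebra.smul_mem _ (Subalgebra.pow_mem _ ?_ i) _
  exact Algebra.subset_adjoin ⟨N, hNm, rfl⟩

theorem L6_pow {f : Matrix ι ι ℚ →ₗ[ℚ] (Fin r → ℚ)} (hf : IT m u rho f)
    (hst : ∀ A ∈ m, ∀ x ∈ u, A * x - x * A ∈ u) {N : Matrix ι ι ℚ} (hNm : N ∈ m) (k : ℕ) :
    ∀ x ∈ u, (adE N ^ k) x ∈ u ∧ f ((adE N ^ k) x) = (rho N ^ k) *ᵥ f x := by
  induction k with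
  | zero =>
    intro x hx
    simpa using hx
  | succ k ih =>
    intro x hx
    obtain ⟨h1, h2⟩ := ih x hx
    rw [pow_succ', Module.End.mul_apply, L6_adE_apply, pow_succ', ← Matrix.mulVec_mulVec, ← h2]
    exact ⟨hst N hNm _ h1, hf N hNm _ h1⟩

theorem rho_nil {f : Matrix ι ι ℚ →ₗ[ℚ] (Fin r → ℚ)} (hf : IT m u rho f)
    (hst : ∀ A ∈ m, ∀ x ∈ u, A * x - x * A ∈ u) (hs : ∀ v, ∃ x ∈ u, f x = v)
    {N : Matrix ι ι ℚ} (hN : IsNilpotent N) (hNm : N ∈ m) : IsNilpotent (rho N) := by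
  obtain ⟨k, hk⟩ := L6_nil hN
  refine ⟨k, ?_⟩
  ext i j
  obtain ⟨x, hx, hfx⟩ := hs (Pi.single j 1)
  have h1 := (L6_pow hf hst hNm k x hx).2
  rw [hk, LinearMap.zero_apply, map_zero, hfx] at h1
  have h2 := congrFun h1 i
  rw [Matrix.mulVec_single_one] at h2
  simpa using h2.symm

theorem exp_conj {f : Matrix ι ι ℚ →ₗ[ℚ] (Fin r → ℚ)} (hf : IT m u rho f)
    (hst : ∀ A ∈ m, ∀ x ∈ u, A * x - x * A ∈ u)
    {N : Matrix ι ι ℚ} (hN : IsNilpotent N) (hNm : N ∈ m) (hrN : IsNilpotent (rho N)) :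
    ∀ x ∈ u, IsNilpotent.exp N * x * (IsNilpotent.exp N)⁻¹ ∈ u ∧
      f (IsNilpotent.exp N * x * (IsNilpotent.exp N)⁻¹) = IsNilpotent.exp (rho N) *ᵥ f x := by
  intro x hx
  obtain ⟨k, hk⟩ := L6_nil hN
  obtain ⟨l, hl⟩ := hrN
  have h1 : adE N ^ (k + l) = 0 := by rw [pow_add, hk, zero_mul]
  have h2 : rho N ^ (k + l) = 0 := by rw [pow_add, hl, mul_zero]
  rw [← L6_exp hN, IsNilpotent.exp_eq_sum h1, IsNilpotent.exp_eq_sum h2, LinearMap.sum_apply,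
    Matrix.sum_mulVec, map_sum]
  refine ⟨Submodule.sum_mem _ fun i _ => ?_, Finset.sum_congr rfl fun i _ => ?_⟩
  · rw [LinearMap.smul_apply]
    exact Submodule.smul_mem _ _ (L6_pow hf hst hNm i x hx).1
  · rw [LinearMap.smul_apply, map_smul, (L6_pow hf hst hNm i x hx).2, Matrix.smul_mulVec]

end YA38
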