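import Pool.Agent.LibYA38.SDef3
import Pool.Agent.LibZQ38.Asm2

/-!
Definitions for the algebraic part.
-/

open Matrix Complex
open UpperHalfPlane hiding I
open MW38 (Fl Tri blk dg)
open SP38 (Hc)

namespace YA38

open ZQ38

variable {ι : Type} [Fintype ι] [DecidableEq ι] {r s : ℕ}

/-- `f : u → ℚ^r` is equivariant for the action `rho` of `m` -/
def IT (m u : Submodule ℚ (Matrix ι ι ℚ)) (rho : Matrix ι ι ℚ →ₗ[ℚ] Matrix (Fin r) (Fin r) ℚ)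
    (f : Matrix ι ι ℚ →ₗ[ℚ] (Fin r → ℚ)) : Prop :=
  ∀ A ∈ m, ∀ x ∈ u, f (A * x - x * A) = rho A *ᵥ f x

/-- a basis of the space of equivariant maps (restricted to `u`) -/
structure ITB (m u : Submodule ℚ (Matrix ι ι ℚ))
    (rho : Matrix ι ι ℚ →ₗ[ℚ] Matrix (Fin r) (Fin r) ℚ)
    (lb : Fin s → (Matrix ι ι ℚ →ₗ[ℚ] (Fin r → ℚ))) : Prop where
  one : 1 ≤ s
  it : ∀ b, IT m u rho (lb b)
  ind : ∀ c : Fin s → ℚ, (∀ x ∈ u, ∑ b, c b • lb b x = 0) → c = 0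
  span : ∀ f, IT m u rho f → ∃ c : Fin s → ℚ, ∀ x ∈ u, f x = ∑ b, c b • lb b x

/-- `u / n` is isomorphic to `u / n₁` -/
def IsoQ (m u n₁ n : Submodule ℚ (Matrix ι ι ℚ)) : Prop :=
  ∃ f : Matrix ι ι ℚ →ₗ[ℚ] (Matrix ι ι ℚ ⧸ n₁),
    (∀ A ∈ m, ∀ x ∈ u, ∃ y ∈ u, f x = n₁.mkQ y ∧ f (A * x - x * A) = n₁.mkQ (A * y - y * A)) ∧
    ∀ x ∈ u, f x = 0 ↔ x ∈ n

end YA38
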