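import Pool.Agent.LibYA38.L1
import Pool.Agent.LibYA38.L4b
import Pool.Agent.LibYA38.L10
import Pool.Agent.LibYA38.G4

/-!
The assembly of the theorem on all multiplicities.
-/

open Matrix Complex
open UpperHalfPlane hiding I
open MW38 (Fl Tri blk dg)
open SP38 (Hc)

namespace YA38

open ZQ38

variable {ι : Type} [Fintype ι] [DecidableEq ι] {wt p : ι → ℤ} {K : ℕ} {s' : ℕ}
  {Q : Matrix ι ι ℚ} {Φ : ℂ → Matrix ι ι ℂ} {h : ℂ → Matrix ι ι ℂ} {s : Equiv.Perm ι}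

theorem lamC_comb {r s' : ℕ} (c : Fin s' → ℚ) (lb : Fin s' → (Matrix ι ι ℚ →ₗ[ℚ] (Fin r → ℚ)))
    (A : Matrix ι ι ℂ) :
    lamC (∑ b, c b • lb b) A = ∑ b, (c b : ℂ) • lamC (lb b) A := by
  have h1 : ∀ b, (c b : ℂ) • lamC (lb b) A = lamC (c b • lb b) A := by
    intro b
    funext t
    simp only [lamC, Finset.sum_apply, Pi.smul_apply, smul_eq_mul, LinearMap.smul_apply,
      Rat.cast_mul, Finset.mul_sum]
    refine Finset.sum_congr rfl fun i _ => Finset.sum_congr rfl fun j _ => ?_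
    ring
  simp only [h1]
  have h2 : ∀ S : Finset (Fin s'), lamC (∑ b ∈ S, c b • lb b) A =
      ∑ b ∈ S, lamC (c b • lb b) A := by
    intro S
    induction S using Finset.induction_on with
    | empty =>
      funext t
      simp [lamC]
    | insert a S ha ih =>
      rw [Finset.sum_insert ha, Finset.sum_insert ha, ← ih]
      funext t
      simp only [lamC, Finset.sum_apply, Pi.add_apply, Pi.smul_apply, smul_eq_mul,
        LinearMap.add_apply, Rat.cast_add, mul_add, Finset.sum_add_distrib]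
  exact h2 _

/-- one isomorphism class of maximal ideals -/
theorem main_class {κ : Type} [Fintype κ]
    {Δ : Subgroup (Matrix.SpecialLinearGroup (Fin 2) ℝ)}
    {σ : κ → Matrix.SpecialLinearGroup (Fin 2) ℝ} {l : κ → ℝ} {D : Set ℍ}
    (hs : ∀ j, wt (s j) = wt j ∧ p (s j) = wt j - p j) (hK : ∀ j, |p j| ≤ K)
    (hcurve : US38.IsCurve Δ σ l D) (hv : MW38.VMHS wt p (Q.map (algebraMap ℚ ℝ)) Φ)
    (hh : ∀ z ∈ Hc 0, DelH wt p (Φ z) (PPg wt p s (Φ z)) (h z)) (hha : An (Hc 0) h)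
    (hmon : ∀ δ ∈ Δ, ∃ γ, MonQ wt p Q Φ δ γ ∧ InG (genLie wt p Φ) γ)
    (hadm : ∀ i, AdmG wt p Q Φ (genLie wt p Φ) Δ (σ i)) {n₁ : Submodule ℚ (Matrix ι ι ℚ)}
    (hn₁ : ZL19.MaxI (genLie wt p Φ) (genLie wt p Φ ⊓ Low ℚ wt) n₁)
    (hlev : LevT wt p Φ (genLie wt p Φ) (genLie wt p Φ ⊓ Low ℚ wt) n₁) :
    ∃ S : Set ℍ, S.Finite ∧ ∀ τ : ℍ, (∃ n, ZL19.MaxI (genLie wt p Φ) (genLie wt p Φ ⊓ Low ℚ wt) n ∧
      IsoQ (genLie wt p Φ) (genLie wt p Φ ⊓ Low ℚ wt) n₁ n ∧ mtLie wt p (Φ τ) ⊓ Low ℚ wt ≤ n) →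
      ∃ δ ∈ Δ, δ • τ ∈ S := by
  classical
  have hO := asm_OpD hv hs hK hh hha
  obtain ⟨hlie, htri, hop⟩ := C8_lie hO.gr hO.del hO.anP hO.anh
  obtain ⟨t₀, ht₀, ht₀'⟩ := C8_t0 hO.gr hO.del hO.anP hO.anh
  have hst := stab_u hv hs hK hh hha
  by_cases h1 : ∀ f ∈ EqHom (genLie wt p Φ) (genLie wt p Φ ⊓ Low ℚ wt) n₁,
      ∀ x : ↥(genLie wt p Φ ⊓ Low ℚ wt), (x : Matrix ι ι ℚ) ∈ n₁ → f x = 0
  · -- multiplicity one
    have hl1 : lev (genLie wt p Φ) (genLie wt p Φ ⊓ Low ℚ wt) n₁ = 1 := by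
      rw [lev, if_pos h1]
    obtain ⟨Z, hZ, -⟩ := main_S ⟨s, hs⟩ hcurve hv (fun i => adm_of_G htri (hadm i))
      ({n₁} : Finset (Submodule ℚ (Matrix ι ι ℚ))) (by
        intro n hn
        rw [Finset.mem_singleton.1 hn]
        exact hn₁) (by
        intro δ hδ
        obtain ⟨γ, hγ, hG⟩ := hmon δ hδ
        refine ⟨γ, hγ, fun n hn => ?_⟩
        rw [Finset.mem_singleton.1 hn, map_cjg_of_InG hγ.1 hG hn₁.stb]
        exact Finset.mem_singleton_self _) (by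
        intro n hn t ht τ
        rw [Finset.mem_singleton.1 hn]
        refine hlev t ?_ ?_ τ <;> rw [hl1] <;> rcases ht with rfl | rfl | rfl <;> norm_num)
    refine ⟨Z, Z.finite_toSet, ?_⟩
    rintro τ ⟨n, hn, hiso, hle⟩
    have hnn : n = n₁ := eq_of_mult_one hn₁ hn hiso h1
    exact hZ τ ⟨n₁, Finset.mem_singleton_self _, hnn ▸ hle⟩
  · -- several classes
    have hl1 : lev (genLie wt p Φ) (genLie wt p Φ ⊓ Low ℚ wt) n₁ =
        Module.finrank ℚ (EqHom (genLie wt p Φ) (genLie wt p Φ ⊓ Low ℚ wt) n₁) := by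
      rw [lev, if_neg h1]
    obtain ⟨d⟩ := exists_dat hv hs hK hh hha hn₁
    obtain ⟨s', lb, hB⟩ := exists_ITB hst d.wd hn₁.le hn₁.ne
    have hle := hB.le_homN hst d.wd
    have hX := xd_main hv hs hK hh hha hn₁ ht₀ ht₀' d hB (L := lev (genLie wt p Φ)
      (genLie wt p Φ ⊓ Low ℚ wt) n₁) (hl1 ▸ hle) hlev
    have hinv : InvX Δ ((QWf wt Q d.j).map (algebraMap ℚ ℝ))
        (DD K (fun z => PPg wt p s (Φ z)) h d.rho) (fun b => ee wt h t₀ (lb b)) := by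
      intro δ hδ
      obtain ⟨γ, hγ, hG⟩ := hmon δ hδ
      obtain ⟨T, hT, hTγ⟩ := id hG
      obtain ⟨G, hG'⟩ := exists_G (rho := d.rho) hst hT
      obtain ⟨e1, e2⟩ := inv_b hv hs hK hh hha hn₁ ht₀ ht₀' d hB hγ
        (map_cjg_of_InG hγ.1 hG hn₁.stb) (G := G) (fun f hf x hx => by
          have := hG' f hf x hx
          rwa [hTγ x] at this)
      exact ⟨_, _, e1, e2⟩
    have hgr : GrX σ (fun b => ee wt h t₀ (lb b)) := fun b i M =>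
      ee_growth hv hs hK (adm_of_G htri (hadm i)) hh (lb b) t₀ M
    obtain ⟨S, hS, hS'⟩ := xa_main hcurve hB.one hX hinv hgr
      (fun i => cusp_X hv hs hK hh hha hn₁ ht₀ ht₀' d hB hX (hadm i))
    refine ⟨S, hS, ?_⟩
    rintro τ ⟨n, hn, hiso, hτ⟩
    obtain ⟨t, ht, ht', hmem⟩ := asm_t hO.gr hO.del hO.anP hO.anh hτ
    obtain ⟨g, hg, hng⟩ := it_of_iso d.wd hn₁.le hn.le hiso
    obtain ⟨c, hc⟩ := hB.span g hg
    -- the combination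
    set f : Matrix ι ι ℚ →ₗ[ℚ] (Fin d.r → ℚ) := ∑ b, c b • lb b with hf
    have hfx : ∀ x, f x = ∑ b, c b • lb b x := by
      intro x
      rw [hf, LinearMap.sum_apply]
      rfl
    have hfit : IT (genLie wt p Φ) (genLie wt p Φ ⊓ Low ℚ wt) d.rho f := by
      intro A hA x hx
      rw [hfx, hfx, Matrix.mulVec_sum]
      refine Finset.sum_congr rfl fun b _ => ?_
      rw [hB.it b A hA x hx, Matrix.mulVec_smul]
    have hnf : n = genLie wt p Φ ⊓ Low ℚ wt ⊓ LinearMap.ker f := by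
      rw [hng]
      ext x
      simp only [Submodule.mem_inf, LinearMap.mem_ker]
      constructor
      · rintro ⟨hx, hx0⟩
        refine ⟨hx, ?_⟩
        rw [hfx, ← hc x hx, hx0]
      · rintro ⟨hx, hx0⟩
        refine ⟨hx, ?_⟩
        rw [hc x hx, ← hfx, hx0]
    have hf0 : ∃ x ∈ genLie wt p Φ ⊓ Low ℚ wt, f x ≠ 0 := by
      by_contra hcon
      push Not at hcon
      apply hn.ne
      rw [hnf]
      exact inf_eq_left.2 fun x hx => hcon x hx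
    obtain ⟨hQ, hM⟩ := qud_b hv hs hK hh hha hn₁ ht₀ ht₀' d hfit hf0
    rw [← hnf] at hQ hM
    have hee : ∀ z, ee wt h t₀ f z = ∑ b, (c b : ℂ) • ee wt h t₀ (lb b) z :=
      fun z => lamC_comb c lb _
    have hval := asm_val hn.le hQ hmem
    let u : Fin d.r ⊕ Fin s' → ℝ :=
      Sum.elim (fun i => -((f (t - t₀) i : ℚ) : ℝ)) (fun b => ((c b : ℚ) : ℝ))
    have hvv : ∀ z, vv (fun b => ee wt h t₀ (lb b)) (rv u).1 (rv u).2 z =
        ee wt h t₀ f z - SP38.ofR fun i => ((f (t - t₀) i : ℚ) : ℝ) := by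
      intro z
      rw [vv, hee]
      funext i
      simp [rv, u, SP38.ofR]
      ring
    rcases hS' τ u ⟨fun h0 => absurd h0 (lt_irrefl _), fun a _ => by
      rw [hvv, hval, sub_self, Matrix.mulVec_zero]⟩ with hall | hδ
    · exfalso
      refine asm_flat hv hs hK hh hha d.jd.neg hn hQ ht ht' hmem
        ⟨fun i => ((f (t - t₀) i : ℚ) : ℝ), fun z hz a ha => ?_⟩
      have := (hall z hz).2 a ha
      rwa [hvv] at this
    · exact hδ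

/-- **The theorem on all multiplicities.** -/
theorem main_all {κ : Type} [Fintype κ]
    {Δ : Subgroup (Matrix.SpecialLinearGroup (Fin 2) ℝ)}
    {σ : κ → Matrix.SpecialLinearGroup (Fin 2) ℝ} {l : κ → ℝ} {D : Set ℍ}
    (hsymm : ∃ s : Equiv.Perm ι, ∀ j, wt (s j) = wt j ∧ p (s j) = wt j - p j)
    (hcurve : US38.IsCurve Δ σ l D) (hv : MW38.VMHS wt p (Q.map (algebraMap ℚ ℝ)) Φ)
    (hmon : ∀ δ ∈ Δ, ∃ γ, MonQ wt p Q Φ δ γ ∧ InG (genLie wt p Φ) γ)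
    (hadm : ∀ i, AdmG wt p Q Φ (genLie wt p Φ) Δ (σ i)) :
    ∃ S : Set ℍ, S.Finite ∧
      (∀ (n : Submodule ℚ (Matrix ι ι ℚ)) (τ : ℍ),
        MaxSt (genLie wt p Φ) (genLie wt p Φ ⊓ Low ℚ wt) n →
        LevT wt p Φ (genLie wt p Φ) (genLie wt p Φ ⊓ Low ℚ wt) n →
        mtLie wt p (Φ τ) ⊓ Low ℚ wt ≤ n → ∃ δ ∈ Δ, δ • τ ∈ S) ∧
      ((∀ n, MaxSt (genLie wt p Φ) (genLie wt p Φ ⊓ Low ℚ wt) n →
          LevT wt p Φ (genLie wt p Φ) (genLie wt p Φ ⊓ Low ℚ wt) n) →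
        ∀ τ ∈ hodgeLocus wt p Φ, τ ∉ hodgeLocus wt p (fun z => dg wt (Φ z)) →
          ∃ δ ∈ Δ, δ • τ ∈ S) := by
  classical
  obtain ⟨s, hs⟩ := hsymm
  obtain ⟨K, hK⟩ : ∃ K : ℕ, ∀ j, |p j| ≤ K := by
    refine ⟨∑ j, (p j).natAbs, fun j => ?_⟩
    have h1 : (p j).natAbs ≤ ∑ j, (p j).natAbs :=
      Finset.single_le_sum (f := fun j => (p j).natAbs) (fun _ _ => Nat.zero_le _)
        (Finset.mem_univ j)
    have h2 : ((p j).natAbs : ℤ) ≤ ((∑ j, (p j).natAbs : ℕ) : ℤ) := by exact_mod_cast h1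
    rwa [Int.natCast_natAbs] at h2
  obtain ⟨h, hha, hh⟩ := vmhs_h hv hs hK
  replace hh : ∀ z ∈ Hc 0, DelH wt p (Φ z) (PPg wt p s (Φ z)) (h z) := fun z hz => hh z hz
  have hO := asm_OpD hv hs hK hh hha
  have hst := stab_u hv hs hK hh hha
  obtain ⟨T, hT, hT'⟩ := exists_reps hst
    (LevT wt p Φ (genLie wt p Φ) (genLie wt p Φ ⊓ Low ℚ wt))
  have hcl : ∀ n₁ : {n // n ∈ T}, ∃ S : Set ℍ, S.Finite ∧ ∀ τ : ℍ,
      (∃ n, ZL19.MaxI (genLie wt p Φ) (genLie wt p Φ ⊓ Low ℚ wt) n ∧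
        IsoQ (genLie wt p Φ) (genLie wt p Φ ⊓ Low ℚ wt) n₁.1 n ∧
        mtLie wt p (Φ τ) ⊓ Low ℚ wt ≤ n) → ∃ δ ∈ Δ, δ • τ ∈ S := fun n₁ =>
    main_class hs hK hcurve hv hh hha hmon hadm (hT _ n₁.2).1 (hT _ n₁.2).2
  choose S hS hS' using hcl
  have key : ∀ (n : Submodule ℚ (Matrix ι ι ℚ)) (τ : ℍ),
      ZL19.MaxI (genLie wt p Φ) (genLie wt p Φ ⊓ Low ℚ wt) n →
      LevT wt p Φ (genLie wt p Φ) (genLie wt p Φ ⊓ Low ℚ wt) n →
      mtLie wt p (Φ τ) ⊓ Low ℚ wt ≤ n → ∃ δ ∈ Δ, δ • τ ∈ ⋃ n₁, S n₁ := by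
    intro n τ hn hl hle
    obtain ⟨n₁, hn₁, hiso⟩ := hT' n hn hl
    obtain ⟨δ, hδ, hδ'⟩ := hS' ⟨n₁, hn₁⟩ τ ⟨n, hn, hiso, hle⟩
    exact ⟨δ, hδ, Set.mem_iUnion.2 ⟨_, hδ'⟩⟩
  refine ⟨⋃ n₁, S n₁, Set.finite_iUnion hS, ?_, ?_⟩
  · intro n τ hn hl hle
    exact key n τ (asm_maxI.1 hn) hl hle
  · intro hall τ h1 h2
    obtain ⟨n, hn, hle⟩ := asm_hl hO.gr hO.del hO.anP hO.anh h1 h2
    exact key n τ hn (hall n (asm_maxI.2 hn)) hle

end YA38
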