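import Pool.Agent.LibYA38.YDef
import Pool.Agent.LibZE25.Y10
import Pool.Agent.LibZW67.ExtE

/-!
Subharmonicity of log |x|² for the lowest component of a section which is holomorphic modulo F^0.

PLAN. Variant of `rho_hol` in LibZE25/Y10 (PROVED: copy the file and adapt): there DVb v = 0, here only P_l (DVb v) = 0 for l < 0, and a < 0. Write g = DVb v.
(1) Y10_D2: DVb (P_a v) = (θ̄ P_a - P_a θ̄) v + P_a g, P_a g = 0: same. (2) Y10_D1: unchanged. (3) Y10_D2Y: DVb (P_a (u - θ v)) gets the extra terms P_a (DVb u - θ g) with DVb u =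
DV g (DV_DVb in LibZW67/ExtE; u = DV v): P_a (DV g - θ g) = 0 for a < 0, by differentiating P_a g = 0: 0 = DV (P_a g) = (θ P_a - P_a θ) g + P_a DV g, so P_a (DV g
- θ g) = - θ P_a g = 0 (`DV_mulVec`, h.der; see P_DV_of_zero in LibZW67/ExtE). The rest of the proof of rho_hol is the same.
-/

open Matrix Complex Filter Topology
open scoped ComplexOrder ContDiff
open UpperHalfPlane hiding I

namespace YA38

open SP38 US38 ZW67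

theorem P1_D2 {m : ℕ} {w : ℤ} {K : ℕ} {Q : Matrix (Fin m) (Fin m) ℝ} {Ω : Set ℂ}
    {P : ℂ → ℤ → Matrix (Fin m) (Fin m) ℂ} {θ : ℂ → Matrix (Fin m) (Fin m) ℂ}
    {v : ℂ → Fin m → ℂ} {z : ℂ} (hΩ : IsOpen Ω) (h : PV w K Q Ω P θ) (hv : SmV Ω v)
    {a : ℤ} (ha : a < 0) (hDb : ∀ z ∈ Ω, ∀ l : ℤ, l < 0 → P z l *ᵥ DVb v z = 0)
    (h1 : ∀ z ∈ Ω, P z (a - 1) *ᵥ v z = 0) (hz : z ∈ Ω) :
    D2 θ (fun z => P z a *ᵥ v z) z = 0 := by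
  have e1 := DVb_mulVec hΩ hz (h.sm a) hv
  have e2 := h.degB hz (a - 1)
  rw [sub_add_cancel] at e2
  have e3 : P z a *ᵥ ((θ z).map (starRingEnd ℂ) *ᵥ v z) = 0 := by
    rw [Matrix.mulVec_mulVec, ← e2, ← Matrix.mulVec_mulVec, h1 z hz, Matrix.mulVec_zero]
  unfold D2 tb
  rw [e1, h.derB hΩ hz a, hDb z hz a ha, add_zero, Matrix.sub_mulVec,
    ← Matrix.mulVec_mulVec, ← Matrix.mulVec_mulVec, e3, sub_zero, sub_self]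

theorem P1_key {m : ℕ} {w : ℤ} {K : ℕ} {Q : Matrix (Fin m) (Fin m) ℝ} {Ω : Set ℂ}
    {P : ℂ → ℤ → Matrix (Fin m) (Fin m) ℂ} {θ : ℂ → Matrix (Fin m) (Fin m) ℂ}
    {v u : ℂ → Fin m → ℂ} {z : ℂ} (hΩ : IsOpen Ω) (h : PV w K Q Ω P θ) (hv : SmV Ω v)
    (hD : ∀ z ∈ Ω, DV v z = u z) {a : ℤ} (ha : a < 0)
    (hDb : ∀ z ∈ Ω, ∀ l : ℤ, l < 0 → P z l *ᵥ DVb v z = 0) (hz : z ∈ Ω) :
    P z a *ᵥ DVb u z = P z a *ᵥ (θ z *ᵥ DVb v z) := by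
  have hg : SmV Ω (DVb v) := ZW67.SmV.DVb hΩ hv
  have e1 : DVb u z = DVb (DV v) z :=
    ZW67.DVb_congr (Filter.eventually_of_mem (hΩ.mem_nhds hz) fun x hx => (hD x hx).symm)
  have h2 := ZW67.P_DV_of_zero hΩ h hg (a := a) (fun z hz => hDb z hz a ha) hz
  have e6 := h.deg z hz (a + 1)
  rw [add_sub_cancel_right] at e6
  rw [e1, ← ZW67.DV_DVb hΩ hz hv, h2, Matrix.mulVec_mulVec, e6, ← Matrix.mulVec_mulVec]

theorem P1_D2Y {m : ℕ} {w : ℤ} {K : ℕ} {Q : Matrix (Fin m) (Fin m) ℝ} {Ω : Set ℂ}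
    {P : ℂ → ℤ → Matrix (Fin m) (Fin m) ℂ} {θ : ℂ → Matrix (Fin m) (Fin m) ℂ}
    {v u : ℂ → Fin m → ℂ} {z : ℂ} (hΩ : IsOpen Ω) (h : PV w K Q Ω P θ) (hv : SmV Ω v)
    (hu : SmV Ω u) (hD : ∀ z ∈ Ω, DV v z = u z) {a : ℤ} (ha : a < 0)
    (hDb : ∀ z ∈ Ω, ∀ l : ℤ, l < 0 → P z l *ᵥ DVb v z = 0)
    (h2 : ∀ z ∈ Ω, P z (a - 1) *ᵥ u z = 0) (hz : z ∈ Ω) :
    D2 θ (fun z => P z a *ᵥ (u z - θ z *ᵥ v z)) z =
      θ z *ᵥ (tb θ z *ᵥ (P z a *ᵥ v z)) := by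
  have hs : SmV Ω (fun z => u z - θ z *ᵥ v z) := hu.sub (SmV.mulVec h.smθ hv)
  have e1 := DVb_mulVec hΩ hz (h.sm a) hs
  have e2 := DVb_sub hΩ hz hu (SmV.mulVec h.smθ hv)
  have e3 := DVb_mulVec hΩ hz h.smθ hv
  have ek := P1_key hΩ h hv hD ha hDb hz
  rw [h.DB_θ hΩ hz] at e3
  rw [e3] at e2
  rw [e2, h.derB hΩ hz a] at e1
  have e4 := h.degB hz (a - 1)
  rw [sub_add_cancel] at e4
  have e5 : P z a *ᵥ ((θ z).map (starRingEnd ℂ) *ᵥ u z) = 0 := by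
    rw [Matrix.mulVec_mulVec, ← e4, ← Matrix.mulVec_mulVec, h2 z hz, Matrix.mulVec_zero]
  have e6 := h.deg z hz (a + 1)
  rw [add_sub_cancel_right] at e6
  have e7 := h.degB hz a
  have e8 : P z a *ᵥ (θ z *ᵥ ((θ z).map (starRingEnd ℂ) *ᵥ v z)) =
      θ z *ᵥ ((θ z).map (starRingEnd ℂ) *ᵥ (P z a *ᵥ v z)) := by
    rw [Matrix.mulVec_mulVec, ← e6, ← Matrix.mulVec_mulVec]
    congr 1
    rw [Matrix.mulVec_mulVec, ← e7, ← Matrix.mulVec_mulVec]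
  unfold D2 tb
  rw [e1, ← e8]
  simp only [Matrix.sub_mulVec, Matrix.mulVec_sub, Matrix.mulVec_add, ← Matrix.mulVec_mulVec,
    Matrix.mulVec_neg, e5, ek]
  abel

theorem rho_hol0 {m : ℕ} {w : ℤ} {K : ℕ} {Q : Matrix (Fin m) (Fin m) ℝ} {Ω : Set ℂ}
    {P : ℂ → ℤ → Matrix (Fin m) (Fin m) ℂ} {θ : ℂ → Matrix (Fin m) (Fin m) ℂ}
    {v u : ℂ → Fin m → ℂ} (hΩ : IsOpen Ω) (h : PV w K Q Ω P θ) (hv : SmV Ω v) (hu : SmV Ω u)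
    (hD : ∀ z ∈ Ω, DV v z = u z) {a : ℤ} (ha : a < 0)
    (hDb : ∀ z ∈ Ω, ∀ l : ℤ, l < 0 → P z l *ᵥ DVb v z = 0)
    (h1 : ∀ z ∈ Ω, P z (a - 1) *ᵥ v z = 0) (h2 : ∀ z ∈ Ω, P z (a - 1) *ᵥ u z = 0) {ε : ℝ}
    (hε : 0 < ε) {z : ℂ} (hz : z ∈ Ω) :
    0 ≤ rho (jj (fun z => hm (metr w K Q (P z)) (P z a *ᵥ v z) (P z a *ᵥ v z))
      (fun _ => 0) ε) z := by
  have hd := (h.hd z hz).posDef
  have hX : SmV Ω (fun z => P z a *ᵥ v z) := SmV.mulVec (h.sm a) hv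
  have hY : SmV Ω (fun z => P z a *ᵥ (u z - θ z *ᵥ v z)) :=
    SmV.mulVec (h.sm a) (hu.sub (SmV.mulVec h.smθ hv))
  obtain ⟨N, hN⟩ : ∃ N : ℂ → ℂ, N = fun z => hm (metr w K Q (P z)) (P z a *ᵥ v z)
    (P z a *ᵥ v z) := ⟨_, rfl⟩
  have hNs : SmS Ω N := by
    rw [hN]
    exact SmS_hm hΩ h hX hX
  have hNr : ∀ z ∈ Ω, N z = ((qf (metr w K Q (P z)) (P z a *ᵥ v z) : ℝ) : ℂ) := fun z hz => by
    rw [hN]
    exact hm_self (h.hd z hz).posDef _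
  have hz0 : ∀ z ∈ Ω, ∀ x : Fin m → ℂ, hm (metr w K Q (P z)) x 0 = 0 := fun z _ x => by
    unfold hm
    rw [star_zero, zero_dotProduct]
  have hz0' : ∀ z ∈ Ω, ∀ x : Fin m → ℂ, hm (metr w K Q (P z)) 0 x = 0 := fun z _ x => by
    unfold hm
    rw [Matrix.mulVec_zero, dotProduct_zero]
  have hdz : ∀ z ∈ Ω, dz N z = hm (metr w K Q (P z)) (P z a *ᵥ (u z - θ z *ᵥ v z))
      (P z a *ᵥ v z) := fun z hz => by
    have e1 := dz_hm hΩ h hX hX hz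
    rw [P1_D2 hΩ h hv ha hDb h1 hz, hz0 z hz, add_zero, Pool.Agent.LibZE25.Y10_D1 hΩ h hv hD hz] at e1
    rw [hN]
    exact e1
  have hdzb : dzb N z = hm (metr w K Q (P z)) (P z a *ᵥ v z)
      (P z a *ᵥ (u z - θ z *ᵥ v z)) := by
    have e1 := dzb_hm hΩ h hX hX hz
    rw [P1_D2 hΩ h hv ha hDb h1 hz, hz0' z hz, zero_add, Pool.Agent.LibZE25.Y10_D1 hΩ h hv hD hz] at e1
    rw [hN]
    exact e1
  have hdd : dzb (dz N) z = ((qf (metr w K Q (P z)) (tb θ z *ᵥ (P z a *ᵥ v z)) +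
      qf (metr w K Q (P z)) (P z a *ᵥ (u z - θ z *ᵥ v z)) : ℝ) : ℂ) := by
    have e1 := dzb_hm hΩ h hY hX hz
    rw [P1_D2Y hΩ h hv hu hD ha hDb h2 hz, Pool.Agent.LibZE25.Y10_D1 hΩ h hv hD hz, hm_theta h hz, hm_self hd,
      hm_self hd, ← Complex.ofReal_add] at e1
    rw [← e1]
    exact dzb_congr (Filter.eventually_of_mem (hΩ.mem_nhds hz) fun x hx => hdz x hx)
  have h5 := dzb_jj (T := fun _ => (0 : ℂ)) hΩ hNs (SmS_const 0) (fun z hz => by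
    rw [hNr z hz, Complex.ofReal_im]) (fun z hz => by
    rw [hNr z hz, Complex.ofReal_re]
    exact qf_nonneg (h.hd z hz).posDef _) hε hz
  rw [← hN]
  rw [hdd, hdz z hz, hdzb, hNr z hz, dzb_const, mul_zero, add_zero, add_zero] at h5
  have h6 := norm_hm_le hd (P z a *ᵥ (u z - θ z *ᵥ v z)) (P z a *ᵥ v z)
  have h7 := hm_comm hd (P z a *ᵥ v z) (P z a *ᵥ (u z - θ z *ᵥ v z))
  rw [h7] at h5
  generalize hm (metr w K Q (P z)) (P z a *ᵥ (u z - θ z *ᵥ v z)) (P z a *ᵥ v z) = c at h5 h6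
  have q0 := qf_nonneg hd (tb θ z *ᵥ (P z a *ᵥ v z))
  have r0 := qf_nonneg hd (P z a *ᵥ (u z - θ z *ᵥ v z))
  have n0 := qf_nonneg hd (P z a *ᵥ v z)
  generalize qf (metr w K Q (P z)) (tb θ z *ᵥ (P z a *ᵥ v z)) = q at h5 q0
  generalize qf (metr w K Q (P z)) (P z a *ᵥ (u z - θ z *ᵥ v z)) = r at h5 h6 r0
  generalize qf (metr w K Q (P z)) (P z a *ᵥ v z) = n at h5 h6 n0
  have h8 : dzb (jj N (fun _ => 0) ε) z =
      ((((q + r) / (n + ε) - ‖c‖ ^ 2 / (n + ε) ^ 2) / 2 : ℝ) : ℂ) := by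
    rw [h5]
    have h9 : c / 2 * (starRingEnd ℂ) c = ((‖c‖ ^ 2 / 2 : ℝ) : ℂ) := by
      rw [div_mul_eq_mul_div, Complex.mul_conj, Complex.normSq_eq_norm_sq]
      push_cast
      ring
    rw [h9]
    push_cast
    ring
  rw [rho, h8, Complex.ofReal_re]
  have h10 := Pool.Agent.LibZE25.Y10_real (q := q) (r := r) (N := n) (ε := ε) (t := ‖c‖ ^ 2) hε n0 r0 q0 h6
  linarith

end YA38
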