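import Pool.Agent.LibYA38.P1
import Pool.Agent.LibZW67.Iso

/-!
The potential |P_a (x + ∑ y_b e_b)|².

PLAN. h.gd.pv (isOpen_Hc 0) is a PV with some θ (see GD.pv: its statement names θ). v = vv e x y is SmV (h.sme, constants), DV v = ∑ y_b DV (e b), DVb v = ∑ y_b
DVb (e b): P_l (DVb v) = 0 for l < 0 (h.d0), P_(a-1) (DV v) = 0 since a - 1 < -1 (h.d1), P_(a-1) v = 0 (hm). SmS: SmS_hm, SmV.mulVec. Real and nonnegative: hm_self, qf_nonneg.
Zero: qf positive definite: P_a v = 0; together with hm this is FX (a+1) (0 < a + 1 is false). rho ≥ 0: P1 rho_hol0. Compare N0_props in LibZE25/Y11 and `Mem.NM_zero_iff`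
in LibZW67/Pot.
-/

open Matrix Complex Filter Topology
open UpperHalfPlane hiding I

namespace YA38

open SP38 US38 ZW67

variable {r s : ℕ} {w : ℤ} {K : ℕ} {Q : Matrix (Fin r) (Fin r) ℝ}
  {D : ℂ → Matrix (Fin r) (Fin r) ℂ} {e : Fin s → ℂ → Fin r → ℂ}
  {x : Fin r → ℂ} {y : Fin s → ℂ} {a : ℤ}

/-- the potential -/
noncomputable def NX (w : ℤ) (K : ℕ) (Q : Matrix (Fin r) (Fin r) ℝ)
    (D : ℂ → Matrix (Fin r) (Fin r) ℂ) (e : Fin s → ℂ → Fin r → ℂ) (a : ℤ) (x : Fin r → ℂ)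
    (y : Fin s → ℂ) (z : ℂ) : ℂ :=
  hm (metr w K Q fun l => LP K (D z) l) (LP K (D z) a *ᵥ vv e x y z)
    (LP K (D z) a *ᵥ vv e x y z)

/-- smoothness of the section -/
theorem p2_sm_vv (he : ∀ b, SmV (Hc 0) (e b)) (x : Fin r → ℂ) (y : Fin s → ℂ) :
    SmV (Hc 0) (vv e x y) := by
  intro i
  have h1 : (fun z => vv e x y z i) = fun z => x i + ∑ b, y b * e b z i := by
    funext z
    simp [vv, Finset.sum_apply]
  rw [h1]
  exact ContDiffOn.add contDiffOn_const
    (ContDiffOn.sum fun b _ => ContDiffOn.mul contDiffOn_const (he b i))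

theorem p2_DV_vv (he : ∀ b, SmV (Hc 0) (e b)) (x : Fin r → ℂ) (y : Fin s → ℂ) {z : ℂ}
    (hz : z ∈ Hc 0) : DV (vv e x y) z = ∑ b, y b • DV (e b) z := by
  have hΩ : IsOpen (Hc 0) := isOpen_Hc 0
  funext i
  have h1 : (fun z => vv e x y z i) = fun z => (fun _ => x i) z + ∑ b, y b * e b z i := by
    funext z
    simp [vv, Finset.sum_apply]
  have hd : ∀ b, DifferentiableAt ℝ (fun z => e b z i) z := fun b =>
    (he b i).differentiableAt hΩ hz
  have hd' : ∀ b, DifferentiableAt ℝ (fun z => y b * e b z i) z := fun b =>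
    (differentiableAt_const _).mul (hd b)
  have h2 : DV (vv e x y) z i = dz (fun z => vv e x y z i) z := rfl
  rw [h2, h1, dz_add (differentiableAt_const _)
    (DifferentiableAt.fun_sum fun b _ => hd' b), dz_const, zero_add,
    WirtM_dz_sum Finset.univ (fun b _ => hd' b), Finset.sum_apply]
  refine Finset.sum_congr rfl fun b _ => ?_
  exact WirtM_dz_smul (y b) (hd b)

theorem p2_DVb_vv (he : ∀ b, SmV (Hc 0) (e b)) (x : Fin r → ℂ) (y : Fin s → ℂ) {z : ℂ}
    (hz : z ∈ Hc 0) : DVb (vv e x y) z = ∑ b, y b • DVb (e b) z := by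
  have hΩ : IsOpen (Hc 0) := isOpen_Hc 0
  funext i
  have h1 : (fun z => vv e x y z i) = fun z => (fun _ => x i) z + ∑ b, y b * e b z i := by
    funext z
    simp [vv, Finset.sum_apply]
  have hd : ∀ b, DifferentiableAt ℝ (fun z => e b z i) z := fun b =>
    (he b i).differentiableAt hΩ hz
  have hd' : ∀ b, DifferentiableAt ℝ (fun z => y b * e b z i) z := fun b =>
    (differentiableAt_const _).mul (hd b)
  have h2 : DVb (vv e x y) z i = dzb (fun z => vv e x y z i) z := rfl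
  rw [h2, h1, dzb_add (differentiableAt_const _)
    (DifferentiableAt.fun_sum fun b _ => hd' b), dzb_const, zero_add,
    WirtM_dzb_sum Finset.univ (fun b _ => hd' b), Finset.sum_apply]
  refine Finset.sum_congr rfl fun b _ => ?_
  exact WirtM_dzb_smul (y b) (hd b)

theorem p2_mulVec_sum (A : Matrix (Fin r) (Fin r) ℂ) (y : Fin s → ℂ) (f : Fin s → Fin r → ℂ)
    (h : ∀ b, A *ᵥ f b = 0) : A *ᵥ (∑ b, y b • f b) = 0 := by
  rw [Matrix.mulVec_sum]
  refine Finset.sum_eq_zero fun b _ => ?_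
  rw [Matrix.mulVec_smul, h b, smul_zero]

theorem NX_props (h : XD w K Q D e) (ha : a ≤ -1) (hm' : ∀ z ∈ Hc 0, FX K D e a x y z) :
    SmS (Hc 0) (NX w K Q D e a x y) ∧
    (∀ z ∈ Hc 0, (NX w K Q D e a x y z).im = 0 ∧ 0 ≤ (NX w K Q D e a x y z).re) ∧
    (∀ z ∈ Hc 0, NX w K Q D e a x y z = 0 ↔ FX K D e (a + 1) x y z) ∧
    ∀ ε : ℝ, 0 < ε → ∀ z ∈ Hc 0, 0 ≤ rho (jj (NX w K Q D e a x y) (fun _ => 0) ε) z := by
  have hΩ : IsOpen (Hc 0) := isOpen_Hc 0
  have hθ := h.gd.pv hΩ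
  have hsm : SmV (Hc 0) (vv e x y) := p2_sm_vv h.sme x y
  have hsu : SmV (Hc 0) (DV (vv e x y)) := SmV.DV hΩ hsm
  have hPD := fun z (hz : z ∈ Hc 0) => (hθ.hd z hz).posDef
  have hx : SmV (Hc 0) (fun z => LP K (D z) a *ᵥ vv e x y z) := US38.SmV.mulVec (hθ.sm a) hsm
  refine ⟨?_, ?_, ?_, ?_⟩
  · exact SmS_hm hΩ hθ hx hx
  · intro z hz
    have h1 : NX w K Q D e a x y z =
        (qf (metr w K Q fun l => LP K (D z) l) (LP K (D z) a *ᵥ vv e x y z) : ℂ) :=
      hm_self (hPD z hz) _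
    rw [h1, Complex.ofReal_im, Complex.ofReal_re]
    exact ⟨rfl, qf_nonneg (hPD z hz) _⟩
  · intro z hz
    have h1 : NX w K Q D e a x y z =
        (qf (metr w K Q fun l => LP K (D z) l) (LP K (D z) a *ᵥ vv e x y z) : ℂ) :=
      hm_self (hPD z hz) _
    have h2 : NX w K Q D e a x y z = 0 ↔ LP K (D z) a *ᵥ vv e x y z = 0 := by
      rw [h1, Complex.ofReal_eq_zero]
      constructor
      · intro h
        by_contra hne
        exact absurd h (qf_pos (hPD z hz) hne).ne'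
      · intro h
        rw [h]
        simp [qf]
    rw [h2]
    constructor
    · intro h4
      refine ⟨fun h5 => by omega, fun l hl => ?_⟩
      rcases eq_or_ne l a with h5 | h5
      · rw [h5]; exact h4
      · exact (hm' z hz).2 l (by omega)
    · intro h4
      exact h4.2 a (by omega)
  · intro ε hε z hz
    exact rho_hol0 (w := w) (K := K) (Q := Q) (P := fun z l => LP K (D z) l) (v := vv e x y)
      (u := DV (vv e x y)) (a := a) hΩ hθ hsm hsu (fun z _ => rfl) (by omega)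
      (fun z hz l hl => by
        rw [p2_DVb_vv h.sme x y hz]
        exact p2_mulVec_sum _ _ _ fun b => h.d0 b z hz l hl)
      (fun z hz => (hm' z hz).2 _ (by omega))
      (fun z hz => by
        rw [p2_DV_vv h.sme x y hz]
        exact p2_mulVec_sum _ _ _ fun b => h.d1 b z hz _ (by omega))
      hε hz

end YA38
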