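import Pool.Agent.LibYA38.P2
import Pool.Agent.LibZW67.Pot

/-!
Invariance of the potential.

PLAN. (1) Rigidity: if ofR c ∈ FS K (D z) (1 - s) then c = 0: see Mem.real_zero in LibZW67/Iso (types: P_a ≠ 0 implies a < -s or w - a < -s; for a ≥ 1 - s use P_a (ofR c) = conj of
P_(w-a) (ofR c) = 0 since w - a < -s < 1 - s). (2) Let x₁ = re x, x₂ = im x, y₁, y₂ similarly (real); FX (1-s) for (x, y) and for the conjugate gives FX (1-s) for the
real pairs (half sum, half difference over i). (3) For a real pair (x₁, y₁), δ ∈ Δ with g, β (hinv): vv (mob δ z) = x₁ + ∑ y₁_b (g e_b z + β_b) = g *ᵥ vv z + ofR c, c = x₁ - g x₁ +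
∑ y₁_b β_b; g *ᵥ (vv z) ∈ FS (D (mob δ z)) (1 - s), since LP K (D (mob δ z)) l * cm g = cm g * LP K (D z) l (LP_tr in LibZW67/Pot); so ofR c ∈ FS (1-s), c = 0. Hence vv e x y (mob δ z)
= cm g *ᵥ vv e x y z. (4) NX is invariant: hm_tr (LibZW67/Pot, see trans_mem there) with gᵀ Q g = Q.
-/

open Matrix Complex Filter Topology
open UpperHalfPlane hiding I

namespace YA38

open SP38 US38 ZW67

variable {r s : ℕ} {w : ℤ} {K : ℕ} {Q : Matrix (Fin r) (Fin r) ℝ}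
  {D : ℂ → Matrix (Fin r) (Fin r) ℂ} {e : Fin s → ℂ → Fin r → ℂ}
  {x : Fin r → ℂ} {y : Fin s → ℂ} {a : ℤ}

/-- rigidity -/
private theorem P3_zero (h : XD w K Q D e) {z : ℂ} (hz : z ∈ Hc 0) {c : Fin r → ℂ}
    (h1 : ∀ l : ℤ, l < 1 - s → LP K (D z) l *ᵥ c = 0)
    (h2 : ∀ l : ℤ, l < 1 - s → LP K (D z) l *ᵥ cj c = 0) : c = 0 := by
  have hd : HD w K Q (fun a => LP K (D z) a) := (h.gd.pv (isOpen_Hc 0)).hd z hz
  have h3 : ∀ b : ℤ, LP K (D z) b *ᵥ c = 0 := by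
    intro b
    by_cases hb : b < 1 - s
    · exact h1 b hb
    · by_cases hb' : w - b < 1 - s
      · have h4 := hd.hd1_cj (w - b) (cj c)
        rw [h2 (w - b) hb', sub_sub_cancel, hd1_cj_cj] at h4
        have h5 : cj (0 : Fin r → ℂ) = 0 := by
          funext i
          simp [cj]
        rw [h5] at h4
        exact h4.symm
      · have h4 : LP K (D z) b = 0 := by
          by_contra hne
          rcases h.types z hz b hne with h5 | h5
          · omega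
          · omega
        rw [h4, Matrix.zero_mulVec]
  have h4 : c = ∑ a ∈ Finset.Icc (-(K : ℤ)) K, LP K (D z) a *ᵥ c := by
    rw [← Matrix.sum_mulVec, LP_sum, Matrix.one_mulVec]
  rw [h4]
  exact Finset.sum_eq_zero fun b _ => h3 b

private theorem P3_cj_add (u v : Fin r → ℂ) : cj (u + v) = cj u + cj v := by
  funext i
  simp [cj]

private theorem P3_cj_sub (u v : Fin r → ℂ) : cj (u - v) = cj u - cj v := by
  funext i
  simp [cj]

private theorem P3_cj_mul (g : Matrix (Fin r) (Fin r) ℝ) (v : Fin r → ℂ) :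
    cj (cm g *ᵥ v) = cm g *ᵥ cj v := by
  funext i
  simp only [cj, cm, Matrix.mulVec, dotProduct, Matrix.map_apply, map_sum, map_mul,
    Complex.conj_ofReal]

private theorem P3_cj_sum (y : Fin s → ℂ) (β : Fin s → Fin r → ℝ) :
    cj (∑ b, y b • ofR (β b)) = ∑ b, cj y b • ofR (β b) := by
  funext i
  simp only [cj, ofR, Finset.sum_apply, Pi.smul_apply, smul_eq_mul, map_sum, map_mul,
    Complex.conj_ofReal]

/-- the translation part -/
private theorem P3_vv {g : Matrix (Fin r) (Fin r) ℝ} {β : Fin s → Fin r → ℝ} {z z' : ℂ}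
    (he : ∀ b, e b z' = cm g *ᵥ e b z + ofR (β b)) (x : Fin r → ℂ) (y : Fin s → ℂ) :
    vv e x y z' = cm g *ᵥ vv e x y z + (x - cm g *ᵥ x + ∑ b, y b • ofR (β b)) := by
  unfold vv
  have h1 : ∑ b, y b • e b z' = cm g *ᵥ (∑ b, y b • e b z) + ∑ b, y b • ofR (β b) := by
    rw [Matrix.mulVec_sum, ← Finset.sum_add_distrib]
    refine Finset.sum_congr rfl fun b _ => ?_
    rw [he b, smul_add, Matrix.mulVec_smul]
  rw [h1, Matrix.mulVec_add]
  abel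

private theorem P3_kill {g : Matrix (Fin r) (Fin r) ℝ} {β : Fin s → Fin r → ℝ} {z z' : ℂ}
    (he : ∀ b, e b z' = cm g *ᵥ e b z + ofR (β b)) (hg : D z' * cm g = cm g * D z)
    (h1 : ∀ l : ℤ, l < 1 - s → LP K (D z) l *ᵥ vv e x y z = 0)
    (h2 : ∀ l : ℤ, l < 1 - s → LP K (D z') l *ᵥ vv e x y z' = 0) (l : ℤ) (hl : l < 1 - s) :
    LP K (D z') l *ᵥ (x - cm g *ᵥ x + ∑ b, y b • ofR (β b)) = 0 := by
  have h3 := h2 l hl
  rw [P3_vv he, Matrix.mulVec_add, Matrix.mulVec_mulVec, LP_tr hg l, ← Matrix.mulVec_mulVec,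
    h1 l hl, Matrix.mulVec_zero, zero_add] at h3
  exact h3

theorem vv_mob {Δ : Subgroup (Matrix.SpecialLinearGroup (Fin 2) ℝ)} (h : XD w K Q D e)
    (hinv : InvX Δ Q D e) (h1 : ∀ z ∈ Hc 0, FX K D e (1 - s) x y z)
    (h2 : ∀ z ∈ Hc 0, FX K D e (1 - s) (cj x) (cj y) z) {δ : Matrix.SpecialLinearGroup (Fin 2) ℝ}
    (hδ : δ ∈ Δ) : ∃ g : Matrix (Fin r) (Fin r) ℝ, gᵀ * Q * g = Q ∧ ∀ z ∈ Hc 0,
      D (mob δ z) * cm g = cm g * D z ∧ vv e x y (mob δ z) = cm g *ᵥ vv e x y z := by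
  obtain ⟨g, β, hg, hz⟩ := hinv δ hδ
  refine ⟨g, hg, fun z hz0 => ⟨(hz z hz0).1, ?_⟩⟩
  have hz1 : mob δ z ∈ Hc 0 := mob_mem δ hz0
  have h3 : x - cm g *ᵥ x + ∑ b, y b • ofR (β b) = 0 := by
    refine P3_zero h hz1 (P3_kill (hz z hz0).2 (hz z hz0).1 (h1 z hz0).2 (h1 _ hz1).2) ?_
    rw [P3_cj_add, P3_cj_sub, P3_cj_mul, P3_cj_sum]
    exact P3_kill (hz z hz0).2 (hz z hz0).1 (h2 z hz0).2 (h2 _ hz1).2
  rw [P3_vv (hz z hz0).2, h3, add_zero]

theorem NX_mob {Δ : Subgroup (Matrix.SpecialLinearGroup (Fin 2) ℝ)} (h : XD w K Q D e)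
    (hinv : InvX Δ Q D e) (h1 : ∀ z ∈ Hc 0, FX K D e (1 - s) x y z)
    (h2 : ∀ z ∈ Hc 0, FX K D e (1 - s) (cj x) (cj y) z) {δ : Matrix.SpecialLinearGroup (Fin 2) ℝ}
    (hδ : δ ∈ Δ) {z : ℂ} (hz : z ∈ Hc 0) :
    NX w K Q D e a x y (mob δ z) = NX w K Q D e a x y z := by
  obtain ⟨g, hg, hv⟩ := vv_mob h hinv h1 h2 hδ
  obtain ⟨hD, hvz⟩ := hv z hz
  have hP : ∀ a, LP K (D (mob δ z)) a * cm g = cm g * LP K (D z) a := fun a => LP_tr hD a
  unfold NX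
  rw [hvz, Matrix.mulVec_mulVec, hP, ← Matrix.mulVec_mulVec]
  exact hm_tr hg hP _ _

end YA38
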