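import Pool.Agent.LibYA38.P3
import Pool.Agent.LibZW67.Main

/-!
Growth of the potential at the cusps.

PLAN. As `Mem.growth` and the part `hgr'` of the proof of `zw_main` in LibZW67/Main. (1) on a strip |re ζ| ≤ L: NX = qf (metr) (P_a v), ≤ qf (metr) v (a projector of the
Hodge decomposition does not increase the norm: grow_qf_proj_le with adj of P_a; or sum of orthogonal components), ≤ im^C ‖v‖² (mob_compare for h.gd.pv), ‖v‖ ≤ ‖x‖ + ∑ |y_b| ‖e_b‖ ≤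
C' im^n (hgr). (2) periodicity in re ζ: hc.width i: σ trans(h i) σ⁻¹ ∈ Δ or its negative; mob of the square is mob of σ trans(2 h i) σ⁻¹ (mob of -g is mob of g): NX_mob gives
NX (mob σ (ζ + 2 h i)) = NX (mob σ ζ) (see exists_period in LibZW67/Main, conj_trans_pow, mob_mul, mob_trans); then reduce re ζ to [0, L).
-/

open Matrix Complex Filter Topology
open UpperHalfPlane hiding I

namespace YA38

open SP38 US38 ZW67

variable {r s : ℕ} {w : ℤ} {K : ℕ} {Q : Matrix (Fin r) (Fin r) ℝ}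
  {D : ℂ → Matrix (Fin r) (Fin r) ℂ} {e : Fin s → ℂ → Fin r → ℂ}
  {x : Fin r → ℂ} {y : Fin s → ℂ} {a : ℤ}

theorem P4_vv_bound {σ : Matrix.SpecialLinearGroup (Fin 2) ℝ} (M : ℝ)
    (hgr : ∀ b, ∃ (C : ℝ) (n : ℕ) (Y : ℝ), ∀ ζ : ℂ, |ζ.re| ≤ M → Y ≤ ζ.im →
      ∀ j, ‖e b (mob σ ζ) j‖ ≤ C * ζ.im ^ n) :
    ∃ (C : ℝ) (n : ℕ) (Y : ℝ), ∀ ζ : ℂ, |ζ.re| ≤ M → Y ≤ ζ.im →
      ‖vv e x y (mob σ ζ)‖ ≤ C * ζ.im ^ n := by
  choose C n Y h using hgr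
  refine ⟨‖x‖ + ∑ b, ‖y b‖ * |C b|, ∑ b, n b, 1 + ∑ b, |Y b|, fun ζ hζ hζ' => ?_⟩
  have hy1 : 1 ≤ ζ.im := by
    have : 0 ≤ ∑ b, |Y b| := Finset.sum_nonneg fun b _ => abs_nonneg _
    linarith
  have hb : ∀ b, ‖e b (mob σ ζ)‖ ≤ |C b| * ζ.im ^ (∑ b, n b) := by
    intro b
    have h0 : Y b ≤ ζ.im := by
      have h1 : |Y b| ≤ ∑ b, |Y b| :=
        Finset.single_le_sum (f := fun b => |Y b|) (fun b _ => abs_nonneg _) (Finset.mem_univ b)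
      have h2 := le_abs_self (Y b)
      linarith
    refine (pi_norm_le_iff_of_nonneg (by positivity)).mpr fun j => ?_
    refine (h b ζ hζ h0 j).trans ?_
    have h3 : n b ≤ ∑ b, n b :=
      Finset.single_le_sum (f := fun b => n b) (fun b _ => Nat.zero_le _) (Finset.mem_univ b)
    calc C b * ζ.im ^ n b ≤ |C b| * ζ.im ^ n b :=
          mul_le_mul_of_nonneg_right (le_abs_self _) (by positivity)
      _ ≤ |C b| * ζ.im ^ (∑ b, n b) :=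
          mul_le_mul_of_nonneg_left (pow_le_pow_right₀ hy1 h3) (abs_nonneg _)
  have hp : (1 : ℝ) ≤ ζ.im ^ (∑ b, n b) := one_le_pow₀ hy1
  calc ‖vv e x y (mob σ ζ)‖ ≤ ‖x‖ + ∑ b, ‖y b • e b (mob σ ζ)‖ :=
        (norm_add_le _ _).trans (add_le_add le_rfl (norm_sum_le _ _))
    _ ≤ ‖x‖ * ζ.im ^ (∑ b, n b) + ∑ b, ‖y b‖ * |C b| * ζ.im ^ (∑ b, n b) := by
        refine add_le_add (le_mul_of_one_le_right (norm_nonneg _) hp)
          (Finset.sum_le_sum fun b _ => ?_)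
        rw [norm_smul, mul_assoc]
        exact mul_le_mul_of_nonneg_left (hb b) (norm_nonneg _)
    _ = _ := by rw [← Finset.sum_mul, ← add_mul]

theorem P4_strip (h : XD w K Q D e) (σ : Matrix.SpecialLinearGroup (Fin 2) ℝ) (M : ℝ)
    (hgr : ∀ b, ∃ (C : ℝ) (n : ℕ) (Y : ℝ), ∀ ζ : ℂ, |ζ.re| ≤ M → Y ≤ ζ.im →
      ∀ j, ‖e b (mob σ ζ) j‖ ≤ C * ζ.im ^ n) :
    ∃ (C : ℕ) (Y : ℝ), ∀ ζ : ℂ, |ζ.re| ≤ M → Y ≤ ζ.im →
      (NX w K Q D e a x y (mob σ ζ)).re ≤ ζ.im ^ C := by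
  have hpv := h.gd.pv (isOpen_Hc 0)
  obtain ⟨C1, Y1, hY1, h1⟩ := mob_compare hpv σ M
  obtain ⟨C2, N, Y2, h2⟩ := P4_vv_bound (x := x) (y := y) M hgr
  refine ⟨C1 + (N * 2 + 1), max (max Y1 Y2) (C2 ^ 2), fun ζ hζ hζ' => ?_⟩
  have hζ1 : Y1 ≤ ζ.im := ((le_max_left _ _).trans (le_max_left _ _)).trans hζ'
  have hζ2 : Y2 ≤ ζ.im := ((le_max_right _ _).trans (le_max_left _ _)).trans hζ'
  have hζ3 : C2 ^ 2 ≤ ζ.im := (le_max_right _ _).trans hζ'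
  have hy1 : 1 ≤ ζ.im := hY1.trans hζ1
  have hy0 : 0 < ζ.im := by linarith
  have hz : mob σ ζ ∈ Hc 0 := mob_mem σ hy0
  have hd := hpv.hd _ hz
  have e1 : ‖vv e x y (mob σ ζ)‖ ≤ |C2| * ζ.im ^ N :=
    (h2 ζ hζ hζ2).trans (mul_le_mul_of_nonneg_right (le_abs_self _) (by positivity))
  have hPP : LP K (D (mob σ ζ)) a * LP K (D (mob σ ζ)) a = LP K (D (mob σ ζ)) a := by
    have := hd.mul a a
    rwa [if_pos rfl] at this
  unfold NX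
  rw [hm_self hd.posDef, Complex.ofReal_re]
  calc qf (metr w K Q fun l => LP K (D (mob σ ζ)) l)
        (LP K (D (mob σ ζ)) a *ᵥ vv e x y (mob σ ζ))
      ≤ qf (metr w K Q fun l => LP K (D (mob σ ζ)) l) (vv e x y (mob σ ζ)) :=
        grow_qf_proj_le hd.posDef (hd.adj_P a) hPP _
    _ ≤ ζ.im ^ C1 * ‖vv e x y (mob σ ζ)‖ ^ 2 := (h1 ζ hζ hζ1 _).1
    _ ≤ ζ.im ^ C1 * (|C2| * ζ.im ^ N) ^ 2 := by
        refine mul_le_mul_of_nonneg_left ?_ (by positivity)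
        exact pow_le_pow_left₀ (norm_nonneg _) e1 2
    _ = ζ.im ^ C1 * (ζ.im ^ (N * 2) * C2 ^ 2) := by
        rw [mul_pow, sq_abs, pow_mul]
        ring
    _ ≤ ζ.im ^ C1 * (ζ.im ^ (N * 2) * ζ.im) := by
        refine mul_le_mul_of_nonneg_left ?_ (by positivity)
        exact mul_le_mul_of_nonneg_left hζ3 (by positivity)
    _ = ζ.im ^ (C1 + (N * 2 + 1)) := by rw [← pow_succ, ← pow_add]

theorem NX_growth {κι : Type} [Fintype κι] {Δ : Subgroup (Matrix.SpecialLinearGroup (Fin 2) ℝ)}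
    {σ : κι → Matrix.SpecialLinearGroup (Fin 2) ℝ} {h' : κι → ℝ} {X : Set ℍ}
    (hc : IsCurve Δ σ h' X) (h : XD w K Q D e) (hinv : InvX Δ Q D e) (hgr : GrX σ e)
    (h1 : ∀ z ∈ Hc 0, FX K D e (1 - s) x y z)
    (h2 : ∀ z ∈ Hc 0, FX K D e (1 - s) (cj x) (cj y) z) (i : κι) :
    ∃ (C : ℕ) (Y₀ : ℝ), ∀ ζ : ℂ, 0 < ζ.im → Y₀ ≤ ζ.im →
      (NX w K Q D e a x y (mob (σ i) ζ)).re ≤ ζ.im ^ C := by
  have hinv' : PermInv Δ (fun _ : Unit => NX w K Q D e a x y) (fun _ : Unit => fun _ => 0) := by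
    intro δ hδ
    refine ⟨1, fun n z hz => ⟨NX_mob h hinv h1 h2 hδ hz, ?_⟩⟩
    unfold pb
    rw [zero_mul]
  obtain ⟨L, hL, hper⟩ := exists_period hc hinv' i
  obtain ⟨C, Y, hY⟩ := P4_strip (a := a) (x := x) (y := y) h (σ i) L (fun b => hgr b i L)
  refine ⟨C, Y, fun ζ hζ0 hζ => ?_⟩
  have hp : Function.Periodic
      (fun t : ℝ => NX w K Q D e a x y (mob (σ i) (t + ζ.im * I))) L := by
    intro t
    have h3 := hper () ((t : ℂ) + ζ.im * I) (by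
      show 0 < ((t : ℂ) + ζ.im * I).im
      simpa using hζ0)
    show NX w K Q D e a x y (mob (σ i) (((t + L : ℝ) : ℂ) + ζ.im * I)) =
      NX w K Q D e a x y (mob (σ i) ((t : ℂ) + ζ.im * I))
    rw [← h3]
    congr 2
    push_cast
    ring
  obtain ⟨t, ht, ht'⟩ := hp.exists_mem_Ico₀ hL ζ.re
  simp only [Complex.re_add_im] at ht'
  rw [ht']
  have h4 := hY ((t : ℂ) + ζ.im * I) (by simpa using abs_le.2 ⟨by linarith [ht.1], ht.2.le⟩)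
    (by simpa using hζ)
  simpa using h4

end YA38
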