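import Pool.Agent.LibZQ38.SDef2

/-!
Definitions used in the statement of the theorem on all multiplicities.
-/

open Matrix Complex
open UpperHalfPlane hiding I
open MW38 (Fl Tri blk dg)
open SP38 (Hc)

namespace YA38

open ZQ38

variable {ι : Type} [Fintype ι] [DecidableEq ι]

/-- the commutator with `A`, a linear map on the matrices -/
def adE (A : Matrix ι ι ℚ) : Module.End ℚ (Matrix ι ι ℚ) :=
  LinearMap.mulLeft ℚ A - LinearMap.mulRight ℚ A

/-- the conjugation by `γ` lies in the associative algebra generated by the commutators with the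
elements of `m` -/
def InG (m : Submodule ℚ (Matrix ι ι ℚ)) (γ : Matrix ι ι ℚ) : Prop :=
  ∃ T ∈ Algebra.adjoin ℚ (adE '' (m : Set (Matrix ι ι ℚ))), ∀ x, T x = γ * x * γ⁻¹

/-- Admissibility at the cusp `σ ∞`: after a finite cover (absorbed in `h`) the monodromy is
`exp N`, `N ∈ m` nilpotent, in the coordinate `ζ = τ / h`, `τ ↦ σ τ`, and the Hodge filtration
is `exp (ζ N)` times a filtration which is holomorphic in `q = exp (2 π i ζ)` on a full disc, with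
a frame adapted to the weight filtration. -/
def AdmG (wt p : ι → ℤ) (Q : Matrix ι ι ℚ) (Φ : ℂ → Matrix ι ι ℂ)
    (m : Submodule ℚ (Matrix ι ι ℚ)) (Δ : Subgroup (Matrix.SpecialLinearGroup (Fin 2) ℝ))
    (σ : Matrix.SpecialLinearGroup (Fin 2) ℝ) : Prop :=
  ∃ (h : ℝ) (N : Matrix ι ι ℚ) (Ψ : ℂ → Matrix ι ι ℂ) (ε : ℝ),
    0 < h ∧ σ * SP38.trans h * σ⁻¹ ∈ Δ ∧ 0 < ε ∧ IsNilpotent N ∧ N ∈ m ∧
    MonQ wt p Q Φ (σ * SP38.trans h * σ⁻¹) (IsNilpotent.exp N) ∧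
    (∀ i j, DifferentiableOn ℂ (fun q => Ψ q i j) (Metric.ball 0 ε)) ∧
    (∀ q ∈ Metric.ball (0 : ℂ) ε, IsUnit (Ψ q) ∧ Tri wt (Ψ q)) ∧
    ∀ τ : ℍ, ‖Complex.exp (2 * Real.pi * I * ((τ : ℂ) / h))‖ < ε → ∀ a,
      Fl p (Φ ((σ • τ : ℍ) : ℂ)) a =
        Fl p (IsNilpotent.exp (((τ : ℂ) / h) • N.map (algebraMap ℚ ℂ)) *
          Ψ (Complex.exp (2 * Real.pi * I * ((τ : ℂ) / h)))) a

/-- the `m`-equivariant linear maps `u → u / n` -/
def EqHom (m u n : Submodule ℚ (Matrix ι ι ℚ)) :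
    Submodule ℚ (u →ₗ[ℚ] (Matrix ι ι ℚ ⧸ n)) where
  carrier := {f | ∀ A ∈ m, ∀ x x' : u, (x' : Matrix ι ι ℚ) = A * x - x * A →
    ∃ y ∈ u, f x = n.mkQ y ∧ f x' = n.mkQ (A * y - y * A)}
  add_mem' := by
    intro f g hf hg A hA x x' hx
    obtain ⟨y, hy, h1, h2⟩ := hf A hA x x' hx
    obtain ⟨y', hy', h1', h2'⟩ := hg A hA x x' hx
    refine ⟨y + y', u.add_mem hy hy', ?_, ?_⟩
    · rw [LinearMap.add_apply, h1, h1', map_add]
    · rw [LinearMap.add_apply, h2, h2', ← map_add]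
      congr 1
      rw [mul_add, add_mul]
      abel
  zero_mem' := by
    intro A _ x x' _
    exact ⟨0, u.zero_mem, by simp, by simp⟩
  smul_mem' := by
    intro c f hf A hA x x' hx
    obtain ⟨y, hy, h1, h2⟩ := hf A hA x x' hx
    refine ⟨c • y, u.smul_mem c hy, ?_, ?_⟩
    · rw [LinearMap.smul_apply, h1, map_smul]
    · rw [LinearMap.smul_apply, h2, ← map_smul]
      congr 1
      rw [mul_smul_comm, smul_mul_assoc, smul_sub]

/-- `1` if `u / n` has multiplicity one in `u` (every equivariant map `u → u / n` kills `n`), and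
`dim Hom_m(u, u / n)` otherwise -/
noncomputable def lev (m u n : Submodule ℚ (Matrix ι ι ℚ)) : ℕ :=
  open Classical in
  if ∀ f ∈ EqHom m u n, ∀ x : u, (x : Matrix ι ι ℚ) ∈ n → f x = 0 then 1
  else Module.finrank ℚ (EqHom m u n)

/-- `u / n` has no Hodge type `(a, b)` with `a, b ≥ - lev` -/
def LevT (wt p : ι → ℤ) (Φ : ℂ → Matrix ι ι ℂ) (m u n : Submodule ℚ (Matrix ι ι ℚ)) : Prop :=
  ∀ t : ℤ × ℤ, -(lev m u n : ℤ) ≤ t.1 → -(lev m u n : ℤ) ≤ t.2 → ∀ τ : ℍ,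
    hab wt p (Φ (τ : ℂ)) u t = hab wt p (Φ (τ : ℂ)) n t

end YA38
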